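import Pool.Agent.Work.Monodromy.Interface4
import Mathlib.RingTheory.PowerSeries.Expand

/-!
# Block Q1: algebra of exponential sequences
-/

namespace Pool.Agent.Mono.TS

open MvPolynomial

namespace Q1Aux

theorem denP_nil : denP [] = 1 := by simp [denP]

theorem denP_cons (q : ℕ × ℕ) (l : List (ℕ × ℕ)) :
    denP (q :: l) = (1 - Polynomial.C (xq ^ q.2) * Polynomial.X ^ q.1) * denP l := by
  simp [denP]

theorem denP_append (l l' : List (ℕ × ℕ)) : denP (l ++ l') = denP l * denP l' := by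
  simp [denP, List.map_append, List.prod_append]

theorem coe_denP_append (l l' : List (ℕ × ℕ)) :
    (denP (l ++ l') : PowerSeries K) = (denP l : PowerSeries K) * (denP l' : PowerSeries K) := by
  rw [denP_append, Polynomial.coe_mul]

theorem mem_append {Λ Λ' : Set ℚ} {l l' : List (ℕ × ℕ)}
    (h : ∀ q ∈ l, 1 ≤ q.1 ∧ ((q.2 : ℚ) / (q.1 : ℚ)) ∈ Λ)
    (h' : ∀ q ∈ l', 1 ≤ q.1 ∧ ((q.2 : ℚ) / (q.1 : ℚ)) ∈ Λ') :
    ∀ q ∈ l ++ l', 1 ≤ q.1 ∧ ((q.2 : ℚ) / (q.1 : ℚ)) ∈ Λ ∪ Λ' := by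
  intro q hq
  rcases List.mem_append.1 hq with hq | hq
  · exact ⟨(h q hq).1, Or.inl (h q hq).2⟩
  · exact ⟨(h' q hq).1, Or.inr (h' q hq).2⟩

theorem mono {Λ Λ' : Set ℚ} {κ : ℕ → K} (hΛ : Λ ⊆ Λ') (h : ESeq Λ κ) : ESeq Λ' κ := by
  obtain ⟨l, num, hl, e⟩ := h
  exact ⟨l, num, fun q hq => ⟨(hl q hq).1, hΛ (hl q hq).2⟩, e⟩

theorem add {Λ : Set ℚ} {κ κ' : ℕ → K} (h : ESeq Λ κ) (h' : ESeq Λ κ') :
    ESeq Λ fun m => κ m + κ' m := by
  obtain ⟨l, num, hl, e⟩ := h
  obtain ⟨l', num', hl', e'⟩ := h'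
  refine ⟨l ++ l', num * denP l' + denP l * num', ?_, ?_⟩
  · have := mem_append hl hl'
    simpa [Set.union_self] using this
  · have h1 : (PowerSeries.mk fun m => κ m + κ' m : PowerSeries K) =
        PowerSeries.mk κ + PowerSeries.mk κ' := by
      ext n
      simp
    rw [h1, coe_denP_append, Polynomial.coe_add, Polynomial.coe_mul, Polynomial.coe_mul, ← e, ← e']
    ring

theorem smul {Λ : Set ℚ} {κ : ℕ → K} (c : K) (h : ESeq Λ κ) : ESeq Λ fun m => c * κ m := by
  obtain ⟨l, num, hl, e⟩ := h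
  refine ⟨l, Polynomial.C c * num, hl, ?_⟩
  have h1 : (PowerSeries.mk fun m => c * κ m : PowerSeries K) =
      PowerSeries.C c * PowerSeries.mk κ := by
    ext n
    simp
  rw [h1, Polynomial.coe_mul, Polynomial.coe_C, ← e]
  ring

theorem fin {Λ : Set ℚ} {κ : ℕ → K} (M : ℕ) (h : ∀ m, M ≤ m → κ m = 0) : ESeq Λ κ := by
  refine ⟨[], PowerSeries.trunc M (PowerSeries.mk κ), by simp, ?_⟩
  rw [denP_nil, Polynomial.coe_one, one_mul]
  ext n
  rw [Polynomial.coeff_coe, PowerSeries.coeff_trunc, PowerSeries.coeff_mk]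
  split_ifs with hn
  · rfl
  · exact h n (not_lt.1 hn)

theorem geo {Λ : Set ℚ} (N ν : ℕ) (hN : 1 ≤ N) (hΛ : ((ν : ℚ) / (N : ℚ)) ∈ Λ) :
    ESeq Λ fun m => if N ∣ m then xq ^ (ν * (m / N)) else 0 := by
  refine ⟨[(N, ν)], 1, ?_, ?_⟩
  · intro q hq
    rw [List.mem_singleton] at hq
    subst hq
    exact ⟨hN, hΛ⟩
  · rw [denP_cons, denP_nil, mul_one, Polynomial.coe_one]
    ext n
    rw [Polynomial.coe_sub, Polynomial.coe_one, Polynomial.coe_mul, Polynomial.coe_C,
      Polynomial.coe_pow, Polynomial.coe_X, sub_mul, one_mul, map_sub, mul_assoc,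
      PowerSeries.coeff_C_mul, PowerSeries.coeff_X_pow_mul', PowerSeries.coeff_mk,
      PowerSeries.coeff_one]
    rcases Nat.eq_zero_or_pos n with rfl | hn
    · have : ¬ N ≤ 0 := by omega
      simp [this]
    · rw [if_neg hn.ne']
      by_cases hd : N ∣ n
      · obtain ⟨j, rfl⟩ := hd
        have hj : 1 ≤ j := by
          rcases Nat.eq_zero_or_pos j with rfl | h
          · simp at hn
          · exact h
        have hle : N ≤ N * j := Nat.le_mul_of_pos_right N hj
        have e1 : N * j - N = N * (j - 1) := by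
          rw [Nat.mul_sub, mul_one]
        rw [if_pos (Dvd.intro j rfl), if_pos hle, PowerSeries.coeff_mk, e1,
          if_pos (Dvd.intro _ rfl), Nat.mul_div_cancel_left _ hN, Nat.mul_div_cancel_left _ hN,
          ← pow_add]
        have e2 : ν + ν * (j - 1) = ν * j := by
          obtain ⟨i, rfl⟩ : ∃ i, j = i + 1 := ⟨j - 1, by omega⟩
          rw [Nat.add_sub_cancel]
          ring
        rw [e2, sub_self]
      · rw [if_neg hd, zero_sub, neg_eq_zero]
        split_ifs with hle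
        · rw [PowerSeries.coeff_mk, if_neg, mul_zero]
          intro h
          apply hd
          have := Nat.dvd_add h (dvd_refl N)
          rwa [Nat.sub_add_cancel hle] at this
        · rw [mul_zero]

theorem conv {Λ Λ' : Set ℚ} {κ κ' : ℕ → K} (h : ESeq Λ κ) (h' : ESeq Λ' κ') :
    ESeq (Λ ∪ Λ') fun m => ∑ i ∈ Finset.range (m + 1), κ i * κ' (m - i) := by
  obtain ⟨l, num, hl, e⟩ := h
  obtain ⟨l', num', hl', e'⟩ := h'
  refine ⟨l ++ l', num * num', mem_append hl hl', ?_⟩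
  have h1 : (PowerSeries.mk fun m => ∑ i ∈ Finset.range (m + 1), κ i * κ' (m - i) :
      PowerSeries K) = PowerSeries.mk κ * PowerSeries.mk κ' := by
    ext n
    rw [PowerSeries.coeff_mk, PowerSeries.coeff_mul,
      Finset.Nat.sum_antidiagonal_eq_sum_range_succ
        (fun i j => PowerSeries.coeff i (PowerSeries.mk κ) * PowerSeries.coeff j (PowerSeries.mk κ'))]
    simp
  rw [h1, coe_denP_append, Polynomial.coe_mul, ← e, ← e']
  ring

theorem coe_expand (k : ℕ) (hk : k ≠ 0) (p : Polynomial K) :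
    ((Polynomial.expand K k p : Polynomial K) : PowerSeries K) =
      PowerSeries.expand k hk (p : PowerSeries K) := by
  ext n
  rw [Polynomial.coeff_coe, Polynomial.coeff_expand (Nat.pos_of_ne_zero hk)]
  split_ifs with hd
  · obtain ⟨j, rfl⟩ := hd
    rw [PowerSeries.coeff_expand_mul, Polynomial.coeff_coe,
      Nat.mul_div_cancel_left _ (Nat.pos_of_ne_zero hk)]
  · rw [PowerSeries.coeff_expand_of_not_dvd _ _ _ hd]

theorem expand_denP (k : ℕ) (l : List (ℕ × ℕ)) :
    Polynomial.expand K k (denP l) = denP (l.map fun q => (k * q.1, q.2)) := by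
  induction l with
  | nil => simp [denP_nil]
  | cons q l ih =>
    have h1 : Polynomial.expand K k (Polynomial.X ^ q.1) = Polynomial.X ^ (k * q.1) := by
      rw [map_pow, Polynomial.expand_X, ← pow_mul]
    rw [List.map_cons, denP_cons, denP_cons, map_mul, ih, map_sub, map_one, map_mul,
      Polynomial.expand_C, h1]

theorem expand_mk (k : ℕ) (hk : k ≠ 0) (κ : ℕ → K) :
    PowerSeries.expand k hk (PowerSeries.mk κ) =
      PowerSeries.mk fun m => if k ∣ m then κ (m / k) else 0 := by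
  ext n
  rw [PowerSeries.coeff_mk]
  split_ifs with hd
  · obtain ⟨j, rfl⟩ := hd
    rw [PowerSeries.coeff_expand_mul, PowerSeries.coeff_mk,
      Nat.mul_div_cancel_left _ (Nat.pos_of_ne_zero hk)]
  · rw [PowerSeries.coeff_expand_of_not_dvd _ _ _ hd]

theorem scale {Λ : Set ℚ} {κ : ℕ → K} (k : ℕ) (hk : 1 ≤ k) (h : ESeq Λ κ) :
    ESeq {r | (k : ℚ) * r ∈ Λ} (fun m => if k ∣ m then κ (m / k) else 0) := by
  have hk0 : k ≠ 0 := by omega
  obtain ⟨l, num, hl, e⟩ := h
  refine ⟨l.map fun q => (k * q.1, q.2), Polynomial.expand K k num, ?_, ?_⟩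
  · intro q hq
    obtain ⟨q', hq', rfl⟩ := List.mem_map.1 hq
    obtain ⟨h1, h2⟩ := hl q' hq'
    refine ⟨Nat.mul_pos hk h1, ?_⟩
    show (k : ℚ) * ((q'.2 : ℚ) / ((k * q'.1 : ℕ) : ℚ)) ∈ Λ
    have hk' : (k : ℚ) ≠ 0 := Nat.cast_ne_zero.2 hk0
    have hq0 : (q'.1 : ℚ) ≠ 0 := Nat.cast_ne_zero.2 (by omega)
    have : (k : ℚ) * ((q'.2 : ℚ) / ((k * q'.1 : ℕ) : ℚ)) = (q'.2 : ℚ) / (q'.1 : ℚ) := by
      push_cast
      field_simp
    rw [this]
    exact h2
  · rw [← expand_denP, coe_expand k hk0, coe_expand k hk0, ← expand_mk k hk0, ← map_mul, e]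

theorem floor {Λ : Set ℚ} {κ : ℕ → K} (k : ℕ) (hk : 1 ≤ k) (h : ESeq Λ κ) :
    ESeq {r | (k : ℚ) * r ∈ Λ} fun m => κ (m / k) := by
  obtain ⟨l, num, hl, e⟩ := scale k hk h
  refine ⟨l, num * ∑ i ∈ Finset.range k, Polynomial.X ^ i, hl, ?_⟩
  have h1 : (PowerSeries.mk fun m => κ (m / k) : PowerSeries K) =
      (PowerSeries.mk fun m => if k ∣ m then κ (m / k) else 0) *
        ((∑ i ∈ Finset.range k, Polynomial.X ^ i : Polynomial K) : PowerSeries K) := by
    ext n
    have h2 : ((∑ i ∈ Finset.range k, Polynomial.X ^ i : Polynomial K) : PowerSeries K) =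
        ∑ i ∈ Finset.range k, (PowerSeries.X : PowerSeries K) ^ i := by
      rw [← Polynomial.coeToPowerSeries.ringHom_apply, map_sum]
      refine Finset.sum_congr rfl fun i _ => ?_
      rw [map_pow, Polynomial.coeToPowerSeries.ringHom_apply, Polynomial.coe_X]
    rw [h2, Finset.mul_sum, map_sum, PowerSeries.coeff_mk]
    rw [Finset.sum_eq_single (n % k)]
    · have hmod : n % k ≤ n := Nat.mod_le _ _
      rw [PowerSeries.coeff_mul_X_pow', if_pos hmod, PowerSeries.coeff_mk, if_pos (Nat.dvd_sub_mod n)]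
      congr 1
      have e3 : n - n % k = k * (n / k) := by
        have := Nat.div_add_mod n k
        omega
      rw [e3, Nat.mul_div_cancel_left _ hk]
    · intro i hi hne
      rw [Finset.mem_range] at hi
      rw [PowerSeries.coeff_mul_X_pow']
      split_ifs with hle
      · rw [PowerSeries.coeff_mk, if_neg]
        intro hd
        apply hne
        have : (n - i) % k = 0 := Nat.mod_eq_zero_of_dvd hd
        obtain ⟨j, hj⟩ := hd
        have e4 : n = i + k * j := by omega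
        rw [e4, Nat.add_mul_mod_self_left, Nat.mod_eq_of_lt hi]
      · rfl
    · intro hn
      exact absurd (Finset.mem_range.2 (Nat.mod_lt n hk)) hn
  rw [h1, Polynomial.coe_mul, ← e]
  ring

end Q1Aux

theorem stmt_Q1 : Stmt_Q1 :=
  ⟨fun _ _ _ h h' => Q1Aux.mono h h', fun _ _ _ h h' => Q1Aux.add h h',
    fun _ _ c h => Q1Aux.smul c h, fun _ _ M h => Q1Aux.fin M h,
    fun _ N ν hN h => Q1Aux.geo N ν hN h, fun _ _ _ _ h h' => Q1Aux.conv h h',
    fun _ _ k hk h => ⟨Q1Aux.scale k hk h, Q1Aux.floor k hk h⟩⟩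

end Pool.Agent.Mono.TS
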