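import Pool.Agent.Work.Monodromy4.Q1
import Pool.Agent.Work.Monodromy.Spec

/-!
# Block Q5: the poles of the limit are the negatives of the exponents
-/

set_option autoImplicit false

namespace Pool.Agent.Mono.TS

open Polynomial

namespace Q5Aux

/-! ### functions of a natural number given by polynomials -/

/-- `s ↦ f s` is given by a polynomial -/
def IsPoly (f : ℕ → ℚ) : Prop := ∃ p : Polynomial ℚ, ∀ s : ℕ, f s = p.eval (s : ℚ)

theorem IsPoly.add {f g : ℕ → ℚ} (hf : IsPoly f) (hg : IsPoly g) :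
    IsPoly fun s => f s + g s := by
  obtain ⟨p, hp⟩ := hf
  obtain ⟨q, hq⟩ := hg
  exact ⟨p + q, fun s => by simp only [eval_add, hp, hq]⟩

theorem IsPoly.zero : IsPoly fun _ => 0 := ⟨0, fun s => by simp⟩

theorem IsPoly.smul {f : ℕ → ℚ} (c : ℚ) (hf : IsPoly f) : IsPoly fun s => c * f s := by
  obtain ⟨p, hp⟩ := hf
  exact ⟨C c * p, fun s => by simp only [eval_mul, eval_C, hp]⟩

theorem IsPoly.sum {α : Type*} (F : Finset α) (f : α → ℕ → ℚ) (h : ∀ a ∈ F, IsPoly (f a)) :
    IsPoly fun s => ∑ a ∈ F, f a s := by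
  classical
  induction F using Finset.induction_on with
  | empty => simpa using IsPoly.zero
  | insert a F ha ih =>
    have h1 := (h a (Finset.mem_insert_self a F)).add
      (ih fun b hb => h b (Finset.mem_insert_of_mem hb))
    simpa only [Finset.sum_insert ha] using h1

theorem isPoly_choose (c k : ℕ) : IsPoly fun s => ((c * s).choose k : ℚ) := by
  refine ⟨C ((k.factorial : ℚ)⁻¹) * (descPochhammer ℚ k).comp (C (c : ℚ) * X), fun s => ?_⟩
  have h1 : ((k.factorial : ℕ) : ℚ) ≠ 0 := by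
    exact_mod_cast Nat.factorial_ne_zero k
  rw [eval_mul, eval_C, eval_comp, eval_mul, eval_C, eval_X]
  have h2 : (descPochhammer ℚ k).eval ((c * s : ℕ) : ℚ) = ((c * s).descFactorial k : ℚ) :=
    descPochhammer_eval_eq_descFactorial ℚ (c * s) k
  have h3 : ((c * s).descFactorial k : ℚ) = (k.factorial : ℚ) * ((c * s).choose k : ℚ) := by
    rw [Nat.descFactorial_eq_factorial_mul_choose]
    push_cast
    ring
  push_cast at h2
  rw [h2, h3, ← mul_assoc, inv_mul_cancel₀ h1, one_mul]

theorem isPoly_taylor (b : Polynomial ℚ) (c k : ℕ) :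
    IsPoly fun s => (taylor 1 (b * X ^ (c * s))).coeff k := by
  have h1 : ∀ s, (taylor 1 (b * X ^ (c * s))).coeff k =
      ∑ p ∈ Finset.HasAntidiagonal.antidiagonal k,
        (taylor 1 b).coeff p.1 * ((c * s).choose p.2 : ℚ) := by
    intro s
    rw [taylor_mul, coeff_mul]
    refine Finset.sum_congr rfl fun p _ => ?_
    rw [taylor_X_pow, C_1, coeff_X_add_one_pow]
  simp only [h1]
  exact IsPoly.sum _ _ fun p _ => (isPoly_choose c p.2).smul _

/-! ### Taylor coefficients and limits -/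

theorem taylor_limit (N : Polynomial ℚ) (k : ℕ) (h : RatFunc ℚ) (w : ℚ) (hw : LimOne h w)
    (he : (RatFunc.X - 1) ^ k * h = algebraMap (Polynomial ℚ) (RatFunc ℚ) N) :
    (taylor 1 N).coeff k = w := by
  have hd : algebraMap (Polynomial ℚ) (RatFunc ℚ) h.denom ≠ 0 := by
    simp [RatFunc.denom_ne_zero]
  have h1 : (X - 1) ^ k * h.num = N * h.denom := by
    apply RatFunc.algebraMap_injective ℚ
    rw [map_mul, map_mul, map_pow, map_sub, map_one, RatFunc.algebraMap_X, ← he]
    have h2 := RatFunc.num_div_denom h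
    rw [div_eq_iff hd] at h2
    rw [h2]
    ring
  have h2 := congrArg (taylor 1) h1
  rw [taylor_mul, taylor_mul, taylor_pow, map_sub, taylor_X, taylor_one, C_1,
    add_sub_cancel_right] at h2
  obtain ⟨hw1, hw2⟩ := hw
  have h3 : (taylor 1 h.denom).coeff 0 = h.denom.eval 1 := taylor_coeff_zero _ _
  have h4 : ¬ (X : Polynomial ℚ) ∣ taylor 1 h.denom := by
    rw [X_dvd_iff, h3]
    exact hw1
  have h5 : (X : Polynomial ℚ) ^ k ∣ taylor 1 N := by
    refine Polynomial.prime_X.pow_dvd_of_dvd_mul_right k h4 ?_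
    rw [← h2]
    exact dvd_mul_right _ _
  obtain ⟨N', hN'⟩ := h5
  rw [hN', mul_assoc] at h2
  have h6 := mul_left_cancel₀ (pow_ne_zero k (X_ne_zero : (X : Polynomial ℚ) ≠ 0)) h2
  have h7 := congrArg (fun p => coeff p 0) h6
  simp only [mul_coeff_zero, taylor_coeff_zero] at h7
  have h8 : (taylor 1 N).coeff k = N'.coeff 0 := by
    rw [hN']
    have := coeff_X_pow_mul N' k 0
    rwa [zero_add] at this
  rw [h8, ← hw2, RatFunc.eval, eval₂_id, eval₂_id, h7, mul_div_assoc, div_self hw1, mul_one]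

/-- `(1 - u^{-m}) / (u - 1)` -/
noncomputable def Gm (m : ℕ) : RatFunc ℚ :=
  (RatFunc.X : RatFunc ℚ)⁻¹ ^ m * algebraMap (Polynomial ℚ) (RatFunc ℚ)
    (∑ i ∈ Finset.range m, X ^ i)

theorem Gm_mul (m : ℕ) : (RatFunc.X - 1) * Gm m = 1 - xq ^ m := by
  have hX : (RatFunc.X : RatFunc ℚ) ≠ 0 := RatFunc.X_ne_zero
  have hg : (algebraMap (Polynomial ℚ) (RatFunc ℚ))
      (∑ i ∈ Finset.range m, Polynomial.X ^ i) * (RatFunc.X - 1) = RatFunc.X ^ m - 1 := by
    have := geom_sum_mul (Polynomial.X : Polynomial ℚ) m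
    have h2 := congrArg (algebraMap (Polynomial ℚ) (RatFunc ℚ)) this
    rw [map_mul, map_sub, map_sub, map_pow, RatFunc.algebraMap_X, map_one] at h2
    exact h2
  rw [Gm, xq, mul_comm, mul_assoc, hg, mul_sub, mul_one, inv_pow,
    inv_mul_cancel₀ (pow_ne_zero _ hX)]

theorem Gm_lim (m : ℕ) : LimOne (Gm m) m := by
  have h1 := (LimOne.Xinv.pow m).mul (LimOne.algebraMap (∑ i ∈ Finset.range m, X ^ i))
  have h2 : (1 : ℚ) ^ m * (∑ i ∈ Finset.range m, (X : Polynomial ℚ) ^ i).eval 1 = m := by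
    rw [Polynomial.eval_finsetSum]
    simp
  rw [h2] at h1
  exact h1

theorem denP_eval (l : List (ℕ × ℕ)) (s : ℕ) :
    (denP l).eval (xq ^ s) = (RatFunc.X - 1) ^ l.length *
      (l.map fun q => Gm (q.2 + q.1 * s)).prod := by
  induction l with
  | nil => simp [denP]
  | cons q l ih =>
    rw [Q1Aux.denP_cons, eval_mul, ih, List.length_cons, List.map_cons, List.prod_cons, pow_succ]
    have h1 : (1 - C (xq ^ q.2) * X ^ q.1 : Polynomial K).eval (xq ^ s) =
        1 - xq ^ (q.2 + q.1 * s) := by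
      rw [eval_sub, eval_mul, eval_C, eval_pow, eval_X, eval_one, ← pow_mul, ← pow_add,
        mul_comm s]
    rw [h1, ← Gm_mul]
    ring

theorem prod_lim (l : List (ℕ × ℕ)) (s : ℕ) :
    LimOne (l.map fun q => Gm (q.2 + q.1 * s)).prod
      ((l.map linQ).prod.eval (s : ℚ)) := by
  induction l with
  | nil => simpa using LimOne.one
  | cons q l ih =>
    rw [List.map_cons, List.prod_cons, List.map_cons, List.prod_cons, eval_mul]
    have h1 : (linQ q).eval (s : ℚ) = ((q.2 + q.1 * s : ℕ) : ℚ) := by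
      simp [linQ]
    rw [h1]
    exact (Gm_lim _).mul ih

theorem denP_ne (l : List (ℕ × ℕ)) (hl : ∀ q ∈ l, 1 ≤ q.1) (s : ℕ) (hs : 1 ≤ s) :
    (denP l).eval (xq ^ s) ≠ 0 := by
  induction l with
  | nil => simp [denP]
  | cons q l ih =>
    rw [Q1Aux.denP_cons, eval_mul]
    refine mul_ne_zero ?_ (ih fun q' hq' => hl q' (List.mem_cons_of_mem _ hq'))
    have h1 : (1 - C (xq ^ q.2) * X ^ q.1 : Polynomial K).eval (xq ^ s) =
        1 - xq ^ (q.2 + q.1 * s) := by
      rw [eval_sub, eval_mul, eval_C, eval_pow, eval_X, eval_one, ← pow_mul, ← pow_add,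
        mul_comm s]
    rw [h1]
    intro h
    have h2 : 1 ≤ q.1 * s := Nat.mul_pos (hl q List.mem_cons_self) hs
    exact Xinv_pow_ne_one (q.2 + q.1 * s) (by omega) (sub_eq_zero.1 h).symm

/-! ### clearing denominators -/

/-- the numerator at `u^{-s}`, times a power of `u` and a denominator -/
theorem clear (num : Polynomial K) : ∃ (d : Polynomial ℚ) (J : ℕ) (N : ℕ → Polynomial ℚ), d ≠ 0 ∧
    (∀ k, IsPoly fun s => (taylor 1 (N s)).coeff k) ∧
    ∀ s : ℕ, algebraMap (Polynomial ℚ) K (N s) =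
      RatFunc.X ^ (J * s) * algebraMap (Polynomial ℚ) K d * num.eval (xq ^ s) := by
  obtain ⟨d, hd0, hd⟩ := IsLocalization.integerNormalization_spec
    (nonZeroDivisors (Polynomial ℚ)) num
  set NN := IsLocalization.integerNormalization (nonZeroDivisors (Polynomial ℚ)) num with hNN
  set J := NN.natDegree with hJ
  refine ⟨d, J, fun s => ∑ j ∈ Finset.range (J + 1), NN.coeff j * X ^ ((J - j) * s),
    nonZeroDivisors.ne_zero hd0, ?_, ?_⟩
  · intro k
    have h1 : ∀ s, (taylor 1 (∑ j ∈ Finset.range (J + 1), NN.coeff j * X ^ ((J - j) * s))).coeff k =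
        ∑ j ∈ Finset.range (J + 1), (taylor 1 (NN.coeff j * X ^ ((J - j) * s))).coeff k := by
      intro s
      rw [map_sum, finsetSum_coeff]
    simp only [h1]
    exact IsPoly.sum _ _ fun j _ => isPoly_taylor _ _ _
  · intro s
    have hX : (RatFunc.X : RatFunc ℚ) ≠ 0 := RatFunc.X_ne_zero
    have h2 : algebraMap (Polynomial ℚ) K d * num.eval (xq ^ s) =
        (NN.map (algebraMap (Polynomial ℚ) K)).eval (xq ^ s) := by
      rw [hd, eval_smul]
      rw [Algebra.smul_def]
    rw [mul_assoc, h2, eval_eq_sum_range' (n := J + 1) (by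
      have := natDegree_map_le (f := algebraMap (Polynomial ℚ) K) (p := NN)
      omega), Finset.mul_sum, map_sum]
    refine Finset.sum_congr rfl fun j hj => ?_
    have hj' : j < J + 1 := Finset.mem_range.1 hj
    rw [map_mul, map_pow, RatFunc.algebraMap_X, coeff_map]
    have h3 : J * s = (J - j) * s + s * j := by
      have : J = (J - j) + j := by omega
      conv_lhs => rw [this]
      ring
    rw [h3, pow_add, ← pow_mul, xq]
    have h4 : (RatFunc.X : RatFunc ℚ) ^ (s * j) * (RatFunc.X : RatFunc ℚ)⁻¹ ^ (s * j) = 1 := by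
      rw [← mul_pow, mul_inv_cancel₀ hX, one_pow]
    linear_combination (-(algebraMap (Polynomial ℚ) K (NN.coeff j) *
      RatFunc.X ^ ((J - j) * s))) * h4

end Q5Aux

open Q5Aux

theorem stmt_Q5 : Stmt_Q5 := by
  intro Λ κ R hκ hR
  obtain ⟨l, num, hl, hnum⟩ := hκ
  obtain ⟨num', den', h0, h1, h2⟩ := hR
  have hl1 : ∀ q ∈ l, 1 ≤ q.1 := fun q hq => (hl q hq).1
  -- comparison of the two representations
  have key : den' * num = denP l * num' := by
    have : ((den' * num : Polynomial K) : PowerSeries K) =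
        ((denP l * num' : Polynomial K) : PowerSeries K) := by
      push_cast
      rw [← hnum, ← h1]
      ring
    exact_mod_cast this
  obtain ⟨d, J, N, hd, hN1, hN2⟩ := clear num
  obtain ⟨d1, hd1, hd2⟩ := Polynomial.exists_eq_pow_rootMultiplicity_mul_and_not_dvd d hd 1
  set M := rootMultiplicity 1 d with hM
  have hd3 : d1.eval 1 ≠ 0 := by
    intro h
    exact hd2 (dvd_iff_isRoot.2 h)
  obtain ⟨p, hp⟩ := hN1 (M + l.length)
  -- the values
  have hval : ∀ s : ℕ, 1 ≤ s → R.eval (RingHom.id ℚ) (s : ℚ) * (l.map linQ).prod.eval (s : ℚ) *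
      d1.eval 1 = p.eval (s : ℚ) := by
    intro s hs
    obtain ⟨a1, a2, a3⟩ := h2 s
    rw [← hp s]
    symm
    set g : K := num'.eval (xq ^ s) / den'.eval (xq ^ s) with hg
    have a3' : LimOne g (R.eval (RingHom.id ℚ) (s : ℚ)) := a3
    have a1' : den'.eval (xq ^ s) ≠ 0 := a1
    have hgd : g * (denP l).eval (xq ^ s) = num.eval (xq ^ s) := by
      have e := congrArg (Polynomial.eval (xq ^ s)) key
      rw [eval_mul, eval_mul] at e
      rw [hg, div_mul_eq_mul_div, div_eq_iff a1']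
      linear_combination -e
    have hlim := ((a3'.mul (prod_lim l s)).mul (LimOne.algebraMap d1)).mul (LimOne.X.pow (J * s))
    rw [one_pow, mul_one] at hlim
    refine taylor_limit _ _ _ _ hlim ?_
    rw [hN2 s, ← hgd, denP_eval]
    have h3 : algebraMap (Polynomial ℚ) K d = (RatFunc.X - 1) ^ M * algebraMap (Polynomial ℚ) K d1 := by
      conv_lhs => rw [hd1]
      rw [map_mul, map_pow, map_sub, RatFunc.algebraMap_X, C_1, map_one]
    rw [h3, pow_add]
    ring
  have hpoly : R.num * ((l.map linQ).prod * C (d1.eval 1)) = p * R.denom := by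
    apply Polynomial.eq_of_infinite_eval_eq
    apply Set.Infinite.mono (s := Set.range fun s : ℕ => ((s + 1 : ℕ) : ℚ))
    · rintro _ ⟨s, rfl⟩
      have h3 := hval (s + 1) (by omega)
      have h4 := (h2 (s + 1)).2.1
      rw [RatFunc.eval, eval₂_id, eval₂_id] at h3
      simp only [Set.mem_ofPred_eq, eval_mul, eval_C]
      rw [← h3]
      field_simp
    · refine Set.infinite_range_of_injective fun a b hab => ?_
      have : a + 1 = b + 1 := by exact_mod_cast hab
      omega
  intro s hs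
  have hdvd : R.denom ∣ (l.map linQ).prod * C (d1.eval 1) := by
    have hcop : IsCoprime R.denom R.num := (RatFunc.isCoprime_num_denom R).symm
    exact hcop.dvd_of_dvd_mul_left ⟨p, by rw [hpoly]; ring⟩
  obtain ⟨r, hr⟩ := hdvd
  have h5 : aeval s ((l.map linQ).prod * C (d1.eval 1)) = 0 := by
    rw [hr, map_mul, hs, zero_mul]
  rw [map_mul, aeval_C, map_list_prod, List.map_map] at h5
  rcases mul_eq_zero.1 h5 with h6 | h6
  · rw [List.prod_eq_zero_iff, List.mem_map] at h6
    obtain ⟨q, hq, hq0⟩ := h6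
    obtain ⟨hq1, hq2⟩ := hl q hq
    refine ⟨_, hq2, ?_⟩
    simp only [Function.comp_apply, linQ, map_add, map_mul, aeval_C, aeval_X] at hq0
    have hq3 : (q.1 : ℂ) ≠ 0 := by
      have : q.1 ≠ 0 := by omega
      exact_mod_cast this
    push_cast
    have h7 : (q.2 : ℂ) + q.1 * s = 0 := by
      simpa using hq0
    field_simp
    linear_combination h7
  · exfalso
    apply hd3
    have : (algebraMap ℚ ℂ) (d1.eval 1) = 0 := h6
    simpa using this

end Pool.Agent.Mono.TS
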