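import Pool.Agent.Work.Monodromy.Interface4
import Pool.Agent.Work.Monodromy.GJet
import Pool.Agent.Work.Monodromy.Spec

/-!
# Block VA: `ord f = m` or `ord f > m`, and `ord f = m` in terms of `AA`
-/

set_option autoImplicit false
set_option linter.unusedSectionVars false

namespace Pool.Agent.Mono.TS

open MvPolynomial

namespace VAAux

theorem L_mul (P : HodgeMeasure) : P.rat.L * xq = 1 := by
  rw [P.rat_L, xq]
  exact mul_inv_cancel₀ RatFunc.X_ne_zero

section

variable {E ι α : Type} [Fintype ι] [Finite α]

/-- sets defined by the parameters and the coefficients `< n` of the `F_a(x)` are cylinders -/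
theorem cyl_fam (F : α → MvPolynomial ι ℂ) (n : ℕ) {Q : Set (E ⊕ (α × Fin n) → ℂ)}
    (hQ : Constructible Q) :
    IsCyl (fun _ => n) {z : (E → ℂ) × (ι → PowerSeries ℂ) |
      (Sum.elim z.1 fun s => PowerSeries.coeff (s.2 : ℕ) (aeval z.2 (F s.1))) ∈ Q} := by
  classical
  constructor
  · intro p x y hxy
    have h1 : (fun s : α × Fin n => PowerSeries.coeff (s.2 : ℕ) (aeval x (F s.1))) =
        fun s => PowerSeries.coeff (s.2 : ℕ) (aeval y (F s.1)) := by
      funext s
      exact GJetAux.aeval_congr (F s.1) n x y hxy s.2 s.2.2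
    simp only [Set.mem_ofPred_eq, h1]
  · set K : ι → ℕ := fun _ => n with hK
    have h0 : sec K {z : (E → ℂ) × (ι → PowerSeries ℂ) |
        (Sum.elim z.1 fun s => PowerSeries.coeff (s.2 : ℕ) (aeval z.2 (F s.1))) ∈ Q} =
        {v : E ⊕ (Σ i, Fin (K i)) → ℂ |
          (fun j => eval v (Sum.elim (fun p => X (Sum.inl p))
            (fun s : α × Fin n => GJetAux.cA E K (F s.1) s.2) j)) ∈ Q} := by
      ext v
      have h1 : (fun j => eval v (Sum.elim (fun p => X (Sum.inl p))
            (fun s : α × Fin n => GJetAux.cA E K (F s.1) s.2) j)) =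
          Sum.elim (fun p => v (Sum.inl p)) fun s : α × Fin n =>
            PowerSeries.coeff (s.2 : ℕ) (aeval (toArc K fun s => v (Sum.inr s)) (F s.1)) := by
        funext j
        rcases j with j | j
        · simp
        · simp [GJetAux.eval_cA]
      rw [Set.mem_ofPred_eq, h1]
      exact Iff.rfl
    rw [h0]
    exact Constructible.preimage _ hQ

/-- the same for one polynomial -/
theorem cyl_one (f : MvPolynomial ι ℂ) (n : ℕ) {Q : Set (E ⊕ Fin n → ℂ)}
    (hQ : Constructible Q) :
    IsCyl (fun _ => n) {z : (E → ℂ) × (ι → PowerSeries ℂ) |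
      (Sum.elim z.1 fun s : Fin n => PowerSeries.coeff (s : ℕ) (aeval z.2 f)) ∈ Q} := by
  have h := cyl_fam (E := E) (fun _ : Unit => f) n (Q := {v | (fun j => v (Sum.elim Sum.inl
    (fun s : Fin n => Sum.inr ((), s)) j)) ∈ Q}) (Constructible.comap _ hQ)
  convert h using 3 with z
  simp only [Set.mem_ofPred_eq]
  apply Eq.to_iff
  congr 1
  funext j
  rcases j with j | j <;> rfl

/-- the contact sets are cylinders -/
theorem cyl_ctc (f : MvPolynomial ι ℂ) {B : Set (E → ℂ)} (hB : Constructible B)
    (q : MvPolynomial E ℂ) (m : ℕ) : IsCyl (fun _ => m + 1) (ctc f B q m) := by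
  have hQ : Constructible {v : E ⊕ Fin (m + 1) → ℂ | (fun p => v (Sum.inl p)) ∈ B ∧
      (∀ l : Fin (m + 1), (l : ℕ) < m → eval v (X (Sum.inr l)) = 0) ∧
        eval v (X (Sum.inr (Fin.last m))) = eval v (rename Sum.inl q)} := by
    refine Constructible.and (Constructible.comap _ hB) (Constructible.and ?_
      (Constructible.eq _ _))
    exact Constructible.all fun l => Constructible.imp (Constructible.const _)
      (Constructible.zero _)
  have h := cyl_one f (m + 1) hQ
  convert h using 1
  ext z
  simp only [ctc, Set.mem_ofPred_eq, eval_X, Sum.elim_inl, Sum.elim_inr, eval_rename,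
    Fin.val_last]
  refine and_congr Iff.rfl (and_congr ⟨fun h l hl => h l hl, fun h l hl => h ⟨l, by omega⟩ hl⟩ ?_)
  exact Iff.rfl

/-- `ord f > m` -/
theorem cyl_gt (f : MvPolynomial ι ℂ) (m : ℕ) {B : Set (E → ℂ)} (hB : Constructible B) :
    IsCyl (fun _ => m + 1) {z : (E → ℂ) × (ι → PowerSeries ℂ) | z.1 ∈ B ∧
      ∀ l ≤ m, PowerSeries.coeff l (aeval z.2 f) = 0} := by
  have hQ : Constructible {v : E ⊕ Fin (m + 1) → ℂ | (fun p => v (Sum.inl p)) ∈ B ∧
      ∀ l : Fin (m + 1), eval v (X (Sum.inr l)) = 0} :=
    Constructible.and (Constructible.comap _ hB)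
      (Constructible.all fun l => Constructible.zero _)
  have h := cyl_one f (m + 1) hQ
  convert h using 1
  ext z
  simp only [Set.mem_ofPred_eq, eval_X, Sum.elim_inl, Sum.elim_inr]
  refine and_congr Iff.rfl ⟨fun h l => h l (Nat.lt_succ_iff.1 l.2),
    fun h l hl => h ⟨l, Nat.lt_succ_iff.2 hl⟩⟩

/-- `ord f = m` -/
theorem cyl_eq (f : MvPolynomial ι ℂ) (m : ℕ) {B : Set (E → ℂ)} (hB : Constructible B) :
    IsCyl (fun _ => m + 1) {z : (E → ℂ) × (ι → PowerSeries ℂ) | z.1 ∈ B ∧
      (∀ l < m, PowerSeries.coeff l (aeval z.2 f) = 0) ∧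
        PowerSeries.coeff m (aeval z.2 f) ≠ 0} := by
  have hQ : Constructible {v : E ⊕ Fin (m + 1) → ℂ | (fun p => v (Sum.inl p)) ∈ B ∧
      (∀ l : Fin (m + 1), (l : ℕ) < m → eval v (X (Sum.inr l)) = 0) ∧
        eval v (X (Sum.inr (Fin.last m))) ≠ 0} := by
    refine Constructible.and (Constructible.comap _ hB) (Constructible.and ?_
      (Constructible.ne _))
    exact Constructible.all fun l => Constructible.imp (Constructible.const _)
      (Constructible.zero _)
  have h := cyl_one f (m + 1) hQ
  convert h using 1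
  ext z
  simp only [Set.mem_ofPred_eq, eval_X, Sum.elim_inl, Sum.elim_inr, Fin.val_last]
  refine and_congr Iff.rfl (and_congr ⟨fun h l hl => h l hl, fun h l hl => h ⟨l, by omega⟩ hl⟩ ?_)
  exact Iff.rfl

theorem univ_eq {B : Set (E → ℂ)} (hB : B = Set.univ) (p : (E → ℂ) × (ι → PowerSeries ℂ) → Prop) :
    {z : (E → ℂ) × (ι → PowerSeries ℂ) | z.1 ∈ B ∧ p z} = {z | p z} := by
  subst hB
  simp

theorem cyl_gt' (f : MvPolynomial ι ℂ) (m : ℕ) :
    IsCyl (fun _ => m + 1) {z : (E → ℂ) × (ι → PowerSeries ℂ) |
      ∀ l ≤ m, PowerSeries.coeff l (aeval z.2 f) = 0} := by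
  have := cyl_gt (E := E) f m (B := Set.univ) Constructible.univ
  rwa [univ_eq rfl] at this

theorem cyl_eq' (f : MvPolynomial ι ℂ) (m : ℕ) :
    IsCyl (fun _ => m + 1) {z : (E → ℂ) × (ι → PowerSeries ℂ) |
      (∀ l < m, PowerSeries.coeff l (aeval z.2 f) = 0) ∧
        PowerSeries.coeff m (aeval z.2 f) ≠ 0} := by
  have := cyl_eq (E := E) f m (B := Set.univ) Constructible.univ
  rwa [univ_eq rfl] at this

end

/-- the volume of everything -/
theorem vol_univ {R : Type} [CommRing R] (μ : MotivicMeasure R) {Li : R} (hL : μ.L * Li = 1)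
    {E ι : Type} [Finite E] [Fintype ι] :
    vol μ Li (Set.univ : Set ((E → ℂ) × (ι → PowerSeries ℂ))) =
      μ.val (Set.univ : Set (E → ℂ)) := by
  rw [vol_eq μ hL (IsCyl.univ (K := fun _ => 0))]
  have h1 : sec (fun _ : ι => 0) (Set.univ : Set ((E → ℂ) × (ι → PowerSeries ℂ))) = Set.univ := rfl
  have h2 : IsEmpty (Σ _ : ι, Fin 0) := ⟨fun s => s.2.elim0⟩
  rw [h1, Finset.sum_const_zero, pow_zero, mul_one]
  exact μ.val_univ_equiv (Equiv.sumEmpty E (Σ _ : ι, Fin 0)).symm

end VAAux

open VAAux

theorem stmt_VA : Stmt_VA := by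
  classical
  intro P ι _ f
  have hL := L_mul P
  refine ⟨?_, ?_, ?_⟩
  · intro m
    induction m with
    | zero =>
      have h := vol_union P.rat hL (cyl_gt' (E := Empty) f 0) (cyl_eq' f 0) (by
        rw [Set.disjoint_left]
        intro z h1 h2
        exact h2.2 (h1 0 le_rfl))
      have h1 : ({z : (Empty → ℂ) × (ι → PowerSeries ℂ) |
          ∀ l ≤ 0, PowerSeries.coeff l (aeval z.2 f) = 0} ∪
          {z | (∀ l < 0, PowerSeries.coeff l (aeval z.2 f) = 0) ∧
            PowerSeries.coeff 0 (aeval z.2 f) ≠ 0}) = Set.univ := by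
        ext z
        simp only [Set.mem_union, Set.mem_ofPred_eq, Set.mem_univ, iff_true]
        by_cases h : PowerSeries.coeff 0 (aeval z.2 f) = 0
        · left
          intro l hl
          obtain rfl : l = 0 := by omega
          exact h
        · right
          exact ⟨fun l hl => absurd hl (Nat.not_lt_zero l), h⟩
      rw [h1, vol_univ P.rat hL, P.rat.point] at h
      rw [Finset.sum_range_one, bb, aa]
      exact eq_sub_of_add_eq h.symm
    | succ m ih =>
      have h := vol_union P.rat hL (cyl_gt' (E := Empty) f (m + 1)) (cyl_eq' f (m + 1)) (by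
        rw [Set.disjoint_left]
        intro z h1 h2
        exact h2.2 (h1 (m + 1) le_rfl))
      have h1 : ({z : (Empty → ℂ) × (ι → PowerSeries ℂ) |
          ∀ l ≤ m + 1, PowerSeries.coeff l (aeval z.2 f) = 0} ∪
          {z | (∀ l < m + 1, PowerSeries.coeff l (aeval z.2 f) = 0) ∧
            PowerSeries.coeff (m + 1) (aeval z.2 f) ≠ 0}) =
            {z | ∀ l ≤ m, PowerSeries.coeff l (aeval z.2 f) = 0} := by
        ext z
        simp only [Set.mem_union, Set.mem_ofPred_eq]
        constructor
        · rintro (h | h)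
          · intro l hl
            exact h l (by omega)
          · intro l hl
            exact h.1 l (by omega)
        · intro h
          by_cases h' : PowerSeries.coeff (m + 1) (aeval z.2 f) = 0
          · left
            intro l hl
            rcases Nat.lt_or_ge l (m + 1) with hlt | hge
            · exact h l (by omega)
            · obtain rfl : l = m + 1 := by omega
              exact h'
          · right
            exact ⟨fun l hl => h l (by omega), h'⟩
      rw [h1] at h
      rw [Finset.sum_range_succ, sub_add_eq_sub_sub, ← ih]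
      exact eq_sub_of_add_eq h.symm
  · intro m
    set K : ι → ℕ := fun _ => m + 1 with hK
    have hc1 := cyl_eq' (E := Empty) f m
    have hB : Constructible {τ : Unit → ℂ | τ () ≠ 0} := by
      have := Constructible.ne (X () : MvPolynomial Unit ℂ)
      simpa only [eval_X] using this
    have hc2 := cyl_ctc f hB (X ()) m
    rw [aa, AA, vol_eq P.rat hL hc1, vol_eq P.rat hL hc2]
    congr 1
    refine P.rat.val_of_inv hc1.2 hc2.2
      (Sum.elim (fun _ => GJetAux.cA Empty K f m) fun s => X (Sum.inr s))
      (fun y => Sum.elim Empty.elim fun s => y (Sum.inr s)) ?_ ?_ ?_ ?_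
    · intro v hv
      have h1 : (fun j => eval v (Sum.elim (fun _ : Unit => GJetAux.cA Empty K f m)
          (fun s => X (Sum.inr s)) j)) = Sum.elim (fun _ : Unit =>
            PowerSeries.coeff m (aeval (toArc K fun s => v (Sum.inr s)) f))
            fun s => v (Sum.inr s) := by
        funext j
        rcases j with j | j
        · exact GJetAux.eval_cA Empty K f m v
        · simp
      rw [h1]
      exact ⟨hv.2, hv.1, by rw [eval_X]; rfl⟩
    · intro y hy
      obtain ⟨h1, h2, h3⟩ := hy
      refine ⟨h2, ?_⟩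
      rw [eval_X] at h3
      intro h4
      exact h1 (h3.symm.trans h4)
    · intro v _
      funext j
      rcases j with j | j
      · exact j.elim
      · simp
    · intro y hy
      obtain ⟨h1, h2, h3⟩ := hy
      funext j
      rcases j with j | j
      · rw [eval_X] at h3
        exact (GJetAux.eval_cA Empty K f m _).trans h3
      · simp
  · intro e
    rw [stmt_GJet ι f K P.rat xq hL e]
    ext m
    rw [PowerSeries.coeff_C_mul, PowerSeries.coeff_mk, ZS, PowerSeries.coeff_mk]
    congr 1
    set K' : ι → ℕ := fun _ => m + 1 with hK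
    have hc1 := GJetAux.contactS_cyl e f Set.univ Constructible.univ m
    have hB : Constructible {z : Bool → ℂ | z false ≠ 0 ∧ z true ^ e = z false} := by
      have := Constructible.and (Constructible.ne (X false : MvPolynomial Bool ℂ))
        (Constructible.eq (X true ^ e : MvPolynomial Bool ℂ) (X false))
      simpa only [eval_X, map_pow] using this
    have hc2 := cyl_ctc f hB (X false) m
    rw [AA, vol_eq P.rat hL hc1, vol_eq P.rat hL hc2]
    congr 1
    refine P.rat.val_of_inv hc1.2 hc2.2
      (Sum.elim (fun b => if b then X (Sum.inl ()) else GJetAux.cA Unit K' f m)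
        fun s => X (Sum.inr s))
      (fun y => Sum.elim (fun _ => y (Sum.inl true)) fun s => y (Sum.inr s)) ?_ ?_ ?_ ?_
    · intro v hv
      have h1 : (fun j => eval v (Sum.elim (fun b : Bool => if b then X (Sum.inl ())
          else GJetAux.cA Unit K' f m) (fun s => X (Sum.inr s)) j)) = Sum.elim (fun b : Bool =>
            if b then v (Sum.inl ()) else
            PowerSeries.coeff m (aeval (toArc K' fun s => v (Sum.inr s)) f))
            fun s => v (Sum.inr s) := by
        funext j
        rcases j with j | j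
        · rcases j with _ | _
          · exact GJetAux.eval_cA Unit K' f m v
          · simp
        · simp
      rw [h1]
      obtain ⟨_, h2, h3, h4⟩ := hv
      refine ⟨⟨h3, ?_⟩, h2, ?_⟩
      · exact h4
      · rw [eval_X]
        rfl
    · intro y hy
      obtain ⟨⟨h1, h1'⟩, h2, h3⟩ := hy
      rw [eval_X] at h3
      refine ⟨Set.mem_univ _, h2, ?_, ?_⟩
      · intro h4
        exact h1 (h3.symm.trans h4)
      · exact h1'.trans h3.symm
    · intro v _
      funext j
      rcases j with j | j
      · simp
      · simp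
    · intro y hy
      obtain ⟨h1, h2, h3⟩ := hy
      rw [eval_X] at h3
      funext j
      rcases j with j | j
      · rcases j with _ | _
        · exact (GJetAux.eval_cA Unit K' f m _).trans h3
        · simp
      · simp

end Pool.Agent.Mono.TS
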