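import Pool.Agent.Work.Monodromy.Interface4
import Pool.Agent.Work.Monodromy.Frac

/-!
# Modules over the Weyl algebra: constructions for the witnesses
-/

namespace Pool.Agent.Mono.TS
namespace WBAux

open MvPolynomial
open scoped TensorProduct

/-! ### the action of polynomials -/

section act

variable {V ι : Type} [AddCommGroup V] [Module ℂ V] [DecidableEq ι]

theorem pX_C (w : BP.WMod ℂ V ι) (c : ℂ) (x : V) : w.pX (C c) x = c • x := by
  unfold BP.WMod.pX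
  rw [BP.liftC_C]
  rfl

theorem pX_mul (w : BP.WMod ℂ V ι) (p q : MvPolynomial ι ℂ) (x : V) :
    w.pX (p * q) x = w.pX p (w.pX q x) := by
  rw [map_mul]; rfl

theorem pX_add (w : BP.WMod ℂ V ι) (p q : MvPolynomial ι ℂ) (x : V) :
    w.pX (p + q) x = w.pX p x + w.pX q x := by
  rw [map_add]; rfl

theorem pX_comm (w : BP.WMod ℂ V ι) (p q : MvPolynomial ι ℂ) (x : V) :
    w.pX p (w.pX q x) = w.pX q (w.pX p x) := by
  rw [← pX_mul, mul_comm, pX_mul]

/-- comparison of two actions along a linear map -/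
theorem pX_map {V' κ : Type} [AddCommGroup V'] [Module ℂ V'] [DecidableEq κ]
    (w : BP.WMod ℂ V ι) (w' : BP.WMod ℂ V' κ) (L : V →ₗ[ℂ] V') (φ : ι → κ)
    (h : ∀ i x, L (w.X' i x) = w'.X' (φ i) (L x)) (p : MvPolynomial ι ℂ) (x : V) :
    L (w.pX p x) = w'.pX (rename φ p) (L x) := by
  induction p using MvPolynomial.induction_on generalizing x with
  | C a => rw [rename_C, pX_C, pX_C, map_smul]
  | add p q hp hq => rw [pX_add, map_add, map_add, pX_add, hp, hq]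
  | mul_X p i hp => rw [pX_mul, hp, map_mul, pX_mul, rename_X, BP.WMod.pX_X, BP.WMod.pX_X, h]

end act

/-! ### quotients -/

section quot

variable {V ι : Type} [AddCommGroup V] [Module ℂ V] [DecidableEq ι]

/-- the quotient of a module over the Weyl algebra -/
noncomputable def quot (w : BP.WMod ℂ V ι) (N : Submodule ℂ V)
    (hX : ∀ i, N ≤ N.comap (w.X' i)) (hD : ∀ i, N ≤ N.comap (w.D' i)) :
    BP.WMod ℂ (V ⧸ N) ι where
  X' i := N.mapQ N (w.X' i) (hX i)
  D' i := N.mapQ N (w.D' i) (hD i)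
  XX i j := by
    apply Submodule.linearMap_qext
    ext x
    have h := congrArg (fun T : Module.End ℂ V => T x) (w.XX i j)
    simp only [Module.End.mul_apply] at h
    simp [Submodule.mapQ_apply, h]
  DD i j := by
    apply Submodule.linearMap_qext
    ext x
    have h := congrArg (fun T : Module.End ℂ V => T x) (w.DD i j)
    simp only [Module.End.mul_apply] at h
    simp [Submodule.mapQ_apply, h]
  DX i j := by
    apply Submodule.linearMap_qext
    ext x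
    have h := congrArg (fun T : Module.End ℂ V => T x) (w.DX i j)
    by_cases hij : i = j
    · simp only [hij, if_true, Module.End.mul_apply, LinearMap.add_apply,
        Module.End.one_apply] at h
      simp [Submodule.mapQ_apply, hij, h]
    · simp only [hij, if_false, Module.End.mul_apply, LinearMap.add_apply,
        add_zero] at h
      simp [Submodule.mapQ_apply, hij, h]

theorem quot_pX (w : BP.WMod ℂ V ι) (N : Submodule ℂ V)
    (hX : ∀ i, N ≤ N.comap (w.X' i)) (hD : ∀ i, N ≤ N.comap (w.D' i)) (p : MvPolynomial ι ℂ)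
    (x : V) : (quot w N hX hD).pX p (N.mkQ x) = N.mkQ (w.pX p x) := by
  have h := pX_map w (quot w N hX hD) N.mkQ id (fun i x => rfl) p x
  rw [rename_id] at h
  exact h.symm

theorem quot_D (w : BP.WMod ℂ V ι) (N : Submodule ℂ V)
    (hX : ∀ i, N ≤ N.comap (w.X' i)) (hD : ∀ i, N ≤ N.comap (w.D' i)) (i : ι)
    (x : V) : (quot w N hX hD).D' i (N.mkQ x) = N.mkQ (w.D' i x) := rfl

theorem wit_quot (w : BP.WMod ℂ V ι) (N : Submodule ℂ V)
    (hX : ∀ i, ∀ x ∈ N, w.X' i x ∈ N) (hD : ∀ i, ∀ x ∈ N, w.D' i x ∈ N)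
    (f : MvPolynomial ι ℂ) (β : ℂ) (v : ℕ → V) (h0 : v 0 ∉ N) (hf : w.pX f (v 0) ∈ N)
    (hdf : ∀ a, w.pX (pderiv a f) (v 0) ∈ N)
    (hDv : ∀ i a, w.D' a (v i) = w.pX (pderiv a f) (v (i + 1)))
    (hfv : ∀ i : ℕ, w.pX f (v (i + 1)) = (β - i) • v i) : Wit f β := by
  have hX' : ∀ i, N ≤ N.comap (w.X' i) := fun i x hx => hX i x hx
  have hD' : ∀ i, N ≤ N.comap (w.D' i) := fun i x hx => hD i x hx
  refine ⟨V ⧸ N, inferInstance, inferInstance, quot w N hX' hD', fun i => N.mkQ (v i),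
    ?_, ?_, ?_, ?_, ?_⟩
  · intro h
    exact h0 ((Submodule.Quotient.mk_eq_zero N).1 h)
  · show (quot w N hX' hD').pX f (N.mkQ (v 0)) = 0
    rw [quot_pX]
    exact (Submodule.Quotient.mk_eq_zero N).2 hf
  · intro a
    show (quot w N hX' hD').pX (pderiv a f) (N.mkQ (v 0)) = 0
    rw [quot_pX]
    exact (Submodule.Quotient.mk_eq_zero N).2 (hdf a)
  · intro i a
    show (quot w N hX' hD').D' a (N.mkQ (v i)) = (quot w N hX' hD').pX (pderiv a f)
      (N.mkQ (v (i + 1)))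
    rw [quot_pX, quot_D, hDv]
  · intro i
    show (quot w N hX' hD').pX f (N.mkQ (v (i + 1))) = (β - i) • N.mkQ (v i)
    rw [quot_pX, hfv, map_smul]

end quot

/-! ### change of the index type -/

section tr

variable {V ι κ : Type} [AddCommGroup V] [Module ℂ V] [DecidableEq ι] [DecidableEq κ]

/-- the same module with renamed variables -/
def tr (w : BP.WMod ℂ V ι) (φ : ι ≃ κ) : BP.WMod ℂ V κ where
  X' k := w.X' (φ.symm k)
  D' k := w.D' (φ.symm k)
  XX k l := w.XX _ _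
  DD k l := w.DD _ _
  DX k l := by
    rw [w.DX]
    by_cases h : k = l
    · rw [h, if_pos rfl, if_pos rfl]
    · rw [if_neg h, if_neg fun h' => h (φ.symm.injective h')]

theorem tr_pX (w : BP.WMod ℂ V ι) (φ : ι ≃ κ) (p : MvPolynomial ι ℂ) (x : V) :
    (tr w φ).pX (rename φ p) x = w.pX p x :=
  (pX_map w (tr w φ) LinearMap.id φ (fun i x => by simp [tr]) p x).symm

theorem wit_rename (φ : ι ≃ κ) (f : MvPolynomial ι ℂ) (β : ℂ) (h : Wit f β) :
    Wit (rename φ f) β := by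
  obtain ⟨V, i1, i2, w, v, hv0, hf0, hdf, hD, hf⟩ := h
  have hp : ∀ k, pderiv k (rename φ f) = rename φ (pderiv (φ.symm k) f) := by
    intro k
    have := pderiv_rename φ.injective (φ.symm k) f
    rwa [Equiv.apply_symm_apply] at this
  refine ⟨V, i1, i2, tr w φ, v, hv0, ?_, ?_, ?_, ?_⟩
  · rw [tr_pX, hf0]
  · intro a
    rw [hp, tr_pX, hdf]
  · intro i a
    rw [hp, tr_pX, ← hD]
    rfl
  · intro i
    rw [tr_pX, hf]

end tr

/-! ### the fraction field -/

section frac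

variable {ι : Type}

theorem toF_mul (a b : MvPolynomial ι ℂ) : toF ℂ (a * b) = toF ℂ a * toF ℂ b := map_mul _ _ _
theorem toF_add (a b : MvPolynomial ι ℂ) : toF ℂ (a + b) = toF ℂ a + toF ℂ b := map_add _ _ _
theorem toF_pow (a : MvPolynomial ι ℂ) (n : ℕ) : toF ℂ (a ^ n) = toF ℂ a ^ n := map_pow _ _ _
theorem toF_one : toF ℂ (1 : MvPolynomial ι ℂ) = 1 := map_one _
theorem toF_zero : toF ℂ (0 : MvPolynomial ι ℂ) = 0 := map_zero _
theorem toF_inj {a b : MvPolynomial ι ℂ} (h : toF ℂ a = toF ℂ b) : a = b :=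
  IsFractionRing.injective (MvPolynomial ι ℂ) (FF ℂ ι) h
theorem toF_ne {a : MvPolynomial ι ℂ} (h : a ≠ 0) : toF ℂ a ≠ 0 := fun h' =>
  h (toF_inj (h'.trans toF_zero.symm))
theorem toF_C_mul (c : ℂ) (x : FF ℂ ι) : toF ℂ (C c) * x = c • x := by
  have h : toF ℂ (C c : MvPolynomial ι ℂ) = algebraMap ℂ (FF ℂ ι) c := by
    unfold toF
    rw [IsScalarTower.algebraMap_apply ℂ (MvPolynomial ι ℂ) (FF ℂ ι)]
    rfl
  rw [h, Algebra.smul_def]
theorem toF_smul (c : ℂ) (p : MvPolynomial ι ℂ) : toF ℂ (c • p) = c • toF ℂ p := by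
  rw [smul_eq_C_mul, toF_mul, toF_C_mul]

theorem exists_frac (x : FF ℂ ι) : ∃ p q : MvPolynomial ι ℂ, q ≠ 0 ∧ toF ℂ q * x = toF ℂ p := by
  obtain ⟨p, q, hq, h⟩ := IsFractionRing.div_surjective (A := MvPolynomial ι ℂ) x
  have hq0 : q ≠ 0 := nonZeroDivisors.ne_zero hq
  refine ⟨p, q, hq0, ?_⟩
  rw [← h]
  show toF ℂ q * (toF ℂ p / toF ℂ q) = toF ℂ p
  exact mul_div_cancel₀ _ (toF_ne hq0)

theorem der_zero (E : Derivation ℂ (FF ℂ ι) (FF ℂ ι)) (h : ∀ p, E (toF ℂ p) = 0) (x : FF ℂ ι) :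
    E x = 0 := by
  obtain ⟨p, q, hq, hx⟩ := exists_frac x
  have h1 := congrArg E hx
  rw [Derivation.leibniz, h, h, smul_zero, add_zero, smul_eq_mul] at h1
  exact (mul_eq_zero.1 h1).resolve_left (toF_ne hq)

theorem pd_comm (i j : ι) (p : MvPolynomial ι ℂ) :
    pderiv i (pderiv j p) = pderiv j (pderiv i p) := by
  classical
  have h : ⁅pderiv (R := ℂ) i, pderiv j⁆ = (0 : Derivation ℂ (MvPolynomial ι ℂ) _) := by
    apply MvPolynomial.derivation_ext
    intro k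
    rw [Derivation.commutator_apply, pderiv_X, pderiv_X]
    have h1 : ∀ a b : ι, pderiv a ((Pi.single b 1 : ι → MvPolynomial ι ℂ) k) = 0 := by
      intro a b
      by_cases hb : k = b
      · subst hb
        rw [Pi.single_eq_same, pderiv_one]
      · rw [Pi.single_eq_of_ne hb, map_zero]
    rw [h1, h1, sub_zero, Derivation.zero_apply]
  have h2 := congrArg (fun E : Derivation ℂ (MvPolynomial ι ℂ) (MvPolynomial ι ℂ) => E p) h
  simp only [Derivation.commutator_apply, Derivation.zero_apply] at h2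
  exact sub_eq_zero.1 h2

theorem dF_comm (i j : ι) (x : FF ℂ ι) : dF ℂ i (dF ℂ j x) = dF ℂ j (dF ℂ i x) := by
  have h := der_zero ⁅dF ℂ i, dF ℂ j⁆ (fun p => by
    rw [Derivation.commutator_apply, dF_toF, dF_toF, dF_toF, dF_toF, pd_comm, sub_self]) x
  rw [Derivation.commutator_apply] at h
  exact sub_eq_zero.1 h

theorem dF_mul (i : ι) (x y : FF ℂ ι) : dF ℂ i (x * y) = dF ℂ i x * y + x * dF ℂ i y := by
  rw [Derivation.leibniz, smul_eq_mul, smul_eq_mul]
  ring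

theorem dF_inv (i : ι) {g : MvPolynomial ι ℂ} (hg : g ≠ 0) :
    dF ℂ i (toF ℂ g)⁻¹ = -(toF ℂ (pderiv i g) * ((toF ℂ g)⁻¹) ^ 2) := by
  have h0 := toF_ne hg
  have h1 : toF ℂ g * (toF ℂ g)⁻¹ = 1 := mul_inv_cancel₀ h0
  have h2 := congrArg (dF ℂ i) h1
  rw [dF_mul, dF_toF, Derivation.map_one_eq_zero] at h2
  have h3 : dF ℂ i (toF ℂ g)⁻¹ = (toF ℂ g)⁻¹ * (toF ℂ g * dF ℂ i (toF ℂ g)⁻¹) := by
    rw [← mul_assoc, inv_mul_cancel₀ h0, one_mul]
  rw [h3]
  have h4 : toF ℂ g * dF ℂ i (toF ℂ g)⁻¹ = -(toF ℂ (pderiv i g) * (toF ℂ g)⁻¹) := by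
    linear_combination h2
  rw [h4]
  ring

theorem dF_invpow (i : ι) {g : MvPolynomial ι ℂ} (hg : g ≠ 0) (n : ℕ) :
    dF ℂ i ((toF ℂ g)⁻¹ ^ n) = -((n : ℂ) • (toF ℂ (pderiv i g) * ((toF ℂ g)⁻¹) ^ (n + 1))) := by
  induction n with
  | zero => simp
  | succ n ih =>
    rw [pow_succ, dF_mul, ih, dF_inv i hg, Nat.cast_succ, add_smul, one_smul]
    simp only [Algebra.smul_def]
    ring

/-- the twisted module `FF g^β` over the Weyl algebra -/
noncomputable def fw [DecidableEq ι] (g : MvPolynomial ι ℂ) (hg : g ≠ 0) (β : ℂ) :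
    BP.WMod ℂ (FF ℂ ι) ι where
  X' i := LinearMap.mulLeft ℂ (toF ℂ (X i))
  D' i := (dF ℂ i : FF ℂ ι →ₗ[ℂ] FF ℂ ι) +
    LinearMap.mulLeft ℂ (β • (toF ℂ (pderiv i g) * (toF ℂ g)⁻¹))
  XX i j := by
    ext x
    simp only [Module.End.mul_apply, LinearMap.mulLeft_apply]
    ring
  DD i j := by
    ext x
    simp only [Module.End.mul_apply, LinearMap.add_apply, LinearMap.mulLeft_apply,
      Derivation.coeFn_coe, map_add, dF_mul, Derivation.map_smul, dF_toF, dF_inv _ hg]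
    rw [dF_comm i j x, pd_comm i j g]
    simp only [Algebra.smul_def]
    ring
  DX i j := by
    ext x
    have h1 : toF ℂ (pderiv i (X j)) = if i = j then (1 : FF ℂ ι) else 0 := by
      rw [pderiv_X]
      by_cases hij : i = j
      · subst hij
        rw [Pi.single_eq_same, if_pos rfl, toF_one]
      · rw [Pi.single_eq_of_ne (Ne.symm hij), if_neg hij, toF_zero]
    have h2 : (if i = j then (1 : Module.End ℂ (FF ℂ ι)) else 0) x =
        (if i = j then (1 : FF ℂ ι) else 0) * x := by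
      by_cases hij : i = j
      · rw [if_pos hij, if_pos hij, one_mul]; rfl
      · rw [if_neg hij, if_neg hij, zero_mul]; rfl
    rw [LinearMap.add_apply, h2]
    simp only [Module.End.mul_apply, LinearMap.add_apply, LinearMap.mulLeft_apply,
      Derivation.coeFn_coe, dF_mul, dF_toF, h1]
    ring

theorem fw_pX [DecidableEq ι] (g : MvPolynomial ι ℂ) (hg : g ≠ 0) (β : ℂ) (p : MvPolynomial ι ℂ)
    (x : FF ℂ ι) : (fw g hg β).pX p x = toF ℂ p * x := by
  induction p using MvPolynomial.induction_on generalizing x with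
  | C a => rw [pX_C, toF_C_mul]
  | add p q hp hq => rw [pX_add, hp, hq, toF_add, add_mul]
  | mul_X p i hp =>
    rw [pX_mul, hp, toF_mul, BP.WMod.pX_X, mul_assoc]
    rfl

theorem fw_D [DecidableEq ι] (g : MvPolynomial ι ℂ) (hg : g ≠ 0) (β : ℂ) (i : ι) (x : FF ℂ ι) :
    (fw g hg β).D' i x = dF ℂ i x + β • (toF ℂ (pderiv i g) * (toF ℂ g)⁻¹) * x := rfl

/-- `A[1/g]` -/
noncomputable def SS (g : MvPolynomial ι ℂ) : Submodule ℂ (FF ℂ ι) where
  carrier := {x | ∃ (j : ℕ) (q : MvPolynomial ι ℂ), x * toF ℂ g ^ j = toF ℂ q}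
  zero_mem' := ⟨0, 0, by rw [zero_mul, toF_zero]⟩
  add_mem' := by
    rintro x y ⟨j, q, hx⟩ ⟨k, r, hy⟩
    refine ⟨j + k, q * g ^ k + r * g ^ j, ?_⟩
    rw [toF_add, toF_mul, toF_mul, toF_pow, toF_pow, ← hx, ← hy]
    ring
  smul_mem' := by
    rintro c x ⟨j, q, hx⟩
    refine ⟨j, c • q, ?_⟩
    rw [toF_smul, ← hx, smul_mul_assoc]

theorem SS_mul (g p : MvPolynomial ι ℂ) {x : FF ℂ ι} (hx : x ∈ SS g) : toF ℂ p * x ∈ SS g := by
  obtain ⟨j, q, hx⟩ := hx
  exact ⟨j, p * q, by rw [toF_mul, ← hx, mul_assoc]⟩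

theorem SS_toF (g p : MvPolynomial ι ℂ) : toF ℂ p ∈ SS g := ⟨0, p, by rw [pow_zero, mul_one]⟩

theorem SS_inv {g : MvPolynomial ι ℂ} (hg : g ≠ 0) (p : MvPolynomial ι ℂ) :
    toF ℂ p * (toF ℂ g)⁻¹ ∈ SS g :=
  ⟨1, p, by rw [pow_one, mul_assoc, inv_mul_cancel₀ (toF_ne hg), mul_one]⟩

theorem SS_dF (g : MvPolynomial ι ℂ) (i : ι) {x : FF ℂ ι} (hx : x ∈ SS g) : dF ℂ i x ∈ SS g := by
  obtain ⟨j, q, hx⟩ := hx
  have h1 := congrArg (dF ℂ i) hx
  rw [dF_mul, dF_toF, ← toF_pow, dF_toF, pderiv_pow] at h1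
  refine ⟨j + 1, g * pderiv i q - (j : ℂ) • (q * pderiv i g), ?_⟩
  have h2 : toF ℂ (g * pderiv i q - (j : ℂ) • (q * pderiv i g)) =
      toF ℂ g * toF ℂ (pderiv i q) - (j : ℂ) • (toF ℂ q * toF ℂ (pderiv i g)) := by
    unfold toF
    rw [map_sub, map_mul]
    congr 1
    exact (toF_smul _ _).trans (by rw [toF_mul]; rfl)
  rw [h2, ← h1, ← hx]
  rcases Nat.eq_zero_or_pos j with hj | hj
  · subst hj
    simp [toF_zero, toF_one]
    ring
  · obtain ⟨j, rfl⟩ := Nat.exists_eq_succ_of_ne_zero hj.ne'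
    rw [Nat.succ_sub_one]
    have h3 : toF ℂ (((j + 1 : ℕ) : MvPolynomial ι ℂ) * g ^ j * pderiv i g) =
        (((j + 1 : ℕ) : ℂ)) • (toF ℂ g ^ j * toF ℂ (pderiv i g)) := by
      have : ((j + 1 : ℕ) : MvPolynomial ι ℂ) = C (((j + 1 : ℕ) : ℂ)) := by simp
      rw [this, mul_assoc, toF_mul, toF_C_mul, toF_mul, toF_pow]
    rw [h3, toF_pow]
    simp only [Nat.succ_eq_add_one, Algebra.smul_def]
    ring

end frac

end WBAux
end Pool.Agent.Mono.TS
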