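import Pool.Agent.Work.Monodromy4.WPF

/-!
# Block W5: a witness gives a root of the Bernstein polynomial
-/

namespace Pool.Agent.Mono.TS

open MvPolynomial Filter

namespace W5Aux

/-- a model in which `f u_0 = 0` gives a root -/
theorem root_of_model {ι V : Type} [DecidableEq ι] [AddCommGroup V] [Module ℂ V]
    {w : BP.WMod ℂ V ι} {f : MvPolynomial ι ℂ} {β : ℂ} {u : ℕ → V} (M : WPF.Model w f β u)
    (h0 : u 0 ≠ 0) (hf : w.pX f (u 0) = 0) {b : Polynomial ℂ} (hb : IsEvBernstein f b) :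
    b.eval β = 0 := by
  classical
  obtain ⟨P, hP⟩ := hb
  have key : ∀ i : ℕ, ∃ (T : Module.End ℂ V) (h : ℂ → MvPolynomial ι ℂ) (m : ℕ), WPF.PF h ∧
      (∀ᶠ k : ℕ in atTop, (P.coeff i : Module.End ℂ (MvPolynomial ι ℂ)) (f ^ (k + 1)) =
        h k * f ^ (k - m)) ∧ T 0 = w.pX (h β) (u m) := by
    intro i
    obtain ⟨T, hT⟩ := WPF.exists_acts M (P.coeff i : Module.End ℂ (MvPolynomial ι ℂ))
      (P.coeff i).2
    obtain ⟨h, m, hh, e, t⟩ := hT (fun _ => f) 0 (WPF.PF.const f)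
    refine ⟨T, h, m, hh, ?_, ?_⟩
    · filter_upwards [e] with k hk
      rw [← hk, Nat.sub_zero, pow_succ']
    · rw [← t, hf]
  choose T h m hh e t using key
  obtain ⟨n, hn⟩ : ∃ n, n = P.natDegree + 1 := ⟨_, rfl⟩
  obtain ⟨N, hN⟩ : ∃ N, ∀ i ∈ Finset.range n, m i ≤ N :=
    ⟨(Finset.range n).sup m, fun i hi => Finset.le_sup hi⟩
  have hH : WPF.PF fun c => ∑ i ∈ Finset.range n, C (c ^ i) * (h i c * f ^ (N - m i)) := by
    refine WPF.PF.sum _ fun i _ => ?_
    refine WPF.PF.mul ?_ ((hh i).mul (WPF.PF.const _))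
    exact (WPF.PF.poly (Polynomial.X ^ i)).congr fun c => by simp
  have hE : ∀ᶠ k : ℕ in atTop, (∑ i ∈ Finset.range n, C ((k : ℂ) ^ i) *
      (h i k * f ^ (N - m i))) = C (b.eval (k : ℂ)) * f ^ N := by
    have h1 : ∀ᶠ k : ℕ in atTop, ∀ i ∈ Finset.range n,
        (P.coeff i : Module.End ℂ (MvPolynomial ι ℂ)) (f ^ (k + 1)) = h i k * f ^ (k - m i) :=
      (Finset.eventually_all _).2 fun i _ => e i
    filter_upwards [hP, h1, eventually_ge_atTop N] with k hk h1 hkN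
    obtain ⟨r, rfl⟩ := Nat.exists_eq_add_of_le hkN
    by_cases hf0 : f = 0
    · rw [hf0, map_zero] at hf
      exfalso
      have h3 := M.mul 0
      rw [hf0, map_zero] at h3
      exact h0 h3.symm
    have hfr : f ^ r ≠ 0 := pow_ne_zero _ hf0
    apply mul_right_cancel₀ hfr
    rw [Finset.sum_mul, mul_assoc, ← pow_add, ← hk, wact_eq_sum P _ _ n (by omega)]
    refine Finset.sum_congr rfl fun i hi => ?_
    rw [h1 i hi, mul_assoc, mul_assoc, ← pow_add]
    congr 3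
    have := hN i hi
    omega
  have hE2 := WPF.PF.ext hH ((WPF.PF.poly b).mul (WPF.PF.const (f ^ N))) hE β
  have h3 := congrArg (fun p => w.pX p (u N)) hE2
  rw [WBAux.pX_mul, WBAux.pX_C] at h3
  have h4 : w.pX (f ^ N) (u N) = u 0 := by simpa using M.pow 0 N
  rw [h4, map_sum, LinearMap.sum_apply] at h3
  have h5 : ∀ i ∈ Finset.range n, w.pX (C (β ^ i) * (h i β * f ^ (N - m i))) (u N) = 0 := by
    intro i hi
    have h6 := M.pow (m i) (N - m i)
    rw [Nat.add_sub_cancel' (hN i hi)] at h6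
    rw [WBAux.pX_mul, WBAux.pX_C, WBAux.pX_mul, h6, ← t i, map_zero, smul_zero]
  rw [Finset.sum_eq_zero h5] at h3
  exact (smul_eq_zero.1 h3.symm).resolve_right h0

end W5Aux

theorem stmt_W5 : Stmt_W5 := by
  intro ι _ _ f β hβ hW b hb
  obtain ⟨V, i1, i2, w, v, hv0, hf0, -, hD, hf⟩ := hW
  have hne : ∀ l : ℕ, β - l ≠ 0 := fun l => sub_ne_zero.2 (hβ l)
  obtain ⟨c, hc⟩ : ∃ c : ℕ → ℂ, ∀ i, c i = ∏ l ∈ Finset.range i, (β - l)⁻¹ := ⟨_, fun _ => rfl⟩
  have hcs : ∀ i, c (i + 1) * (β - i) = c i := by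
    intro i
    rw [hc, hc, Finset.prod_range_succ, mul_assoc, inv_mul_cancel₀ (hne i), mul_one]
  have M : WPF.Model w f β (fun i => c i • v i) := by
    constructor
    · intro i a
      rw [map_smul, hD, map_smul, smul_smul, mul_comm, hcs]
    · intro i
      rw [map_smul, hf, smul_smul, hcs]
  refine W5Aux.root_of_model M ?_ ?_ hb
  · rw [hc]
    simpa using hv0
  · rw [map_smul, hf0, smul_zero]

end Pool.Agent.Mono.TS
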