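import Pool.Agent.Work.Monodromy.Interface4
import Pool.Agent.Work.Monodromy.SM

/-!
# Block TMain: the monodromy conjecture for the class
-/

namespace Pool.Agent.Mono.TS

open MvPolynomial

namespace TMainAux

theorem eseq_list (hQ1 : Stmt_Q1) (Λ : Set ℚ) {α : Type*} (l : List α) (s : α → ℕ → K)
    (h : ∀ t ∈ l, ESeq Λ (s t)) : ESeq Λ fun m => (l.map fun t => s t m).sum := by
  induction l with
  | nil =>
      simp only [List.map_nil, List.sum_nil]
      exact hQ1.2.2.2.1 Λ (fun _ => 0) 0 fun _ _ => rfl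
  | cons t l ih =>
      simp only [List.map_cons, List.sum_cons]
      exact hQ1.2.1 Λ _ _ (h t (List.mem_cons_self ..))
        (ih fun t' ht' => h t' (List.mem_cons_of_mem _ ht'))

theorem eseq_haar (hQ1 : Stmt_Q1) (α : K) : ESeq {1} fun m => α * xq ^ m := by
  have h := hQ1.2.2.2.2.1 {1} 1 1 le_rfl (by norm_num)
  have h2 := hQ1.2.2.1 {1} _ α h
  have h3 : (fun m => α * xq ^ m) = fun m : ℕ => α * if 1 ∣ m then xq ^ (1 * (m / 1)) else 0 := by
    funext m
    rw [if_pos (one_dvd m), Nat.div_one, one_mul]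
  rw [h3]
  exact h2

theorem constructible_base (e : ℕ) :
    Constructible {z : Bool → ℂ | z false ≠ 0 ∧ z true ^ e = z false} := by
  have h1 := (Constructible.zero (X false : MvPolynomial Bool ℂ)).compl
  have h2 := Constructible.zero (X true ^ e - X false : MvPolynomial Bool ℂ)
  have h3 := h1.inter h2
  convert h3 using 1
  ext z
  show (z false ≠ 0 ∧ z true ^ e = z false) ↔ (¬ eval z (X false) = 0 ∧ eval z (X true ^ e - X false) = 0)
  simp only [eval_X, map_sub, map_pow, sub_eq_zero, ne_eq]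

end TMainAux

open TMainAux in
theorem stmt_TMain (hVA : Stmt_VA) (hQ1 : Stmt_Q1) (hQ5 : Stmt_Q5) (hW5 : Stmt_W5) :
    Stmt_TMain := by
  intro ι _ _ f hf P e R _ hR s hs
  obtain ⟨hnc, -, hA⟩ := hf
  obtain ⟨-, Λ, hΛ, hW, α, ts, hts, hF⟩ := hA P
  set B : Set (Bool → ℂ) := {z | z false ≠ 0 ∧ z true ^ e = z false} with hB
  have hBc : Constructible B := constructible_base e
  have hBq : ∀ p ∈ B, eval p (X false : MvPolynomial Bool ℂ) ≠ 0 := by
    intro p hp
    rw [eval_X]
    exact hp.1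
  have hval := hF.2 Bool B (X false) hBc hBq
  have hE : ESeq (Λ ∪ {1}) fun m => (P.rat.L ^ Fintype.card ι) * AA P f B (X false) m := by
    apply hQ1.2.2.1
    have h1 : AA P f B (X false) = fun m =>
        ((haar α :: ts).map fun t => t.val P B (X false) m).sum := by
      funext m
      exact hval m
    rw [h1]
    apply eseq_list hQ1
    intro t ht
    rcases List.mem_cons.1 ht with rfl | ht
    · have h2 := hQ1.1 {1} (Λ ∪ {1}) _ (Set.subset_union_right) (eseq_haar hQ1 α)
      have h3 := hQ1.2.2.1 _ _ (P.rat.val {v : Bool ⊕ Unit → ℂ | (fun p => v (Sum.inl p)) ∈ B ∧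
        (fun s => v (Sum.inr s)) ∈ (haar α).S ∧
        eval (fun p => v (Sum.inl p)) (X false) = eval (fun s => v (Sum.inr s)) (haar α).u}) h2
      convert h3 using 1
      funext m
      exact mul_comm _ _
    · have h2 := hQ1.1 Λ (Λ ∪ {1}) _ (Set.subset_union_left) (hts t ht)
      haveI := t.fin
      have h3 := hQ1.2.2.1 _ _ (P.rat.val {v : Bool ⊕ t.σ → ℂ | (fun p => v (Sum.inl p)) ∈ B ∧
        (fun s => v (Sum.inr s)) ∈ t.S ∧
        eval (fun p => v (Sum.inl p)) (X false) = eval (fun s => v (Sum.inr s)) t.u}) h2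
      convert h3 using 1
      funext m
      exact mul_comm _ _
  have hR' : IsLim (zetaSer P.rat xq f e) R := hR
  rw [(hVA P ι f).2.2 e] at hR'
  obtain ⟨r, hr, hsr⟩ := hQ5 _ _ R hE hR' s hs
  rcases hr with hr | hr
  · obtain ⟨β, k, hβ, hk, hw⟩ := hW r hr
    have hne : ∀ n : ℕ, (β : ℂ) ≠ n := by
      intro n h
      have h1 : β = (n : ℚ) := by exact_mod_cast h
      rw [h1] at hβ
      have : (0 : ℚ) ≤ (n : ℚ) := Nat.cast_nonneg _
      linarith
    refine ⟨(β : ℂ), fun b hb => hW5 ι f β hne hw b (isEvBernstein_of hb), ?_⟩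
    have h1 : (β : ℂ) = s + k := by
      rw [hsr, hk]
      push_cast
      ring
    rw [h1, mul_add, Complex.exp_add]
    have h2 : Complex.exp (2 * Real.pi * Complex.I * (k : ℂ)) = 1 := by
      rw [Complex.exp_eq_one_iff]
      exact ⟨k, by ring⟩
    rw [h2, mul_one]
  · rw [Set.mem_singleton_iff] at hr
    refine ⟨-1, fun b hb => stmt_SM ι f b hnc hb, ?_⟩
    rw [hsr, hr]
    congr 1
    push_cast
    ring

end Pool.Agent.Mono.TS
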