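import Pool.Agent.Work.Monodromy4.DataAdm
import Pool.Agent.Work.Monodromy4.TMain
import Pool.Agent.Work.Monodromy.Statement4
import Pool.Agent.Work.Monodromy.SI
import Pool.Agent.Work.Monodromy.Final1

/-!
# The class of composite polynomials
-/

set_option linter.unusedSectionVars false
set_option linter.style.haveILetI false

namespace Pool.Agent.Mono.TS

open MvPolynomial

/-- admissible up to an automorphism -/
def AdmA (ι : Type) [Fintype ι] [DecidableEq ι] (f : MvPolynomial ι ℂ) : Prop :=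
  ∃ β : MvPolynomial ι ℂ ≃ₐ[ℂ] MvPolynomial ι ℂ, Adm ι (β f)

namespace FAux

variable {ι κ : Type}

/-- the homomorphism `β ⊕ γ` -/
noncomputable def sumHom (β : MvPolynomial ι ℂ →ₐ[ℂ] MvPolynomial ι ℂ)
    (γ : MvPolynomial κ ℂ →ₐ[ℂ] MvPolynomial κ ℂ) :
    MvPolynomial (ι ⊕ κ) ℂ →ₐ[ℂ] MvPolynomial (ι ⊕ κ) ℂ :=
  aeval (Sum.elim (fun i => rename Sum.inl (β (X i))) fun j => rename Sum.inr (γ (X j)))

theorem sumHom_inl (β : MvPolynomial ι ℂ →ₐ[ℂ] MvPolynomial ι ℂ)
    (γ : MvPolynomial κ ℂ →ₐ[ℂ] MvPolynomial κ ℂ) (f : MvPolynomial ι ℂ) :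
    sumHom β γ (rename Sum.inl f) = rename Sum.inl (β f) := by
  have h : ((sumHom β γ).comp (rename Sum.inl)) =
      ((rename Sum.inl : MvPolynomial ι ℂ →ₐ[ℂ] MvPolynomial (ι ⊕ κ) ℂ).comp β) := by
    apply algHom_ext
    intro i
    simp [sumHom]
  exact congrArg (fun g => g f) h

theorem sumHom_inr (β : MvPolynomial ι ℂ →ₐ[ℂ] MvPolynomial ι ℂ)
    (γ : MvPolynomial κ ℂ →ₐ[ℂ] MvPolynomial κ ℂ) (f : MvPolynomial κ ℂ) :
    sumHom β γ (rename Sum.inr f) = rename Sum.inr (γ f) := by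
  have h : ((sumHom β γ).comp (rename Sum.inr)) =
      ((rename Sum.inr : MvPolynomial κ ℂ →ₐ[ℂ] MvPolynomial (ι ⊕ κ) ℂ).comp γ) := by
    apply algHom_ext
    intro i
    simp [sumHom]
  exact congrArg (fun g => g f) h

theorem sumHom_comp (β β' : MvPolynomial ι ℂ →ₐ[ℂ] MvPolynomial ι ℂ)
    (γ γ' : MvPolynomial κ ℂ →ₐ[ℂ] MvPolynomial κ ℂ) (h : β.comp β' = AlgHom.id ℂ _)
    (h' : γ.comp γ' = AlgHom.id ℂ _) : (sumHom β γ).comp (sumHom β' γ') = AlgHom.id ℂ _ := by
  apply algHom_ext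
  rintro (i | j)
  · have h1 : sumHom β' γ' (X (Sum.inl i)) = rename Sum.inl (β' (X i)) := by simp [sumHom]
    have h2 : β (β' (X i)) = X i := congrArg (fun g => g (X i)) h
    rw [AlgHom.comp_apply, h1, sumHom_inl, h2, rename_X]
    rfl
  · have h1 : sumHom β' γ' (X (Sum.inr j)) = rename Sum.inr (γ' (X j)) := by simp [sumHom]
    have h2 : γ (γ' (X j)) = X j := congrArg (fun g => g (X j)) h'
    rw [AlgHom.comp_apply, h1, sumHom_inr, h2, rename_X]
    rfl

/-- the automorphism `β ⊕ γ` -/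
noncomputable def sumAut (β : MvPolynomial ι ℂ ≃ₐ[ℂ] MvPolynomial ι ℂ)
    (γ : MvPolynomial κ ℂ ≃ₐ[ℂ] MvPolynomial κ ℂ) :
    MvPolynomial (ι ⊕ κ) ℂ ≃ₐ[ℂ] MvPolynomial (ι ⊕ κ) ℂ :=
  AlgEquiv.ofAlgHom (sumHom β.toAlgHom γ.toAlgHom) (sumHom β.symm.toAlgHom γ.symm.toAlgHom)
    (sumHom_comp _ _ _ _ (by ext; simp) (by ext; simp))
    (sumHom_comp _ _ _ _ (by ext; simp) (by ext; simp))

theorem sumAut_inl (β : MvPolynomial ι ℂ ≃ₐ[ℂ] MvPolynomial ι ℂ)
    (γ : MvPolynomial κ ℂ ≃ₐ[ℂ] MvPolynomial κ ℂ) (f : MvPolynomial ι ℂ) :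
    sumAut β γ (rename Sum.inl f) = rename Sum.inl (β f) := sumHom_inl _ _ _

theorem sumAut_inr (β : MvPolynomial ι ℂ ≃ₐ[ℂ] MvPolynomial ι ℂ)
    (γ : MvPolynomial κ ℂ ≃ₐ[ℂ] MvPolynomial κ ℂ) (f : MvPolynomial κ ℂ) :
    sumAut β γ (rename Sum.inr f) = rename Sum.inr (γ f) := sumHom_inr _ _ _

theorem map_CA (β : MvPolynomial ι ℂ ≃ₐ[ℂ] MvPolynomial ι ℂ) (c : ℂ) : β (C c) = C c := by
  have := β.commutes c
  rwa [algebraMap_eq] at this

end FAux

open FAux

theorem AdmA.of {ι : Type} [Fintype ι] [DecidableEq ι] {f : MvPolynomial ι ℂ} (h : Adm ι f) :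
    AdmA ι f := ⟨AlgEquiv.refl, h⟩

theorem adm_inst {ι : Type} (i1 i2 : Fintype ι) (d1 d2 : DecidableEq ι) (f : MvPolynomial ι ℂ)
    (h : @AdmA ι i1 d1 f) : @AdmA ι i2 d2 f := by
  have h1 : i1 = i2 := Subsingleton.elim _ _
  have h2 : d1 = d2 := Subsingleton.elim _ _
  subst h1 h2
  exact h

theorem composite_adm (hA : Stmt_Adm) {ι : Type} {f : MvPolynomial ι ℂ} (h : Composite ι f) :
    ∀ [Fintype ι] [DecidableEq ι], AdmA ι f := by
  classical
  induction h with
  | @arrangement ι κ i1 i2 a b c m f ha hf h =>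
      have d1 : DecidableEq ι := Classical.decEq ι
      suffices key : AdmA ι f by
        intro i3 d3
        exact adm_inst i1 i3 d1 d3 f key
      apply AdmA.of
      set D : Data ι κ := ⟨a, b, fun _ => 0, c, m⟩ with hD
      have hpoly : D.poly = f := by
        rw [hf, Data.poly]
        congr 1
        refine Finset.prod_congr rfl fun j _ => ?_
        rw [Data.form]
        show (C (0 : ℂ) + _) ^ _ = _
        rw [C_0, zero_add]
      have hf0 : f ≠ 0 := AdmAux.ne_zero_of_nonconst h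
      rw [← hpoly]
      apply data_adm hA ι κ D (fun _ => rfl)
      · refine ⟨ha, fun j hj => Or.inr ?_⟩
        by_contra h0
        push Not at h0
        apply hf0
        rw [hf]
        apply mul_eq_zero_of_right
        apply Finset.prod_eq_zero (Finset.mem_univ j)
        rw [Finset.sum_eq_zero fun i _ => ?_, zero_pow (Nat.pos_iff_ne_zero.1 hj)]
        have : c j i = 0 := h0 i
        rw [this, C_0, zero_mul]
      · rw [hpoly]
        exact h
  | @add ι κ f g hf hg ihf ihg =>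
      intro i3 d3
      have : Finite ι := Finite.of_injective (Sum.inl : ι → ι ⊕ κ) Sum.inl_injective
      have : Finite κ := Finite.of_injective (Sum.inr : κ → ι ⊕ κ) Sum.inr_injective
      let _ := Fintype.ofFinite ι
      let _ := Fintype.ofFinite κ
      obtain ⟨β, hβ⟩ := ihf
      obtain ⟨γ, hγ⟩ := ihg
      refine adm_inst (instFintypeSum ι κ) i3 (fun a b => instDecidableEqSum a b) d3 _
        ⟨sumAut β γ, ?_⟩
      rw [map_add, sumAut_inl, sumAut_inr]
      exact (hA.2.2.2.1 ι κ _ _ hβ hγ).1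
  | @mul ι κ f g hf hg ihf ihg =>
      intro i3 d3
      have : Finite ι := Finite.of_injective (Sum.inl : ι → ι ⊕ κ) Sum.inl_injective
      have : Finite κ := Finite.of_injective (Sum.inr : κ → ι ⊕ κ) Sum.inr_injective
      let _ := Fintype.ofFinite ι
      let _ := Fintype.ofFinite κ
      obtain ⟨β, hβ⟩ := ihf
      obtain ⟨γ, hγ⟩ := ihg
      refine adm_inst (instFintypeSum ι κ) i3 (fun a b => instDecidableEqSum a b) d3 _
        ⟨sumAut β γ, ?_⟩
      rw [map_mul, sumAut_inl, sumAut_inr]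
      exact (hA.2.2.2.1 ι κ _ _ hβ hγ).2
  | pow k hk hf ih =>
      intro i3 d3
      obtain ⟨β, hβ⟩ := ih
      refine ⟨β, ?_⟩
      rw [map_pow]
      exact hA.2.2.1 _ _ k hk hβ
  | scale c hc hf ih =>
      intro i3 d3
      obtain ⟨β, hβ⟩ := ih
      refine ⟨β, ?_⟩
      rw [map_mul, map_CA]
      exact hA.2.1 _ _ c hc hβ
  | @rename ι κ f φ hφ hf ih =>
      intro i3 d3
      have : Finite ι := Finite.of_injective φ hφ
      let _ := Fintype.ofFinite ι
      obtain ⟨β, hβ⟩ := ih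
      let e : ι ⊕ ((Set.range φ)ᶜ : Set κ) ≃ κ :=
        (Equiv.sumCongr (Equiv.ofInjective φ hφ) (Equiv.refl _)).trans
          (Equiv.Set.sumCompl (Set.range φ))
      have h3 : (e ∘ Sum.inl : ι → κ) = φ := by
        funext i
        simp [e]
      let δ : MvPolynomial κ ℂ ≃ₐ[ℂ] MvPolynomial κ ℂ :=
        ((renameEquiv ℂ e).symm.trans (sumAut β AlgEquiv.refl)).trans (renameEquiv ℂ e)
      refine ⟨δ, ?_⟩
      have h4 : δ (rename φ f) = rename φ (β f) := by
        have h5 : (rename φ f : MvPolynomial κ ℂ) = renameEquiv ℂ e (rename Sum.inl f) := by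
          rw [renameEquiv_apply, rename_rename, h3]
        show renameEquiv ℂ e (sumAut β AlgEquiv.refl ((renameEquiv ℂ e).symm (rename φ f))) = _
        rw [h5, AlgEquiv.symm_apply_apply, sumAut_inl, renameEquiv_apply, rename_rename, h3]
      rw [h4]
      exact hA.2.2.2.2.1 ι κ _ φ hφ hβ
  | automorphism α hf ih =>
      intro i3 d3
      obtain ⟨β, hβ⟩ := ih
      refine ⟨α.symm.trans β, ?_⟩
      rw [AlgEquiv.trans_apply, AlgEquiv.symm_apply_apply]
      exact hβ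

/-- invariance under automorphisms -/
theorem good_admA (hM : Stmt_TMain) {ι : Type} [Fintype ι] [DecidableEq ι]
    {f : MvPolynomial ι ℂ} (h : AdmA ι f) (P : HodgeMeasure) (e : ℕ) (he : 1 ≤ e)
    (R : RatFunc ℚ) (hR : IsTopZeta P f e R) : GoodPoles f R := by
  obtain ⟨β, hβ⟩ := h
  have hS := stmt_SI ι ι β f rfl
  intro s hs
  have hR' : IsTopZeta P (β f) e R := by
    rw [IsTopZeta, hS.1]
    exact hR
  obtain ⟨t, ht, he'⟩ := hM ι (β f) hβ P e R he hR' s hs
  exact ⟨t, fun b hb => ht b ((hS.2 b).1 hb), he'⟩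

/-- add the constant term -/
theorem isLim_zetaSer_of1 {ι : Type} [Fintype ι] (P : HodgeMeasure) (f : MvPolynomial ι ℂ) (d : ℕ)
    (R : RatFunc ℚ) (h : IsLim (zetaSer1 P.rat (RatFunc.X)⁻¹ f d) R) :
    ∃ q : ℚ, IsTopZeta P f d (R + RatFunc.C q) := by
  have h2 := (LimOne.toRat (P.val (jetSet f d 0)))
  refine ⟨(((P.val (jetSet f d 0)).eval 1 : ℤ) : ℚ), ?_⟩
  have h3 : zetaSer P.rat (RatFunc.X)⁻¹ f d = zetaSer1 P.rat (RatFunc.X)⁻¹ f d +
      PowerSeries.C (toRat (P.val (jetSet f d 0))) := by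
    ext k
    rw [map_add, zetaSer1, zetaSer, PowerSeries.coeff_mk, PowerSeries.coeff_mk,
      PowerSeries.coeff_C]
    by_cases hk : k = 0
    · subst hk
      simp [HodgeMeasure.rat]
    · simp [hk]
  rw [IsTopZeta, h3]
  exact IsLim.add h (IsLim.C h2)

/-- twisted zeta functions -/
theorem good_twisted {ι : Type} [Fintype ι] (f : MvPolynomial ι ℂ) (P : HodgeMeasure)
    (hf : ∀ d : ℕ, 1 ≤ d → ∀ R : RatFunc ℚ, IsTopZeta P f d R → GoodPoles f R) (e : ℕ)
    (he : 1 ≤ e) (R : RatFunc ℚ) (hR : IsTwTopZeta P f e R) : GoodPoles f R := by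
  obtain ⟨r, hr, hR'⟩ := hR
  have hpos : ∀ d ∈ e.divisors, 1 ≤ d := fun d hd => Nat.pos_of_mem_divisors hd
  have hg : ∀ d ∈ e.divisors, GoodPoles f (r d) := by
    intro d hd
    obtain ⟨q, hq⟩ := isLim_zetaSer_of1 P f d (r d) (hr d hd)
    have h1 := goodPoles_add (hf d (hpos d hd) _ hq) (goodPoles_C (f := f) (-q))
    have h2 : r d + RatFunc.C q + RatFunc.C (-q) = r d := by
      rw [map_neg]
      ring
    rwa [h2] at h1
  have htot : ((e.totient : ℚ)) ≠ 0 := by exact_mod_cast (Nat.totient_pos.2 he).ne'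
  have h3 : R = RatFunc.C ((e.totient : ℚ)⁻¹) * (RatFunc.C (e.totient : ℚ) * R) := by
    rw [← mul_assoc, ← map_mul, inv_mul_cancel₀ htot, map_one, one_mul]
  rw [h3, hR']
  refine goodPoles_mul (goodPoles_C _) (goodPoles_sum _ _ fun d hd => ?_)
  exact goodPoles_mul (goodPoles_C _) (hg d hd)

/-- the monodromy conjecture for composite polynomials -/
theorem composite_top (hA : Stmt_Adm) (hM : Stmt_TMain) {ι : Type} [Fintype ι]
    {f : MvPolynomial ι ℂ} (h : Composite ι f) (P : HodgeMeasure) (R : RatFunc ℚ)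
    (hR : IsTopologicalZeta P f R) : GoodPoles f R := by
  classical
  exact good_admA hM (composite_adm hA h) P 1 le_rfl R ((isTopologicalZeta_iff P f R).1 hR)

/-- the monodromy conjecture for composite polynomials, twisted -/
theorem composite_tw (hA : Stmt_Adm) (hM : Stmt_TMain) {ι : Type} [Fintype ι]
    {f : MvPolynomial ι ℂ} (h : Composite ι f) (P : HodgeMeasure) (e : ℕ) (he : 1 ≤ e)
    (R : RatFunc ℚ) (hR : IsTwTopZeta P f e R) : GoodPoles f R := by
  classical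
  exact good_twisted f P (fun d hd R hR => good_admA hM (composite_adm hA h) P d hd R hR) e he R hR

end Pool.Agent.Mono.TS
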