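import Pool.Agent.Work.Monodromy4.Admf

/-!
# Block Adm: closure properties of the class
-/

set_option linter.unusedSectionVars false

namespace Pool.Agent.Mono.TS

open MvPolynomial

namespace AdmAux

variable {ι κ : Type}

theorem degreeOf_le_of_dvd {d f : MvPolynomial ι ℂ} (hf : f ≠ 0) (h : d ∣ f) (i : ι) :
    degreeOf i d ≤ degreeOf i f := by
  obtain ⟨e, rfl⟩ := h
  have hd : d ≠ 0 := left_ne_zero_of_mul hf
  have he : e ≠ 0 := right_ne_zero_of_mul hf
  rw [degreeOf_mul_eq hd he]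
  omega

theorem degreeOf_rename_zero (φ : ι → κ) (f : MvPolynomial ι ℂ) {j : κ} (hj : ∀ i, φ i ≠ j) :
    degreeOf j (rename φ f) = 0 := by
  classical
  by_contra h
  have h1 : j ∈ (rename φ f).vars := mem_vars_iff_degreeOf_ne_zero.2 h
  have h2 := vars_rename φ f h1
  rw [Finset.mem_image] at h2
  obtain ⟨i, _, hi⟩ := h2
  exact hj i hi

theorem isRelPrime_sep {f : MvPolynomial ι ℂ} {g : MvPolynomial κ ℂ} (hf : f ≠ 0) (hg : g ≠ 0) :
    IsRelPrime (rename Sum.inl f : MvPolynomial (ι ⊕ κ) ℂ) (rename Sum.inr g) := by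
  intro d hd1 hd2
  have hf' : (rename Sum.inl f : MvPolynomial (ι ⊕ κ) ℂ) ≠ 0 := fun h =>
    hf (rename_injective _ Sum.inl_injective (by rw [h, map_zero]))
  have hg' : (rename Sum.inr g : MvPolynomial (ι ⊕ κ) ℂ) ≠ 0 := fun h =>
    hg (rename_injective _ Sum.inr_injective (by rw [h, map_zero]))
  have hz : ∀ i, degreeOf i d = 0 := by
    rintro (i | j)
    · have := degreeOf_le_of_dvd hg' hd2 (Sum.inl i)
      rw [degreeOf_rename_zero Sum.inr g (fun j => by simp)] at this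
      omega
    · have := degreeOf_le_of_dvd hf' hd1 (Sum.inr j)
      rw [degreeOf_rename_zero Sum.inl f (fun i => by simp)] at this
      omega
  have hd0 : d ≠ 0 := by
    rintro rfl
    exact hf' (zero_dvd_iff.1 hd1)
  have hC : d = C (coeff 0 d) := by
    classical
    ext m
    rw [coeff_C]
    split_ifs with h0
    · rw [h0]
    · by_contra hm
      apply h0
      symm
      ext i
      have h1 := monomial_le_degreeOf i (mem_support_iff.2 hm)
      rw [hz i] at h1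
      simpa using h1
  rw [hC]
  have hc : coeff 0 d ≠ 0 := by
    intro h
    apply hd0
    rw [hC, h, C_0]
  exact (isUnit_iff_ne_zero.2 hc).map C

theorem otimes_one (f : MvPolynomial ι ℂ) :
    (otimes f (1 : MvPolynomial κ ℂ)) = rename Sum.inl f := by
  rw [otimes, map_one, mul_one]

/-- witnesses and additional variables -/
theorem wit_rename (hW6 : Stmt_W6) (hW7 : Stmt_W7) [Fintype ι] [Fintype κ] [DecidableEq ι]
    [DecidableEq κ] (f : MvPolynomial ι ℂ) (φ : ι → κ) (hφ : Function.Injective φ) (β : ℂ)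
    (h : Wit f β) : Wit (rename φ f) β := by
  classical
  have h1 := (hW6 ι ((Set.range φ)ᶜ : Set κ) f 1 β one_ne_zero h).1
  rw [otimes_one] at h1
  let e : ι ⊕ ((Set.range φ)ᶜ : Set κ) ≃ κ :=
    (Equiv.sumCongr (Equiv.ofInjective φ hφ) (Equiv.refl _)).trans (Equiv.Set.sumCompl (Set.range φ))
  have h2 := hW7.2.2.2 _ _ _ e β h1
  rw [rename_rename] at h2
  have h3 : (e ∘ Sum.inl : ι → κ) = φ := by
    funext i
    simp [e]
  rw [h3] at h2
  convert h2

theorem data_nonconst [Fintype ι] [Fintype κ] [DecidableEq ι] [DecidableEq κ] (D : Data ι κ)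
    (hv : D.Valid) (h0 : eval (fun _ => 0) D.poly = 0) : D.poly.totalDegree ≠ 0 := by
  rw [nonconst_iff]
  intro c hc
  rw [hc, eval_C] at h0
  rw [h0, C_0] at hc
  have h := ELaux.poly_ne_zero D hv Finset.univ Finset.univ
  apply h
  rw [← hc]
  simp [Data.poly, Data.restr, Data.form]

theorem data_rel [Fintype ι] [Fintype κ] [DecidableEq ι] [DecidableEq κ] (D : Data ι κ)
    (hcen : D.Central) (hv : D.Valid) (h0 : eval (fun _ => 0) D.poly = 0) : ∃ i, D.Rel i := by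
  by_contra h
  push Not at h
  have hb : ∀ i, D.b i = 0 := fun i => by
    by_contra hb
    exact h i (Or.inl (Nat.pos_of_ne_zero hb))
  have hm : ∀ j, D.m j = 0 := fun j => by
    by_contra hm
    rcases hv.2 j (Nat.pos_of_ne_zero hm) with h1 | ⟨i, h1⟩
    · exact h1 (hcen j)
    · exact h i (Or.inr ⟨j, Nat.pos_of_ne_zero hm, h1⟩)
  have : D.poly = 1 := by
    simp [Data.poly, hb, hm]
  rw [this, map_one] at h0
  exact one_ne_zero h0

theorem witClass_div (hW7 : Stmt_W7) [Fintype ι] [DecidableEq ι] (f : MvPolynomial ι ℂ) (k : ℕ)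
    (hk : 1 ≤ k) (r : ℚ) (h : WitClass f ((k : ℚ) * r)) : WitClass (f ^ k) r := by
  obtain ⟨β, n, hβ, hn, hW⟩ := h
  have hk0 : (k : ℤ) ≠ 0 := by exact_mod_cast (by omega : k ≠ 0)
  have hkq : (0 : ℚ) < (k : ℚ) := by exact_mod_cast hk
  have hm0 : 0 ≤ n % (k : ℤ) := Int.emod_nonneg _ hk0
  have hmk : n % (k : ℤ) < k := Int.emod_lt_of_pos _ (by exact_mod_cast hk)
  obtain ⟨m, hm⟩ := Int.eq_ofNat_of_zero_le hm0
  have hmk' : m < k := by
    rw [hm] at hmk
    exact_mod_cast hmk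
  have hne : ∀ n' : ℕ, (β : ℂ) ≠ n' := by
    intro n' h
    have h1 : β = (n' : ℚ) := by exact_mod_cast h
    rw [h1] at hβ
    have : (0 : ℚ) ≤ (n' : ℚ) := Nat.cast_nonneg _
    linarith
  refine ⟨(β - m) / k, n / (k : ℤ), ?_, ?_, ?_⟩
  · apply div_neg_of_neg_of_pos _ hkq
    have : (0 : ℚ) ≤ (m : ℚ) := Nat.cast_nonneg _
    linarith
  · have h1 : (n : ℚ) = (k : ℚ) * ((n / (k : ℤ) : ℤ) : ℚ) + (m : ℚ) := by
      have h2 := Int.mul_ediv_add_emod n k
      rw [hm] at h2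
      have h3 : ((n : ℤ) : ℚ) = (((k : ℤ) * (n / (k : ℤ)) + (m : ℤ) : ℤ) : ℚ) := by
        rw [show (k : ℤ) * (n / (k : ℤ)) + (m : ℤ) = n from h2]
      rw [h3]
      push_cast
      ring
    rw [div_eq_iff hkq.ne', hn, h1]
    ring
  · have h1 := hW7.2.1 ι f k m (β : ℂ) hmk' hne hW
    have h2 : (((β - m) / k : ℚ) : ℂ) = ((β : ℂ) - m) / k := by push_cast; ring
    rw [h2]
    exact h1

theorem witClass_inv (hW7 : Stmt_W7) [Fintype ι] [DecidableEq ι] (f : MvPolynomial ι ℂ) (k : ℕ)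
    (hk : 2 ≤ k) (hf : f.totalDegree ≠ 0) : WitClass (f ^ k) (1 / (k : ℚ)) := by
  have hkq : (0 : ℚ) < (k : ℚ) := by
    have : (0 : ℕ) < k := by omega
    exact_mod_cast this
  refine ⟨-(1 / (k : ℚ)), 0, ?_, ?_, ?_⟩
  · have := one_div_pos.2 hkq
    linarith
  · simp
  · have h1 := hW7.1 ι f k hk hf
    have h2 : ((-(1 / (k : ℚ)) : ℚ) : ℂ) = -1 / (k : ℂ) := by push_cast; ring
    rw [h2]
    exact h1

end AdmAux

open AdmAux in
theorem stmt_Adm (hT0 : Stmt_T0) (hTK : Stmt_TK) (hTS : Stmt_TS) (hTP : Stmt_TP) (hTD : Stmt_TD)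
    (hTM : Stmt_TM) (hW2 : Stmt_W2) (hW3 : Stmt_W3) (hW4 : Stmt_W4) (hW6 : Stmt_W6)
    (hW7 : Stmt_W7) : Stmt_Adm := by
  refine ⟨?_, ?_, ?_, ?_, ?_, ?_⟩
  · refine ⟨?_, ⟨fun _ => 1, 1, fun _ => le_rfl, le_rfl, isWeightedHomogeneous_X _ _ _⟩, ?_⟩
    · rw [totalDegree_X]; exact one_ne_zero
    · intro P
      obtain ⟨h1, h2⟩ := (hT0 P).1
      exact ⟨h2, ∅, Set.empty_subset _, by simp, h1⟩
  · intro ι _ _ f c hc hf
    obtain ⟨h1, h2, h3⟩ := hf
    refine ⟨nonconst_C_mul hc h1, wh_C_mul c h2, fun P => ?_⟩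
    obtain ⟨hM, Λ, hΛ, hW, hE⟩ := h3 P
    obtain ⟨hE', hM'⟩ := (hT0 P).2.1 ι f Λ c hc hE hM
    refine ⟨hM', Λ, hΛ, fun r hr => ?_, hE'⟩
    obtain ⟨β, k, hβ, hk, hw⟩ := hW r hr
    exact ⟨β, k, hβ, hk, hW7.2.2.1 ι f c β hc hw⟩
  · intro ι _ _ f k hk hf
    rcases Nat.lt_or_ge k 2 with hk2 | hk2
    · obtain rfl : k = 1 := by omega
      rw [pow_one]
      exact hf
    obtain ⟨h1, h2, h3⟩ := hf
    refine ⟨nonconst_pow k hk h1, wh_pow k hk h2, fun P => ?_⟩
    obtain ⟨hM, Λ, hΛ, hW, hE⟩ := h3 P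
    obtain ⟨hE', hM'⟩ := hTK P ι f Λ k hk hE hM
    have hkq : (0 : ℚ) < (k : ℚ) := by exact_mod_cast hk
    refine ⟨hM', _, ?_, ?_, hE'⟩
    · rintro r (hr | hr)
      · have := hΛ hr
        rw [Set.mem_Ioi] at this ⊢
        exact pos_of_mul_pos_right this hkq.le
      · rw [Set.mem_singleton_iff] at hr
        rw [hr, Set.mem_Ioi]
        exact one_div_pos.2 hkq
    · rintro r (hr | hr)
      · exact witClass_div hW7 f k hk r (hW _ hr)
      · rw [Set.mem_singleton_iff] at hr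
        rw [hr]
        exact witClass_inv hW7 f k hk2 h1
  · intro ι κ _ _ _ _ f g hf hg
    obtain ⟨hf1, hf2, hf3⟩ := hf
    obtain ⟨hg1, hg2, hg3⟩ := hg
    have hf0 := ne_zero_of_nonconst hf1
    have hg0 := ne_zero_of_nonconst hg1
    refine ⟨⟨nonconst_oplus g hf1, wh_oplus hf2 hg2, fun P => ?_⟩,
      ⟨nonconst_otimes hf1 hg0, wh_otimes hf2 hg2, fun P => ?_⟩⟩
    · obtain ⟨hM, Λ, hΛ, hW, hE⟩ := hf3 P
      obtain ⟨hM', Λ', hΛ', hW', hE'⟩ := hg3 P
      obtain ⟨hE2, hM2⟩ := hTS P ι κ f g Λ Λ' hf2 hΛ hΛ' hE hM hE' hM'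
      refine ⟨hM2, _, ?_, ?_, hE2⟩
      · rintro r ⟨a, ha, b, hb, rfl⟩
        have h1 : 0 < a := hΛ ha
        have h2 : 0 < b := hΛ' hb
        exact Set.mem_Ioi.2 (add_pos h1 h2)
      · rintro r ⟨a, ha, b, hb, rfl⟩
        obtain ⟨β, n, hβ, hn, hw⟩ := hW a ha
        obtain ⟨β', n', hβ', hn', hw'⟩ := hW' b hb
        refine ⟨β + β', n + n', add_neg hβ hβ', ?_, ?_⟩
        · rw [hn, hn']; push_cast; ring
        · have h1 := hW4 ι κ f g β β' hw hw'
          rw [Rat.cast_add]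
          exact h1
    · obtain ⟨hM, Λ, hΛ, hW, hE⟩ := hf3 P
      obtain ⟨hM', Λ', hΛ', hW', hE'⟩ := hg3 P
      obtain ⟨hE2, hM2⟩ := hTP P ι κ f g Λ Λ' hΛ hΛ' hE hM hE' hM'
      refine ⟨hM2, _, ?_, ?_, hE2⟩
      · rintro r ((hr | hr) | hr)
        · exact hΛ hr
        · exact hΛ' hr
        · rw [Set.mem_singleton_iff] at hr
          rw [hr, Set.mem_Ioi]
          exact one_pos
      · rintro r ((hr | hr) | hr)
        · obtain ⟨β, n, hβ, hn, hw⟩ := hW r hr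
          exact ⟨β, n, hβ, hn, (hW6 ι κ f g β hg0 hw).1⟩
        · obtain ⟨β, n, hβ, hn, hw⟩ := hW' r hr
          exact ⟨β, n, hβ, hn, (hW6 κ ι g f β hf0 hw).2⟩
        · rw [Set.mem_singleton_iff] at hr
          rw [hr]
          refine ⟨-1, 0, by norm_num, by norm_num, ?_⟩
          have hf' : (rename Sum.inl f : MvPolynomial (ι ⊕ κ) ℂ) ≠ 0 := fun h =>
            hf0 (rename_injective _ Sum.inl_injective (by rw [h, map_zero]))
          have hg' : (rename Sum.inr g : MvPolynomial (ι ⊕ κ) ℂ) ≠ 0 := fun h =>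
            hg0 (rename_injective _ Sum.inr_injective (by rw [h, map_zero]))
          have h1 := hW3 (ι ⊕ κ) (rename Sum.inl f) (rename Sum.inr g) (fun _ => 0) hf' hg'
            (isRelPrime_sep hf0 hg0)
            (by
              rw [eval_rename]
              exact eval_zero_of_wh hf2)
            (by
              rw [eval_rename]
              exact eval_zero_of_wh hg2)
          have h2 : ((-1 : ℚ) : ℂ) = -1 := by push_cast; ring
          rw [h2]
          exact h1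
  · intro ι κ _ _ _ _ f φ hφ hf
    obtain ⟨h1, h2, h3⟩ := hf
    refine ⟨nonconst_rename φ hφ h1, wh_rename' φ hφ h2, fun P => ?_⟩
    obtain ⟨hM, Λ, hΛ, hW, hE⟩ := h3 P
    obtain ⟨hE', hM'⟩ := (hT0 P).2.2 ι κ f Λ φ hφ hE hM
    refine ⟨hM', Λ, hΛ, fun r hr => ?_, hE'⟩
    obtain ⟨β, k, hβ, hk, hw⟩ := hW r hr
    exact ⟨β, k, hβ, hk, wit_rename hW6 hW7 f φ hφ _ hw⟩
  · intro ι κ _ _ _ _ D g h hcen hv hgh hrel hg0 hh0
    have h0 : eval (fun _ => 0) D.poly = 0 := by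
      rw [hgh, map_mul, hg0, zero_mul]
    have hnc := data_nonconst D hv h0
    have hR := data_rel D hcen hv h0
    have hne := ne_zero_of_nonconst hnc
    have hg : g ≠ 0 := by
      rintro rfl
      rw [zero_mul] at hgh
      exact hne hgh
    have hh : h ≠ 0 := by
      rintro rfl
      rw [mul_zero] at hgh
      exact hne hgh
    have hwh : WH D.poly := by
      obtain ⟨w, d, hw, hd⟩ := ELaux.homog D hcen hv.1
      exact ⟨w, d, hw, wh_pos w hw hd hnc, hd⟩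
    refine ⟨hnc, hwh, fun P => ⟨hTM P ι κ D hcen hv hR, _, ?_, ?_, hTD P ι κ D hcen hv hR⟩⟩
    · rintro r ⟨q, hq, rfl⟩
      rw [Set.mem_Ioi]
      have h1 : (0 : ℚ) < (q.1 : ℚ) := by exact_mod_cast hq.1
      have h2 : (0 : ℚ) < (q.2 : ℚ) := by exact_mod_cast hq.2.1
      exact div_pos h2 h1
    · rintro r ⟨q, hq, rfl⟩
      have h1 : (0 : ℚ) < (q.1 : ℚ) := by exact_mod_cast hq.1
      have h2 : (0 : ℚ) < (q.2 : ℚ) := by exact_mod_cast hq.2.1
      by_cases hint : ∃ k : ℤ, (q.2 : ℚ) / (q.1 : ℚ) = k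
      · obtain ⟨k, hk⟩ := hint
        refine ⟨-1, k - 1, by norm_num, ?_, ?_⟩
        · rw [hk]; push_cast; ring
        · have h3 := hW3 ι g h (fun _ => 0) hg hh hrel hg0 hh0
          have h4 : ((-1 : ℚ) : ℂ) = -1 := by push_cast; ring
          rw [h4, hgh]
          exact h3
      · push Not at hint
        obtain ⟨j, hj⟩ := hq.2.2
        apply hW2 ι D.poly _ j hne (div_pos h2 h1) hint
        intro b hb
        have h3 := hj b hb
        rw [← h3]
        congr 1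
        push_cast
        ring

end Pool.Agent.Mono.TS
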