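import Pool.Agent.Work.Monodromy.Interface4
import Pool.Agent.Work.Monodromy.ELC

/-!
# Block Adm, part 1: weighted homogeneity and degrees
-/

set_option linter.unusedSectionVars false

namespace Pool.Agent.Mono.TS.AdmAux

open MvPolynomial

variable {ι κ : Type}

theorem wh_rename (w : ι → ℕ) (w' : κ → ℕ) (φ : ι → κ) (h : ∀ i, w' (φ i) = w i)
    {f : MvPolynomial ι ℂ} {d : ℕ} (hf : IsWeightedHomogeneous w f d) :
    IsWeightedHomogeneous w' (rename φ f) d := by
  intro m hm
  obtain ⟨u, rfl, hu⟩ := coeff_rename_ne_zero _ _ _ hm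
  rw [← hf hu, Finsupp.weight_apply, Finsupp.weight_apply, Finsupp.sum_mapDomain_index]
  · exact Finsupp.sum_congr fun i _ => by rw [h i]
  · intro i; simp
  · intro i a b; rw [add_smul]

theorem wh_scale (w : ι → ℕ) (k : ℕ) {f : MvPolynomial ι ℂ} {d : ℕ}
    (hf : IsWeightedHomogeneous w f d) :
    IsWeightedHomogeneous (fun i => k * w i) f (k * d) := by
  intro m hm
  rw [← hf hm, Finsupp.weight_apply, Finsupp.weight_apply, Finsupp.sum, Finsupp.sum,
    Finset.mul_sum]
  refine Finset.sum_congr rfl fun i _ => ?_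
  simp only [smul_eq_mul]
  ring

/-- a weighted homogeneous polynomial of degree zero is constant -/
theorem wh_pos (w : ι → ℕ) (hw : ∀ i, 1 ≤ w i) {f : MvPolynomial ι ℂ} {d : ℕ}
    (hf : IsWeightedHomogeneous w f d) (h : f.totalDegree ≠ 0) : 1 ≤ d := by
  classical
  by_contra hd
  have hd0 : d = 0 := by omega
  subst hd0
  apply h
  rw [totalDegree_eq_zero_iff_eq_C]
  ext m
  rw [coeff_C]
  by_cases hm : coeff m f = 0
  · rw [hm]
    split_ifs with h0
    · rw [h0]; exact hm.symm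
    · rfl
  · have h1 := hf hm
    have h2 : m = 0 := by
      ext i
      by_contra hi
      have h3 : i ∈ m.support := Finsupp.mem_support_iff.2 hi
      rw [Finsupp.weight_apply, Finsupp.sum] at h1
      have h4 := (Finset.sum_eq_zero_iff_of_nonneg (fun _ _ => Nat.zero_le _)).1 h1 i h3
      simp only [smul_eq_mul, mul_eq_zero] at h4
      have := hw i
      rcases h4 with h4 | h4
      · exact hi h4
      · omega
    rw [if_pos h2.symm, h2]

theorem eval_zero_of_wh {f : MvPolynomial ι ℂ} (h : WH f) : eval (fun _ => 0) f = 0 := by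
  obtain ⟨w, d, hw, hd, hf⟩ := h
  rw [← constantCoeff_eq_eval]
  rw [constantCoeff_eq]
  by_contra h0
  have := hf h0
  rw [map_zero] at this
  omega
where
  constantCoeff_eq_eval : ∀ g : MvPolynomial ι ℂ, constantCoeff g = eval (fun _ => 0) g := by
    intro g
    induction g using MvPolynomial.induction_on with
    | C a => simp
    | add p q hp hq => rw [map_add, map_add, hp, hq]
    | mul_X p i _ => simp

theorem nonconst_iff (f : MvPolynomial ι ℂ) : f.totalDegree ≠ 0 ↔ ∀ c : ℂ, f ≠ C c := by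
  constructor
  · rintro h c rfl
    exact h (totalDegree_C c)
  · intro h h0
    exact h _ (totalDegree_eq_zero_iff_eq_C.1 h0)

theorem ne_zero_of_nonconst {f : MvPolynomial ι ℂ} (h : f.totalDegree ≠ 0) : f ≠ 0 := by
  rintro rfl
  exact h totalDegree_zero

/-- specialise the second group of variables -/
noncomputable def spec1 (y : κ → ℂ) : MvPolynomial (ι ⊕ κ) ℂ →ₐ[ℂ] MvPolynomial ι ℂ :=
  aeval (Sum.elim X fun j => C (y j))

theorem spec1_inl (y : κ → ℂ) (f : MvPolynomial ι ℂ) : spec1 y (rename Sum.inl f) = f := by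
  rw [spec1, aeval_rename]
  exact aeval_X_left_apply f

theorem spec1_inr (y : κ → ℂ) (g : MvPolynomial κ ℂ) :
    (spec1 y (rename Sum.inr g) : MvPolynomial ι ℂ) = C (eval y g) := by
  rw [spec1, aeval_rename]
  have : (Sum.elim X fun j => C (y j) : ι ⊕ κ → MvPolynomial ι ℂ) ∘ Sum.inr =
      fun j => C (y j) := rfl
  rw [this]
  induction g using MvPolynomial.induction_on with
  | C a => simp
  | add p q hp hq => rw [map_add, hp, hq, map_add, map_add]
  | mul_X p i hp => rw [map_mul, hp, aeval_X, map_mul, eval_X, map_mul]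

theorem nonconst_oplus {f : MvPolynomial ι ℂ} (g : MvPolynomial κ ℂ) (hf : f.totalDegree ≠ 0) :
    (oplus f g).totalDegree ≠ 0 := by
  rw [nonconst_iff] at hf ⊢
  intro c hc
  have h := congrArg (spec1 (fun _ => 0)) hc
  rw [oplus, map_add, spec1_inl, spec1_inr] at h
  have h2 : (spec1 (fun _ => 0) (C c : MvPolynomial (ι ⊕ κ) ℂ) : MvPolynomial ι ℂ) = C c := by
    rw [spec1, aeval_C]; rfl
  rw [h2] at h
  apply hf (c - eval (fun _ => 0) g)
  rw [C_sub, ← h]
  ring

theorem exists_eval_ne {g : MvPolynomial κ ℂ} (hg : g ≠ 0) : ∃ y, eval y g ≠ 0 := by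
  by_contra h
  push Not at h
  exact hg (MvPolynomial.funext fun y => by rw [h y, map_zero])

theorem nonconst_otimes {f : MvPolynomial ι ℂ} {g : MvPolynomial κ ℂ} (hf : f.totalDegree ≠ 0)
    (hg : g ≠ 0) : (otimes f g).totalDegree ≠ 0 := by
  rw [nonconst_iff] at hf ⊢
  intro c hc
  obtain ⟨y, hy⟩ := exists_eval_ne hg
  have h := congrArg (spec1 y) hc
  rw [otimes, map_mul, spec1_inl, spec1_inr] at h
  have h2 : (spec1 y (C c : MvPolynomial (ι ⊕ κ) ℂ) : MvPolynomial ι ℂ) = C c := by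
    rw [spec1, aeval_C]; rfl
  rw [h2] at h
  apply hf (c / eval y g)
  have h3 : f * C (eval y g) * C (eval y g)⁻¹ = C c * C (eval y g)⁻¹ := by rw [h]
  rw [mul_assoc, ← C_mul, mul_inv_cancel₀ hy, C_1, mul_one, ← C_mul] at h3
  rw [h3, div_eq_mul_inv]

theorem nonconst_C_mul {f : MvPolynomial ι ℂ} {c : ℂ} (hc : c ≠ 0) (hf : f.totalDegree ≠ 0) :
    (C c * f).totalDegree ≠ 0 := by
  rw [nonconst_iff] at hf ⊢
  intro a ha
  apply hf (c⁻¹ * a)
  rw [C_mul, ← ha, ← mul_assoc, ← C_mul, inv_mul_cancel₀ hc, C_1, one_mul]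

theorem nonconst_pow {f : MvPolynomial ι ℂ} (k : ℕ) (hk : 1 ≤ k) (hf : f.totalDegree ≠ 0) :
    (f ^ k).totalDegree ≠ 0 := by
  have hf0 := ne_zero_of_nonconst hf
  obtain ⟨k, rfl⟩ : ∃ k', k = k' + 1 := ⟨k - 1, by omega⟩
  rw [pow_succ, totalDegree_mul_of_isDomain (pow_ne_zero _ hf0) hf0]
  omega

theorem nonconst_rename {f : MvPolynomial ι ℂ} (φ : ι → κ) (hφ : Function.Injective φ)
    (hf : f.totalDegree ≠ 0) : (rename φ f).totalDegree ≠ 0 := by
  rw [nonconst_iff] at hf ⊢
  intro c hc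
  apply hf c
  apply rename_injective φ hφ
  rw [hc, rename_C]

theorem wh_oplus {f : MvPolynomial ι ℂ} {g : MvPolynomial κ ℂ} (hf : WH f) (hg : WH g) :
    WH (oplus f g) := by
  obtain ⟨w, d, hw, hd, hf⟩ := hf
  obtain ⟨w', d', hw', hd', hg⟩ := hg
  refine ⟨Sum.elim (fun i => d' * w i) fun j => d * w' j, d * d', ?_, ?_, ?_⟩
  · rintro (i | j)
    · exact Nat.mul_pos hd' (hw i)
    · exact Nat.mul_pos hd (hw' j)
  · exact Nat.mul_pos hd hd'
  · have h1 := wh_rename (fun i => d' * w i) (Sum.elim (fun i => d' * w i) fun j => d * w' j)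
      Sum.inl (fun _ => rfl) (wh_scale w d' hf)
    have h2 := wh_rename (fun j => d * w' j) (Sum.elim (fun i => d' * w i) fun j => d * w' j)
      Sum.inr (fun _ => rfl) (wh_scale w' d hg)
    rw [mul_comm d' d] at h1
    exact h1.add h2

theorem wh_otimes {f : MvPolynomial ι ℂ} {g : MvPolynomial κ ℂ} (hf : WH f) (hg : WH g) :
    WH (otimes f g) := by
  obtain ⟨w, d, hw, hd, hf⟩ := hf
  obtain ⟨w', d', hw', hd', hg⟩ := hg
  refine ⟨Sum.elim w w', d + d', ?_, by omega, ?_⟩
  · rintro (i | j)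
    · exact hw i
    · exact hw' j
  · exact (wh_rename w (Sum.elim w w') Sum.inl (fun _ => rfl) hf).mul
      (wh_rename w' (Sum.elim w w') Sum.inr (fun _ => rfl) hg)

theorem wh_C_mul {f : MvPolynomial ι ℂ} (c : ℂ) (hf : WH f) : WH (C c * f) := by
  obtain ⟨w, d, hw, hd, hf⟩ := hf
  exact ⟨w, d, hw, hd, hf.C_mul c⟩

theorem wh_pow {f : MvPolynomial ι ℂ} (k : ℕ) (hk : 1 ≤ k) (hf : WH f) : WH (f ^ k) := by
  obtain ⟨w, d, hw, hd, hf⟩ := hf
  exact ⟨w, k • d, hw, Nat.mul_pos hk hd, hf.pow k⟩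

theorem wh_rename' {f : MvPolynomial ι ℂ} (φ : ι → κ) (hφ : Function.Injective φ) (hf : WH f) :
    WH (rename φ f) := by
  classical
  obtain ⟨w, d, hw, hd, hf⟩ := hf
  refine ⟨fun j => if h : ∃ i, φ i = j then w h.choose else 1, d, ?_, hd, ?_⟩
  · intro j
    show 1 ≤ if h : ∃ i, φ i = j then w h.choose else 1
    split_ifs with h
    · exact hw _
    · exact le_rfl
  · apply wh_rename w _ φ _ hf
    intro i
    have h : ∃ i', φ i' = φ i := ⟨i, rfl⟩
    show (if h : ∃ i', φ i' = φ i then w h.choose else 1) = w i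
    rw [dif_pos h]
    congr 1
    exact hφ h.choose_spec

end Pool.Agent.Mono.TS.AdmAux
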