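import Pool.Agent.Work.Monodromy4.Adm

/-!
# All nonconstant central data polynomials are in the class
-/

set_option linter.unusedSectionVars false

namespace Pool.Agent.Mono.TS

open MvPolynomial

namespace DataAux

variable {ι κ : Type}

/-- `∑_i v_i x_i^{a_i}` -/
noncomputable def pf [Fintype ι] (a : ι → ℕ) (v : ι → ℂ) : MvPolynomial ι ℂ :=
  ∑ i, C (v i) * X i ^ a i

theorem dvd_pderiv {d f : MvPolynomial ι ℂ} (i : ι) (hd : pderiv i d = 0) (h : d ∣ f) :
    d ∣ pderiv i f := by
  obtain ⟨e, rfl⟩ := h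
  rw [Derivation.leibniz, hd, smul_zero, add_zero]
  exact ⟨pderiv i e, rfl⟩

theorem pderiv_X_pow' (i : ι) (n : ℕ) :
    pderiv i (X i ^ (n + 1) : MvPolynomial ι ℂ) = C ((n : ℂ) + 1) * X i ^ n := by
  rw [Derivation.leibniz_pow, pderiv_X_self]
  simp

theorem pderiv_iter_pf [Fintype ι] [DecidableEq ι] (a : ι → ℕ) (v : ι → ℂ) (i : ι) (n : ℕ)
    (hn : n < a i) : ∃ c : ℂ, (v i ≠ 0 → c ≠ 0) ∧
      (pderiv i)^[n + 1] (pf a v) = C c * X i ^ (a i - (n + 1)) := by
  induction n with
  | zero =>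
      obtain ⟨m, hm⟩ : ∃ m, a i = m + 1 := ⟨a i - 1, by omega⟩
      refine ⟨v i * ((m : ℂ) + 1), fun h => mul_ne_zero h (Nat.cast_add_one_ne_zero m), ?_⟩
      rw [Function.iterate_one, pf, map_sum, Finset.sum_eq_single i]
      · rw [pderiv_C_mul, hm, pderiv_X_pow', C_mul]
        simp [mul_assoc]
      · intro j _ hj
        rw [pderiv_C_mul, Derivation.leibniz_pow, pderiv_X_of_ne hj]
        simp
      · intro h; exact absurd (Finset.mem_univ i) h
  | succ n ih =>
      obtain ⟨c, hc, h⟩ := ih (by omega)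
      rw [Function.iterate_succ_apply', h]
      obtain ⟨m, hm⟩ : ∃ m, a i - (n + 1) = m + 1 := ⟨a i - (n + 1) - 1, by omega⟩
      refine ⟨c * ((m : ℂ) + 1), fun h => mul_ne_zero (hc h) (Nat.cast_add_one_ne_zero m), ?_⟩
      rw [hm, pderiv_C_mul, pderiv_X_pow', C_mul, show a i - (n + 1 + 1) = m by omega]
      ring

theorem dvd_iter {d f : MvPolynomial ι ℂ} (i : ι) (hd : pderiv i d = 0) (h : d ∣ f) (n : ℕ) :
    d ∣ (pderiv i)^[n] f := by
  induction n with
  | zero => exact h
  | succ n ih => rw [Function.iterate_succ_apply']; exact dvd_pderiv i hd ih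

/-- a divisor of `pf a v` which does not involve `x_i`, `v_i ≠ 0`, is a unit -/
theorem unit_of_dvd [Fintype ι] [DecidableEq ι] (a : ι → ℕ) (ha : ∀ i, 1 ≤ a i) (v : ι → ℂ) (i : ι) (hv : v i ≠ 0)
    (d : MvPolynomial ι ℂ) (hd : pderiv i d = 0) (h : d ∣ pf a v) : IsUnit d := by
  obtain ⟨c, hc, h1⟩ := pderiv_iter_pf a v i (a i - 1) (by have := ha i; omega)
  have h2 := dvd_iter i hd h (a i - 1 + 1)
  rw [h1] at h2
  have h3 : a i - (a i - 1 + 1) = 0 := by omega
  rw [h3, pow_zero, mul_one] at h2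
  exact isUnit_of_dvd_unit h2 ((isUnit_iff_ne_zero.2 (hc hv)).map C)

theorem pf_add [Fintype ι] (a : ι → ℕ) (v w : ι → ℂ) (x y : ℂ) :
    pf a (fun i => x * v i + y * w i) = C x * pf a v + C y * pf a w := by
  simp only [pf, Finset.mul_sum]
  rw [← Finset.sum_add_distrib]
  refine Finset.sum_congr rfl fun i _ => ?_
  rw [C_add, C_mul, C_mul]
  ring

theorem degreeOf_pf [Fintype ι] (a : ι → ℕ) (v : ι → ℂ) (i : ι) (h : v i = 0) :
    i ∉ (pf a v).vars := by
  classical
  intro hi
  have h1 := vars_sum_subset Finset.univ (fun i => C (v i) * X i ^ a i : ι → MvPolynomial ι ℂ) hi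
  rw [Finset.mem_biUnion] at h1
  obtain ⟨j, _, hj⟩ := h1
  have h2 := vars_mul _ _ hj
  rw [vars_C, Finset.empty_union] at h2
  have h3 := vars_pow _ _ h2
  rw [vars_X, Finset.mem_singleton] at h3
  subst h3
  rw [h, C_0, zero_mul, vars_0] at hj
  simp at hj

theorem pderiv_of_dvd {d f : MvPolynomial ι ℂ} (hf : f ≠ 0) (h : d ∣ f) (i : ι)
    (hi : i ∉ f.vars) : pderiv i d = 0 := by
  classical
  apply pderiv_eq_zero_of_notMem_vars
  rw [mem_vars_iff_degreeOf_ne_zero, not_not] at *
  have h1 := AdmAux.degreeOf_le_of_dvd hf h i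
  omega

theorem pf_ne_zero [Fintype ι] [DecidableEq ι] (a : ι → ℕ) (ha : ∀ i, 1 ≤ a i) (v : ι → ℂ) (i : ι) (hv : v i ≠ 0) :
    pf a v ≠ 0 := by
  intro h
  obtain ⟨c, hc, h1⟩ := pderiv_iter_pf a v i (a i - 1) (by have := ha i; omega)
  rw [h, iterate_map_zero] at h1
  have h3 : a i - (a i - 1 + 1) = 0 := by omega
  rw [h3, pow_zero, mul_one, eq_comm, C_eq_zero] at h1
  exact hc hv h1

theorem pf_coprime [Fintype ι] [DecidableEq ι] (a : ι → ℕ) (ha : ∀ i, 1 ≤ a i) (v w : ι → ℂ) (i j : ι)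
    (h : v i * w j - v j * w i ≠ 0) : IsRelPrime (pf a v) (pf a w) := by
  intro d hd1 hd2
  -- P has no x_j, Q has no x_i
  have hP : d ∣ pf a (fun l => w j * v l + (-v j) * w l) := by
    rw [pf_add]
    exact dvd_add (Dvd.dvd.mul_left hd1 _) (Dvd.dvd.mul_left hd2 _)
  have hQ : d ∣ pf a (fun l => (-w i) * v l + v i * w l) := by
    rw [pf_add]
    exact dvd_add (Dvd.dvd.mul_left hd1 _) (Dvd.dvd.mul_left hd2 _)
  have hPi : w j * v i + (-v j) * w i ≠ 0 := by
    intro h0
    apply h
    rw [← h0]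
    ring
  have hQj : (-w i) * v j + v i * w j ≠ 0 := by
    intro h0
    apply h
    rw [← h0]
    ring
  have hQ0 : pf a (fun l => (-w i) * v l + v i * w l) ≠ 0 := pf_ne_zero a ha _ j hQj
  have hdi : pderiv i d = 0 := pderiv_of_dvd hQ0 hQ i (degreeOf_pf a _ i (by ring))
  exact unit_of_dvd a ha _ i hPi d hdi hP

theorem pf_single [Fintype ι] [DecidableEq ι] (a : ι → ℕ) (i : ι) :
    pf a (Pi.single i 1) = X i ^ a i := by
  rw [pf, Finset.sum_eq_single i]
  · simp
  · intro j _ hj
    simp [Pi.single_eq_of_ne hj]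
  · intro h; exact absurd (Finset.mem_univ i) h

/-- sums of powers of different variables -/
theorem adm_fin (hA : Stmt_Adm) (n : ℕ) (a : Fin (n + 1) → ℕ) (c : Fin (n + 1) → ℂ)
    (ha : ∀ i, 1 ≤ a i) (hc : ∀ i, c i ≠ 0) : Adm (Fin (n + 1)) (pf a c) := by
  have hone : ∀ (b : ℕ) (x : ℂ), 1 ≤ b → x ≠ 0 → Adm Unit (C x * X () ^ b) := fun b x hb hx =>
    hA.2.1 _ _ x hx (hA.2.2.1 _ _ b hb hA.1)
  induction n with
  | zero =>
      have h := hA.2.2.2.2.1 Unit (Fin 1) _ (fun _ => 0) (fun _ _ _ => rfl)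
        (hone (a 0) (c 0) (ha 0) (hc 0))
      rw [map_mul, rename_C, map_pow, rename_X] at h
      rw [pf, Fin.sum_univ_one]
      exact h
  | succ n ih =>
      have h1 := ih (fun i => a i.castSucc) (fun i => c i.castSucc) (fun i => ha _) fun i => hc _
      have h2 := hone (a (Fin.last _)) (c (Fin.last _)) (ha _) (hc _)
      have h3 := (hA.2.2.2.1 (Fin (n + 1)) Unit _ _ h1 h2).1
      have h4 := hA.2.2.2.2.1 (Fin (n + 1) ⊕ Unit) (Fin (n + 1 + 1)) _
        (Sum.elim Fin.castSucc fun _ => Fin.last _) (by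
          rintro (i | i) (j | j) hij
          · simp only [Sum.elim_inl] at hij
            rw [Fin.castSucc_injective _ hij]
          · simp only [Sum.elim_inl, Sum.elim_inr] at hij
            exact absurd hij (Fin.castSucc_ne_last i)
          · simp only [Sum.elim_inl, Sum.elim_inr] at hij
            exact absurd hij.symm (Fin.castSucc_ne_last j)
          · rfl) h3
      rw [pf, Fin.sum_univ_castSucc]
      rw [oplus, map_add, rename_rename, rename_rename, map_mul, rename_C, map_pow, rename_X,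
        pf, map_sum] at h4
      simpa using h4

theorem adm_pf (hA : Stmt_Adm) [Fintype ι] [DecidableEq ι] (a : ι → ℕ) (c : ι → ℂ)
    (ha : ∀ i, 1 ≤ a i) (i₀ : ι) (hi₀ : c i₀ ≠ 0) : Adm ι (pf a c) := by
  classical
  let S := {i // c i ≠ 0}
  have : Nonempty S := ⟨⟨i₀, hi₀⟩⟩
  obtain ⟨n, hn⟩ : ∃ n, Fintype.card S = n + 1 :=
    ⟨Fintype.card S - 1, by have := Fintype.card_pos (α := S); omega⟩
  let e : Fin (n + 1) ≃ S := (Fintype.equivFinOfCardEq hn).symm
  have h1 := adm_fin hA n (fun k => a (e k)) (fun k => c (e k)) (fun _ => ha _) fun k => (e k).2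
  have h2 := hA.2.2.2.2.1 (Fin (n + 1)) ι _ (fun k => (e k : ι))
    (fun x y h => e.injective (Subtype.ext h)) h1
  have h3 : rename (fun k => (e k : ι)) (pf (fun k => a (e k)) fun k => c (e k)) = pf a c := by
    rw [pf, pf, map_sum]
    have h4 : ∑ i, (C (c i) * X i ^ a i : MvPolynomial ι ℂ) =
        ∑ s : S, (C (c s) * X (s : ι) ^ a s : MvPolynomial ι ℂ) := by
      rw [← Finset.sum_subtype (Finset.univ.filter fun i => c i ≠ 0) (by simp)
        fun i => (C (c i) * X i ^ a i : MvPolynomial ι ℂ)]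
      symm
      apply Finset.sum_filter_of_ne
      intro i _ hi h0
      apply hi
      rw [h0, C_0, zero_mul]
    rw [h4, ← e.sum_comp]
    refine Finset.sum_congr rfl fun k _ => ?_
    rw [map_mul, rename_C, map_pow, rename_X]
  rw [← h3]
  exact h2

section

variable [Fintype ι] [Fintype κ] [DecidableEq ι] [DecidableEq κ]

theorem form_eq (D : Data ι κ) (hc : D.Central) (j : κ) : D.form j = pf D.a (D.c j) := by
  rw [Data.form, hc j, C_0, zero_add]
  rfl

noncomputable def fac (D : Data ι κ) : κ ⊕ ι → MvPolynomial ι ℂ :=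
  Sum.elim (fun j => D.form j ^ D.m j) fun i => X i ^ D.b i

def active (D : Data ι κ) : κ ⊕ ι → Prop := Sum.elim (fun j => 0 < D.m j) fun i => 0 < D.b i

theorem poly_eq (D : Data ι κ) : D.poly = ∏ z, fac D z := by
  rw [Fintype.prod_sum_type, Data.poly, mul_comm]
  rfl

theorem fac_one (D : Data ι κ) (z : κ ⊕ ι) (h : ¬active D z) : fac D z = 1 := by
  rcases z with j | i
  · have : D.m j = 0 := Nat.eq_zero_of_not_pos h
    show D.form j ^ D.m j = 1
    rw [this, pow_zero]
  · have : D.b i = 0 := Nat.eq_zero_of_not_pos h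
    show (X i : MvPolynomial ι ℂ) ^ D.b i = 1
    rw [this, pow_zero]

theorem vec_ne (D : Data ι κ) (hc : D.Central) (hv : D.Valid) (z : κ ⊕ ι) (h : active D z) :
    D.vec z ≠ 0 := by
  rcases z with j | i
  · rcases hv.2 j h with h1 | ⟨i, h1⟩
    · exact absurd (hc j) h1
    · intro h0
      exact h1 (congrFun h0 i)
  · intro h0
    have := congrFun h0 i
    simp [Data.vec] at this

theorem fac_dvd (D : Data ι κ) (hc : D.Central) (hv : D.Valid) (z : κ ⊕ ι) :
    ∃ n, fac D z ∣ pf D.a (D.vec z) ^ n := by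
  rcases z with j | i
  · refine ⟨D.m j, ?_⟩
    show D.form j ^ D.m j ∣ _
    rw [form_eq D hc]
    exact dvd_rfl
  · refine ⟨D.b i, ?_⟩
    show (X i : MvPolynomial ι ℂ) ^ D.b i ∣ pf D.a (Pi.single i 1) ^ D.b i
    rw [pf_single]
    exact pow_dvd_pow_of_dvd (dvd_pow_self _ (by have := hv.1 i; omega)) _

theorem minor {v w : ι → ℂ} (hv : v ≠ 0) (hw : ∀ x : ℂ, w ≠ x • v) :
    ∃ i j, v i * w j - v j * w i ≠ 0 := by
  by_contra h
  push Not at h
  obtain ⟨i, hi⟩ : ∃ i, v i ≠ 0 := by
    by_contra h0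
    push Not at h0
    exact hv (funext h0)
  apply hw (w i / v i)
  funext j
  have := h i j
  simp only [Pi.smul_apply, smul_eq_mul]
  field_simp
  linear_combination this

theorem pow_relprime {p q : MvPolynomial ι ℂ} (h : IsRelPrime p q) (m n : ℕ) :
    IsRelPrime (p ^ m) (q ^ n) := by
  have h1 : IsRelPrime (p ^ m) q := by
    induction m with
    | zero => rw [pow_zero]; exact isRelPrime_one_left
    | succ m ih => rw [pow_succ]; exact ih.mul_left h
  induction n with
  | zero => rw [pow_zero]; exact isRelPrime_one_right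
  | succ n ih => rw [pow_succ]; exact ih.mul_right h1

theorem fac_relprime (D : Data ι κ) (hc : D.Central) (hv : D.Valid) (v : ι → ℂ) (hv0 : v ≠ 0)
    (z z' : κ ⊕ ι) (h : active D z) (hz : ∃ x : ℂ, D.vec z = x • v)
    (hz' : ¬∃ x : ℂ, D.vec z' = x • v) : IsRelPrime (fac D z) (fac D z') := by
  obtain ⟨x, hx⟩ := hz
  have hx0 : x ≠ 0 := by
    rintro rfl
    rw [zero_smul] at hx
    exact vec_ne D hc hv z h hx
  obtain ⟨i, j, hij⟩ := minor hv0 (w := D.vec z') fun y hy => hz' ⟨y, hy⟩
  have h1 : IsRelPrime (pf D.a (D.vec z)) (pf D.a (D.vec z')) := by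
    apply pf_coprime D.a hv.1 _ _ i j
    rw [hx]
    simp only [Pi.smul_apply, smul_eq_mul]
    have : x * v i * D.vec z' j - x * v j * D.vec z' i =
        x * (v i * D.vec z' j - v j * D.vec z' i) := by ring
    rw [this]
    exact mul_ne_zero hx0 hij
  obtain ⟨n, hn⟩ := fac_dvd D hc hv z
  obtain ⟨n', hn'⟩ := fac_dvd D hc hv z'
  exact ((pow_relprime h1 n n').of_dvd_left hn).of_dvd_right hn'

theorem fac_eval_zero (D : Data ι κ) (hc : D.Central) (hv : D.Valid) (z : κ ⊕ ι) (h : active D z) :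
    eval (fun _ => 0) (fac D z) = 0 := by
  rcases z with j | i
  · have hm : D.m j ≠ 0 := Nat.pos_iff_ne_zero.1 h
    show eval _ (D.form j ^ D.m j) = 0
    rw [form_eq D hc, map_pow, pf, map_sum, Finset.sum_eq_zero, zero_pow hm]
    intro i _
    have := hv.1 i
    rw [map_mul, map_pow, eval_X, zero_pow (by omega), mul_zero]
  · have hm : D.b i ≠ 0 := Nat.pos_iff_ne_zero.1 h
    show eval _ (X i ^ D.b i) = 0
    rw [map_pow, eval_X, zero_pow hm]

theorem prod_form {α : Type*} (p : MvPolynomial ι ℂ) (s : Finset α) (F : α → MvPolynomial ι ℂ)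
    (h : ∀ z ∈ s, ∃ (c : ℂ) (n : ℕ), c ≠ 0 ∧ F z = C c * p ^ n) :
    ∃ (c : ℂ) (n : ℕ), c ≠ 0 ∧ ∏ z ∈ s, F z = C c * p ^ n := by
  classical
  induction s using Finset.induction_on with
  | empty => exact ⟨1, 0, one_ne_zero, by simp⟩
  | insert a s ha ih =>
      obtain ⟨c, n, hc, h1⟩ := h a (Finset.mem_insert_self a s)
      obtain ⟨c', n', hc', h2⟩ := ih fun z hz => h z (Finset.mem_insert_of_mem hz)
      refine ⟨c * c', n + n', mul_ne_zero hc hc', ?_⟩
      rw [Finset.prod_insert ha, h1, h2, C_mul, pow_add]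
      ring

theorem adm_of_form (hA : Stmt_Adm) (p f : MvPolynomial ι ℂ) (hp : Adm ι p)
    (hf : f.totalDegree ≠ 0) (h : ∃ (c : ℂ) (n : ℕ), c ≠ 0 ∧ f = C c * p ^ n) : Adm ι f := by
  obtain ⟨c, n, hc, rfl⟩ := h
  rcases Nat.eq_zero_or_pos n with rfl | hn
  · exfalso
    apply hf
    rw [pow_zero, mul_one, totalDegree_C]
  · exact hA.2.1 ι _ c hc (hA.2.2.1 ι p n hn hp)

theorem adm_X (hA : Stmt_Adm) (i : ι) : Adm ι (X i) := by
  have h := hA.2.2.2.2.1 Unit ι _ (fun _ => i) (fun _ _ _ => rfl) hA.1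
  rw [rename_X] at h
  exact h

end

end DataAux

open DataAux in
/-- all nonconstant central data polynomials -/
theorem data_adm (hA : Stmt_Adm) (ι κ : Type) [Fintype ι] [Fintype κ] [DecidableEq ι]
    [DecidableEq κ] (D : Data ι κ) (hc : D.Central) (hv : D.Valid)
    (hnc : D.poly.totalDegree ≠ 0) : Adm ι D.poly := by
  classical
  obtain ⟨z₀, hz₀⟩ : ∃ z, active D z := by
    by_contra h
    push Not at h
    apply hnc
    rw [poly_eq, Finset.prod_eq_one fun z _ => fac_one D z (h z)]
    exact totalDegree_one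
  have hv0 := vec_ne D hc hv z₀ hz₀
  set v := D.vec z₀ with hvdef
  by_cases hT : ∃ z, active D z ∧ ¬∃ x : ℂ, D.vec z = x • v
  · obtain ⟨z₁, hz₁, hz₁'⟩ := hT
    have hsplit : D.poly = (∏ z ∈ Finset.univ.filter (fun z => ∃ x : ℂ, D.vec z = x • v), fac D z) *
        ∏ z ∈ Finset.univ.filter (fun z => ¬∃ x : ℂ, D.vec z = x • v), fac D z := by
      rw [poly_eq, Finset.prod_filter_mul_prod_filter_not]
    apply hA.2.2.2.2.2 ι κ D _ _ hc hv hsplit
    · apply IsRelPrime.prod_left
      intro z hz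
      apply IsRelPrime.prod_right
      intro z' hz'
      rw [Finset.mem_filter] at hz hz'
      by_cases ha : active D z
      · exact fac_relprime D hc hv v hv0 z z' ha hz.2 hz'.2
      · rw [fac_one D z ha]
        exact isRelPrime_one_left
    · rw [map_prod]
      apply Finset.prod_eq_zero (i := z₀)
      · rw [Finset.mem_filter]
        exact ⟨Finset.mem_univ _, 1, by rw [one_smul]⟩
      · exact fac_eval_zero D hc hv z₀ hz₀
    · rw [map_prod]
      apply Finset.prod_eq_zero (i := z₁)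
      · rw [Finset.mem_filter]
        exact ⟨Finset.mem_univ _, hz₁'⟩
      · exact fac_eval_zero D hc hv z₁ hz₁
  · push Not at hT
    by_cases hb : ∃ i, 0 < D.b i
    · obtain ⟨i, hi⟩ := hb
      obtain ⟨x, hx⟩ := hT (Sum.inr i) hi
      have hx0 : x ≠ 0 := by
        rintro rfl
        rw [zero_smul] at hx
        exact vec_ne D hc hv (Sum.inr i) hi hx
      have hx' : v = x⁻¹ • (Pi.single i 1 : ι → ℂ) := by
        have : (Pi.single i 1 : ι → ℂ) = x • v := hx
        rw [this, smul_smul, inv_mul_cancel₀ hx0, one_smul]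
      apply adm_of_form hA (X i) _ (adm_X hA i) hnc
      rw [poly_eq]
      apply prod_form
      intro z _
      by_cases ha : active D z
      · obtain ⟨y, hy⟩ := hT z ha
        have hyv : D.vec z = (y * x⁻¹) • (Pi.single i 1 : ι → ℂ) := by
          rw [hy, hx', smul_smul]
        have hy0 : y * x⁻¹ ≠ 0 := by
          intro h0
          rw [h0, zero_smul] at hyv
          exact vec_ne D hc hv z ha hyv
        rcases z with j | i'
        · refine ⟨(y * x⁻¹) ^ D.m j, D.a i * D.m j, pow_ne_zero _ hy0, ?_⟩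
          show D.form j ^ D.m j = _
          have h1 : D.c j = fun l => (y * x⁻¹) * (Pi.single i 1 : ι → ℂ) l +
              0 * (Pi.single i 1 : ι → ℂ) l := by
            funext l
            have := congrFun hyv l
            simp only [Data.vec, Sum.elim_inl, Pi.smul_apply, smul_eq_mul] at this
            rw [this]
            ring
          rw [form_eq D hc, h1, pf_add, pf_single, C_0, zero_mul, add_zero, mul_pow, C_pow, pow_mul]
        · have h1 : i' = i := by
            by_contra h0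
            have := congrFun hyv i'
            simp [Data.vec, Pi.single_eq_of_ne h0] at this
          subst h1
          refine ⟨1, D.b i', one_ne_zero, ?_⟩
          rw [C_1, one_mul]
          rfl
      · exact ⟨1, 0, one_ne_zero, by rw [fac_one D z ha]; simp⟩
    · push Not at hb
      obtain ⟨i₀, hi₀⟩ : ∃ i, v i ≠ 0 := by
        by_contra h0
        push Not at h0
        exact hv0 (funext h0)
      apply adm_of_form hA (pf D.a v) _ (adm_pf hA D.a v hv.1 i₀ hi₀) hnc
      rw [poly_eq]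
      apply prod_form
      intro z _
      by_cases ha : active D z
      · obtain ⟨y, hy⟩ := hT z ha
        have hy0 : y ≠ 0 := by
          rintro rfl
          rw [zero_smul] at hy
          exact vec_ne D hc hv z ha hy
        rcases z with j | i'
        · refine ⟨y ^ D.m j, D.m j, pow_ne_zero _ hy0, ?_⟩
          show D.form j ^ D.m j = _
          have h1 : D.c j = fun l => y * v l + 0 * v l := by
            funext l
            have := congrFun hy l
            simp only [Data.vec, Sum.elim_inl, Pi.smul_apply, smul_eq_mul] at this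
            rw [this]
            ring
          rw [form_eq D hc, h1, pf_add, C_0, zero_mul, add_zero, mul_pow, C_pow]
        · exact absurd ha (Nat.not_lt.2 (hb i'))
      · exact ⟨1, 0, one_ne_zero, by rw [fac_one D z ha]; simp⟩

end Pool.Agent.Mono.TS
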