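import Pool.Agent.Work.Monodromy4.Q1

/-!
# Block Q2: Hadamard products of exponential sequences

Induction on the two lists of factors.  If `(1 - x^ν T^N)` is a factor of the denominator of `f` and
`(1 - x^ν' T^N')` one of `g`, then `f₂ = (1 - x^(νN') T^(NN')) f` and `g₂ = (1 - x^(ν'N) T^(NN')) g`
have one factor less, and
`(1 - x^(νN'+ν'N) T^(NN')) (f ⊙ g) = f ⊙ g₂ + f₂ ⊙ g - f₂ ⊙ g₂`.
-/

set_option autoImplicit false

namespace Pool.Agent.Mono.TS

namespace Q2Aux

open Q1Aux

/-- `1 - c T^n` -/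
noncomputable def fac (c : K) (n : ℕ) : PowerSeries K :=
  1 - PowerSeries.C c * PowerSeries.X ^ n

theorem coeff_fac_mul (c : K) (n : ℕ) (f : PowerSeries K) (m : ℕ) :
    PowerSeries.coeff m (fac c n * f) =
      PowerSeries.coeff m f - c * (if n ≤ m then PowerSeries.coeff (m - n) f else 0) := by
  rw [fac, sub_mul, one_mul, map_sub, mul_assoc, PowerSeries.coeff_C_mul,
    PowerSeries.coeff_X_pow_mul']

/-- Hadamard product -/
noncomputable def had (f g : PowerSeries K) : PowerSeries K :=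
  PowerSeries.mk fun m => PowerSeries.coeff m f * PowerSeries.coeff m g

theorem fac_had (c c' : K) (n : ℕ) (f g : PowerSeries K) :
    fac (c * c') n * had f g =
      had f (fac c' n * g) + had (fac c n * f) g - had (fac c n * f) (fac c' n * g) := by
  ext m
  rw [coeff_fac_mul, map_sub, map_add]
  simp only [had, PowerSeries.coeff_mk, coeff_fac_mul]
  split_ifs <;> ring

theorem coe_denP_cons (N ν : ℕ) (l : List (ℕ × ℕ)) :
    (denP ((N, ν) :: l) : PowerSeries K) = fac (xq ^ ν) N * (denP l : PowerSeries K) := by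
  rw [denP_cons, Polynomial.coe_mul, Polynomial.coe_sub, Polynomial.coe_one, Polynomial.coe_mul,
    Polynomial.coe_C, Polynomial.coe_pow, Polynomial.coe_X, fac]

theorem fac_pow (c : K) (n k : ℕ) :
    ∃ p : Polynomial K, fac (c ^ k) (n * k) = fac c n * (p : PowerSeries K) := by
  refine ⟨∑ i ∈ Finset.range k, (Polynomial.C c * Polynomial.X ^ n) ^ i, ?_⟩
  have h1 : fac c n = ((1 - Polynomial.C c * Polynomial.X ^ n : Polynomial K) : PowerSeries K) := by
    rw [Polynomial.coe_sub, Polynomial.coe_one, Polynomial.coe_mul, Polynomial.coe_C,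
      Polynomial.coe_pow, Polynomial.coe_X, fac]
  have h2 : fac (c ^ k) (n * k) =
      ((1 - (Polynomial.C c * Polynomial.X ^ n) ^ k : Polynomial K) : PowerSeries K) := by
    rw [Polynomial.coe_sub, Polynomial.coe_one, Polynomial.coe_pow, Polynomial.coe_mul,
      Polynomial.coe_C, Polynomial.coe_pow, Polynomial.coe_X, fac, mul_pow, ← pow_mul, map_pow]
  rw [h1, h2, ← Polynomial.coe_mul, mul_neg_geom_sum]

/-- removing one factor -/
theorem step {N ν : ℕ} {l : List (ℕ × ℕ)} {f : PowerSeries K} {num : Polynomial K}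
    (h : (denP ((N, ν) :: l) : PowerSeries K) * f = (num : PowerSeries K)) (k : ℕ) :
    ∃ num' : Polynomial K,
      (denP l : PowerSeries K) * (fac ((xq ^ ν) ^ k) (N * k) * f) = (num' : PowerSeries K) := by
  obtain ⟨p, hp⟩ := fac_pow (xq ^ ν) N k
  refine ⟨p * num, ?_⟩
  rw [hp, Polynomial.coe_mul, ← h, coe_denP_cons]
  ring

theorem of_poly {Λ : Set ℚ} {f g : PowerSeries K} {num : Polynomial K}
    (h : (denP [] : PowerSeries K) * f = (num : PowerSeries K)) :
    ESeq Λ fun m => PowerSeries.coeff m f * PowerSeries.coeff m g := by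
  rw [denP_nil, Polynomial.coe_one, one_mul] at h
  refine fin (num.natDegree + 1) fun m hm => ?_
  rw [h, Polynomial.coeff_coe, Polynomial.coeff_eq_zero_of_natDegree_lt (by omega), zero_mul]

theorem main (Λ Λ' : Set ℚ) (n : ℕ) : ∀ (l l' : List (ℕ × ℕ)), l.length + l'.length ≤ n →
    (∀ q ∈ l, 1 ≤ q.1 ∧ ((q.2 : ℚ) / (q.1 : ℚ)) ∈ Λ) →
    (∀ q ∈ l', 1 ≤ q.1 ∧ ((q.2 : ℚ) / (q.1 : ℚ)) ∈ Λ') →
    ∀ (f g : PowerSeries K) (num num' : Polynomial K),
      (denP l : PowerSeries K) * f = (num : PowerSeries K) →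
      (denP l' : PowerSeries K) * g = (num' : PowerSeries K) →
        ESeq (sumE Λ Λ') fun m => PowerSeries.coeff m f * PowerSeries.coeff m g := by
  induction n with
  | zero =>
    intro l l' hn _ _ f g num num' hf _
    have : l = [] := List.eq_nil_of_length_eq_zero (by omega)
    subst this
    exact of_poly hf
  | succ n ih =>
    intro l l' hn hl hl' f g num num' hf hg
    rcases l with _ | ⟨⟨N, ν⟩, l⟩
    · exact of_poly hf
    rcases l' with _ | ⟨⟨N', ν'⟩, l'⟩
    · have := of_poly (Λ := sumE Λ Λ') (f := g) (g := f) hg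
      simpa only [mul_comm] using this
    obtain ⟨num₂, hf₂⟩ := step hf N'
    obtain ⟨num₂', hg₂⟩ := step hg N
    rw [mul_comm N' N] at hg₂
    set f₂ := fac ((xq ^ ν) ^ N') (N * N') * f with hf₂d
    set g₂ := fac ((xq ^ ν') ^ N) (N * N') * g with hg₂d
    simp only [List.length_cons] at hn
    have hl₁ : ∀ q ∈ l, 1 ≤ q.1 ∧ ((q.2 : ℚ) / (q.1 : ℚ)) ∈ Λ := fun q hq =>
      hl q (List.mem_cons_of_mem _ hq)
    have hl₁' : ∀ q ∈ l', 1 ≤ q.1 ∧ ((q.2 : ℚ) / (q.1 : ℚ)) ∈ Λ' := fun q hq =>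
      hl' q (List.mem_cons_of_mem _ hq)
    have e1 := ih ((N, ν) :: l) l' (by simp only [List.length_cons]; omega) hl hl₁' f g₂ _ _ hf hg₂
    have e2 := ih l ((N', ν') :: l') (by simp only [List.length_cons]; omega) hl₁ hl' f₂ g _ _
      hf₂ hg
    have e3 := ih l l' (by omega) hl₁ hl₁' f₂ g₂ _ _ hf₂ hg₂
    have e4 := add (add e1 e2) (smul (-1) e3)
    obtain ⟨L, num₃, hL, h3⟩ := e4
    obtain ⟨hN, hν⟩ := hl (N, ν) (List.mem_cons_self ..)
    obtain ⟨hN', hν'⟩ := hl' (N', ν') (List.mem_cons_self ..)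
    have hN0 : (N : ℚ) ≠ 0 := Nat.cast_ne_zero.2 (by simp only at hN; omega)
    have hN0' : (N' : ℚ) ≠ 0 := Nat.cast_ne_zero.2 (by simp only at hN'; omega)
    refine ⟨(N * N', ν * N' + ν' * N) :: L, num₃, ?_, ?_⟩
    · intro q hq
      rcases List.mem_cons.1 hq with rfl | hq
      · refine ⟨Nat.mul_pos hN hN', (ν : ℚ) / N, hν, (ν' : ℚ) / N', hν', ?_⟩
        push_cast
        field_simp
      · exact hL q hq
    · have h4 : fac (xq ^ (ν * N' + ν' * N)) (N * N') *
          (PowerSeries.mk fun m => PowerSeries.coeff m f * PowerSeries.coeff m g) =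
          PowerSeries.mk fun m => (PowerSeries.coeff m f * PowerSeries.coeff m g₂ +
            PowerSeries.coeff m f₂ * PowerSeries.coeff m g) +
              (-1) * (PowerSeries.coeff m f₂ * PowerSeries.coeff m g₂) := by
        have h5 := fac_had ((xq ^ ν) ^ N') ((xq ^ ν') ^ N) (N * N') f g
        rw [← pow_mul, ← pow_mul, ← pow_add] at h5
        rw [had] at h5
        rw [h5, hf₂d, hg₂d]
        ext m
        simp only [had, map_add, map_sub, PowerSeries.coeff_mk, ← pow_mul]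
        ring
      rw [coe_denP_cons, mul_comm (fac _ _), mul_assoc, h4, h3]

end Q2Aux

theorem stmt_Q2 : Stmt_Q2 := by
  intro Λ Λ' κ κ' ⟨l, num, hl, h⟩ ⟨l', num', hl', h'⟩
  have := Q2Aux.main Λ Λ' _ l l' le_rfl hl hl' _ _ _ _ h h'
  simpa only [PowerSeries.coeff_mk] using this

end Pool.Agent.Mono.TS
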