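import Pool.Agent.Work.Monodromy4.Q1
import Pool.Agent.Work.Monodromy.Spec

/-!
# Blocks Q3 and Q4: sums of the first terms
-/

set_option autoImplicit false

namespace Pool.Agent.Mono.TS

open Polynomial

namespace Q3Aux

theorem xq_ne : (xq : K) ≠ 0 := inv_ne_zero RatFunc.X_ne_zero

/-- a polynomial vanishing at `1/c` is divisible by `1 - c T` -/
theorem dvd_of_eval (p : Polynomial K) (c : K) (hc : c ≠ 0) (h : p.eval c⁻¹ = 0) :
    ∃ N : Polynomial K, p = (1 - C c * X) * N := by
  obtain ⟨r, hr⟩ := dvd_iff_isRoot.2 (show IsRoot p c⁻¹ from h)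
  refine ⟨-C c⁻¹ * r, ?_⟩
  have h1 : (C c : Polynomial K) * C c⁻¹ = 1 := by
    rw [← C_mul, mul_inv_cancel₀ hc, C_1]
  rw [hr]
  linear_combination (-(X * r)) * h1

theorem denP_eval_one (l : List (ℕ × ℕ)) (h : ∀ q ∈ l, 1 ≤ q.2) : (denP l).eval 1 ≠ 0 := by
  induction l with
  | nil => simp [denP]
  | cons q l ih =>
    rw [Q1Aux.denP_cons, eval_mul]
    refine mul_ne_zero ?_ (ih fun q' hq' => h q' (List.mem_cons_of_mem _ hq'))
    have h1 : (1 - C (xq ^ q.2) * X ^ q.1 : Polynomial K).eval 1 = 1 - xq ^ q.2 := by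
      simp
    rw [h1]
    intro h2
    exact Xinv_pow_ne_one q.2 (h q List.mem_cons_self) (sub_eq_zero.1 h2).symm

theorem nu_pos {Λ : Set ℚ} (hΛ : Λ ⊆ Set.Ioi 0) {q : ℕ × ℕ}
    (hq : ((q.2 : ℚ) / (q.1 : ℚ)) ∈ Λ) : 1 ≤ q.2 := by
  have h1 : (0 : ℚ) < (q.2 : ℚ) / (q.1 : ℚ) := hΛ hq
  rcases Nat.eq_zero_or_pos q.2 with h2 | h2
  · rw [h2] at h1
    simp at h1
  · exact h2

/-- `1 - c T` is not zero -/
theorem lin_ne (c : K) : (1 - PowerSeries.C c * PowerSeries.X : PowerSeries K) ≠ 0 := by
  intro h
  have := congrArg (PowerSeries.coeff 0) h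
  simp at this

theorem xpow_inj {a b : ℕ} (h : (xq : K) ^ a = xq ^ b) : a = b := by
  have key : ∀ a b : ℕ, a < b → (xq : K) ^ a ≠ xq ^ b := by
    intro a b hab h
    have h1 : (xq : K) ^ b = xq ^ a * xq ^ (b - a) := by
      rw [← pow_add]
      congr 1
      omega
    rw [h1] at h
    have h2 : (xq : K) ^ (b - a) = 1 := by
      have h3 : (xq : K) ^ a * xq ^ (b - a) = xq ^ a * 1 := by
        rw [mul_one]
        exact h.symm
      exact mul_left_cancel₀ (pow_ne_zero _ xq_ne) h3
    exact Xinv_pow_ne_one (b - a) (by omega) h2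
  rcases lt_trichotomy a b with h1 | h1 | h1
  · exact absurd h (key a b h1)
  · exact h1
  · exact absurd h.symm (key b a h1)

end Q3Aux

open Q3Aux

theorem stmt_Q3 : Stmt_Q3 := by
  refine ⟨?_, ?_⟩
  · intro Λ κ hΛ hκ
    obtain ⟨l, num, hl, hnum⟩ := hκ
    have hd : (denP l).eval 1 ≠ 0 := denP_eval_one l fun q hq => nu_pos hΛ (hl q hq).2
    set v : K := num.eval 1 / (denP l).eval 1 with hv
    refine ⟨v, l, ?_⟩
    obtain ⟨N, hN⟩ := dvd_of_eval (denP l * C v - num) 1 one_ne_zero (by
      rw [inv_one, eval_sub, eval_mul, eval_C, hv, mul_div_cancel₀ _ hd, sub_self])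
    refine ⟨N, hl, ?_⟩
    set S : PowerSeries K := PowerSeries.mk fun m => v - ∑ j ∈ Finset.range (m + 1), κ j with hS
    have h1 : (1 - PowerSeries.C 1 * PowerSeries.X) * S = PowerSeries.C v - PowerSeries.mk κ := by
      ext m
      rw [map_one, one_mul, sub_mul, one_mul, map_sub, map_sub]
      rcases m with _ | m
      · rw [PowerSeries.coeff_zero_X_mul, hS]
        simp
      · rw [PowerSeries.coeff_succ_X_mul, hS, PowerSeries.coeff_mk, PowerSeries.coeff_mk,
          PowerSeries.coeff_mk, PowerSeries.coeff_C, if_neg (by omega),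
          Finset.sum_range_succ _ (m + 1)]
        ring
    have h2 : ((denP l * C v - num : Polynomial K) : PowerSeries K) =
        (1 - PowerSeries.C 1 * PowerSeries.X) * ((denP l : PowerSeries K) * S) := by
      rw [Polynomial.coe_sub, Polynomial.coe_mul, Polynomial.coe_C, ← hnum]
      linear_combination (-(denP l : PowerSeries K)) * h1
    rw [hN] at h2
    rw [Polynomial.coe_mul, Polynomial.coe_sub, Polynomial.coe_mul, Polynomial.coe_one,
      Polynomial.coe_C, Polynomial.coe_X] at h2
    exact (mul_left_cancel₀ (lin_ne 1) h2).symm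
  · intro c hc
    obtain ⟨l, num, hl, hnum⟩ := hc
    have hd : (denP l).eval 1 ≠ 0 := denP_eval_one l fun q hq => nu_pos subset_rfl (hl q hq).2
    have h1 : (PowerSeries.mk fun _ => c : PowerSeries K) * (1 - PowerSeries.X) =
        PowerSeries.C c := by
      ext m
      rw [mul_sub, mul_one, map_sub]
      rcases m with _ | m
      · rw [PowerSeries.coeff_zero_mul_X]
        simp
      · rw [PowerSeries.coeff_succ_mul_X, PowerSeries.coeff_mk, PowerSeries.coeff_mk,
          PowerSeries.coeff_C, if_neg (by omega), sub_self]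
    have h2 : denP l * C c = num * (1 - X) := by
      have : ((denP l * C c : Polynomial K) : PowerSeries K) =
          ((num * (1 - X) : Polynomial K) : PowerSeries K) := by
        rw [Polynomial.coe_mul, Polynomial.coe_mul, Polynomial.coe_C, Polynomial.coe_sub,
          Polynomial.coe_one, Polynomial.coe_X, ← hnum, ← h1]
        ring
      exact_mod_cast this
    have h3 := congrArg (Polynomial.eval 1) h2
    rw [eval_mul, eval_mul, eval_C, eval_sub, eval_one, eval_X, sub_self, mul_zero] at h3
    exact (mul_eq_zero.1 h3).resolve_left hd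

theorem stmt_Q4 : Stmt_Q4 := by
  intro Λ κ hΛ hκ
  obtain ⟨l, num, hl, hnum⟩ := hκ
  -- the series
  set S : PowerSeries K := PowerSeries.mk fun m => ∑ j ∈ Finset.range m, κ j * xq ^ (m - j) with hS
  have hSrec : (1 - PowerSeries.C xq * PowerSeries.X) * S =
      PowerSeries.C xq * PowerSeries.X * PowerSeries.mk κ := by
    ext m
    rw [sub_mul, one_mul, map_sub, mul_assoc, mul_assoc, PowerSeries.coeff_C_mul,
      PowerSeries.coeff_C_mul]
    rcases m with _ | m
    · rw [PowerSeries.coeff_zero_X_mul, PowerSeries.coeff_zero_X_mul, hS]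
      simp
    · rw [PowerSeries.coeff_succ_X_mul, PowerSeries.coeff_succ_X_mul, hS, PowerSeries.coeff_mk,
        PowerSeries.coeff_mk, PowerSeries.coeff_mk, Finset.sum_range_succ, Finset.mul_sum]
      have h1 : ∑ j ∈ Finset.range m, κ j * xq ^ (m + 1 - j) =
          ∑ j ∈ Finset.range m, xq * (κ j * xq ^ (m - j)) := by
        refine Finset.sum_congr rfl fun j hj => ?_
        have hj' := Finset.mem_range.1 hj
        have h2 : m + 1 - j = (m - j) + 1 := by omega
        rw [h2, pow_succ]
        ring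
      rw [h1, Nat.add_sub_cancel_left, pow_one]
      ring
  have hG : (1 - PowerSeries.C xq * PowerSeries.X) * (PowerSeries.mk fun m => xq ^ m) =
      (1 : PowerSeries K) := by
    ext m
    rw [sub_mul, one_mul, map_sub, mul_assoc, PowerSeries.coeff_C_mul]
    rcases m with _ | m
    · rw [PowerSeries.coeff_zero_X_mul]
      simp
    · rw [PowerSeries.coeff_succ_X_mul, PowerSeries.coeff_mk, PowerSeries.coeff_mk,
        PowerSeries.coeff_one, if_neg (by omega), pow_succ]
      ring
  have hsub : ∀ a : K, (PowerSeries.mk fun m => (∑ j ∈ Finset.range m, κ j * xq ^ (m - j)) -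
      a * xq ^ m) = S - PowerSeries.C a * PowerSeries.mk fun m => xq ^ m := by
    intro a
    ext m
    rw [map_sub, PowerSeries.coeff_C_mul, hS, PowerSeries.coeff_mk, PowerSeries.coeff_mk,
      PowerSeries.coeff_mk]
  by_cases hden : (denP l).eval (xq⁻¹) = 0
  · -- the exponent one occurs
    have h1 : (1 : ℚ) ∈ Λ := by
      have h2 : ∃ q ∈ l, (1 - C (xq ^ q.2) * X ^ q.1 : Polynomial K).eval (xq⁻¹) = 0 := by
        clear hnum
        induction l with
        | nil =>
          simp [denP] at hden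
        | cons q l ih =>
          rw [Q1Aux.denP_cons, eval_mul] at hden
          rcases mul_eq_zero.1 hden with h3 | h3
          · exact ⟨q, List.mem_cons_self, h3⟩
          · obtain ⟨q', hq', h4⟩ := ih (fun q hq => hl q (List.mem_cons_of_mem _ hq)) h3
            exact ⟨q', List.mem_cons_of_mem _ hq', h4⟩
      obtain ⟨q, hq, h3⟩ := h2
      obtain ⟨h4, h5⟩ := hl q hq
      rw [eval_sub, eval_mul, eval_C, eval_pow, eval_X, eval_one, inv_pow] at h3
      have h6 : (xq : K) ^ q.2 = xq ^ q.1 := by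
        have h7 : (xq : K) ^ q.1 ≠ 0 := pow_ne_zero _ xq_ne
        have h8 : (1 : K) = xq ^ q.2 * (xq ^ q.1)⁻¹ := sub_eq_zero.1 h3
        rw [eq_mul_inv_iff_mul_eq₀ h7, one_mul] at h8
        exact h8.symm
      have h7 := xpow_inj h6
      rw [h7, div_self (by
        have : q.1 ≠ 0 := by omega
        exact_mod_cast this)] at h5
      exact h5
    refine ⟨0, (1, 1) :: l, C xq * X * num, ?_, ?_⟩
    · intro q hq
      rcases List.mem_cons.1 hq with rfl | hq
      · refine ⟨le_rfl, ?_⟩
        simpa using h1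
      · exact hl q hq
    · rw [hsub, map_zero, zero_mul, sub_zero, Q1Aux.denP_cons]
      rw [Polynomial.coe_mul, Polynomial.coe_sub, Polynomial.coe_mul, Polynomial.coe_one,
        Polynomial.coe_C, Polynomial.coe_pow, Polynomial.coe_X, Polynomial.coe_mul,
        Polynomial.coe_mul, Polynomial.coe_C, Polynomial.coe_X, ← hnum, pow_one, pow_one]
      linear_combination (denP l : PowerSeries K) * hSrec
  · set a : K := num.eval (xq⁻¹) / (denP l).eval (xq⁻¹) with ha
    obtain ⟨N, hN⟩ := dvd_of_eval (C xq * X * num - C a * denP l) xq xq_ne (by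
      rw [eval_sub, eval_mul, eval_mul, eval_mul, eval_C, eval_X, eval_C, ha,
        div_mul_cancel₀ _ hden, mul_inv_cancel₀ xq_ne, one_mul, sub_self])
    refine ⟨a, l, N, hl, ?_⟩
    rw [hsub]
    have h2 : ((C xq * X * num - C a * denP l : Polynomial K) : PowerSeries K) =
        (1 - PowerSeries.C xq * PowerSeries.X) * ((denP l : PowerSeries K) *
          (S - PowerSeries.C a * PowerSeries.mk fun m => xq ^ m)) := by
      rw [Polynomial.coe_sub, Polynomial.coe_mul, Polynomial.coe_mul, Polynomial.coe_mul,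
        Polynomial.coe_C, Polynomial.coe_X, Polynomial.coe_C, ← hnum]
      linear_combination (-(denP l : PowerSeries K)) * hSrec +
        (PowerSeries.C a * (denP l : PowerSeries K)) * hG
    rw [hN] at h2
    rw [Polynomial.coe_mul, Polynomial.coe_sub, Polynomial.coe_mul, Polynomial.coe_one,
      Polynomial.coe_C, Polynomial.coe_X] at h2
    exact (mul_left_cancel₀ (lin_ne xq) h2).symm

end Pool.Agent.Mono.TS
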