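import Pool.Agent.Work.Monodromy4.Q3

/-!
# Block Q4: see the file `Q3`, where `stmt_Q4` is proved
-/
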