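import Pool.Agent.Work.Monodromy.Interface4
import Pool.Agent.Work.Monodromy.GJet

/-!
# Block VK (helper89): the volume sequences of powers
-/

set_option autoImplicit false

namespace Pool.Agent.Mono.TS

open MvPolynomial

namespace VKAux

theorem L_xq (P : HodgeMeasure) : P.rat.L * xq = 1 := by
  have h : P.rat.L = toRat (P.val (Set.univ : Set (Unit → ℂ))) := rfl
  have h2 : P.rat.L = RatFunc.X := by
    rw [h, P.line]
    simp [toRat]
  rw [h2, xq]
  exact mul_inv_cancel₀ RatFunc.X_ne_zero

/-! ### power series -/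

theorem pow_coeff (F : PowerSeries ℂ) (k n : ℕ) (h : ∀ l < n, PowerSeries.coeff l F = 0) :
    (∀ l < k * n, PowerSeries.coeff l (F ^ k) = 0) ∧
      PowerSeries.coeff (k * n) (F ^ k) = PowerSeries.coeff n F ^ k := by
  obtain ⟨G, hG⟩ := PowerSeries.X_pow_dvd_iff.2 h
  have h1 : F ^ k = PowerSeries.X ^ (k * n) * G ^ k := by
    rw [hG, mul_pow, ← pow_mul, mul_comm n k]
  have h2 : PowerSeries.coeff n F = PowerSeries.constantCoeff G := by
    rw [hG, ← PowerSeries.coeff_zero_eq_constantCoeff_apply]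
    have := PowerSeries.coeff_X_pow_mul G n 0
    rwa [zero_add] at this
  refine ⟨PowerSeries.X_pow_dvd_iff.1 ⟨G ^ k, h1⟩, ?_⟩
  rw [h2, ← map_pow, h1, ← PowerSeries.coeff_zero_eq_constantCoeff_apply]
  have := PowerSeries.coeff_X_pow_mul (G ^ k) (k * n) 0
  rwa [zero_add] at this

theorem exists_order {F : PowerSeries ℂ} (h : F ≠ 0) :
    ∃ n, (∀ l < n, PowerSeries.coeff l F = 0) ∧ PowerSeries.coeff n F ≠ 0 := by
  classical
  have h1 : ∃ n, PowerSeries.coeff n F ≠ 0 := by
    by_contra hcon
    push Not at hcon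
    exact h (PowerSeries.ext hcon)
  refine ⟨Nat.find h1, fun l hl => ?_, Nat.find_spec h1⟩
  have := Nat.find_min h1 hl
  push Not at this
  exact this

/-- the order and the leading coefficient of a power -/
theorem pow_order {F : PowerSeries ℂ} {k m : ℕ} (hk : 1 ≤ k) {c : ℂ} (hc : c ≠ 0)
    (h1 : ∀ l < m, PowerSeries.coeff l (F ^ k) = 0) (h2 : PowerSeries.coeff m (F ^ k) = c) :
    k ∣ m ∧ (∀ l < m / k, PowerSeries.coeff l F = 0) ∧ PowerSeries.coeff (m / k) F ^ k = c := by
  have hF : F ≠ 0 := by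
    rintro rfl
    rw [zero_pow (by omega), map_zero] at h2
    exact hc h2.symm
  obtain ⟨n, hn1, hn2⟩ := exists_order hF
  obtain ⟨h3, h4⟩ := pow_coeff F k n hn1
  have h5 : PowerSeries.coeff (k * n) (F ^ k) ≠ 0 := by
    rw [h4]
    exact pow_ne_zero _ hn2
  have h6 : m = k * n := by
    rcases Nat.lt_trichotomy m (k * n) with h | h | h
    · exact absurd ((h3 m h).symm.trans h2) hc.symm
    · exact h
    · exact absurd (h1 _ h) h5
  subst h6
  rw [Nat.mul_div_cancel_left n (by omega : 0 < k)]
  exact ⟨dvd_mul_right _ _, hn1, by rw [← h4, h2]⟩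

theorem pow_order_gt (F : PowerSeries ℂ) {k m : ℕ} (hk : 1 ≤ k) :
    (∀ l ≤ m, PowerSeries.coeff l (F ^ k) = 0) ↔ ∀ l ≤ m / k, PowerSeries.coeff l F = 0 := by
  constructor
  · intro h
    by_cases hF : F = 0
    · subst hF
      intro l _
      exact map_zero _
    · obtain ⟨n, hn1, hn2⟩ := exists_order hF
      obtain ⟨h3, h4⟩ := pow_coeff F k n hn1
      intro l hl
      by_cases hln : l < n
      · exact hn1 l hln
      · exfalso
        have h5 : k * n ≤ m := by
          have h6 : n ≤ m / k := by omega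
          calc k * n ≤ k * (m / k) := Nat.mul_le_mul_left k h6
            _ ≤ m := Nat.mul_div_le m k
        have h7 := h _ h5
        rw [h4] at h7
        exact pow_ne_zero _ hn2 h7
  · intro h l hl
    refine (pow_coeff F k (m / k + 1) fun l hl => h l (by omega)).1 l ?_
    have := Nat.lt_mul_div_succ m (by omega : 0 < k)
    omega

/-! ### cylinders -/

section

variable {E ι : Type}

theorem cyl_ctc [Fintype ι] (f : MvPolynomial ι ℂ) {B : Set (E → ℂ)} (hB : Constructible B)
    (k : ℕ) (q : MvPolynomial E ℂ) (m : ℕ) : IsCyl (fun _ => m + 1)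
      {z : (E → ℂ) × (ι → PowerSeries ℂ) | z.1 ∈ B ∧
        (∀ l < m, PowerSeries.coeff l (aeval z.2 f) = 0) ∧
          PowerSeries.coeff m (aeval z.2 f) ^ k = eval z.1 q} := by
  classical
  constructor
  · intro p x y hxy
    have h1 := GJetAux.aeval_congr f (m + 1) x y hxy
    change (_ ∧ _ ∧ _) ↔ (_ ∧ _ ∧ _)
    rw [h1 m (by omega)]
    refine and_congr Iff.rfl (and_congr ?_ Iff.rfl)
    refine forall_congr' fun l => forall_congr' fun hl => ?_
    rw [h1 l (by omega)]
  · set K : ι → ℕ := fun _ => m + 1 with hK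
    have h0 : sec K {z : (E → ℂ) × (ι → PowerSeries ℂ) | z.1 ∈ B ∧
        (∀ l < m, PowerSeries.coeff l (aeval z.2 f) = 0) ∧
          PowerSeries.coeff m (aeval z.2 f) ^ k = eval z.1 q} =
        {v : E ⊕ (Σ i, Fin (K i)) → ℂ | (fun p => v (Sum.inl p)) ∈ B ∧
          (∀ l < m, eval v (GJetAux.cA E K f l) = 0) ∧
            eval v (GJetAux.cA E K f m ^ k) = eval v (rename Sum.inl q)} := by
      ext v
      change (_ ∧ _ ∧ _) ↔ (_ ∧ _ ∧ _)
      simp only [GJetAux.eval_cA, map_pow, eval_rename]
      rfl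
    rw [h0]
    exact Constructible.and (Constructible.comap _ hB) (Constructible.and
      (Constructible.all_lt m fun l _ => Constructible.zero _) (Constructible.eq _ _))

theorem con_Qpow [Finite E] {B : Set (E → ℂ)} (hB : Constructible B) (q : MvPolynomial E ℂ)
    (k : ℕ) : Constructible (Qpow k B q) := by
  have h1 := Constructible.ne (X (Sum.inr ()) : MvPolynomial (E ⊕ Unit) ℂ)
  have h2 := Constructible.eq ((X (Sum.inr ()) : MvPolynomial (E ⊕ Unit) ℂ) ^ k) (rename Sum.inl q)
  simp only [eval_X, eval_rename, map_pow, Function.comp_def] at h1 h2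
  exact Constructible.and (Constructible.comap Sum.inl hB) (Constructible.and h1 h2)

end

end VKAux

open VKAux

theorem stmt_VK : Stmt_VK := by
  classical
  intro P ι _ f k hk
  constructor
  · intro E _ B q hB hq m
    unfold AA
    split
    · rename_i hkm
      obtain ⟨n, rfl⟩ := hkm
      rw [Nat.mul_div_cancel_left n (by omega : 0 < k)]
      -- the first set
      have h1 : ctc (f ^ k) B q (k * n) = {z : (E → ℂ) × (ι → PowerSeries ℂ) | z.1 ∈ B ∧
          (∀ l < n, PowerSeries.coeff l (aeval z.2 f) = 0) ∧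
            PowerSeries.coeff n (aeval z.2 f) ^ k = eval z.1 q} := by
        ext ⟨p, x⟩
        change (p ∈ B ∧ (∀ l < k * n, PowerSeries.coeff l (aeval x (f ^ k)) = 0) ∧
          PowerSeries.coeff (k * n) (aeval x (f ^ k)) = eval p q) ↔ (p ∈ B ∧
          (∀ l < n, PowerSeries.coeff l (aeval x f) = 0) ∧
            PowerSeries.coeff n (aeval x f) ^ k = eval p q)
        rw [map_pow]
        constructor
        · rintro ⟨hp, h2, h3⟩
          obtain ⟨-, h4, h5⟩ := pow_order hk (hq p hp) h2 h3
          rw [Nat.mul_div_cancel_left n (by omega : 0 < k)] at h4 h5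
          exact ⟨hp, h4, h5⟩
        · rintro ⟨hp, h2, h3⟩
          obtain ⟨h4, h5⟩ := pow_coeff (aeval x f) k n h2
          exact ⟨hp, h4, h5.trans h3⟩
      have h2 : ctc f (Qpow k B q) (X (Sum.inr ())) n =
          {z : (E ⊕ Unit → ℂ) × (ι → PowerSeries ℂ) | z.1 ∈ Qpow k B q ∧
          (∀ l < n, PowerSeries.coeff l (aeval z.2 f) = 0) ∧
            PowerSeries.coeff n (aeval z.2 f) ^ 1 = eval z.1 (X (Sum.inr ()))} := by
        simp only [pow_one]
        rfl
      rw [h1, h2]
      have hc1 := cyl_ctc f hB k q n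
      have hc2 := cyl_ctc f (con_Qpow hB q k) 1 (X (Sum.inr ())) n
      have hL := L_xq P
      rw [vol_eq P.rat hL hc1, vol_eq P.rat hL hc2]
      congr 1
      set K : ι → ℕ := fun _ => n + 1 with hK
      have hev : ∀ v : E ⊕ (Σ i, Fin (K i)) → ℂ, eval v (GJetAux.cA E K f n) =
          PowerSeries.coeff n (aeval (toArc K fun s => v (Sum.inr s)) f) := fun v =>
        GJetAux.eval_cA E K f n v
      refine P.rat.val_of_inv hc1.2 hc2.2
        (Sum.elim (Sum.elim (fun e => X (Sum.inl e)) fun _ => GJetAux.cA E K f n)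
          fun s => X (Sum.inr s))
        (fun y => Sum.elim (fun e => y (Sum.inl (Sum.inl e))) fun s => y (Sum.inr s)) ?_ ?_ ?_ ?_
      · rintro v ⟨h3, h4, h5⟩
        change (_ ∈ Qpow k B q) ∧ _ ∧ _
        simp only [Sum.elim_inr, eval_X, Sum.elim_inl, pow_one, Qpow, Set.mem_ofPred_eq]
        have h7 : PowerSeries.coeff n (aeval (toArc K fun s => v (Sum.inr s)) f) ^ k =
            eval (fun p => v (Sum.inl p)) q := h5
        refine ⟨⟨h3, ?_, ?_⟩, h4, (hev v).symm⟩
        · intro h6
          rw [(hev v).symm.trans h6, zero_pow (by omega)] at h7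
          exact hq _ h3 h7.symm
        · exact (congrArg (· ^ k) (hev v)).trans h7
      · rintro y ⟨h3, h4, h5⟩
        refine ⟨h3.1, h4, ?_⟩
        have h6 : PowerSeries.coeff n (aeval (toArc K fun s => y (Sum.inr s)) f) ^ 1 =
            eval (fun p => y (Sum.inl p)) (X (Sum.inr ()) : MvPolynomial (E ⊕ Unit) ℂ) := h5
        rw [pow_one, eval_X] at h6
        change PowerSeries.coeff n (aeval (toArc K fun s => y (Sum.inr s)) f) ^ k = _
        rw [h6]
        exact h3.2.2
      · intro v _
        funext i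
        rcases i with e | s <;> simp
      · rintro y ⟨h3, h4, h5⟩
        funext i
        rcases i with (e | ⟨⟩) | s
        · simp
        · have h6 : PowerSeries.coeff n (aeval (toArc K fun s => y (Sum.inr s)) f) ^ 1 =
              eval (fun p => y (Sum.inl p)) (X (Sum.inr ()) : MvPolynomial (E ⊕ Unit) ℂ) := h5
          rw [pow_one, eval_X] at h6
          exact (hev _).trans h6
        · simp
    · rename_i hkm
      have h1 : ctc (f ^ k) B q m = ∅ := by
        ext ⟨p, x⟩
        simp only [Set.mem_empty_iff_false, iff_false]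
        rintro ⟨hp, h2, h3⟩
        change ∀ l < m, PowerSeries.coeff l (aeval x (f ^ k)) = 0 at h2
        change PowerSeries.coeff m (aeval x (f ^ k)) = eval p q at h3
        rw [map_pow] at h2 h3
        exact hkm (pow_order hk (hq p hp) h2 h3).1
      rw [h1, vol_empty P.rat (L_xq P)]
  · intro m
    unfold bb
    congr 1
    ext z
    change (∀ l ≤ m, PowerSeries.coeff l (aeval z.2 (f ^ k)) = 0) ↔
      ∀ l ≤ m / k, PowerSeries.coeff l (aeval z.2 f) = 0
    rw [map_pow]
    exact pow_order_gt _ hk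

end Pool.Agent.Mono.TS
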