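import Pool.Agent.Work.Monodromy4.TK
import Pool.Agent.Work.Monodromy4.VK

/-!
# Block T0 (helper89): one variable, constant factors, additional variables
-/

set_option autoImplicit false

namespace Pool.Agent.Mono.TS

open MvPolynomial

namespace T0Aux

/-- the value of the Haar part -/
theorem haar_val (P : HodgeMeasure) (α : K) {E : Type} [Finite E] {B : Set (E → ℂ)}
    (hB : Constructible B) (q : MvPolynomial E ℂ) (hq : ∀ p ∈ B, eval p q ≠ 0) (m : ℕ) :
    (haar α).val P B q m = α * xq ^ m * P.rat.val B := by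
  have h1 : P.rat.val {v : E ⊕ Unit → ℂ | (fun p => v (Sum.inl p)) ∈ B ∧
      (fun s => v (Sum.inr s)) ∈ {τ : Unit → ℂ | τ () ≠ 0} ∧
        eval (fun p => v (Sum.inl p)) q =
          eval (fun s => v (Sum.inr s)) (X () : MvPolynomial Unit ℂ)} = P.rat.val B := by
    symm
    refine P.rat.val_of_inv hB (TKAux.con_val hB (TKAux.haar_good α).1 q (X ()))
      (Sum.elim (fun e => X e) fun _ => q) (fun y e => y (Sum.inl e)) ?_ ?_ ?_ ?_
    · intro p hp
      refine ⟨?_, ?_, ?_⟩
      · simpa using hp
      · change eval p q ≠ 0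
        exact hq p hp
      · simp
    · intro y hy
      exact hy.1
    · intro p _
      funext e
      simp
    · intro y hy
      funext i
      rcases i with e | ⟨⟩
      · simp
      · have := hy.2.2
        simpa using this
  unfold Fam.val
  change α * xq ^ m * _ = _
  rw [← h1]
  rfl

/-- the cylinder in the definition of `bb` -/
theorem cyl_bb {ι : Type} [Fintype ι] (f : MvPolynomial ι ℂ) (m : ℕ) :
    IsCyl (fun _ => m + 1) {z : (Empty → ℂ) × (ι → PowerSeries ℂ) |
      ∀ l ≤ m, PowerSeries.coeff l (aeval z.2 f) = 0} := by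
  classical
  constructor
  · intro p x y hxy
    have h1 := GJetAux.aeval_congr f (m + 1) x y hxy
    change (∀ l ≤ m, _) ↔ ∀ l ≤ m, _
    refine forall_congr' fun l => forall_congr' fun hl => ?_
    rw [h1 l (by omega)]
  · set K : ι → ℕ := fun _ => m + 1 with hK
    have h0 : sec K {z : (Empty → ℂ) × (ι → PowerSeries ℂ) |
        ∀ l ≤ m, PowerSeries.coeff l (aeval z.2 f) = 0} =
        {v : Empty ⊕ (Σ i, Fin (K i)) → ℂ |
          ∀ l < m + 1, eval v (GJetAux.cA Empty K f l) = 0} := by
      ext v
      change (∀ l ≤ m, _) ↔ ∀ l < m + 1, _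
      simp only [GJetAux.eval_cA, Nat.lt_succ_iff]
    rw [h0]
    exact Constructible.all_lt _ fun l _ => Constructible.zero _

/-- volumes and additional arcs -/
theorem vol_comp (P : HodgeMeasure) {E ι κ : Type} [Finite E] [Fintype ι] [Fintype κ] {φ : ι → κ}
    (hφ : Function.Injective φ) {K : ι → ℕ} {C : Set ((E → ℂ) × (ι → PowerSeries ℂ))}
    (hC : IsCyl K C) :
    vol P.rat xq {z : (E → ℂ) × (κ → PowerSeries ℂ) | (z.1, fun i => z.2 (φ i)) ∈ C} =
      vol P.rat xq C := by
  classical
  set K' : κ → ℕ := Function.extend φ K 0 with hK'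
  have hKφ : ∀ i, K' (φ i) = K i := fun i => hφ.extend_apply K 0 i
  have hK0 : ∀ j, (¬ ∃ i, φ i = j) → K' j = 0 := fun j hj => Function.extend_apply' _ _ _ hj
  set g : E ⊕ (Σ i, Fin (K i)) → E ⊕ (Σ j, Fin (K' j)) :=
    Sum.map id fun s => ⟨φ s.1, Fin.cast (hKφ s.1).symm s.2⟩ with hg
  have hbij : Function.Bijective g := by
    constructor
    · rintro (e | ⟨i, l⟩) (e' | ⟨i', l'⟩) h
      · simp only [hg, Sum.map_inl, id, Sum.inl.injEq] at h
        rw [h]
      · simp [hg] at h
      · simp [hg] at h
      · simp only [hg, Sum.map_inr, Sum.inr.injEq, Sigma.mk.injEq] at h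
        obtain ⟨h1, h2⟩ := h
        have h3 := hφ h1
        subst h3
        simp only [heq_eq_eq, Fin.cast_inj] at h2
        rw [h2]
    · rintro (e | ⟨j, l⟩)
      · exact ⟨Sum.inl e, rfl⟩
      · have hj : ∃ i, φ i = j := by
          by_contra hj
          have h1 : (l : ℕ) < K' j := l.2
          have h2 := hK0 j hj
          omega
        obtain ⟨i, rfl⟩ := hj
        refine ⟨Sum.inr ⟨i, Fin.cast (hKφ i) l⟩, ?_⟩
        simp [hg]
  set e : E ⊕ (Σ i, Fin (K i)) ≃ E ⊕ (Σ j, Fin (K' j)) := Equiv.ofBijective g hbij with he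
  have harc : ∀ (v : E ⊕ (Σ j, Fin (K' j)) → ℂ),
      (fun i => toArc K' (fun s => v (Sum.inr s)) (φ i)) =
        toArc K fun s => v (e (Sum.inr s)) := by
    intro v
    funext i
    ext l
    rw [coeff_toArc, coeff_toArc]
    by_cases hl : l < K i
    · rw [dif_pos hl, dif_pos (by rw [hKφ]; exact hl)]
      rfl
    · rw [dif_neg hl, dif_neg (by rw [hKφ]; exact hl)]
  have hsec : sec K' {z : (E → ℂ) × (κ → PowerSeries ℂ) | (z.1, fun i => z.2 (φ i)) ∈ C} =
      {v : E ⊕ (Σ j, Fin (K' j)) → ℂ | (fun s => v (e s)) ∈ sec K C} := by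
    ext v
    change ((fun p => v (Sum.inl p)), fun i => toArc K' (fun s => v (Sum.inr s)) (φ i)) ∈ C ↔
      ((fun p => v (e (Sum.inl p))), toArc K fun s => v (e (Sum.inr s))) ∈ C
    rw [harc]
    rfl
  have hcyl : IsCyl K' {z : (E → ℂ) × (κ → PowerSeries ℂ) | (z.1, fun i => z.2 (φ i)) ∈ C} := by
    constructor
    · intro p x y hxy
      refine hC.1 p _ _ fun i l hl => hxy (φ i) l ?_
      rw [hKφ]
      exact hl
    · rw [hsec]
      exact Constructible.comap e hC.2
  have hL := VKAux.L_xq P
  rw [vol_eq P.rat hL hcyl, vol_eq P.rat hL hC, hsec, P.rat.reindex e hC.2]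
  congr 2
  have h1 : ∑ j, K' j = ∑ j ∈ Finset.univ.image φ, K' j := by
    symm
    refine Finset.sum_subset (Finset.subset_univ _) fun j _ hj => hK0 j ?_
    rintro ⟨i, rfl⟩
    exact hj (Finset.mem_image_of_mem _ (Finset.mem_univ i))
  rw [h1, Finset.sum_image fun i _ i' _ h => hφ h]
  exact Finset.sum_congr rfl fun i _ => hKφ i

end T0Aux

open TKAux T0Aux

theorem stmt_T0 (hQ : Stmt_Q1) : Stmt_T0 := by
  classical
  obtain ⟨q1, q2, q3, q4, q5, q6, q7⟩ := hQ
  intro P
  have hL := VKAux.L_xq P
  refine ⟨⟨?_, ?_⟩, ?_, ?_⟩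
  · -- one variable
    refine ⟨xq, [], fun t ht => absurd ht List.not_mem_nil, ?_, ?_⟩
    · intro t ht
      rw [List.mem_singleton] at ht
      subst ht
      exact haar_good _
    · intro E _ B q hB hq m
      rw [List.map_singleton, List.sum_singleton, haar_val P xq hB q hq m]
      unfold AA
      have h1 : ctc (X () : MvPolynomial Unit ℂ) B q m =
          {z : (E → ℂ) × (Unit → PowerSeries ℂ) | z.1 ∈ B ∧
          (∀ l < m, PowerSeries.coeff l (aeval z.2 (X () : MvPolynomial Unit ℂ)) = 0) ∧
            PowerSeries.coeff m (aeval z.2 (X () : MvPolynomial Unit ℂ)) ^ 1 = eval z.1 q} := by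
        simp only [pow_one]
        rfl
      have hc := VKAux.cyl_ctc (X () : MvPolynomial Unit ℂ) hB 1 q m
      rw [h1, vol_eq P.rat hL hc]
      have h2 : ∑ _i : Unit, (m + 1) = m + 1 := by simp
      rw [h2]
      have h3 : P.rat.val B = P.rat.val (sec (fun _ => m + 1)
          {z : (E → ℂ) × (Unit → PowerSeries ℂ) | z.1 ∈ B ∧
          (∀ l < m, PowerSeries.coeff l (aeval z.2 (X () : MvPolynomial Unit ℂ)) = 0) ∧
            PowerSeries.coeff m (aeval z.2 (X () : MvPolynomial Unit ℂ)) ^ 1 = eval z.1 q}) := by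
        have hmem : ∀ v : E ⊕ (Σ _ : Unit, Fin (m + 1)) → ℂ, v ∈ sec (fun _ => m + 1)
          {z : (E → ℂ) × (Unit → PowerSeries ℂ) | z.1 ∈ B ∧
          (∀ l < m, PowerSeries.coeff l (aeval z.2 (X () : MvPolynomial Unit ℂ)) = 0) ∧
            PowerSeries.coeff m (aeval z.2 (X () : MvPolynomial Unit ℂ)) ^ 1 = eval z.1 q} ↔
            (fun p => v (Sum.inl p)) ∈ B ∧ (∀ l : Fin (m + 1), (l : ℕ) < m → v (Sum.inr ⟨(), l⟩) = 0) ∧
              v (Sum.inr ⟨(), Fin.last m⟩) = eval (fun p => v (Sum.inl p)) q := by
          intro v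
          change (_ ∧ (∀ l < m, PowerSeries.coeff l (aeval (toArc (fun _ => m + 1)
            fun s => v (Sum.inr s)) (X () : MvPolynomial Unit ℂ)) = 0) ∧
            PowerSeries.coeff m (aeval (toArc (fun _ => m + 1) fun s => v (Sum.inr s))
              (X () : MvPolynomial Unit ℂ)) ^ 1 = _) ↔ _
          rw [aeval_X, pow_one]
          have h4 : ∀ l (hl : l < m + 1), PowerSeries.coeff l (toArc (fun _ : Unit => m + 1)
              (fun s => v (Sum.inr s)) ()) = v (Sum.inr ⟨(), ⟨l, hl⟩⟩) := by
            intro l hl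
            rw [coeff_toArc, dif_pos hl]
          rw [h4 m (Nat.lt_succ_self m)]
          refine and_congr Iff.rfl (and_congr ?_ Iff.rfl)
          constructor
          · intro h l hl
            rw [← h l hl, h4 l l.2]
          · intro h l hl
            rw [h4 l (by omega)]
            exact h ⟨l, by omega⟩ hl
        refine P.rat.val_of_inv hB hc.2
          (Sum.elim (fun e => X e) fun s => if (s.2 : ℕ) = m then q else 0)
          (fun y e => y (Sum.inl e)) ?_ ?_ ?_ ?_
        · intro p hp
          rw [hmem]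
          refine ⟨by simpa using hp, ?_, ?_⟩
          · intro l hl
            simp only [Sum.elim_inr]
            rw [if_neg (by omega), map_zero]
          · simp
        · intro y hy
          exact ((hmem y).1 hy).1
        · intro p _
          funext e
          simp
        · intro y hy
          obtain ⟨h5, h6, h7⟩ := (hmem y).1 hy
          funext i
          rcases i with e | ⟨⟨⟩, l⟩
          · simp
          · simp only [Sum.elim_inr]
            by_cases hl : (l : ℕ) = m
            · rw [if_pos hl, ← h7]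
              congr 3
              exact Fin.ext (by simp [hl])
            · rw [if_neg hl, map_zero, h6 l (by have := l.2; omega)]
      rw [← h3]
      ring
  · -- mass identity for one variable
    have h1 : bb P (X () : MvPolynomial Unit ℂ) = fun m => xq * (if 1 ∣ m then xq ^ (1 * (m / 1)) else 0) := by
      funext m
      unfold bb
      have hc := cyl_bb (X () : MvPolynomial Unit ℂ) m
      rw [vol_eq P.rat hL hc]
      have h2 : sec (fun _ => m + 1) {z : (Empty → ℂ) × (Unit → PowerSeries ℂ) |
          ∀ l ≤ m, PowerSeries.coeff l (aeval z.2 (X () : MvPolynomial Unit ℂ)) = 0} =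
          {v : Empty ⊕ (Σ _ : Unit, Fin (m + 1)) → ℂ | v = 0} := by
        ext v
        change (∀ l ≤ m, PowerSeries.coeff l (aeval (toArc (fun _ => m + 1)
            fun s => v (Sum.inr s)) (X () : MvPolynomial Unit ℂ)) = 0) ↔ v = 0
        rw [aeval_X]
        have h4 : ∀ l (hl : l < m + 1), PowerSeries.coeff l (toArc (fun _ : Unit => m + 1)
            (fun s => v (Sum.inr s)) ()) = v (Sum.inr ⟨(), ⟨l, hl⟩⟩) := by
          intro l hl
          rw [coeff_toArc, dif_pos hl]
        constructor
        · intro h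
          funext i
          rcases i with e | ⟨⟨⟩, l⟩
          · exact e.elim
          · rw [← h4 l l.2, h l (by have := l.2; omega)]
            rfl
        · rintro rfl l hl
          rw [h4 l (by omega)]
          rfl
      rw [h2, P.rat.val_point, one_mul]
      simp [pow_succ, mul_comm]
    unfold Mass
    rw [h1]
    exact q3 _ _ _ (q5 _ 1 1 le_rfl (by simp))
  · -- constant factors
    intro ι _ f Λ c hc hf hM
    have hF : ∀ (x : ι → PowerSeries ℂ) (l : ℕ), PowerSeries.coeff l (aeval x (C c * f)) =
        c * PowerSeries.coeff l (aeval x f) := by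
      intro x l
      rw [map_mul, aeval_C, PowerSeries.algebraMap_apply, PowerSeries.coeff_C_mul]
      rfl
    constructor
    · obtain ⟨α, ts, hts, hg, hfam⟩ := hf
      let sc : Fam → Fam := fun t => ⟨t.σ, t.fin, t.S, C c * t.u, t.κ⟩
      refine ⟨α, ts.map sc, ?_, ?_, ?_⟩
      · intro t ht
        obtain ⟨t', ht', rfl⟩ := List.mem_map.1 ht
        exact hts t' ht'
      · intro t ht
        rcases List.mem_cons.1 ht with rfl | ht
        · exact haar_good α
        · obtain ⟨t', ht', rfl⟩ := List.mem_map.1 ht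
          have h1 := hg t' (List.mem_cons_of_mem _ ht')
          refine ⟨h1.1, fun τ hτ => ?_⟩
          have h2 : eval τ (C c * t'.u) = c * eval τ t'.u := by rw [map_mul, eval_C]
          have h3 : eval τ (C c * t'.u) ≠ 0 := by
            rw [h2]
            exact mul_ne_zero hc (h1.2 τ hτ)
          exact h3
      · intro E _ B q hB hq m
        have hq' : ∀ p ∈ B, eval p (C c⁻¹ * q) ≠ 0 := by
          intro p hp
          rw [map_mul, eval_C]
          exact mul_ne_zero (inv_ne_zero hc) (hq p hp)
        have h1 : AA P (C c * f) B q m = AA P f B (C c⁻¹ * q) m := by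
          unfold AA
          congr 1
          ext ⟨p, x⟩
          change (p ∈ B ∧ (∀ l < m, PowerSeries.coeff l (aeval x (C c * f)) = 0) ∧
            PowerSeries.coeff m (aeval x (C c * f)) = eval p q) ↔
            (p ∈ B ∧ (∀ l < m, PowerSeries.coeff l (aeval x f) = 0) ∧
            PowerSeries.coeff m (aeval x f) = eval p (C c⁻¹ * q))
          simp only [hF, mul_eq_zero, hc, false_or]
          refine and_congr Iff.rfl (and_congr Iff.rfl ?_)
          rw [map_mul, eval_C, eq_inv_mul_iff_mul_eq₀ hc]
        rw [h1, hfam E B (C c⁻¹ * q) hB hq' m, List.map_cons, List.map_cons, List.sum_cons,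
          List.sum_cons, haar_val P α hB q hq, haar_val P α hB _ hq', List.map_map]
        congr 2
        refine List.map_congr_left fun t _ => ?_
        rw [Function.comp_apply]
        unfold Fam.val
        congr 2
        have := t.fin
        have hset : ∀ v : E ⊕ t.σ → ℂ, ((fun p => v (Sum.inl p)) ∈ B ∧ (fun s => v (Sum.inr s)) ∈ t.S ∧
            eval (fun p => v (Sum.inl p)) (C c⁻¹ * q) = eval (fun s => v (Sum.inr s)) t.u) ↔
            ((fun p => v (Sum.inl p)) ∈ B ∧ (fun s => v (Sum.inr s)) ∈ t.S ∧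
            eval (fun p => v (Sum.inl p)) q = eval (fun s => v (Sum.inr s)) (C c * t.u)) := by
          intro v
          rw [map_mul, map_mul, eval_C, eval_C, inv_mul_eq_iff_eq_mul₀ hc]
        ext v
        exact hset v
    · have h2 : bb P (C c * f) = bb P f := by
        funext m
        unfold bb
        congr 1
        ext z
        change (∀ l ≤ m, PowerSeries.coeff l (aeval z.2 (C c * f)) = 0) ↔
          ∀ l ≤ m, PowerSeries.coeff l (aeval z.2 f) = 0
        simp only [hF, mul_eq_zero, hc, false_or]
      unfold Mass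
      rw [h2]
      exact hM
  · -- additional variables
    intro ι κ _ _ f Λ φ hφ hf hM
    have hF : ∀ x : κ → PowerSeries ℂ, aeval x (rename φ f) = aeval (fun i => x (φ i)) f := by
      intro x
      rw [aeval_rename]
      rfl
    constructor
    · obtain ⟨α, ts, hts, hg, hfam⟩ := hf
      refine ⟨α, ts, hts, hg, fun E _ B q hB hq m => ?_⟩
      rw [← hfam E B q hB hq m]
      unfold AA
      have h1 : ctc (rename φ f) B q m =
          {z : (E → ℂ) × (κ → PowerSeries ℂ) | (z.1, fun i => z.2 (φ i)) ∈ ctc f B q m} := by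
        ext ⟨p, x⟩
        change (p ∈ B ∧ (∀ l < m, PowerSeries.coeff l (aeval x (rename φ f)) = 0) ∧
            PowerSeries.coeff m (aeval x (rename φ f)) = eval p q) ↔
            (p ∈ B ∧ (∀ l < m, PowerSeries.coeff l (aeval (fun i => x (φ i)) f) = 0) ∧
            PowerSeries.coeff m (aeval (fun i => x (φ i)) f) = eval p q)
        rw [hF]
      have h2 : ctc f B q m =
          {z : (E → ℂ) × (ι → PowerSeries ℂ) | z.1 ∈ B ∧
          (∀ l < m, PowerSeries.coeff l (aeval z.2 f) = 0) ∧
            PowerSeries.coeff m (aeval z.2 f) ^ 1 = eval z.1 q} := by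
        simp only [pow_one]
        rfl
      rw [h1]
      exact vol_comp P hφ (K := fun _ => m + 1) (h2 ▸ VKAux.cyl_ctc f hB 1 q m)
    · have h2 : bb P (rename φ f) = bb P f := by
        funext m
        unfold bb
        have h1 : {z : (Empty → ℂ) × (κ → PowerSeries ℂ) |
            ∀ l ≤ m, PowerSeries.coeff l (aeval z.2 (rename φ f)) = 0} =
            {z : (Empty → ℂ) × (κ → PowerSeries ℂ) | (z.1, fun i => z.2 (φ i)) ∈
              {z : (Empty → ℂ) × (ι → PowerSeries ℂ) |
                ∀ l ≤ m, PowerSeries.coeff l (aeval z.2 f) = 0}} := by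
          ext z
          change (∀ l ≤ m, PowerSeries.coeff l (aeval z.2 (rename φ f)) = 0) ↔
            ∀ l ≤ m, PowerSeries.coeff l (aeval (fun i => z.2 (φ i)) f) = 0
          rw [hF]
        rw [h1]
        exact vol_comp P hφ (cyl_bb f m)
      unfold Mass
      rw [h2]
      exact hM

end Pool.Agent.Mono.TS
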