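import Pool.Agent.Work.Monodromy4.TK
import Pool.Agent.Work.Monodromy4.VK
import Pool.Agent.Work.Monodromy.All
import Pool.Agent.Work.Monodromy.SZ

/-!
# Block TD: families of a pulled back central arrangement, from the covers
-/

set_option autoImplicit false
set_option linter.unusedSectionVars false

namespace Pool.Agent.Mono.TS

open MvPolynomial

namespace TDAux

/-! ### weights -/

section weights

variable {ι κ : Type} [Fintype ι] [Fintype κ] [DecidableEq ι] [DecidableEq κ]

/-- the product of the exponents -/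
def AE (D : Data ι κ) : ℕ := ∏ i, D.a i

/-- the weights -/
def wE (D : Data ι κ) (i : ι) : ℕ := AE D / D.a i

/-- the degree -/
def dE (D : Data ι κ) : ℕ := ∑ i, D.b i * wE D i + ∑ j, D.m j * AE D

theorem wE_mul (D : Data ι κ) (i : ι) : wE D i * D.a i = AE D :=
  Nat.div_mul_cancel (Finset.dvd_prod_of_mem D.a (Finset.mem_univ i))

theorem AE_pos (D : Data ι κ) (h : ∀ i, 1 ≤ D.a i) : 0 < AE D :=
  Finset.prod_pos fun i _ => h i

theorem wE_pos (D : Data ι κ) (h : ∀ i, 1 ≤ D.a i) (i : ι) : 0 < wE D i := by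
  have h1 := wE_mul D i
  have h2 := AE_pos D h
  rcases Nat.eq_zero_or_pos (wE D i) with h3 | h3
  · rw [h3, zero_mul] at h1
    omega
  · exact h3

theorem dE_pos (D : Data ι κ) (h : ∀ i, 1 ≤ D.a i) (hR : ∃ i, D.Rel i) : 1 ≤ dE D := by
  obtain ⟨i, hb | ⟨j, hj, -⟩⟩ := hR
  · have h1 : D.b i * wE D i ≤ ∑ i, D.b i * wE D i :=
      Finset.single_le_sum (f := fun i => D.b i * wE D i) (fun _ _ => Nat.zero_le _)
        (Finset.mem_univ i)
    have h2 : 0 < D.b i * wE D i := Nat.mul_pos hb (wE_pos D h i)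
    unfold dE
    omega
  · have h1 : D.m j * AE D ≤ ∑ j, D.m j * AE D :=
      Finset.single_le_sum (f := fun j => D.m j * AE D) (fun _ _ => Nat.zero_le _)
        (Finset.mem_univ j)
    have h2 : 0 < D.m j * AE D := Nat.mul_pos hj (AE_pos D h)
    unfold dE
    omega

theorem F_scale (D : Data ι κ) (hc : D.Central) (t : ℂ) (x : ι → PowerSeries ℂ) :
    D.F (fun _ => 0) (fun i => PowerSeries.C (t ^ wE D i) * x i) =
      PowerSeries.C (t ^ dE D) * D.F (fun _ => 0) x := by
  have h1 : ∀ j, D.formS (fun _ => 0) (fun i => PowerSeries.C (t ^ wE D i) * x i) j =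
      PowerSeries.C (t ^ AE D) * D.formS (fun _ => 0) x j := by
    intro j
    unfold Data.formS
    rw [hc j, map_zero, zero_add, zero_add, Finset.mul_sum]
    refine Finset.sum_congr rfl fun i _ => ?_
    rw [mul_pow, ← map_pow, ← pow_mul, wE_mul]
    ring
  have h4 : ∏ j, D.formS (fun _ => 0) (fun i => PowerSeries.C (t ^ wE D i) * x i) j ^ D.m j =
      PowerSeries.C (t ^ ∑ j, AE D * D.m j) * ∏ j, D.formS (fun _ => 0) x j ^ D.m j := by
    rw [← Finset.prod_pow_eq_pow_sum, map_prod, ← Finset.prod_mul_distrib]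
    refine Finset.prod_congr rfl fun j _ => ?_
    rw [h1 j, mul_pow, ← map_pow, ← pow_mul]
  have h5 : ∏ i, (PowerSeries.C (t ^ wE D i) * x i) ^ D.b i =
      PowerSeries.C (t ^ ∑ i, wE D i * D.b i) * ∏ i, x i ^ D.b i := by
    rw [← Finset.prod_pow_eq_pow_sum, map_prod, ← Finset.prod_mul_distrib]
    refine Finset.prod_congr rfl fun j _ => ?_
    rw [mul_pow, ← map_pow, ← pow_mul]
  unfold Data.F
  rw [h4, h5]
  have h2 : ∑ i, wE D i * D.b i = ∑ i, D.b i * wE D i :=
    Finset.sum_congr rfl fun i _ => mul_comm _ _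
  have h3 : ∑ j, AE D * D.m j = ∑ j, D.m j * AE D :=
    Finset.sum_congr rfl fun i _ => mul_comm _ _
  rw [h2, h3, dE, pow_add, map_mul]
  ring

end weights

/-! ### the graph of `1/q` -/

section graph

variable {E : Type}

/-- `{(p, q') : p ∈ B, q' q(p) = 1}` -/
def BI (B : Set (E → ℂ)) (q : MvPolynomial E ℂ) : Set (E ⊕ Unit → ℂ) :=
  {v | (fun p => v (Sum.inl p)) ∈ B ∧ v (Sum.inr ()) * eval (fun p => v (Sum.inl p)) q = 1}

theorem cons_BI {B : Set (E → ℂ)} (hB : Constructible B) (q : MvPolynomial E ℂ) :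
    Constructible (BI B q) := by
  refine Constructible.and (Constructible.comap Sum.inl hB) ?_
  have h := Constructible.eq (X (Sum.inr ()) * rename Sum.inl q : MvPolynomial (E ⊕ Unit) ℂ) 1
  simpa only [map_mul, eval_X, eval_rename, map_one, Function.comp_def] using h

theorem BI_ne {B : Set (E → ℂ)} {q : MvPolynomial E ℂ} {v : E ⊕ Unit → ℂ} (hv : v ∈ BI B q) :
    v (Sum.inr ()) ≠ 0 := by
  intro h
  have := hv.2
  rw [h, zero_mul] at this
  exact zero_ne_one this

end graph

/-! ### contact sets of the cover of degree `dE D` -/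

section main

variable (P : HodgeMeasure) {ι κ : Type} [Fintype ι] [Fintype κ] [DecidableEq ι] [DecidableEq κ]

theorem toArc_scale {K : ι → ℕ} (c : ι → ℂ) (v : (Σ i, Fin (K i)) → ℂ) :
    toArc K (fun s => c s.1 * v s) = fun i => PowerSeries.C (c i) * toArc K v i := by
  funext i
  ext l
  rw [PowerSeries.coeff_C_mul]
  simp only [toArc, PowerSeries.coeff_mk]
  split_ifs with h
  · rfl
  · rw [mul_zero]

theorem cyl_ctc' {E : Type} (f : MvPolynomial ι ℂ) {B : Set (E → ℂ)} (hB : Constructible B)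
    (q : MvPolynomial E ℂ) (m : ℕ) : IsCyl (fun _ => m + 1) (ctc f B q m) := by
  have h := VKAux.cyl_ctc f hB 1 q m
  have h2 : ctc f B q m =
      {z : (E → ℂ) × (ι → PowerSeries ℂ) | z.1 ∈ B ∧
      (∀ l < m, PowerSeries.coeff l (aeval z.2 f) = 0) ∧
        PowerSeries.coeff m (aeval z.2 f) ^ 1 = eval z.1 q} := by
    simp only [pow_one]
    rfl
  rw [h2]
  exact h

theorem main_val (D : Data ι κ) (hc : D.Central) (hd : 1 ≤ dE D) {E : Type} [Finite E]
    {B : Set (E → ℂ)} (hB : Constructible B) (q : MvPolynomial E ℂ) (hq : ∀ p ∈ B, eval p q ≠ 0)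
    (m : ℕ) :
    vol P.rat xq (contact (dE D) (BI B q) (X (Sum.inr ())) D (fun _ => 0) m) =
      (P.rat.L - 1) * AA P D.poly B q m := by
  classical
  have hL := VKAux.L_xq P
  have hc1 : IsCyl (fun _ => m + 1) (contact (dE D) (BI B q) (X (Sum.inr ())) D (fun _ => 0) m) :=
    stmt_YF ι κ (E ⊕ Unit) (dE D) (BI B q) (X (Sum.inr ())) D (fun _ => 0) m (cons_BI hB q)
  have hc2 : IsCyl (fun _ => m + 1) (ctc D.poly B q m) := cyl_ctc' D.poly hB q m
  unfold AA
  rw [vol_eq P.rat hL hc1, vol_eq P.rat hL hc2, ← mul_assoc]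
  congr 1
  set K : ι → ℕ := fun _ => m + 1 with hK
  -- the middle set
  set S3 : Set (((E ⊕ Unit) ⊕ Unit) ⊕ (Σ i, Fin (K i)) → ℂ) :=
    {v | (fun p => v (Sum.inl (Sum.inl p))) ∈ BI B q ∧ v (Sum.inl (Sum.inr ())) ≠ 0 ∧
      (∀ l < m, PowerSeries.coeff l (D.F (fun _ => 0) (toArc K fun s => v (Sum.inr s))) = 0) ∧
        PowerSeries.coeff m (D.F (fun _ => 0) (toArc K fun s => v (Sum.inr s))) =
          eval (fun p => v (Sum.inl (Sum.inl (Sum.inl p)))) q} with hS3
  have hmem2 : ∀ v : E ⊕ (Σ i, Fin (K i)) → ℂ, v ∈ sec K (ctc D.poly B q m) ↔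
      (fun p => v (Sum.inl p)) ∈ B ∧
      (∀ l < m, PowerSeries.coeff l (D.F (fun _ => 0) (toArc K fun s => v (Sum.inr s))) = 0) ∧
        PowerSeries.coeff m (D.F (fun _ => 0) (toArc K fun s => v (Sum.inr s))) =
          eval (fun p => v (Sum.inl p)) q := by
    intro v
    rw [← JetAux.aeval_poly]
    rfl
  have hcon3 : Constructible S3 := by
    have h1 : S3 = {v | (fun p => v (Sum.inl (Sum.inl p))) ∈ BI B q ∧
        v (Sum.inl (Sum.inr ())) ≠ 0 ∧
        (fun j : E ⊕ (Σ i, Fin (K i)) => v (Sum.elim (fun p => Sum.inl (Sum.inl (Sum.inl p)))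
          (fun s => Sum.inr s) j)) ∈ sec K (ctc D.poly B q m)} := by
      ext v
      simp only [hS3, Set.mem_ofPred_eq, hmem2, Sum.elim_inl, Sum.elim_inr]
      constructor
      · rintro ⟨h1, h2, h3⟩
        exact ⟨h1, h2, h1.1, h3⟩
      · rintro ⟨h1, h2, -, h3⟩
        exact ⟨h1, h2, h3⟩
    rw [h1]
    refine Constructible.and (Constructible.comap (fun p => Sum.inl (Sum.inl p)) (cons_BI hB q))
      (Constructible.and ?_ (Constructible.comap _ hc2.2))
    have h2 := Constructible.ne (X (Sum.inl (Sum.inr ())) :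
      MvPolynomial (((E ⊕ Unit) ⊕ Unit) ⊕ (Σ i, Fin (K i))) ℂ)
    simpa only [eval_X] using h2
  -- from the middle set to the product
  have e1 : P.rat.val S3 = (P.rat.L - 1) * P.rat.val (sec K (ctc D.poly B q m)) := by
    rw [← SZAux.val_Gm, ← P.rat.val_pset SZAux.cons_Gm hc2.2]
    refine P.rat.map _ _ (fun j : Unit ⊕ (E ⊕ (Σ i, Fin (K i))) => match j with
      | Sum.inl _ => (X (Sum.inl (Sum.inr ())) :
          MvPolynomial (((E ⊕ Unit) ⊕ Unit) ⊕ (Σ i, Fin (K i))) ℂ)
      | Sum.inr (Sum.inl p) => X (Sum.inl (Sum.inl (Sum.inl p)))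
      | Sum.inr (Sum.inr s) => X (Sum.inr s)) hcon3
      (Constructible.and (Constructible.comap Sum.inl SZAux.cons_Gm)
        (Constructible.comap Sum.inr hc2.2)) ?_
    refine ⟨?_, ?_, ?_⟩
    · rintro v ⟨h1, h2, h3, h4⟩
      refine ⟨?_, ?_⟩
      · simpa only [SZAux.Gm, Set.mem_ofPred_eq, eval_X] using h2
      · rw [hmem2]
        simp only [eval_X]
        exact ⟨h1.1, h3, h4⟩
    · rintro v ⟨h1, h2, -⟩ v' ⟨h1', h2', -⟩ hvv
      have hp : ∀ p, v (Sum.inl (Sum.inl (Sum.inl p))) = v' (Sum.inl (Sum.inl (Sum.inl p))) := by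
        intro p
        have := congrFun hvv (Sum.inr (Sum.inl p))
        simpa only [eval_X] using this
      ext j
      rcases j with ((p | ⟨⟩) | ⟨⟩) | s
      · exact hp p
      · have h3 := h1.2
        have h3' := h1'.2
        have h4 : (fun p => v (Sum.inl (Sum.inl (Sum.inl p)))) =
            fun p => v' (Sum.inl (Sum.inl (Sum.inl p))) := funext hp
        simp only at h3 h3'
        rw [h4] at h3
        exact mul_right_cancel₀ (hq _ h1'.1) (h3.trans h3'.symm)
      · have := congrFun hvv (Sum.inl ())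
        simpa only [eval_X] using this
      · have := congrFun hvv (Sum.inr (Sum.inr s))
        simpa only [eval_X] using this
    · rintro y ⟨hy1, hy2⟩
      obtain ⟨h1, h2, h3⟩ := (hmem2 _).1 hy2
      refine ⟨Sum.elim (Sum.elim (Sum.elim (fun p => y (Sum.inr (Sum.inl p)))
        fun _ => (eval (fun p => y (Sum.inr (Sum.inl p))) q)⁻¹) fun _ => y (Sum.inl ()))
        fun s => y (Sum.inr (Sum.inr s)), ⟨⟨h1, ?_⟩, hy1, h2, h3⟩, ?_⟩
      · simp only [Sum.elim_inl, Sum.elim_inr]
        exact inv_mul_cancel₀ (hq _ h1)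
      · ext j
        rcases j with ⟨⟩ | (p | s)
        · simp only [eval_X, Sum.elim_inl, Sum.elim_inr]
        · simp only [eval_X, Sum.elim_inl]
        · simp only [eval_X, Sum.elim_inr]
  rw [← e1]
  symm
  -- from the middle set to the contact set
  have hscale : ∀ (t : ℂ) (v : (Σ i, Fin (K i)) → ℂ) (l : ℕ),
      PowerSeries.coeff l (D.F (fun _ => 0) (toArc K fun s => t ^ wE D s.1 * v s)) =
        t ^ dE D * PowerSeries.coeff l (D.F (fun _ => 0) (toArc K v)) := by
    intro t v l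
    rw [toArc_scale (fun i => t ^ wE D i) v, F_scale D hc, PowerSeries.coeff_C_mul]
  have hmem1 : ∀ v : ((E ⊕ Unit) ⊕ Unit) ⊕ (Σ i, Fin (K i)) → ℂ,
      v ∈ sec K (contact (dE D) (BI B q) (X (Sum.inr ())) D (fun _ => 0) m) ↔
      (fun p => v (Sum.inl (Sum.inl p))) ∈ BI B q ∧
      (∀ l < m, PowerSeries.coeff l (D.F (fun _ => 0) (toArc K fun s => v (Sum.inr s))) = 0) ∧
      PowerSeries.coeff m (D.F (fun _ => 0) (toArc K fun s => v (Sum.inr s))) ≠ 0 ∧
      v (Sum.inl (Sum.inr ())) ^ dE D = v (Sum.inl (Sum.inl (Sum.inr ()))) *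
        PowerSeries.coeff m (D.F (fun _ => 0) (toArc K fun s => v (Sum.inr s))) := by
    intro v
    simp only [sec, contact, Set.mem_ofPred_eq, eval_X]
  refine P.rat.map _ _ (fun j : ((E ⊕ Unit) ⊕ Unit) ⊕ (Σ i, Fin (K i)) => match j with
    | Sum.inl a => (X (Sum.inl a) :
          MvPolynomial (((E ⊕ Unit) ⊕ Unit) ⊕ (Σ i, Fin (K i))) ℂ)
    | Sum.inr s => X (Sum.inl (Sum.inr ())) ^ wE D s.1 * X (Sum.inr s)) hcon3 hc1.2 ?_
  refine ⟨?_, ?_, ?_⟩
  · rintro v ⟨h1, h2, h3, h4⟩
    rw [hmem1]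
    simp only [eval_X, map_mul, map_pow, hscale]
    refine ⟨h1, ?_, ?_, ?_⟩
    · intro l hl
      rw [h3 l hl, mul_zero]
    · rw [h4]
      exact mul_ne_zero (pow_ne_zero _ h2) (hq _ h1.1)
    · rw [h4]
      have h5 : v (Sum.inl (Sum.inl (Sum.inr ()))) *
        eval (fun p => v (Sum.inl (Sum.inl (Sum.inl p)))) q = 1 := h1.2
      linear_combination (-(v (Sum.inl (Sum.inr ())) ^ dE D)) * h5
  · rintro v ⟨h1, h2, -⟩ v' ⟨h1', h2', -⟩ hvv
    have ha : ∀ a, v (Sum.inl a) = v' (Sum.inl a) := by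
      intro a
      have := congrFun hvv (Sum.inl a)
      simpa only [eval_X] using this
    ext j
    rcases j with a | s
    · exact ha a
    · have h3 := congrFun hvv (Sum.inr s)
      simp only [eval_X, map_mul, map_pow] at h3
      rw [ha] at h3
      exact mul_left_cancel₀ (pow_ne_zero _ h2') h3
  · intro y hy
    obtain ⟨h1, h2, h3, h4⟩ := (hmem1 y).1 hy
    have hq' : y (Sum.inl (Sum.inl (Sum.inr ()))) ≠ 0 := BI_ne h1
    have ht : y (Sum.inl (Sum.inr ())) ≠ 0 := by
      intro h5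
      rw [h5, zero_pow (by omega)] at h4
      exact mul_ne_zero hq' h3 h4.symm
    set x : (Σ i, Fin (K i)) → ℂ := fun s =>
      (y (Sum.inl (Sum.inr ())) ^ wE D s.1)⁻¹ * y (Sum.inr s) with hx
    have hyx : (fun s : Σ i, Fin (K i) => y (Sum.inr s)) =
        fun s => y (Sum.inl (Sum.inr ())) ^ wE D s.1 * x s := by
      funext s
      rw [hx]
      simp only
      rw [← mul_assoc, mul_inv_cancel₀ (pow_ne_zero _ ht), one_mul]
    rw [hyx] at h2 h3 h4
    simp only [hscale] at h2 h3 h4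
    refine ⟨Sum.elim (fun a => y (Sum.inl a)) x, ⟨h1, ht, ?_, ?_⟩, ?_⟩
    · intro l hl
      simp only [Sum.elim_inr]
      rcases mul_eq_zero.1 (h2 l hl) with h5 | h5
      · exact absurd h5 (pow_ne_zero _ ht)
      · exact h5
    · simp only [Sum.elim_inr, Sum.elim_inl]
      have h5 : y (Sum.inl (Sum.inl (Sum.inr ()))) *
        eval (fun p => y (Sum.inl (Sum.inl (Sum.inl p)))) q = 1 := h1.2
      have h6 : y (Sum.inl (Sum.inl (Sum.inr ()))) *
          PowerSeries.coeff m (D.F (fun _ => 0) (toArc K x)) = 1 := by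
        apply mul_left_cancel₀ (pow_ne_zero (dE D) ht)
        rw [mul_one]
        linear_combination -h4
      exact mul_left_cancel₀ hq' (h6.trans h5.symm)
    · ext j
      rcases j with a | s
      · simp only [eval_X, Sum.elim_inl]
      · simp only [eval_X, map_mul, map_pow, Sum.elim_inl, Sum.elim_inr]
        exact (congrFun hyx s).symm

end main

/-! ### the classes in the covers -/

section classes

variable (P : HodgeMeasure)

theorem cls_val {E σ : Type} [Finite E] [Finite σ] (g : ℕ) (hg : 1 ≤ g) {B : Set (E → ℂ)}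
    (hB : Constructible B) (q : MvPolynomial E ℂ) (hq : ∀ p ∈ B, eval p q ≠ 0) {S : Set (σ → ℂ)}
    (hS : Constructible S) (u : MvPolynomial σ ℂ) (hu : ∀ τ ∈ S, eval τ u ≠ 0) :
    cls P.rat g (BI B q) (X (Sum.inr ())) S u =
      P.rat.val {v : E ⊕ (σ ⊕ Unit) → ℂ | (fun p => v (Sum.inl p)) ∈ B ∧
        (fun s => v (Sum.inr s)) ∈ {t : σ ⊕ Unit → ℂ | (fun s => t (Sum.inl s)) ∈ S ∧
          t (Sum.inr ()) ≠ 0} ∧
          eval (fun p => v (Sum.inl p)) q = eval (fun s => v (Sum.inr s))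
            (rename Sum.inl u * X (Sum.inr ()) ^ g)} := by
  classical
  unfold cls
  have hmemc : ∀ v : ((E ⊕ Unit) ⊕ σ) ⊕ Unit → ℂ,
      v ∈ cover g (pset (BI B q) S) (pmul (X (Sum.inr ())) u) ↔
      (fun p => v (Sum.inl (Sum.inl p))) ∈ BI B q ∧ (fun s => v (Sum.inl (Sum.inr s))) ∈ S ∧
        v (Sum.inr ()) ^ g = v (Sum.inl (Sum.inl (Sum.inr ()))) *
          eval (fun s => v (Sum.inl (Sum.inr s))) u := by
    intro v
    simp only [cover, pset, pmul, Set.mem_ofPred_eq, map_mul, eval_rename, eval_X,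
      Function.comp_def, and_assoc]
  have hcc : Constructible (cover g (pset (BI B q) S) (pmul (X (Sum.inr ())) u)) := by
    have h1 : cover g (pset (BI B q) S) (pmul (X (Sum.inr ())) u) =
        {v : ((E ⊕ Unit) ⊕ σ) ⊕ Unit → ℂ |
        (fun p => v (Sum.inl (Sum.inl p))) ∈ BI B q ∧ (fun s => v (Sum.inl (Sum.inr s))) ∈ S ∧
        eval v (X (Sum.inr ()) ^ g) = eval v (X (Sum.inl (Sum.inl (Sum.inr ()))) *
          rename (fun s => Sum.inl (Sum.inr s)) u)} := by
      ext v
      rw [hmemc]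
      simp only [Set.mem_ofPred_eq, map_mul, map_pow, eval_X, eval_rename, Function.comp_def]
    rw [h1]
    exact Constructible.and (Constructible.comap (fun p => Sum.inl (Sum.inl p)) (cons_BI hB q))
      (Constructible.and (Constructible.comap (fun s => Sum.inl (Sum.inr s)) hS)
        (Constructible.eq _ _))
  set S1 : Set (σ ⊕ Unit → ℂ) := {t | (fun s => t (Sum.inl s)) ∈ S ∧ t (Sum.inr ()) ≠ 0} with hS1
  have hcS1 : Constructible S1 := by
    refine Constructible.and (Constructible.comap Sum.inl hS) ?_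
    have h2 := Constructible.ne (X (Sum.inr ()) : MvPolynomial (σ ⊕ Unit) ℂ)
    simpa only [eval_X] using h2
  have hcW := TKAux.con_val hB hcS1 q (rename Sum.inl u * X (Sum.inr ()) ^ g)
  -- the graph
  set S4 : Set ((((E ⊕ Unit) ⊕ σ) ⊕ Unit) ⊕ Unit → ℂ) :=
    {v | (fun a => v (Sum.inl a)) ∈ cover g (pset (BI B q) S) (pmul (X (Sum.inr ())) u) ∧
      v (Sum.inl (Sum.inr ())) * v (Sum.inr ()) = 1} with hS4
  have hc4 : Constructible S4 := by
    refine Constructible.and (Constructible.comap Sum.inl hcc) ?_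
    have h2 := Constructible.eq (X (Sum.inl (Sum.inr ())) * X (Sum.inr ()) :
      MvPolynomial ((((E ⊕ Unit) ⊕ σ) ⊕ Unit) ⊕ Unit) ℂ) 1
    simpa only [map_mul, eval_X, map_one] using h2
  have e1 : P.rat.val S4 = P.rat.val (cover g (pset (BI B q) S) (pmul (X (Sum.inr ())) u)) := by
    refine P.rat.val_of_inv hc4 hcc (fun a => X (Sum.inl a))
      (fun y => Sum.elim y fun _ => (y (Sum.inr ()))⁻¹) ?_ ?_ ?_ ?_
    · intro v hv
      simp only [eval_X]
      exact hv.1
    · intro y hy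
      refine ⟨hy, ?_⟩
      simp only [Sum.elim_inl, Sum.elim_inr]
      apply mul_inv_cancel₀
      intro h1
      obtain ⟨h2, h3, h4⟩ := (hmemc y).1 hy
      rw [h1, zero_pow (by omega)] at h4
      exact mul_ne_zero (BI_ne h2) (hu _ h3) h4.symm
    · intro v hv
      ext j
      rcases j with a | ⟨⟩
      · simp only [eval_X, Sum.elim_inl]
      · simp only [eval_X, Sum.elim_inr]
        exact (eq_inv_of_mul_eq_one_right hv.2).symm
    · intro y _
      ext j
      simp only [eval_X, Sum.elim_inl]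
  rw [← e1]
  refine P.rat.val_of_inv hc4 hcW (Sum.elim (fun p => X (Sum.inl (Sum.inl (Sum.inl (Sum.inl p)))))
    (Sum.elim (fun s => X (Sum.inl (Sum.inl (Sum.inr s)))) fun _ => X (Sum.inr ())))
    (fun y => Sum.elim (Sum.elim (Sum.elim (Sum.elim (fun p => y (Sum.inl p))
      fun _ => (eval (fun p => y (Sum.inl p)) q)⁻¹) fun s => y (Sum.inr (Sum.inl s)))
      fun _ => (y (Sum.inr (Sum.inr ())))⁻¹) fun _ => y (Sum.inr (Sum.inr ()))) ?_ ?_ ?_ ?_
  · rintro v ⟨h1, h2⟩
    obtain ⟨h3, h4, h5⟩ := (hmemc _).1 h1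
    refine ⟨?_, ⟨?_, ?_⟩, ?_⟩
    · simp only [Sum.elim_inl, eval_X]
      exact h3.1
    · simp only [Sum.elim_inl, Sum.elim_inr, eval_X]
      exact h4
    · simp only [Sum.elim_inr, eval_X]
      intro h6
      rw [h6, mul_zero] at h2
      exact zero_ne_one h2
    · simp only [map_mul, map_pow, eval_rename, Function.comp_def, Sum.elim_inl, Sum.elim_inr,
        eval_X]
      have h6 : v (Sum.inl (Sum.inl (Sum.inl (Sum.inr ())))) *
        eval (fun p => v (Sum.inl (Sum.inl (Sum.inl (Sum.inl p))))) q = 1 := h3.2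
      have h7 : v (Sum.inl (Sum.inr ())) ^ g * v (Sum.inr ()) ^ g = 1 := by
        rw [← mul_pow, h2, one_pow]
      have h8 : v (Sum.inl (Sum.inl (Sum.inl (Sum.inr ())))) ≠ 0 := BI_ne h3
      apply mul_left_cancel₀ h8
      rw [h6, ← h7, h5]
      ring
  · rintro y ⟨h1, ⟨h2, h3⟩, h4⟩
    simp only [map_mul, map_pow, eval_rename, Function.comp_def, eval_X] at h4
    refine ⟨?_, ?_⟩
    · rw [hmemc]
      simp only [Sum.elim_inl, Sum.elim_inr]
      refine ⟨⟨h1, ?_⟩, h2, ?_⟩
      · simp only [Sum.elim_inl, Sum.elim_inr]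
        exact inv_mul_cancel₀ (hq _ h1)
      · rw [h4, inv_pow, mul_inv]
        have h5 := hu _ h2
        field_simp
    · simp only [Sum.elim_inl, Sum.elim_inr]
      exact inv_mul_cancel₀ h3
  · rintro v ⟨h1, h2⟩
    obtain ⟨h3, h4, h5⟩ := (hmemc _).1 h1
    have h6 : v (Sum.inl (Sum.inl (Sum.inl (Sum.inr ())))) *
        eval (fun p => v (Sum.inl (Sum.inl (Sum.inl (Sum.inl p))))) q = 1 := h3.2
    ext j
    rcases j with (((p | ⟨⟩) | s) | ⟨⟩) | ⟨⟩
    · simp only [Sum.elim_inl, eval_X]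
    · simp only [Sum.elim_inl, Sum.elim_inr, eval_X]
      exact (eq_inv_of_mul_eq_one_left h6).symm
    · simp only [Sum.elim_inl, Sum.elim_inr, eval_X]
    · simp only [Sum.elim_inl, Sum.elim_inr, eval_X]
      exact (eq_inv_of_mul_eq_one_left h2).symm
    · simp only [Sum.elim_inr, eval_X]
  · intro y _
    ext j
    rcases j with p | (s | ⟨⟩)
    · simp only [Sum.elim_inl, eval_X]
    · simp only [Sum.elim_inl, Sum.elim_inr, eval_X]
    · simp only [Sum.elim_inr, eval_X]

/-! ### sequences -/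

theorem L_sub (P : HodgeMeasure) : P.rat.L - 1 ≠ 0 := by
  intro h
  have h1 : P.rat.L = 1 := sub_eq_zero.1 h
  have h2 := VKAux.L_xq P
  rw [h1, one_mul] at h2
  have h3 := Xinv_pow_ne_one 1 le_rfl
  rw [pow_one] at h3
  exact h3 h2

theorem denP_geo (l : List (ℕ × ℕ)) (hl : ∀ r ∈ l, 1 ≤ r.1) :
    (denP l : PowerSeries K) * (l.map fun r => geo xq r).prod = 1 := by
  induction l with
  | nil => simp [denP]
  | cons r l ih =>
    have h1 : denP (r :: l) = (1 - Polynomial.C (xq ^ r.2) * Polynomial.X ^ r.1) * denP l := by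
      simp [denP]
    have h2 : ((1 - Polynomial.C (xq ^ r.2) * Polynomial.X ^ r.1 : Polynomial K) :
        PowerSeries K) = 1 - PowerSeries.C (xq ^ r.2) * PowerSeries.X ^ r.1 := by
      rw [Polynomial.coe_sub, Polynomial.coe_one, Polynomial.coe_mul, Polynomial.coe_C,
        Polynomial.coe_pow, Polynomial.coe_X]
    rw [h1, Polynomial.coe_mul, h2, List.map_cons, List.prod_cons]
    calc _ = ((1 - PowerSeries.C (xq ^ r.2) * PowerSeries.X ^ r.1) * geo xq r) *
        ((denP l : PowerSeries K) * (l.map fun r => geo xq r).prod) := by ring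
      _ = 1 := by
        rw [geo_mul xq r (hl r List.mem_cons_self), ih fun r' hr' => hl r' (List.mem_cons_of_mem _ hr'),
          one_mul]

/-- the series of a term, without its class and divided by `L - 1` -/
noncomputable def serT (t : Term) : PowerSeries K :=
  PowerSeries.C (xq ^ t.l * (P.rat.L - 1) ^ t.D.length / (P.rat.L - 1)) * PowerSeries.X ^ t.c *
    (t.D.map fun r => geo xq r).prod

theorem ser_eq (t : Term) {E : Type} [Finite E] (B : Set (E → ℂ)) (h : MvPolynomial E ℂ) :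
    t.ser P.rat xq B h = PowerSeries.C ((P.rat.L - 1) *
      (haveI := t.fin; cls P.rat t.g B h t.S t.u)) * serT P t := by
  have h1 : ∀ l : List (ℕ × ℕ), (l.map fun q => PowerSeries.C (P.rat.L - 1) * geo xq q).prod =
      PowerSeries.C ((P.rat.L - 1) ^ l.length) * (l.map fun q => geo xq q).prod := by
    intro l
    induction l with
    | nil => simp
    | cons r l ih =>
      rw [List.map_cons, List.prod_cons, ih, List.map_cons, List.prod_cons, List.length_cons,
        pow_succ, map_mul]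
      ring
  have h2 := L_sub P
  unfold Term.ser serT
  rw [h1]
  have h3 : (PowerSeries.C ((P.rat.L - 1) *
      (haveI := t.fin; cls P.rat t.g B h t.S t.u)) : PowerSeries K) *
      PowerSeries.C (xq ^ t.l * (P.rat.L - 1) ^ t.D.length / (P.rat.L - 1)) =
      PowerSeries.C ((haveI := t.fin; cls P.rat t.g B h t.S t.u) * xq ^ t.l) *
        PowerSeries.C ((P.rat.L - 1) ^ t.D.length) := by
    rw [← map_mul, ← map_mul]
    congr 1
    field_simp
  calc _ = (PowerSeries.C ((haveI := t.fin; cls P.rat t.g B h t.S t.u) * xq ^ t.l) *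
        PowerSeries.C ((P.rat.L - 1) ^ t.D.length)) * PowerSeries.X ^ t.c *
          (t.D.map fun q => geo xq q).prod := by ring
    _ = _ := by
      rw [← h3]
      ring

/-- the family of a term -/
noncomputable def famT (t : Term) : Fam where
  σ := t.σ ⊕ Unit
  fin := haveI := t.fin; inferInstance
  S := {τ | (fun s => τ (Sum.inl s)) ∈ t.S ∧ τ (Sum.inr ()) ≠ 0}
  u := rename Sum.inl t.u * X (Sum.inr ()) ^ t.g
  κ := fun m => PowerSeries.coeff m (serT P t)

theorem famT_good (t : Term) (h1 : Constructible t.S) (h2 : ∀ x ∈ t.S, eval x t.u ≠ 0) :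
    (famT P t).Good := by
  have h3 : Constructible {τ : t.σ ⊕ Unit → ℂ | (fun s => τ (Sum.inl s)) ∈ t.S ∧
      τ (Sum.inr ()) ≠ 0} := by
    refine Constructible.and (Constructible.comap Sum.inl h1) ?_
    have h2 := Constructible.ne (X (Sum.inr ()) : MvPolynomial (t.σ ⊕ Unit) ℂ)
    simpa only [eval_X] using h2
  have h4 : ∀ τ ∈ {τ : t.σ ⊕ Unit → ℂ | (fun s => τ (Sum.inl s)) ∈ t.S ∧ τ (Sum.inr ()) ≠ 0},
      eval τ (rename Sum.inl t.u * X (Sum.inr ()) ^ t.g) ≠ 0 := by
    rintro τ ⟨h4, h5⟩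
    simp only [map_mul, map_pow, eval_rename, eval_X, Function.comp_def]
    exact mul_ne_zero (h2 _ h4) (pow_ne_zero _ h5)
  exact ⟨h3, h4⟩

theorem eseq (t : Term) (G : Set (ℕ × ℕ)) (ht : t.Ok G) :
    ESeq {r | ∃ q ∈ G, r = (q.2 : ℚ) / (q.1 : ℚ)} (famT P t).κ := by
  refine ⟨t.D, Polynomial.C (xq ^ t.l * (P.rat.L - 1) ^ t.D.length / (P.rat.L - 1)) *
    Polynomial.X ^ t.c, ?_, ?_⟩
  · intro q hq
    obtain ⟨h1, h2⟩ := ht.2.2.2 q hq
    exact ⟨h2, q, h1, rfl⟩
  · have h1 : PowerSeries.mk (famT P t).κ = serT P t := by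
      ext m
      rw [PowerSeries.coeff_mk]
      rfl
    rw [h1, serT, Polynomial.coe_mul, Polynomial.coe_C, Polynomial.coe_pow, Polynomial.coe_X]
    calc _ = (PowerSeries.C (xq ^ t.l * (P.rat.L - 1) ^ t.D.length / (P.rat.L - 1)) *
        PowerSeries.X ^ t.c) * ((denP t.D : PowerSeries K) *
          (t.D.map fun r => geo xq r).prod) := by ring
      _ = _ := by
        rw [denP_geo t.D fun r hr => (ht.2.2.2 r hr).2, mul_one]

end classes

end TDAux

open TDAux

theorem stmt_TD : Stmt_TD := by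
  classical
  intro P ι κ _ _ _ _ D hc hv hR
  have hd := dE_pos D hv.1 hR
  obtain ⟨ts, hok, hts⟩ := all_Central ι κ D hc hv (bSet D.poly) subset_rfl (fun _ => 0) (dE D) hd
  refine ⟨0, ts.map (famT P), ?_, ?_, ?_⟩
  · intro t ht
    obtain ⟨t', ht', rfl⟩ := List.mem_map.1 ht
    exact eseq P t' _ (hok t' ht')
  · intro t ht
    rcases List.mem_cons.1 ht with rfl | ht
    · exact TKAux.haar_good _
    · obtain ⟨t', ht', rfl⟩ := List.mem_map.1 ht
      obtain ⟨h1, h2, h3, -⟩ := hok t' ht'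
      have := t'.fin
      exact famT_good P t' h1 h2
  · intro E _ B q hB hq m
    have hL := VKAux.L_xq P
    rw [List.map_cons, List.sum_cons]
    have h0 : (haar 0).val P B q m = 0 := by
      unfold Fam.val haar
      simp only [zero_mul]
    rw [h0, zero_add]
    apply mul_left_cancel₀ (L_sub P)
    rw [← main_val P D hc hd hB q hq m]
    have h1 := hts K P.rat xq hL (E ⊕ Unit) (BI B q) (X (Sum.inr ())) (cons_BI hB q)
      (fun p hp => by rw [eval_X]; exact BI_ne hp)
    have h2 : vol P.rat xq (contact (dE D) (BI B q) (X (Sum.inr ())) D (fun _ => 0) m) =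
        PowerSeries.coeff m (Zs P.rat xq (dE D) (BI B q) (X (Sum.inr ())) D fun _ => 0) := by
      rw [Zs, PowerSeries.coeff_mk]
    rw [h2, h1]
    clear h1 h2 hts
    induction ts with
    | nil => simp
    | cons t ts ih =>
      rw [List.map_cons, List.sum_cons, map_add, ih fun t' ht' => hok t' (List.mem_cons_of_mem _ ht'),
        List.map_cons, List.map_cons, List.sum_cons, mul_add]
      congr 1
      obtain ⟨h1, h2, h3, -⟩ := hok t List.mem_cons_self
      have := t.fin
      rw [ser_eq P t, PowerSeries.coeff_C_mul, cls_val P t.g h3 hB q hq h1 t.u h2]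
      unfold Fam.val famT
      simp only
      ring

end Pool.Agent.Mono.TS
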