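import Pool.Agent.Work.Monodromy.Interface4

/-!
# Block TK (helper89): powers
-/

set_option autoImplicit false

namespace Pool.Agent.Mono.TS

open MvPolynomial

namespace TKAux

theorem pre {ι κ : Type} (φ : κ → MvPolynomial ι ℂ) {s : Set (κ → ℂ)}
    (hs : Constructible s) : Constructible {x : ι → ℂ | (fun j => eval x (φ j)) ∈ s} := by
  induction hs with
  | zero p =>
    have h := Constructible.zero (bind₁ φ p)
    have e : {x : ι → ℂ | eval x (bind₁ φ p) = 0} =
        {x : ι → ℂ | (fun j => eval x (φ j)) ∈ {x : κ → ℂ | eval x p = 0}} := by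
      ext x
      simp only [Set.mem_ofPred_eq]
      have : eval x (bind₁ φ p) = eval (fun j => eval x (φ j)) p := by
        induction p using MvPolynomial.induction_on with
        | C a => simp
        | add p q hp hq =>
          rw [map_add, map_add, map_add, hp, hq] <;> exact Constructible.zero _
        | mul_X p i hp =>
          rw [map_mul, map_mul, map_mul, hp, bind₁_X_right, eval_X]
          exact Constructible.zero _
      rw [this]
    rwa [e] at h
  | compl _ ih => exact ih.compl
  | inter _ _ ih1 ih2 => exact ih1.inter ih2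

theorem preX {ι κ : Type} (g : κ → ι) {s : Set (κ → ℂ)} (hs : Constructible s) :
    Constructible {x : ι → ℂ | (fun j => x (g j)) ∈ s} := by
  have h := pre (fun j => (X (g j) : MvPolynomial ι ℂ)) hs
  simpa only [eval_X] using h

theorem cand {ι : Type} {P Q : (ι → ℂ) → Prop} (hP : Constructible {x | P x})
    (hQ : Constructible {x | Q x}) : Constructible {x | P x ∧ Q x} := hP.inter hQ

theorem ceq {ι : Type} (p q : MvPolynomial ι ℂ) : Constructible {x : ι → ℂ | eval x p = eval x q} := by
  have h := Constructible.zero (p - q)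
  simpa only [map_sub, sub_eq_zero] using h

theorem cne {ι : Type} (p : MvPolynomial ι ℂ) : Constructible {x : ι → ℂ | eval x p ≠ 0} :=
  (Constructible.zero p).compl

/-- the set in the definition of `Fam.val` -/
theorem con_val {E σ : Type} {B : Set (E → ℂ)} {S : Set (σ → ℂ)} (hB : Constructible B)
    (hS : Constructible S) (q : MvPolynomial E ℂ) (u : MvPolynomial σ ℂ) :
    Constructible {v : E ⊕ σ → ℂ | (fun p => v (Sum.inl p)) ∈ B ∧ (fun s => v (Sum.inr s)) ∈ S ∧
      eval (fun p => v (Sum.inl p)) q = eval (fun s => v (Sum.inr s)) u} := by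
  refine cand (preX Sum.inl hB) (cand (preX Sum.inr hS) ?_)
  have h := ceq (rename (Sum.inl : E → E ⊕ σ) q) (rename (Sum.inr : σ → E ⊕ σ) u)
  simpa only [eval_rename, Function.comp_def] using h

theorem con_Qpow {E : Type} {B : Set (E → ℂ)} (hB : Constructible B) (q : MvPolynomial E ℂ)
    (k : ℕ) : Constructible (Qpow k B q) := by
  have h1 := cne (X (Sum.inr ()) : MvPolynomial (E ⊕ Unit) ℂ)
  have h2 := ceq ((X (Sum.inr ()) : MvPolynomial (E ⊕ Unit) ℂ) ^ k) (rename Sum.inl q)
  simp only [eval_X, eval_rename, map_pow, Function.comp_def] at h1 h2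
  exact cand (preX Sum.inl hB) (cand h1 h2)

/-- the family of the power -/
noncomputable def powFam (k : ℕ) (t : Fam) : Fam where
  σ := t.σ
  fin := t.fin
  S := t.S
  u := t.u ^ k
  κ := fun m => if k ∣ m then t.κ (m / k) else 0

theorem powFam_good {k : ℕ} {t : Fam} (h : t.Good) : (powFam k t).Good := by
  have h1 : ∀ τ ∈ t.S, eval τ (t.u ^ k) ≠ 0 := by
    intro τ hτ
    rw [map_pow]
    exact pow_ne_zero _ (h.2 τ hτ)
  exact ⟨h.1, h1⟩

theorem haar_good (α : K) : (haar α).Good := by
  have h1 : Constructible {τ : Unit → ℂ | τ () ≠ 0} := by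
    have := cne (X () : MvPolynomial Unit ℂ)
    simpa only [eval_X] using this
  have h2 : ∀ τ ∈ {τ : Unit → ℂ | τ () ≠ 0}, eval τ (X () : MvPolynomial Unit ℂ) ≠ 0 := by
    intro τ hτ
    rw [eval_X]
    exact hτ
  exact ⟨h1, h2⟩

theorem powFam_val (P : HodgeMeasure) {E : Type} [Finite E] {B : Set (E → ℂ)}
    (q : MvPolynomial E ℂ) (hB : Constructible B) {k : ℕ} {t : Fam}
    (h : t.Good) (m : ℕ) : (powFam k t).val P B q m =
      if k ∣ m then t.val P (Qpow k B q) (X (Sum.inr ())) (m / k) else 0 := by
  have := t.fin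
  have hval : P.rat.val {v : E ⊕ t.σ → ℂ | (fun p => v (Sum.inl p)) ∈ B ∧
      (fun s => v (Sum.inr s)) ∈ t.S ∧
        eval (fun p => v (Sum.inl p)) q = eval (fun s => v (Sum.inr s)) (t.u ^ k)} =
      P.rat.val {v : (E ⊕ Unit) ⊕ t.σ → ℂ | (fun p => v (Sum.inl p)) ∈ Qpow k B q ∧
      (fun s => v (Sum.inr s)) ∈ t.S ∧
        eval (fun p => v (Sum.inl p)) (X (Sum.inr ())) = eval (fun s => v (Sum.inr s)) t.u} := by
    refine P.rat.map _ _ (Sum.elim (Sum.elim (fun e => X (Sum.inl e)) fun _ => rename Sum.inr t.u)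
      fun s => X (Sum.inr s)) (con_val hB h.1 q (t.u ^ k))
      (con_val (con_Qpow hB q k) h.1 _ _) ⟨?_, ?_, ?_⟩
    · rintro v ⟨h1, h2, h3⟩
      simp only [Set.mem_ofPred_eq, Sum.elim_inl, Sum.elim_inr, eval_X, eval_rename,
        Function.comp_def, Qpow]
      refine ⟨⟨h1, h.2 _ h2, ?_⟩, h2, trivial⟩
      rw [h3, map_pow]
    · intro v _ v' _ hvv'
      funext i
      rcases i with e | s
      · have := congrFun hvv' (Sum.inl (Sum.inl e))
        simpa using this
      · have := congrFun hvv' (Sum.inr s)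
        simpa using this
    · rintro z ⟨⟨h1, h2, h3⟩, h4, h5⟩
      refine ⟨Sum.elim (fun e => z (Sum.inl (Sum.inl e))) fun s => z (Sum.inr s), ⟨h1, h4, ?_⟩, ?_⟩
      · simp only [eval_X] at h5
        simp only [Sum.elim_inl, Sum.elim_inr, map_pow]
        rw [← h5]
        exact h3.symm
      · funext i
        rcases i with (e | ⟨⟩) | s
        · simp
        · simp only [eval_X] at h5
          simp only [Sum.elim_inl, Sum.elim_inr, eval_rename, Function.comp_def]
          exact h5.symm
        · simp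
  unfold Fam.val
  change (if k ∣ m then t.κ (m / k) else 0) * _ = _
  split
  · rw [← hval]
    rfl
  · rw [zero_mul]

theorem haar_zero_val (P : HodgeMeasure) {E : Type} [Finite E] (B : Set (E → ℂ))
    (q : MvPolynomial E ℂ) (m : ℕ) : (haar 0).val P B q m = 0 := by
  unfold Fam.val
  change (0 : K) * xq ^ m * _ = 0
  rw [zero_mul, zero_mul]

end TKAux

open TKAux

theorem stmt_TK (hQ : Stmt_Q1) (hV : Stmt_VK) : Stmt_TK := by
  obtain ⟨q1, -, q3, -, q5, -, q7⟩ := hQ
  intro P ι _ f Λ k hk hf hM
  obtain ⟨vk1, vk2⟩ := hV P ι f k hk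
  have hk0 : (0 : ℚ) < k := by exact_mod_cast hk
  constructor
  · obtain ⟨α, ts, hts, hg, hfam⟩ := hf
    refine ⟨0, (haar α :: ts).map (powFam k), ?_, ?_, ?_⟩
    · intro t ht
      rw [List.map_cons, List.mem_cons] at ht
      rcases ht with rfl | ht
      · have h1 := q5 ({r | (k : ℚ) * r ∈ Λ} ∪ {1 / (k : ℚ)}) k 1 hk (by
          right
          simp)
        have h2 := q3 _ _ α h1
        refine cast ?_ h2
        congr 1
        funext m
        change _ = if k ∣ m then α * xq ^ (m / k) else 0
        split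
        · rw [one_mul]
        · rw [mul_zero]
      · obtain ⟨t', ht', rfl⟩ := List.mem_map.1 ht
        exact q1 _ _ _ Set.subset_union_left (q7 Λ t'.κ k hk (hts t' ht')).1
    · intro t ht
      rcases List.mem_cons.1 ht with rfl | ht
      · exact haar_good 0
      · obtain ⟨t', ht', rfl⟩ := List.mem_map.1 ht
        exact powFam_good (hg t' ht')
    · intro E _ B q hB hq m
      rw [List.map_cons, List.sum_cons, haar_zero_val, zero_add, vk1 E B q hB hq m]
      have h1 : ∀ t ∈ (haar α :: ts), (powFam k t).val P B q m =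
          if k ∣ m then t.val P (Qpow k B q) (X (Sum.inr ())) (m / k) else 0 := fun t ht =>
        powFam_val P q hB (hg t ht) m
      rw [List.map_map]
      have h2 : List.map ((fun t => t.val P B q m) ∘ powFam k) (haar α :: ts) =
          List.map (fun t => if k ∣ m then t.val P (Qpow k B q) (X (Sum.inr ())) (m / k) else 0)
            (haar α :: ts) := List.map_congr_left fun t ht => h1 t ht
      rw [h2]
      split
      · rw [hfam (E ⊕ Unit) (Qpow k B q) (X (Sum.inr ())) (con_Qpow hB q k) (fun z hz => by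
          rw [eval_X]
          exact hz.2.1) (m / k)]
      · simp
  · have h1 := (q7 _ _ k hk hM).2
    have h2 : bb P (f ^ k) = fun m => bb P f (m / k) := funext vk2
    unfold Mass
    rw [h2]
    refine q1 _ _ _ ?_ h1
    intro r hr
    have hr' : (0 : ℚ) < k * r := hr
    exact (pos_iff_pos_of_mul_pos hr').1 hk0

end Pool.Agent.Mono.TS
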