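import Pool.Agent.Work.Monodromy4.TMb

/-!
# Block TM: the mass identity
-/

set_option linter.unusedSectionVars false

namespace Pool.Agent.Mono.TS.TMAux

open MvPolynomial

variable (P : HodgeMeasure) {ι κ : Type} [Fintype ι] [Fintype κ] [DecidableEq ι] [DecidableEq κ]

/-- the periods are positive -/
theorem period_pos (D : Data ι κ) (hv : D.Valid) (hR : ∃ i, D.Rel i) (δ : ι → ℕ) (p : ℕ)
    (hp0 : 0 < p) (hp : D.step^[p] δ = δ) :
    1 ≤ ∑ m ∈ Finset.range p, cexp D (D.step^[m] δ) ∧
      1 ≤ ∑ m ∈ Finset.range p, lexp D (D.step^[m] δ) := by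
  classical
  have hz : ∀ i, D.Rel i → D.a i * zc D δ i p = p := fun i hi => zc_period D δ hi (hv.1 i) hp
  have hzpos : ∀ i, D.Rel i → 1 ≤ zc D δ i p := by
    intro i hi
    have := hz i hi
    rcases Nat.eq_zero_or_pos (zc D δ i p) with h | h
    · rw [h, mul_zero] at this; omega
    · exact h
  obtain ⟨i₀, hi₀⟩ := hR
  constructor
  · rw [sum_cexp D δ p]
    rcases hi₀ with hb | ⟨j, hj, -⟩
    · have h1 : D.b i₀ * zc D δ i₀ p ≤ ∑ i, D.b i * zc D δ i p :=
        Finset.single_le_sum (f := fun i => D.b i * zc D δ i p) (fun _ _ => Nat.zero_le _)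
          (Finset.mem_univ i₀)
      have h2 : 1 ≤ D.b i₀ * zc D δ i₀ p := Nat.mul_pos hb (hzpos i₀ (Or.inl hb))
      omega
    · have h1 : D.m j ≤ ∑ j, D.m j :=
        Finset.single_le_sum (f := fun j => D.m j) (fun _ _ => Nat.zero_le _) (Finset.mem_univ j)
      have h2 : 1 ≤ p * ∑ j, D.m j := Nat.mul_pos hp0 (lt_of_lt_of_le hj h1)
      omega
  · rw [sum_lexp D δ p]
    refine le_trans (hzpos i₀ hi₀) ?_
    have := Finset.single_le_sum (f := fun i => if D.Rel i then zc D δ i p else 0)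
      (fun _ _ => Nat.zero_le _) (Finset.mem_univ i₀)
    simpa [hi₀] using this

/-- pieces with mass -/
theorem piece_val (q : Piece ι κ) (hS : Constructible q.S) (hu : ∀ x ∈ q.S, eval x q.u ≠ 0)
    (hq : MassZ P q.D q.δ) {E : Type} [Finite E] (B : Set (E → ℂ)) (h : MvPolynomial E ℂ)
    (hB : Constructible B) (hh : ∀ p ∈ B, eval p h ≠ 0) :
    Val1 (q.ser P.rat xq 1 B h) (pm P B q) := by
  have := q.fin
  have h1 := hq (E ⊕ q.σ) (pset B q.S) (pmul h q.u) (cst_pset hB hS) (X0.pmul_ne hh hu)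
  exact h1.mulCX (xq ^ q.l) q.c

/-- the properties of the pieces -/
def POk (q : Piece ι κ) : Prop :=
  Constructible q.S ∧ (∀ x ∈ q.S, eval x q.u ≠ 0) ∧ MassZ P q.D q.δ

theorem pok_pcsN (D : Data ι κ) (H : ∀ (δ : ι → ℕ), ∀ p ∈ strata D δ, POk P (mkPiece D δ p))
    (δ : ι → ℕ) (n : ℕ) : ∀ q ∈ pcsN D δ n, POk P q := by
  induction n with
  | zero => intro q hq; simp [pcsN] at hq
  | succ n ih =>
    intro q hq
    rw [pcsN, List.mem_append] at hq
    rcases hq with hq | hq
    · exact ih q hq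
    · rw [List.mem_map] at hq
      obtain ⟨q', hq', rfl⟩ := hq
      rw [pcs, List.mem_map] at hq'
      obtain ⟨p, hp, rfl⟩ := hq'
      exact H _ p (Finset.mem_toList.1 hp)

theorem mass_main : ∀ (D : Data ι κ), D.Central → D.Valid → ∀ δ : ι → ℕ, MassZ P D δ := by
  classical
  suffices H : ∀ (n : ℕ) (D : Data ι κ), D.size = n → D.Central → D.Valid → ∀ δ : ι → ℕ,
      MassZ P D δ from fun D hc hv δ => H _ D rfl hc hv δ
  have hLoc := all_Loc
  have hZB : Stmt_ZB := stmt_ZB stmt_YV stmt_YF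
  intro n
  induction n using Nat.strong_induction_on with
  | _ n IH =>
  intro D hn hc hv
  subst hn
  have IH' : ∀ D' : Data ι κ, D'.size < D.size → D'.Central → D'.Valid → ∀ δ : ι → ℕ,
      MassZ P D' δ := fun D' hs hc' hv' => IH _ hs D' rfl hc' hv'
  by_cases hR : ∃ i, D.Rel i
  swap
  · intro δ
    push Not at hR
    apply mass_triv P D δ
    · intro i
      by_contra hb
      exact hR i (rel_of_b D hb)
    · intro j
      by_contra hm
      have hm' : 0 < D.m j := Nat.pos_of_ne_zero hm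
      rcases hv.2 j hm' with h | ⟨i, hi⟩
      · exact h (hc j)
      · exact hR i (Or.inr ⟨j, hm', hi⟩)
  by_cases hE : D.Ess
  swap
  · intro δ
    obtain ⟨r, hr0, hr1, hr2⟩ := stmt_LA1 ι κ D hE
    have hne : (Finset.univ.filter fun i => r i ≠ 0).Nonempty := by
      obtain ⟨i, hi⟩ := Function.ne_iff.1 hr0
      exact ⟨i, by simpa using hi⟩
    obtain ⟨i₀, hi₀, hmax⟩ := Finset.exists_max_image _ δ hne
    have hri₀ : r i₀ ≠ 0 := (Finset.mem_filter.1 hi₀).2
    have hfree : ∀ i, r i ≠ 0 → D.a i = 1 ∧ D.b i = 0 := by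
      intro i hi
      obtain ⟨h1, h2⟩ := hr1 i hi
      have ha := hv.1 i
      by_contra hcon
      apply h2
      refine ⟨h1, ?_⟩
      by_contra h3
      push Not at h3
      exact hcon ⟨by omega, by omega⟩
    set Nm := shear r i₀ with hNm
    have hNsq := shear_sq r i₀
    have e1 : (1 + Nm) * (1 - Nm) = 1 := by
      rw [mul_sub, add_mul, add_mul, one_mul, mul_one, one_mul, ← hNm] at *
      rw [hNsq]
      abel
    have e2 : (1 - Nm) * (1 + Nm) = 1 := by
      rw [mul_add, sub_mul, sub_mul, one_mul, mul_one, one_mul, ← hNm] at *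
      rw [hNsq]
      abel
    have hNm0 : ∀ i k, Nm i k ≠ 0 → k = i₀ ∧ i ≠ i₀ ∧ r i ≠ 0 := by
      intro i k h
      simp only [hNm, shear, Matrix.of_apply] at h
      split_ifs at h with h'
      · refine ⟨h'.1, h'.2, ?_⟩
        intro h0
        rw [h0, zero_div] at h
        exact h rfl
      · exact absurd rfl h
    have h3 : ∀ i, ¬(D.a i = 1 ∧ D.b i = 0) →
        ∀ k, (1 + Nm) i k = (1 : Matrix ι ι ℂ) i k ∧ (1 - Nm) i k = (1 : Matrix ι ι ℂ) i k := by
      intro i hi k
      have : Nm i k = 0 := by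
        by_contra h
        exact hi (hfree i (hNm0 i k h).2.2)
      simp [Matrix.add_apply, Matrix.sub_apply, this]
    have h4 : ∀ i k, (1 + Nm) i k ≠ 0 ∨ (1 - Nm) i k ≠ 0 → δ i ≤ δ k := by
      intro i k h
      by_cases hik : i = k
      · rw [hik]
      · have hone : (1 : Matrix ι ι ℂ) i k = 0 := Matrix.one_apply_ne hik
        have : Nm i k ≠ 0 := by
          intro h0
          rcases h with h | h
          · exact h (by rw [Matrix.add_apply, hone, h0, add_zero])
          · exact h (by rw [Matrix.sub_apply, hone, h0, sub_zero])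
        obtain ⟨hk, -, hri⟩ := hNm0 i k this
        rw [hk]
        exact hmax i (Finset.mem_filter.2 ⟨Finset.mem_univ _, hri⟩)
    have hcol : ∀ j k, k ≠ i₀ → (D.lin (1 + Nm)).c j k = D.c j k := by
      intro j k hk
      change ∑ i, D.c j i * (1 + Nm) i k = D.c j k
      rw [Finset.sum_eq_single k]
      · have : Nm k k = 0 := by
          by_contra h
          exact hk (hNm0 k k h).1
        rw [Matrix.add_apply, Matrix.one_apply_eq, this, add_zero, mul_one]
      · intro i _ hik
        have : Nm i k = 0 := by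
          by_contra h
          exact hk (hNm0 i k h).1
        rw [Matrix.add_apply, Matrix.one_apply_ne hik, this, add_zero, mul_zero]
      · simp
    have hcol0 : ∀ j, 0 < D.m j → (D.lin (1 + Nm)).c j i₀ = 0 := by
      intro j hj
      change ∑ i, D.c j i * (1 + Nm) i i₀ = 0
      have h5 : ∀ i, D.c j i * (1 + Nm) i i₀ = D.c j i * r i / r i₀ := by
        intro i
        rw [Matrix.add_apply]
        by_cases hi : i = i₀
        · subst hi
          simp only [Matrix.one_apply_eq, hNm, shear, Matrix.of_apply]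
          simp
          field_simp
        · rw [Matrix.one_apply_ne hi]
          simp only [hNm, shear, Matrix.of_apply]
          simp [hi]
          ring
      rw [Finset.sum_congr rfl fun i _ => h5 i, ← Finset.sum_div, hr2 j hj, zero_div]
    have hrel : ∀ i, (D.lin (1 + Nm)).Rel i → D.Rel i ∧ i ≠ i₀ := by
      intro i hi
      rcases hi with hb | ⟨j, hj, hcj⟩
      · refine ⟨Or.inl hb, ?_⟩
        rintro rfl
        have : D.b i = 0 := (hfree i hri₀).2
        have hb' : 0 < D.b i := hb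
        omega
      · have hj' : 0 < D.m j := hj
        have hii : i ≠ i₀ := by
          rintro rfl
          exact hcj (hcol0 j hj')
        exact ⟨Or.inr ⟨j, hj', by rw [← hcol j i hii]; exact hcj⟩, hii⟩
    have hmass : MassZ P (D.lin (1 + Nm)) δ := by
      apply IH'
      · apply size_lt D (D.lin (1 + Nm)) (fun j hj => hj) (fun i hi => ⟨(hrel i hi.1).1, hi.2⟩)
          (fun i hi => (hrel i hi).1)
        right; right
        exact ⟨i₀, (hr1 i₀ hri₀).1, fun h => (hrel i₀ h).2 rfl⟩
      · exact hc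
      · exact valid_lin D hc hv _ _ e1
    intro E _ B h hB hh
    have hLC : Stmt_LC := stmt_LC stmt_YV stmt_YF
    rw [hLC ι κ D δ (1 + Nm) (1 - Nm) e1 e2 h3 h4 K P.rat xq (L_mul P) 1 E B h hB]
    exact hmass E B h hB hh
  -- essential
  have hpiece : ∀ (δ : ι → ℕ), ∀ p ∈ strata D δ, POk P (mkPiece D δ p) := by
    intro δ p hp
    rw [strata, Finset.mem_filter, Finset.mem_product] at hp
    obtain ⟨⟨hp1, -⟩, hJ, hS⟩ := hp
    have hJR : ∀ i ∈ p.1, D.Rel i := fun i hi => (D.mem_M0.1 (Finset.mem_powerset.1 hp1 hi)).1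
    exact ⟨cst_str D _ _, unit_ne D _ _, IH' (D.loc p.1 p.2)
      (D.size_loc_lt hc hv hE _ _ hJ hJR hS) (D.central_loc _ _) (D.valid_loc hc hv _ _) _⟩
  intro δ
  obtain ⟨n, p, hp0, hp⟩ := exists_period D δ
  -- the periodic part
  have hper : MassZ P D (D.step^[n] δ) := by
    intro E _ B h hB hh
    have hrec := rec_iter hLoc hZB D hc hv 1 (D.step^[n] δ) p K P.rat xq (L_mul P) E B h hB hh
    rw [hp] at hrec
    obtain ⟨hN, hν⟩ := period_pos D hv hR (D.step^[n] δ) p hp0 hp
    have hA : Val1 ((pcsN D (D.step^[n] δ) p).map fun q => q.ser P.rat xq 1 B h).sum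
        ((pcsN D (D.step^[n] δ) p).map (pm P B)).sum :=
      Val1.sum _ _ _ fun q hq => by
        obtain ⟨h1, h2, h3⟩ := pok_pcsN P D hpiece _ _ q hq
        exact piece_val P q h1 h2 h3 B h hB hh
    refine Val1.geo hN hν hA hrec ?_
    rw [pm_pcsN P D hc hv _ _ B hB]
    ring
  intro E _ B h hB hh
  have hrec := rec_iter hLoc hZB D hc hv 1 δ n K P.rat xq (L_mul P) E B h hB hh
  rw [hrec]
  have hA : Val1 ((pcsN D δ n).map fun q => q.ser P.rat xq 1 B h).sum
      ((pcsN D δ n).map (pm P B)).sum :=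
    Val1.sum _ _ _ fun q hq => by
      obtain ⟨h1, h2, h3⟩ := pok_pcsN P D hpiece _ _ q hq
      exact piece_val P q h1 h2 h3 B h hB hh
  have hsum := hA.add ((hper E B h hB hh).mulCX
    (xq ^ (∑ m ∈ Finset.range n, lexp D (D.step^[m] δ)))
    (∑ m ∈ Finset.range n, cexp D (D.step^[m] δ)))
  rw [pm_pcsN P D hc hv _ _ B hB, sub_add_cancel] at hsum
  exact hsum

end Pool.Agent.Mono.TS.TMAux

namespace Pool.Agent.Mono.TS

open MvPolynomial TMAux

/-- volume of `{ord f = m}` from the cover of degree one -/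
theorem TMAux.aa_eq (P : HodgeMeasure) {ι κ : Type} [Fintype ι] [Fintype κ] [DecidableEq ι]
    [DecidableEq κ] (D : Data ι κ) (m : ℕ) :
    vol P.rat xq (contact 1 (Set.univ : Set (Empty → ℂ)) 1 D (fun _ => 0) m) = aa P D.poly m := by
  have h1 := stmt_YF ι κ Empty 1 Set.univ 1 D (fun _ => 0) m Constructible.univ
  have hmem : ∀ z : (Empty ⊕ Unit → ℂ) × (ι → PowerSeries ℂ),
      z ∈ contact 1 (Set.univ : Set (Empty → ℂ)) 1 D (fun _ => 0) m ↔
        ((∀ l < m, PowerSeries.coeff l (aeval z.2 D.poly) = 0) ∧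
          PowerSeries.coeff m (aeval z.2 D.poly) ≠ 0) ∧
          z.1 (Sum.inr ()) = PowerSeries.coeff m (aeval z.2 D.poly) := by
    intro z
    rw [JetAux.aeval_poly]
    simp only [contact, Set.mem_ofPred_eq, Set.mem_univ, true_and, pow_one, map_one, one_mul,
      and_assoc]
  set C' : Set ((Empty → ℂ) × (ι → PowerSeries ℂ)) := {z | (∀ l < m,
    PowerSeries.coeff l (aeval z.2 D.poly) = 0) ∧ PowerSeries.coeff m (aeval z.2 D.poly) ≠ 0}
    with hC'
  set Kf : ι → ℕ := fun _ => m + 1 with hKf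
  have hsec : sec Kf C' = {v : Empty ⊕ (Σ i, Fin (Kf i)) → ℂ |
      (∀ l < m, eval v (GJetAux.cA Empty Kf D.poly l) = 0) ∧
        eval v (GJetAux.cA Empty Kf D.poly m) ≠ 0} := by
    ext v
    simp only [sec, hC', Set.mem_ofPred_eq, GJetAux.eval_cA]
  have hcyl : IsCyl Kf C' := by
    refine ⟨?_, ?_⟩
    · intro p x y hxy
      have h2 := GJetAux.aeval_congr D.poly (m + 1) x y hxy
      have h3 := h2 m (by omega)
      have h4 : ∀ l < m, PowerSeries.coeff l (aeval x D.poly) =
          PowerSeries.coeff l (aeval y D.poly) := fun l hl => h2 l (by omega)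
      simp only [hC', Set.mem_ofPred_eq, h3]
      refine and_congr ?_ Iff.rfl
      apply forall_congr'
      intro l
      apply forall_congr'
      intro hl
      rw [h4 l hl]
    · rw [hsec]
      exact (Constructible.all_lt m fun l _ => Constructible.zero _).and (Constructible.ne _)
  change _ = vol P.rat xq C'
  rw [vol_eq P.rat (L_mul P) h1, vol_eq P.rat (L_mul P) hcyl]
  congr 1
  symm
  apply P.rat.map _ _ (Sum.elim (Sum.elim (fun e => e.elim) fun _ =>
    GJetAux.cA Empty Kf D.poly m) fun s => X (Sum.inr s)) hcyl.2 h1.2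
  have hmap : ∀ v : Empty ⊕ (Σ i, Fin (Kf i)) → ℂ,
      (fun j => eval v ((Sum.elim (Sum.elim (fun e => e.elim) fun _ =>
        GJetAux.cA Empty Kf D.poly m) fun s => X (Sum.inr s) :
          (Empty ⊕ Unit) ⊕ (Σ i, Fin (Kf i)) → MvPolynomial (Empty ⊕ (Σ i, Fin (Kf i))) ℂ) j)) =
      Sum.elim (Sum.elim (fun e => e.elim) fun _ =>
        PowerSeries.coeff m (aeval (toArc Kf fun s => v (Sum.inr s)) D.poly))
          fun s => v (Sum.inr s) := by
    intro v
    funext j
    rcases j with (j | j) | j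
    · exact j.elim
    · simp only [Sum.elim_inl, Sum.elim_inr]
      exact GJetAux.eval_cA Empty Kf D.poly m v
    · simp
  refine ⟨?_, ?_, ?_⟩
  · intro v hv
    simp only [hmap]
    have h5 := hmem (Sum.elim (fun e => e.elim) (fun _ => PowerSeries.coeff m
      (aeval (toArc Kf fun s => v (Sum.inr s)) D.poly)), toArc Kf fun s => v (Sum.inr s))
    exact h5.2 ⟨hv, rfl⟩
  · intro v _ v' _ h
    funext j
    rcases j with j | j
    · exact j.elim
    · have := congrFun h (Sum.inr j)
      simpa using this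
  · intro v hv
    have h5 := (hmem ((fun p => v (Sum.inl p)), toArc Kf fun s => v (Sum.inr s))).1 hv
    refine ⟨Sum.elim (fun e => e.elim) fun s => v (Sum.inr s), h5.1, ?_⟩
    simp only [hmap]
    funext j
    rcases j with (j | j) | j
    · exact j.elim
    · exact h5.2.symm
    · rfl

theorem stmt_TM (hVA : Stmt_VA) : Stmt_TM := by
  intro P ι κ _ _ _ _ D hc hv _
  have h1 := mass_main P D hc hv (fun _ => 0) Empty Set.univ 1 Constructible.univ (by simp)
  have h2 : Zs P.rat xq 1 (Set.univ : Set (Empty → ℂ)) 1 D (fun _ => 0) =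
      PowerSeries.mk (aa P D.poly) := by
    unfold Zs
    ext m
    rw [PowerSeries.coeff_mk, PowerSeries.coeff_mk]
    exact TMAux.aa_eq P D m
  have h3 : P.rat.val (Set.univ : Set (Empty → ℂ)) = 1 := P.rat.point
  rw [h2, h3] at h1
  exact h1.tail (hVA P ι D.poly).1

end Pool.Agent.Mono.TS
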