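import Pool.Agent.Work.Monodromy4.TK

/-!
# Block TP (helper89): products in separate variables
-/

set_option autoImplicit false

namespace Pool.Agent.Mono.TS

open MvPolynomial

namespace TPAux

open TKAux

/-- sums of lists of exponential sequences -/
theorem eseq_list (hQ : Stmt_Q1) {α : Type*} (Λ : Set ℚ) (f : α → ℕ → K) (l : List α)
    (h : ∀ a ∈ l, ESeq Λ (f a)) : ESeq Λ fun m => (l.map fun a => f a m).sum := by
  obtain ⟨-, q2, -, q4, -, -, -⟩ := hQ
  induction l with
  | nil => exact q4 Λ _ 0 fun m _ => by simp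
  | cons a l ih =>
    have h1 := q2 Λ _ _ (h a List.mem_cons_self) (ih fun b hb => h b (List.mem_cons_of_mem _ hb))
    simpa only [List.map_cons, List.sum_cons] using h1

theorem eseq_haar (hQ : Stmt_Q1) (Λ : Set ℚ) (h : (1 : ℚ) ∈ Λ) (α : K) :
    ESeq Λ (haar α).κ := by
  obtain ⟨-, -, q3, -, q5, -, -⟩ := hQ
  have h1 := q3 _ _ α (q5 Λ 1 1 le_rfl (by simpa using h))
  refine cast ?_ h1
  congr 1
  funext m
  change α * (if 1 ∣ m then xq ^ (1 * (m / 1)) else 0) = α * xq ^ m
  simp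

theorem con_Qmul {E : Type} {B : Set (E → ℂ)} (hB : Constructible B) (q : MvPolynomial E ℂ) :
    Constructible (Qmul B q) := by
  have h1 := cne (X (Sum.inr true) : MvPolynomial (E ⊕ Bool) ℂ)
  have h2 := cne (X (Sum.inr false) : MvPolynomial (E ⊕ Bool) ℂ)
  have h3 := ceq (X (Sum.inr true) * X (Sum.inr false) : MvPolynomial (E ⊕ Bool) ℂ)
    (rename Sum.inl q)
  simp only [eval_X, eval_rename, map_mul, Function.comp_def] at h1 h2 h3
  exact cand (preX Sum.inl hB) (cand h1 (cand h2 h3))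

/-- the product family -/
noncomputable def prodFam (t t' : Fam) : Fam where
  σ := t.σ ⊕ t'.σ
  fin := by
    have := t.fin
    have := t'.fin
    infer_instance
  S := {τ | (fun s => τ (Sum.inl s)) ∈ t.S ∧ (fun s => τ (Sum.inr s)) ∈ t'.S}
  u := rename Sum.inl t.u * rename Sum.inr t'.u
  κ := fun m => ∑ i ∈ Finset.range (m + 1), t.κ i * t'.κ (m - i)

theorem eval_u (t t' : Fam) (τ : t.σ ⊕ t'.σ → ℂ) :
    eval τ (rename Sum.inl t.u * rename Sum.inr t'.u) =
      eval (fun s => τ (Sum.inl s)) t.u * eval (fun s => τ (Sum.inr s)) t'.u := by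
  rw [map_mul, eval_rename, eval_rename]
  rfl

theorem prodFam_good {t t' : Fam} (h : t.Good) (h' : t'.Good) : (prodFam t t').Good := by
  have h1 : ∀ τ ∈ {τ : t.σ ⊕ t'.σ → ℂ | (fun s => τ (Sum.inl s)) ∈ t.S ∧
      (fun s => τ (Sum.inr s)) ∈ t'.S}, eval τ (rename Sum.inl t.u * rename Sum.inr t'.u) ≠ 0 := by
    intro τ hτ
    rw [eval_u]
    exact mul_ne_zero (h.2 _ hτ.1) (h'.2 _ hτ.2)
  exact ⟨cand (preX Sum.inl h.1) (preX Sum.inr h'.1), h1⟩

theorem prodFam_val (P : HodgeMeasure) {E : Type} [Finite E] {B : Set (E → ℂ)}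
    (q : MvPolynomial E ℂ) {t t' : Fam} (h : t.Good) (h' : t'.Good) (m : ℕ) :
    (prodFam t t').val P B q m = (∑ i ∈ Finset.range (m + 1), t.κ i * t'.κ (m - i)) *
      t.val2 t' P (Qmul B q) := by
  have := t.fin
  have := t'.fin
  unfold Fam.val Fam.val2
  change (∑ i ∈ Finset.range (m + 1), t.κ i * t'.κ (m - i)) * _ = _
  have hset : ∀ v : E ⊕ (t.σ ⊕ t'.σ) → ℂ,
      ((fun p => v (Sum.inl p)) ∈ B ∧ ((fun s => v (Sum.inr (Sum.inl s))) ∈ t.S ∧
        (fun s => v (Sum.inr (Sum.inr s))) ∈ t'.S) ∧ eval (fun p => v (Sum.inl p)) q =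
          eval (fun s => v (Sum.inr s)) (rename Sum.inl t.u * rename Sum.inr t'.u)) ↔
      ((fun s => v (Sum.inr (Sum.inl s))) ∈ t.S ∧ (fun s => v (Sum.inr (Sum.inr s))) ∈ t'.S ∧
        ((fun p => v (Sum.inl p)) ∈ B ∧ eval (fun s => v (Sum.inr (Sum.inl s))) t.u ≠ 0 ∧
          eval (fun s => v (Sum.inr (Sum.inr s))) t'.u ≠ 0 ∧
            eval (fun s => v (Sum.inr (Sum.inl s))) t.u *
              eval (fun s => v (Sum.inr (Sum.inr s))) t'.u = eval (fun p => v (Sum.inl p)) q)) := by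
    intro v
    rw [eval_u]
    constructor
    · rintro ⟨h1, ⟨h2, h3⟩, h4⟩
      exact ⟨h2, h3, h1, h.2 _ h2, h'.2 _ h3, h4.symm⟩
    · rintro ⟨h2, h3, h1, _, _, h4⟩
      exact ⟨h1, ⟨h2, h3⟩, h4.symm⟩
  congr 2
  ext v
  exact hset v

theorem sum_flatMap {α β : Type*} (l : List α) (f : α → List β) (g : β → K) :
    ((l.flatMap f).map g).sum = (l.map fun a => ((f a).map g).sum).sum := by
  induction l with
  | nil => simp
  | cons a l ih => rw [List.flatMap_cons, List.map_append, List.sum_append, ih, List.map_cons,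
      List.sum_cons]

theorem list_sum_comm {α : Type*} (s : Finset ℕ) (l : List α) (f : ℕ → α → K) :
    ∑ i ∈ s, (l.map fun a => f i a).sum = (l.map fun a => ∑ i ∈ s, f i a).sum := by
  induction l with
  | nil => simp
  | cons a l ih =>
    simp only [List.map_cons, List.sum_cons]
    rw [Finset.sum_add_distrib, ih]

end TPAux

open TKAux TPAux

theorem stmt_TP (hQ : Stmt_Q1) (hVP : Stmt_VP) (hVF : Stmt_VF) (hVA : Stmt_VA) : Stmt_TP := by
  have hQ' := hQ
  obtain ⟨q1, q2, q3, q4, q5, q6, -⟩ := hQ'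
  intro P ι κ _ _ f g Λ Λ' hΛ hΛ' hf hMf hg hMg
  obtain ⟨vp1, vp2⟩ := hVP P ι κ f g
  obtain ⟨α, ts, hts, hgood, hfam⟩ := hf
  obtain ⟨α', ts', hts', hgood', hfam'⟩ := hg
  have hE : ∀ t ∈ haar α :: ts, ESeq (Λ ∪ {1}) t.κ := by
    intro t ht
    rcases List.mem_cons.1 ht with rfl | ht
    · exact eseq_haar hQ _ (Or.inr rfl) α
    · exact q1 _ _ _ Set.subset_union_left (hts t ht)
  have hE' : ∀ t ∈ haar α' :: ts', ESeq (Λ' ∪ {1}) t.κ := by
    intro t ht
    rcases List.mem_cons.1 ht with rfl | ht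
    · exact eseq_haar hQ _ (Or.inr rfl) α'
    · exact q1 _ _ _ Set.subset_union_left (hts' t ht)
  set T := haar α :: ts with hT
  set T' := haar α' :: ts' with hT'
  constructor
  · refine ⟨0, T.flatMap fun t => T'.map fun t' => prodFam t t', ?_, ?_, ?_⟩
    · intro u hu
      obtain ⟨t, ht, hu2⟩ := List.mem_flatMap.1 hu
      obtain ⟨t', ht', rfl⟩ := List.mem_map.1 hu2
      refine q1 _ _ _ ?_ (q6 _ _ _ _ (hE t ht) (hE' t' ht'))
      intro r hr
      rcases hr with (hr | hr) | (hr | hr)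
      · exact Or.inl (Or.inl hr)
      · exact Or.inr hr
      · exact Or.inl (Or.inr hr)
      · exact Or.inr hr
    · intro u hu
      rcases List.mem_cons.1 hu with rfl | hu
      · exact haar_good 0
      · obtain ⟨t, ht, hu2⟩ := List.mem_flatMap.1 hu
        obtain ⟨t', ht', rfl⟩ := List.mem_map.1 hu2
        exact prodFam_good (hgood t ht) (hgood' t' ht')
    · intro E _ B q hB hq m
      rw [List.map_cons, List.sum_cons, haar_zero_val, zero_add, vp1 E B q hB hq m, sum_flatMap]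
      have h1 : ∀ i ∈ Finset.range (m + 1), vol P.rat xq (dbl f g (Qmul B q) i (m - i)) =
          (T.map fun t => (T'.map fun t' => t.κ i * t'.κ (m - i) * t.val2 t' P (Qmul B q)).sum).sum :=
        fun i _ => hVF P ι κ f g T T' ⟨hgood, hfam⟩ ⟨hgood', hfam'⟩ E (Qmul B q) (con_Qmul hB q)
          (fun z hz => ⟨hz.2.1, hz.2.2.1⟩) i (m - i)
      rw [Finset.sum_congr rfl h1, list_sum_comm]
      congr 1
      refine List.map_congr_left fun t ht => ?_
      rw [list_sum_comm, List.map_map]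
      congr 1
      refine List.map_congr_left fun t' ht' => ?_
      rw [Function.comp_apply, prodFam_val P q (hgood t ht) (hgood' t' ht'), Finset.sum_mul]
  · -- the mass identity
    have hpos : Λ ∪ {1} ⊆ Set.Ioi (0 : ℚ) := by
      rintro r (hr | hr)
      · exact hΛ hr
      · rw [Set.mem_singleton_iff] at hr
        subst hr
        exact (zero_lt_one : (0 : ℚ) < 1)
    obtain ⟨-, va2, -⟩ := hVA P ι f
    have haa : ESeq (Set.Ioi 0) (aa P f) := by
      have hB : Constructible {τ : Unit → ℂ | τ () ≠ 0} := (haar_good 0).1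
      have h1 : aa P f = fun m => (T.map fun t =>
          t.val P {τ : Unit → ℂ | τ () ≠ 0} (X ()) m).sum := by
        funext m
        rw [va2 m]
        exact hfam Unit _ (X ()) hB (fun p hp => by rw [eval_X]; exact hp) m
      rw [h1]
      refine eseq_list hQ _ (fun t m => t.val P {τ : Unit → ℂ | τ () ≠ 0} (X ()) m) T fun t ht => ?_
      have := t.fin
      have h2 := q3 _ _ (P.rat.val
        {v : Unit ⊕ t.σ → ℂ | (fun p => v (Sum.inl p)) ∈ {τ : Unit → ℂ | τ () ≠ 0} ∧
          (fun s => v (Sum.inr s)) ∈ t.S ∧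
            eval (fun p => v (Sum.inl p)) (X () : MvPolynomial Unit ℂ) =
              eval (fun s => v (Sum.inr s)) t.u}) (q1 _ _ _ hpos (hE t ht))
      refine cast ?_ h2
      congr 1
      funext m
      rw [mul_comm]
      rfl
    have h2 : bb P (otimes f g) = fun m => bb P f m +
        ∑ i ∈ Finset.range (m + 1), aa P f i * bb P g (m - i) := funext vp2
    unfold Mass
    rw [h2]
    refine q2 _ _ _ hMf ?_
    have h3 := q6 _ _ _ _ haa hMg
    rwa [Set.union_self] at h3

end Pool.Agent.Mono.TS
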