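import Pool.Agent.Work.Monodromy4.TP
import Pool.Agent.Work.Monodromy4.T0

/-!
# Block TS (helper89): sums in separate variables
-/

set_option autoImplicit false

namespace Pool.Agent.Mono.TS

open MvPolynomial

namespace TSAux

open TKAux TPAux

/-- the value of `{(p, τ) : p ∈ B, τ ∈ S, q(p) = u(τ)}` -/
noncomputable def wv (P : HodgeMeasure) {E : Type} [Finite E] (B : Set (E → ℂ))
    (q : MvPolynomial E ℂ) (t : Fam) : K :=
  haveI := t.fin
  P.rat.val {v : E ⊕ t.σ → ℂ | (fun p => v (Sum.inl p)) ∈ B ∧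
    (fun s => v (Sum.inr s)) ∈ t.S ∧
      eval (fun p => v (Sum.inl p)) q = eval (fun s => v (Sum.inr s)) t.u}

/-- the value of `S` -/
noncomputable def sv (P : HodgeMeasure) (t : Fam) : K :=
  haveI := t.fin
  P.rat.val t.S

theorem val_eq (P : HodgeMeasure) {E : Type} [Finite E] (B : Set (E → ℂ))
    (q : MvPolynomial E ℂ) (t : Fam) (m : ℕ) : t.val P B q m = t.κ m * wv P B q t := rfl

theorem con_Qadd {E : Type} {B : Set (E → ℂ)} (hB : Constructible B) (q : MvPolynomial E ℂ) :
    Constructible (Qadd B q) := by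
  have h1 := cne (X (Sum.inr true) : MvPolynomial (E ⊕ Bool) ℂ)
  have h2 := cne (X (Sum.inr false) : MvPolynomial (E ⊕ Bool) ℂ)
  have h3 := ceq (X (Sum.inr true) + X (Sum.inr false) : MvPolynomial (E ⊕ Bool) ℂ)
    (rename Sum.inl q)
  simp only [eval_X, eval_rename, map_add, Function.comp_def] at h1 h2 h3
  exact cand (preX Sum.inl hB) (cand h1 (cand h2 h3))

/-- the set in `val2` for `Qadd` -/
theorem con_val2 {E σ σ' : Type} {B : Set (E → ℂ)} (hB : Constructible B)
    (q : MvPolynomial E ℂ) {S : Set (σ → ℂ)} (hS : Constructible S) (u : MvPolynomial σ ℂ)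
    {S' : Set (σ' → ℂ)} (hS' : Constructible S') (u' : MvPolynomial σ' ℂ) :
    Constructible {v : E ⊕ (σ ⊕ σ') → ℂ |
    (fun s => v (Sum.inr (Sum.inl s))) ∈ S ∧ (fun s => v (Sum.inr (Sum.inr s))) ∈ S' ∧
      (Sum.elim (fun p => v (Sum.inl p)) fun b => if b then
        eval (fun s => v (Sum.inr (Sum.inl s))) u else
        eval (fun s => v (Sum.inr (Sum.inr s))) u') ∈ Qadd B q} := by
  refine cand (preX (fun s => Sum.inr (Sum.inl s)) hS) (cand (preX (fun s => Sum.inr (Sum.inr s)) hS') ?_)
  have h := pre (κ := E ⊕ Bool) (ι := E ⊕ (σ ⊕ σ'))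
    (Sum.elim (fun e => X (Sum.inl e)) fun b => if b then rename (fun s => Sum.inr (Sum.inl s)) u
      else rename (fun s => Sum.inr (Sum.inr s)) u') (con_Qadd hB q)
  refine (congrArg Constructible ?_).mp h
  ext v
  have e1 : (fun j => eval v ((Sum.elim (fun e => X (Sum.inl e)) fun b =>
      if b then rename (fun s => Sum.inr (Sum.inl s)) u
      else rename (fun s => Sum.inr (Sum.inr s)) u' : E ⊕ Bool → MvPolynomial (E ⊕ (σ ⊕ σ')) ℂ) j)) =
      (Sum.elim (fun p => v (Sum.inl p)) fun b => if b then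
        eval (fun s => v (Sum.inr (Sum.inl s))) u else
        eval (fun s => v (Sum.inr (Sum.inr s))) u') := by
    funext j
    rcases j with e | b
    · simp
    · cases b
      · simp [eval_rename, Function.comp_def]
      · simp [eval_rename, Function.comp_def]
  change (fun j => eval v _) ∈ Qadd B q ↔ _ ∈ Qadd B q
  rw [e1]

/-- `{p ∈ B, τ ∈ S, q(p) ≠ u(τ)}` -/
theorem val_ne (P : HodgeMeasure) {E σ : Type} [Finite E] [Finite σ] {B : Set (E → ℂ)}
    {S : Set (σ → ℂ)} (hB : Constructible B) (hS : Constructible S) (q : MvPolynomial E ℂ)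
    (u : MvPolynomial σ ℂ) :
    P.rat.val {v : E ⊕ σ → ℂ | (fun p => v (Sum.inl p)) ∈ B ∧ (fun s => v (Sum.inr s)) ∈ S ∧
      eval (fun p => v (Sum.inl p)) q ≠ eval (fun s => v (Sum.inr s)) u} =
    P.rat.val B * P.rat.val S -
      P.rat.val {v : E ⊕ σ → ℂ | (fun p => v (Sum.inl p)) ∈ B ∧ (fun s => v (Sum.inr s)) ∈ S ∧
        eval (fun p => v (Sum.inl p)) q = eval (fun s => v (Sum.inr s)) u} := by
  have h1 := con_val hB hS q u
  have h2 : Constructible {v : E ⊕ σ → ℂ | (fun p => v (Sum.inl p)) ∈ B ∧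
      (fun s => v (Sum.inr s)) ∈ S ∧
      eval (fun p => v (Sum.inl p)) q ≠ eval (fun s => v (Sum.inr s)) u} := by
    refine cand (preX Sum.inl hB) (cand (preX Sum.inr hS) ?_)
    have h := (ceq (rename (Sum.inl : E → E ⊕ σ) q) (rename (Sum.inr : σ → E ⊕ σ) u)).compl
    refine (congrArg Constructible ?_).mp h
    ext v
    change ¬ (eval v _ = eval v _) ↔ _
    rw [eval_rename, eval_rename]
    rfl
  have h3 := P.rat.union _ _ h2 h1 (by
    rw [Set.disjoint_left]
    intro v hv hv'
    exact hv.2.2 hv'.2.2)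
  rw [← P.rat.prod _ _ hB hS, eq_sub_iff_add_eq, ← h3]
  congr 1
  ext v
  constructor
  · rintro (h | h)
    · exact ⟨h.1, h.2.1⟩
    · exact ⟨h.1, h.2.1⟩
  · rintro ⟨h4, h5⟩
    by_cases h6 : eval (fun p => v (Sum.inl p)) q = eval (fun s => v (Sum.inr s)) u
    · exact Or.inr ⟨h4, h5, h6⟩
    · exact Or.inl ⟨h4, h5, h6⟩

theorem eval_haar (α : K) (τ : (haar α).σ → ℂ) : eval τ (haar α).u = τ (() : Unit) :=
  eval_X (R := ℂ) (σ := Unit) (f := τ) ()

theorem haar_left (P : HodgeMeasure) (α : K) {E : Type} [Finite E] {B : Set (E → ℂ)}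
    (hB : Constructible B) (q : MvPolynomial E ℂ) {t : Fam} (ht : t.Good) :
    (haar α).val2 t P (Qadd B q) = P.rat.val B * sv P t - wv P B q t := by
  have := t.fin
  have := (haar α).fin
  have h1 : (haar α).val2 t P (Qadd B q) =
      P.rat.val {v : E ⊕ t.σ → ℂ | (fun p => v (Sum.inl p)) ∈ B ∧
        (fun s => v (Sum.inr s)) ∈ t.S ∧
          eval (fun p => v (Sum.inl p)) q ≠ eval (fun s => v (Sum.inr s)) t.u} := by
    symm
    unfold Fam.val2
    have hc : Constructible {v : E ⊕ t.σ → ℂ | (fun p => v (Sum.inl p)) ∈ B ∧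
      (fun s => v (Sum.inr s)) ∈ t.S ∧
      eval (fun p => v (Sum.inl p)) q ≠ eval (fun s => v (Sum.inr s)) t.u} := by
      refine cand (preX Sum.inl hB) (cand (preX Sum.inr ht.1) ?_)
      have h := (ceq (rename (Sum.inl : E → E ⊕ t.σ) q) (rename (Sum.inr : t.σ → E ⊕ t.σ) t.u)).compl
      refine (congrArg Constructible ?_).mp h
      ext v
      change ¬ (eval v _ = eval v _) ↔ _
      rw [eval_rename, eval_rename]
      rfl
    refine P.rat.val_of_inv hc (con_val2 hB q (haar_good α).1 _ ht.1 t.u)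
      (Sum.elim (fun e => X (Sum.inl e)) (Sum.elim
        (fun _ => rename Sum.inl q - rename Sum.inr t.u) fun s => X (Sum.inr s)))
      (fun y => Sum.elim (fun e => y (Sum.inl e)) fun s => y (Sum.inr (Sum.inr s))) ?_ ?_ ?_ ?_
    · rintro v ⟨h1, h2, h3⟩
      have h4 : eval (fun p => v (Sum.inl p)) q - eval (fun s => v (Sum.inr s)) t.u ≠ 0 :=
        sub_ne_zero.2 h3
      refine ⟨?_, ?_, ?_, ?_, ?_, ?_⟩
      · change eval v (rename Sum.inl q - rename Sum.inr t.u) ≠ 0
        rw [map_sub, eval_rename, eval_rename]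
        exact h4
      · simpa using h2
      · simpa using h1
      · change eval _ (haar α).u ≠ 0
        rw [eval_haar]
        change eval v (rename Sum.inl q - rename Sum.inr t.u) ≠ 0
        rw [map_sub, eval_rename, eval_rename]
        exact h4
      · have := ht.2 _ h2
        simpa using this
      · change eval _ (haar α).u + _ = _
        rw [eval_haar]
        change eval v (rename Sum.inl q - rename Sum.inr t.u) +
          eval (fun s => eval v (X (Sum.inr s))) t.u = eval (fun p => eval v (X (Sum.inl p))) q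
        rw [map_sub, eval_rename, eval_rename]
        simp only [eval_X, Function.comp_def]
        ring
    · rintro y ⟨h1, h2, h3, h4, h5, h6⟩
      refine ⟨h3, h2, ?_⟩
      change eval _ (haar α).u ≠ 0 at h4
      change eval _ (haar α).u + eval (fun s => y (Sum.inr (Sum.inr s))) t.u =
        eval (fun p => y (Sum.inl p)) q at h6
      intro h7
      apply h4
      change eval (fun p => y (Sum.inl p)) q = eval (fun s => y (Sum.inr (Sum.inr s))) t.u at h7
      rw [h7] at h6
      exact add_eq_right.1 h6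
    · intro v _
      funext i
      rcases i with e | s
      · simp
      · simp
    · rintro y ⟨h1, h2, h3, h4, h5, h6⟩
      change eval _ (haar α).u + eval (fun s => y (Sum.inr (Sum.inr s))) t.u =
        eval (fun p => y (Sum.inl p)) q at h6
      rw [eval_haar] at h6
      funext i
      rcases i with e | ⟨⟨⟩⟩ | s
      · simp
      · change eval _ (rename Sum.inl q - rename Sum.inr t.u) = _
        rw [map_sub, eval_rename, eval_rename]
        change eval (fun p => y (Sum.inl p)) q - eval (fun s => y (Sum.inr (Sum.inr s))) t.u =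
          y (Sum.inr (Sum.inl ()))
        rw [← h6]
        ring
      · simp
  rw [h1, val_ne P hB ht.1]
  rfl

theorem val2_comm (P : HodgeMeasure) {E : Type} [Finite E] {B : Set (E → ℂ)}
    (hB : Constructible B) (q : MvPolynomial E ℂ) {t t' : Fam} (ht : t.Good) (ht' : t'.Good) :
    t.val2 t' P (Qadd B q) = t'.val2 t P (Qadd B q) := by
  have := t.fin
  have := t'.fin
  unfold Fam.val2
  refine P.rat.val_of_inv (con_val2 hB q ht.1 t.u ht'.1 t'.u) (con_val2 hB q ht'.1 t'.u ht.1 t.u)
    (Sum.elim (fun e => X (Sum.inl e)) (Sum.elim (fun s => X (Sum.inr (Sum.inr s)))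
      fun s => X (Sum.inr (Sum.inl s))))
    (fun y => Sum.elim (fun e => y (Sum.inl e)) (Sum.elim (fun s => y (Sum.inr (Sum.inr s)))
      fun s => y (Sum.inr (Sum.inl s)))) ?_ ?_ ?_ ?_
  · rintro v ⟨h1, h2, h3, h4, h5, h6⟩
    refine ⟨by simpa using h2, by simpa using h1, by simpa using h3, by simpa using h5,
      by simpa using h4, ?_⟩
    have h7 : eval (fun s => v (Sum.inr (Sum.inl s))) t.u + eval (fun s => v (Sum.inr (Sum.inr s))) t'.u
      = eval (fun p => v (Sum.inl p)) q := h6
    rw [add_comm] at h7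
    simpa using h7
  · rintro v ⟨h1, h2, h3, h4, h5, h6⟩
    refine ⟨h2, h1, h3, h5, h4, ?_⟩
    have h7 : eval (fun s => v (Sum.inr (Sum.inl s))) t'.u + eval (fun s => v (Sum.inr (Sum.inr s))) t.u
      = eval (fun p => v (Sum.inl p)) q := h6
    rw [add_comm] at h7
    exact h7
  · intro v _
    funext i
    rcases i with e | s | s <;> simp
  · intro v _
    funext i
    rcases i with e | s | s <;> simp

theorem haar_right (P : HodgeMeasure) (α : K) {E : Type} [Finite E] {B : Set (E → ℂ)}
    (hB : Constructible B) (q : MvPolynomial E ℂ) {t : Fam} (ht : t.Good) :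
    t.val2 (haar α) P (Qadd B q) = P.rat.val B * sv P t - wv P B q t := by
  rw [val2_comm P hB q ht (haar_good α), haar_left P α hB q ht]

/-- the value of `ℂ^*` -/
theorem val_star (P : HodgeMeasure) : P.rat.val {τ : Unit → ℂ | τ () ≠ 0} = P.rat.L - 1 := by
  have h1 : Constructible {τ : Unit → ℂ | τ () ≠ 0} := (haar_good 0).1
  have h2 : Constructible {τ : Unit → ℂ | τ = fun _ => 0} := Constructible.point _
  have h3 := P.rat.union _ _ h1 h2 (by
    rw [Set.disjoint_left]
    intro v hv hv'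
    apply hv
    have h4 : v = fun _ => 0 := hv'
    rw [h4])
  rw [P.rat.val_point] at h3
  rw [eq_sub_iff_add_eq, ← h3]
  unfold MotivicMeasure.L
  congr 1
  ext v
  constructor
  · intro _
    exact Set.mem_univ _
  · intro _
    by_cases h : v () = 0
    · right
      change v = fun _ => 0
      funext x
      exact h
    · exact Or.inl h

theorem sv_haar (P : HodgeMeasure) (α : K) : sv P (haar α) = P.rat.L - 1 := val_star P

/-- the value of the Haar part (without coefficient) -/
theorem wv_haar (P : HodgeMeasure) (α : K) {E : Type} [Finite E] {B : Set (E → ℂ)}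
    (hB : Constructible B) (q : MvPolynomial E ℂ) (hq : ∀ p ∈ B, eval p q ≠ 0) :
    wv P B q (haar α) = P.rat.val B := by
  have h := T0Aux.haar_val P 1 hB q hq 0
  rw [val_eq] at h
  change (1 : K) * xq ^ 0 * wv P B q (haar 1) = 1 * xq ^ 0 * _ at h
  rw [pow_zero, one_mul, one_mul, one_mul] at h
  exact h

/-- no contribution for `q = 0` -/
theorem wv_zero (P : HodgeMeasure) {t : Fam} (ht : t.Good) :
    wv P (Set.univ : Set (Empty → ℂ)) 0 t = 0 := by
  have := t.fin
  unfold wv
  have h1 : {v : Empty ⊕ t.σ → ℂ | (fun p => v (Sum.inl p)) ∈ (Set.univ : Set (Empty → ℂ)) ∧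
    (fun s => v (Sum.inr s)) ∈ t.S ∧
      eval (fun p => v (Sum.inl p)) (0 : MvPolynomial Empty ℂ) =
        eval (fun s => v (Sum.inr s)) t.u} = ∅ := by
    ext v
    constructor
    · rintro ⟨_, h2, h3⟩
      rw [map_zero] at h3
      exact ht.2 _ h2 h3.symm
    · intro h
      exact absurd h (Set.notMem_empty v)
  rw [h1, P.rat.val_empty]

/-- `S × C^*`-type value with the coordinate itself as parameter -/
theorem wv_coord (P : HodgeMeasure) {t : Fam} (ht : t.Good) :
    wv P {τ : Unit → ℂ | τ () ≠ 0} (X ()) t = sv P t := by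
  have := t.fin
  unfold wv sv
  symm
  refine P.rat.val_of_inv ht.1 (con_val (haar_good 0).1 ht.1 (X ()) t.u)
    (Sum.elim (fun _ => t.u) fun s => X s) (fun y s => y (Sum.inr s)) ?_ ?_ ?_ ?_
  · intro v hv
    refine ⟨ht.2 v hv, by simpa using hv, ?_⟩
    simp
  · intro y hy
    exact hy.2.1
  · intro v _
    funext s
    simp
  · rintro y ⟨h1, h2, h3⟩
    rw [eval_X] at h3
    funext i
    rcases i with ⟨⟩ | s
    · simpa using h3.symm
    · simp

/-- the family of the sum -/
noncomputable def sumFam (t t' : Fam) : Fam where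
  σ := t.σ ⊕ t'.σ
  fin := by
    have := t.fin
    have := t'.fin
    infer_instance
  S := {τ | (fun s => τ (Sum.inl s)) ∈ t.S ∧ (fun s => τ (Sum.inr s)) ∈ t'.S ∧
    eval τ (rename Sum.inl t.u + rename Sum.inr t'.u) ≠ 0}
  u := rename Sum.inl t.u + rename Sum.inr t'.u
  κ := fun m => t.κ m * t'.κ m

theorem sumFam_good {t t' : Fam} (h : t.Good) (h' : t'.Good) : (sumFam t t').Good :=
  ⟨cand (preX Sum.inl h.1) (cand (preX Sum.inr h'.1) (cne _)), fun _ hτ => hτ.2.2⟩

theorem sumFam_wv (P : HodgeMeasure) {E : Type} [Finite E] {B : Set (E → ℂ)}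
    (q : MvPolynomial E ℂ) (hq : ∀ p ∈ B, eval p q ≠ 0) {t t' : Fam} (h : t.Good)
    (h' : t'.Good) : wv P B q (sumFam t t') = t.val2 t' P (Qadd B q) := by
  have := t.fin
  have := t'.fin
  unfold wv Fam.val2
  have hset : ∀ v : E ⊕ (t.σ ⊕ t'.σ) → ℂ,
      ((fun p => v (Sum.inl p)) ∈ B ∧ ((fun s => v (Sum.inr (Sum.inl s))) ∈ t.S ∧
        (fun s => v (Sum.inr (Sum.inr s))) ∈ t'.S ∧
        eval (fun s => v (Sum.inr s)) (rename Sum.inl t.u + rename Sum.inr t'.u) ≠ 0) ∧
        eval (fun p => v (Sum.inl p)) q =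
          eval (fun s => v (Sum.inr s)) (rename Sum.inl t.u + rename Sum.inr t'.u)) ↔
      ((fun s => v (Sum.inr (Sum.inl s))) ∈ t.S ∧ (fun s => v (Sum.inr (Sum.inr s))) ∈ t'.S ∧
        ((fun p => v (Sum.inl p)) ∈ B ∧ eval (fun s => v (Sum.inr (Sum.inl s))) t.u ≠ 0 ∧
          eval (fun s => v (Sum.inr (Sum.inr s))) t'.u ≠ 0 ∧
            eval (fun s => v (Sum.inr (Sum.inl s))) t.u +
              eval (fun s => v (Sum.inr (Sum.inr s))) t'.u = eval (fun p => v (Sum.inl p)) q)) := by
    intro v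
    rw [map_add, eval_rename, eval_rename]
    constructor
    · rintro ⟨h1, ⟨h2, h3, h5⟩, h4⟩
      exact ⟨h2, h3, h1, h.2 _ h2, h'.2 _ h3, h4.symm⟩
    · rintro ⟨h2, h3, h1, _, _, h4⟩
      refine ⟨h1, ⟨h2, h3, ?_⟩, h4.symm⟩
      have h5 := hq _ h1
      rw [← h4] at h5
      exact h5
  congr 1
  ext v
  exact hset v

/-- a Haar family with an arbitrary sequence -/
noncomputable def cFam (κ : ℕ → K) : Fam where
  σ := Unit
  fin := inferInstance
  S := {τ | τ () ≠ 0}
  u := X ()
  κ := κ

theorem cFam_good (κ : ℕ → K) : (cFam κ).Good := haar_good 0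

theorem cFam_wv (P : HodgeMeasure) (κ : ℕ → K) {E : Type} [Finite E] {B : Set (E → ℂ)}
    (hB : Constructible B) (q : MvPolynomial E ℂ) (hq : ∀ p ∈ B, eval p q ≠ 0) :
    wv P B q (cFam κ) = P.rat.val B := wv_haar P 0 hB q hq

/-- a family with another sequence -/
noncomputable def reFam (t : Fam) (κ : ℕ → K) : Fam where
  σ := t.σ
  fin := t.fin
  S := t.S
  u := t.u
  κ := κ

theorem reFam_good {t : Fam} (h : t.Good) (κ : ℕ → K) : (reFam t κ).Good := h

theorem reFam_wv (P : HodgeMeasure) (κ : ℕ → K) {E : Type} [Finite E] (B : Set (E → ℂ))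
    (q : MvPolynomial E ℂ) (t : Fam) : wv P B q (reFam t κ) = wv P B q t := rfl

/-! ### sums over lists -/

theorem lin1 (l : List Fam) (A c : K) (k s w : Fam → K) :
    (l.map fun t => A * k t * (c * s t - w t)).sum =
      A * (c * (l.map fun t => k t * s t).sum - (l.map fun t => k t * w t).sum) := by
  induction l with
  | nil => simp
  | cons t l ih =>
    simp only [List.map_cons, List.sum_cons]
    rw [ih]
    ring

theorem lin2 {α : Type*} (l : List α) (A : K) (f : α → K) :
    (l.map fun t => f t * A).sum = (l.map f).sum * A := by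
  induction l with
  | nil => simp
  | cons t l ih =>
    simp only [List.map_cons, List.sum_cons]
    rw [ih]
    ring

theorem lin3 {α : Type*} (l : List α) (f g : α → K) :
    (l.map fun t => f t - g t).sum = (l.map f).sum - (l.map g).sum := by
  induction l with
  | nil => simp
  | cons t l ih =>
    simp only [List.map_cons, List.sum_cons]
    rw [ih]
    ring

theorem lin4 {α : Type*} (l : List α) (f g : α → K) :
    (l.map fun t => f t + g t).sum = (l.map f).sum + (l.map g).sum := by
  induction l with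
  | nil => simp
  | cons t l ih =>
    simp only [List.map_cons, List.sum_cons]
    rw [ih]
    ring

/-- `∑ κ_t(i) [S_t]` -/
noncomputable def aR (P : HodgeMeasure) (ts : List Fam) (i : ℕ) : K :=
  (ts.map fun t => t.κ i * sv P t).sum

/-- `∑ κ_t(i) [B, q = u_t]` -/
noncomputable def rR (P : HodgeMeasure) {E : Type} [Finite E] (B : Set (E → ℂ))
    (q : MvPolynomial E ℂ) (ts : List Fam) (i : ℕ) : K :=
  (ts.map fun t => t.κ i * wv P B q t).sum

theorem AA_eq {P : HodgeMeasure} {ι : Type} [Fintype ι] {f : MvPolynomial ι ℂ} {α : K}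
    {ts : List Fam} (hf : HasFam P f (haar α :: ts)) {E : Type} [Finite E] {B : Set (E → ℂ)}
    (hB : Constructible B) (q : MvPolynomial E ℂ) (hq : ∀ p ∈ B, eval p q ≠ 0) (m : ℕ) :
    AA P f B q m = α * xq ^ m * P.rat.val B + rR P B q ts m := by
  rw [hf.2 E B q hB hq m, List.map_cons, List.sum_cons, T0Aux.haar_val P α hB q hq]
  rfl

theorem dbl_eq (hVF : Stmt_VF) {P : HodgeMeasure} {ι κ : Type} [Fintype ι] [Fintype κ]
    {f : MvPolynomial ι ℂ} {g : MvPolynomial κ ℂ} {α α' : K} {ts ts' : List Fam}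
    (hf : HasFam P f (haar α :: ts)) (hg : HasFam P g (haar α' :: ts')) {E : Type} [Finite E]
    {B : Set (E → ℂ)} (hB : Constructible B) (q : MvPolynomial E ℂ) (i : ℕ) :
    vol P.rat xq (dbl f g (Qadd B q) i i) =
      α * α' * (xq ^ i * xq ^ i) * (P.rat.val B * (P.rat.L - 1) - wv P B q (haar α')) +
      α * xq ^ i * (P.rat.val B * aR P ts' i - rR P B q ts' i) +
      α' * xq ^ i * (P.rat.val B * aR P ts i - rR P B q ts i) +
      (ts.map fun t => (ts'.map fun t' => t.κ i * t'.κ i * t.val2 t' P (Qadd B q)).sum).sum := by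
  rw [hVF P ι κ f g _ _ hf hg E (Qadd B q) (con_Qadd hB q) (fun z hz => ⟨hz.2.1, hz.2.2.1⟩) i i]
  simp only [List.map_cons, List.sum_cons]
  have hk : ∀ β : K, (haar β).κ i = β * xq ^ i := fun β => rfl
  have e0 : (haar α).val2 (haar α') P (Qadd B q) =
      P.rat.val B * (P.rat.L - 1) - wv P B q (haar α') := by
    rw [haar_left P α hB q (haar_good α'), sv_haar]
  have e1 : (ts'.map fun t' => (haar α).κ i * t'.κ i * (haar α).val2 t' P (Qadd B q)).sum =
      α * xq ^ i * (P.rat.val B * aR P ts' i - rR P B q ts' i) := by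
    have h1 : (ts'.map fun t' => (haar α).κ i * t'.κ i * (haar α).val2 t' P (Qadd B q)) =
        ts'.map fun t' => (α * xq ^ i) * t'.κ i * (P.rat.val B * sv P t' - wv P B q t') :=
      List.map_congr_left fun t' ht' => by
        rw [haar_left P α hB q (hg.1 t' (List.mem_cons_of_mem _ ht')), hk]
    rw [h1, lin1 ts' (α * xq ^ i) (P.rat.val B) (fun t => t.κ i) (sv P) (wv P B q)]
    rfl
  have e2 : (ts.map fun t => t.κ i * (haar α').κ i * t.val2 (haar α') P (Qadd B q) +
      (ts'.map fun t' => t.κ i * t'.κ i * t.val2 t' P (Qadd B q)).sum).sum =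
      α' * xq ^ i * (P.rat.val B * aR P ts i - rR P B q ts i) +
      (ts.map fun t => (ts'.map fun t' => t.κ i * t'.κ i * t.val2 t' P (Qadd B q)).sum).sum := by
    rw [lin4]
    congr 1
    have h1 : (ts.map fun t => t.κ i * (haar α').κ i * t.val2 (haar α') P (Qadd B q)) =
        ts.map fun t => (α' * xq ^ i) * t.κ i * (P.rat.val B * sv P t - wv P B q t) :=
      List.map_congr_left fun t ht => by
        rw [haar_right P α' hB q (hf.1 t (List.mem_cons_of_mem _ ht)), hk]
        ring
    rw [h1, lin1 ts (α' * xq ^ i) (P.rat.val B) (fun t => t.κ i) (sv P) (wv P B q)]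
    rfl
  rw [e0, e1, e2, hk, hk]
  ring

theorem dbl0_eq (hVF : Stmt_VF) {P : HodgeMeasure} {ι κ : Type} [Fintype ι] [Fintype κ]
    {f : MvPolynomial ι ℂ} {g : MvPolynomial κ ℂ} {α α' : K} {ts ts' : List Fam}
    (hf : HasFam P f (haar α :: ts)) (hg : HasFam P g (haar α' :: ts')) (i : ℕ) :
    vol P.rat xq (dbl f g (Qadd (Set.univ : Set (Empty → ℂ)) 0) i i) =
      α * α' * (xq ^ i * xq ^ i) * (P.rat.L - 1) + α * xq ^ i * aR P ts' i +
      α' * xq ^ i * aR P ts i +
      (ts.map fun t => (ts'.map fun t' => t.κ i * t'.κ i *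
        t.val2 t' P (Qadd (Set.univ : Set (Empty → ℂ)) 0)).sum).sum := by
  rw [dbl_eq hVF hf hg Constructible.univ 0 i]
  have h1 : P.rat.val (Set.univ : Set (Empty → ℂ)) = 1 := P.rat.point
  have h2 : ∀ l : List Fam, (∀ t ∈ l, t.Good) → rR P (Set.univ : Set (Empty → ℂ)) 0 l i = 0 := by
    intro l hl
    unfold rR
    have h3 : (l.map fun t => t.κ i * wv P (Set.univ : Set (Empty → ℂ)) 0 t) =
        l.map fun _ => (0 : K) := List.map_congr_left fun t ht => by
      rw [wv_zero P (hl t ht), mul_zero]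
    rw [h3]
    simp
  rw [h1, wv_zero P (haar_good α'), h2 ts (fun t ht => hf.1 t (List.mem_cons_of_mem _ ht)),
    h2 ts' (fun t ht => hg.1 t (List.mem_cons_of_mem _ ht))]
  ring

theorem geoK {L x : K} (h : L * x = 1) (m : ℕ) :
    (L - 1) * ∑ j ∈ Finset.range m, x ^ j = L * (1 - x ^ m) := by
  induction m with
  | zero => simp
  | succ m ih =>
    rw [Finset.sum_range_succ, mul_add, ih, pow_succ]
    linear_combination (x ^ m) * h

theorem aa_eq (hVA : Stmt_VA) {P : HodgeMeasure} {ι : Type} [Fintype ι] {f : MvPolynomial ι ℂ}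
    {α : K} {ts : List Fam} (hf : HasFam P f (haar α :: ts)) (j : ℕ) :
    aa P f j = α * xq ^ j * (P.rat.L - 1) + aR P ts j := by
  have hB : Constructible ({τ : Unit → ℂ | τ () ≠ 0} : Set (Unit → ℂ)) := (haar_good 0).1
  rw [(hVA P ι f).2.1 j, AA_eq (E := Unit) hf hB (X ()) (fun p hp => by rw [eval_X]; exact hp) j,
    val_star]
  congr 1
  unfold rR aR
  congr 1
  exact List.map_congr_left fun t ht => by
    rw [wv_coord P (hf.1 t (List.mem_cons_of_mem _ ht))]

theorem bb_eq (hVA : Stmt_VA) {P : HodgeMeasure} {ι : Type} [Fintype ι] {f : MvPolynomial ι ℂ}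
    {α : K} {ts : List Fam} (hf : HasFam P f (haar α :: ts)) (m : ℕ) :
    bb P f m = α * xq ^ m +
      ((1 - α * P.rat.L) - ∑ j ∈ Finset.range (m + 1), aR P ts j) := by
  rw [(hVA P ι f).1 m]
  have h1 : ∑ j ∈ Finset.range (m + 1), aa P f j =
      α * ((P.rat.L - 1) * ∑ j ∈ Finset.range (m + 1), xq ^ j) +
        ∑ j ∈ Finset.range (m + 1), aR P ts j := by
    rw [Finset.mul_sum, Finset.mul_sum, ← Finset.sum_add_distrib]
    refine Finset.sum_congr rfl fun j _ => ?_
    rw [aa_eq hVA hf j]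
    ring
  rw [h1, geoK (VKAux.L_xq P), pow_succ]
  linear_combination (α * xq ^ m) * VKAux.L_xq P

theorem aR_eseq (hQ : Stmt_Q1) {P : HodgeMeasure} {Λ : Set ℚ} {ts : List Fam}
    (hts : ∀ t ∈ ts, ESeq Λ t.κ) : ESeq Λ (aR P ts) := by
  have hQ' := hQ
  obtain ⟨q1, q2, q3, -⟩ := hQ'
  refine eseq_list hQ Λ (fun t m => t.κ m * sv P t) ts fun t ht => ?_
  have h := q3 _ _ (sv P t) (hts t ht)
  refine cast ?_ h
  congr 1
  funext m
  ring

theorem bR_eseq (hQ : Stmt_Q1) (hQ3 : Stmt_Q3) (hVA : Stmt_VA) {P : HodgeMeasure} {ι : Type}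
    [Fintype ι] {f : MvPolynomial ι ℂ} {Λ : Set ℚ} (hΛ : Λ ⊆ Set.Ioi 0) {α : K} {ts : List Fam}
    (hts : ∀ t ∈ ts, ESeq Λ t.κ) (hf : HasFam P f (haar α :: ts)) (hM : Mass P f) :
    ESeq Λ fun m => (1 - α * P.rat.L) - ∑ j ∈ Finset.range (m + 1), aR P ts j := by
  obtain ⟨v, hv⟩ := hQ3.1 Λ (aR P ts) hΛ (aR_eseq hQ hts)
  have h1 : 1 - α * P.rat.L = v := by
    have hQ' := hQ
    obtain ⟨q1, q2, q3, -, -, -, -⟩ := hQ'
    have h2 := q3 _ _ (-1) (q1 _ _ _ hΛ hv)
    have h3 := q3 _ _ (-1) (eseq_haar hQ (Set.Ioi 0) (zero_lt_one : (0 : ℚ) < 1) α)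
    have h4 := q2 _ _ _ (q2 _ _ _ hM h2) h3
    have h5 := hQ3.2 ((1 - α * P.rat.L) - v) (by
      refine cast ?_ h4
      congr 1
      funext m
      rw [bb_eq hVA hf m]
      change _ + -1 * (α * xq ^ m) = _
      ring)
    exact sub_eq_zero.1 h5
  rw [h1]
  exact hv

end TSAux

open TKAux TPAux TSAux

theorem stmt_TS (hQ : Stmt_Q1) (hQ2 : Stmt_Q2) (hQ3 : Stmt_Q3) (hQ4 : Stmt_Q4) (hVF : Stmt_VF)
    (hVS : Stmt_VS) (hVA : Stmt_VA) : Stmt_TS := by
  classical
  have hQ' := hQ
  obtain ⟨q1, q2, q3, q4, q5, q6, -⟩ := hQ'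
  intro P ι κ _ _ f g Λ Λ' hWH hΛ hΛ' hf hMf hg hMg
  obtain ⟨vs1, vs2⟩ := hVS P ι κ f g hWH
  obtain ⟨α, ts, hts, hF⟩ := hf
  obtain ⟨α', ts', hts', hG⟩ := hg
  have hsub : sumE Λ Λ' ⊆ Set.Ioi 0 := by
    rintro r ⟨a, ha, b, hb, rfl⟩
    have h1 : (0 : ℚ) < a := hΛ ha
    have h2 : (0 : ℚ) < b := hΛ' hb
    have h3 : (0 : ℚ) < a + b := add_pos h1 h2
    exact h3
  have hbf := bR_eseq hQ hQ3 hVA hΛ hts hF hMf
  have hbg := bR_eseq hQ hQ3 hVA hΛ' hts' hG hMg
  have hL := VKAux.L_xq P
  have hgood : ∀ t ∈ ts, t.Good := fun t ht => hF.1 t (List.mem_cons_of_mem _ ht)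
  have hgood' : ∀ t ∈ ts', t.Good := fun t ht => hG.1 t (List.mem_cons_of_mem _ ht)
  constructor
  · have hq4 : ∀ t ∈ ts, ∀ t' ∈ ts', ∃ a : K, ESeq (sumE Λ Λ') fun m =>
        (∑ j ∈ Finset.range m, (t.κ j * t'.κ j) * xq ^ (m - j)) - a * xq ^ m :=
      fun t ht t' ht' => hQ4 _ _ hsub (hQ2 _ _ _ _ (hts t ht) (hts' t' ht'))
    choose! a ha using hq4
    set z : Fam → Fam → K := fun t t' => t.val2 t' P (Qadd (Set.univ : Set (Empty → ℂ)) 0) with hz
    set bf : ℕ → K := fun m => (1 - α * P.rat.L) - ∑ j ∈ Finset.range (m + 1), aR P ts j with hbfd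
    set bg : ℕ → K := fun m => (1 - α' * P.rat.L) - ∑ j ∈ Finset.range (m + 1), aR P ts' j
      with hbgd
    refine ⟨α * α' * P.rat.L + α * (1 - α' * P.rat.L) + α' * (1 - α * P.rat.L) +
      (ts.map fun t => (ts'.map fun t' => z t t' * a t t').sum).sum,
      ((ts.map fun t => reFam t (fun m => t.κ m * bg m)) ++
        (ts'.map fun t => reFam t (fun m => bf m * t.κ m))) ++
      ((ts.flatMap fun t => ts'.map fun t' => sumFam t t') ++
        ts.flatMap fun t => ts'.map fun t' => cFam (fun m => z t t' *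
          ((∑ j ∈ Finset.range m, (t.κ j * t'.κ j) * xq ^ (m - j)) - a t t' * xq ^ m))), ?_, ?_, ?_⟩
    · intro u hu
      rcases List.mem_append.1 hu with hu | hu
      · rcases List.mem_append.1 hu with hu | hu
        · obtain ⟨t, ht, rfl⟩ := List.mem_map.1 hu
          exact hQ2 _ _ _ _ (hts t ht) hbg
        · obtain ⟨t, ht, rfl⟩ := List.mem_map.1 hu
          exact hQ2 _ _ _ _ hbf (hts' t ht)
      · rcases List.mem_append.1 hu with hu | hu
        · obtain ⟨t, ht, hu2⟩ := List.mem_flatMap.1 hu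
          obtain ⟨t', ht', rfl⟩ := List.mem_map.1 hu2
          exact hQ2 _ _ _ _ (hts t ht) (hts' t' ht')
        · obtain ⟨t, ht, hu2⟩ := List.mem_flatMap.1 hu
          obtain ⟨t', ht', rfl⟩ := List.mem_map.1 hu2
          exact q3 _ _ (z t t') (ha t ht t' ht')
    · intro u hu
      rcases List.mem_cons.1 hu with rfl | hu
      · exact haar_good _
      rcases List.mem_append.1 hu with hu | hu
      · rcases List.mem_append.1 hu with hu | hu
        · obtain ⟨t, ht, rfl⟩ := List.mem_map.1 hu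
          exact reFam_good (hgood t ht) _
        · obtain ⟨t, ht, rfl⟩ := List.mem_map.1 hu
          exact reFam_good (hgood' t ht) _
      · rcases List.mem_append.1 hu with hu | hu
        · obtain ⟨t, ht, hu2⟩ := List.mem_flatMap.1 hu
          obtain ⟨t', ht', rfl⟩ := List.mem_map.1 hu2
          exact sumFam_good (hgood t ht) (hgood' t' ht')
        · obtain ⟨t, ht, hu2⟩ := List.mem_flatMap.1 hu
          obtain ⟨t', ht', rfl⟩ := List.mem_map.1 hu2
          exact cFam_good _
    · intro E _ B q hB hq m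
      rw [List.map_cons, List.sum_cons, T0Aux.haar_val P _ hB q hq]
      simp only [List.map_append, List.sum_append, List.map_map, sum_flatMap, Function.comp_def,
        val_eq, reFam_wv, cFam_wv P _ hB q hq]
      have e1 : (ts.map fun t => (reFam t (fun m => t.κ m * bg m)).κ m * wv P B q t).sum =
          rR P B q ts m * bg m := by
        unfold rR
        rw [← lin2]
        congr 1
        refine List.map_congr_left fun t _ => ?_
        change t.κ m * bg m * _ = _
        ring
      have e2 : (ts'.map fun t => (reFam t (fun m => bf m * t.κ m)).κ m * wv P B q t).sum =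
          rR P B q ts' m * bf m := by
        unfold rR
        rw [← lin2]
        congr 1
        refine List.map_congr_left fun t _ => ?_
        change bf m * t.κ m * _ = _
        ring
      have e3 : (ts.map fun t => (ts'.map fun t' => (sumFam t t').κ m *
          wv P B q (sumFam t t')).sum).sum =
          (ts.map fun t => (ts'.map fun t' => t.κ m * t'.κ m * t.val2 t' P (Qadd B q)).sum).sum := by
        congr 1
        refine List.map_congr_left fun t ht => ?_
        congr 1
        refine List.map_congr_left fun t' ht' => ?_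
        rw [sumFam_wv P q hq (hgood t ht) (hgood' t' ht')]
        rfl
      have e4 : (ts.map fun t => (ts'.map fun t' => (cFam (fun m => z t t' *
          ((∑ j ∈ Finset.range m, (t.κ j * t'.κ j) * xq ^ (m - j)) - a t t' * xq ^ m))).κ m *
            P.rat.val B).sum).sum =
          (ts.map fun t => (ts'.map fun t' => z t t' *
            ∑ j ∈ Finset.range m, (t.κ j * t'.κ j) * xq ^ (m - j)).sum).sum * P.rat.val B -
          (ts.map fun t => (ts'.map fun t' => z t t' * a t t').sum).sum * (xq ^ m * P.rat.val B) := by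
        rw [← lin2, ← lin2, ← lin3]
        congr 1
        refine List.map_congr_left fun t _ => ?_
        rw [← lin2, ← lin2, ← lin3]
        congr 1
        refine List.map_congr_left fun t' _ => ?_
        change z t t' * ((∑ j ∈ Finset.range m, (t.κ j * t'.κ j) * xq ^ (m - j)) -
          a t t' * xq ^ m) * P.rat.val B = _
        ring
      rw [e1, e2, e3, e4, vs1 E B q hB hq m, AA_eq hF hB q hq, AA_eq hG hB q hq, bb_eq hVA hF,
        bb_eq hVA hG, dbl_eq hVF hF hG hB q m, wv_haar P α' hB q hq]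
      have e5 : ∑ j ∈ Finset.range m, xq ^ (m - j) *
          vol P.rat xq (dbl f g (Qadd (Set.univ : Set (Empty → ℂ)) 0) j j) =
          α * α' * xq ^ m * ((P.rat.L - 1) * ∑ j ∈ Finset.range m, xq ^ j) +
          α * xq ^ m * (∑ j ∈ Finset.range m, aR P ts' j) +
          α' * xq ^ m * (∑ j ∈ Finset.range m, aR P ts j) +
          (ts.map fun t => (ts'.map fun t' => z t t' *
            ∑ j ∈ Finset.range m, (t.κ j * t'.κ j) * xq ^ (m - j)).sum).sum := by
        have h1 : (ts.map fun t => (ts'.map fun t' => z t t' *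
            ∑ j ∈ Finset.range m, (t.κ j * t'.κ j) * xq ^ (m - j)).sum).sum =
            ∑ j ∈ Finset.range m, xq ^ (m - j) *
              (ts.map fun t => (ts'.map fun t' => t.κ j * t'.κ j * z t t').sum).sum := by
          have h2 : ∀ j ∈ Finset.range m, xq ^ (m - j) *
              (ts.map fun t => (ts'.map fun t' => t.κ j * t'.κ j * z t t').sum).sum =
              (ts.map fun t => (ts'.map fun t' => t.κ j * t'.κ j * z t t' * xq ^ (m - j)).sum).sum := by
            intro j _
            rw [mul_comm, ← lin2]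
            congr 1
            refine List.map_congr_left fun t _ => ?_
            rw [← lin2]
          rw [Finset.sum_congr rfl h2, list_sum_comm]
          congr 1
          refine List.map_congr_left fun t _ => ?_
          rw [list_sum_comm]
          congr 1
          refine List.map_congr_left fun t' _ => ?_
          rw [Finset.mul_sum]
          refine Finset.sum_congr rfl fun j _ => ?_
          ring
        rw [h1, Finset.mul_sum, Finset.mul_sum, Finset.mul_sum, Finset.mul_sum,
          ← Finset.sum_add_distrib, ← Finset.sum_add_distrib, ← Finset.sum_add_distrib]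
        refine Finset.sum_congr rfl fun j hj => ?_
        have hj' := Finset.mem_range.1 hj
        rw [dbl0_eq hVF hF hG j]
        have h3 : xq ^ m = xq ^ (m - j) * xq ^ j := by
          rw [← pow_add]
          congr 1
          omega
        rw [h3]
        ring
      rw [e5, hbfd, hbgd]
      simp only [Finset.sum_range_succ _ m]
      have hg1 := geoK hL m
      linear_combination (α * α' * xq ^ m * P.rat.val B) * hg1
  · -- the mass identity
    have hE : ∀ t ∈ haar α :: ts, ESeq (Set.Ioi 0) t.κ := by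
      intro t ht
      rcases List.mem_cons.1 ht with rfl | ht
      · exact eseq_haar hQ _ (zero_lt_one : (0 : ℚ) < 1) α
      · exact q1 _ _ _ hΛ (hts t ht)
    have hE' : ∀ t ∈ haar α' :: ts', ESeq (Set.Ioi 0) t.κ := by
      intro t ht
      rcases List.mem_cons.1 ht with rfl | ht
      · exact eseq_haar hQ _ (zero_lt_one : (0 : ℚ) < 1) α'
      · exact q1 _ _ _ hΛ' (hts' t ht)
    have hss : sumE (Set.Ioi (0 : ℚ)) (Set.Ioi 0) ⊆ Set.Ioi 0 := by
      rintro r ⟨a, ha, b, hb, rfl⟩
      have h1 : (0 : ℚ) < a := ha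
      have h2 : (0 : ℚ) < b := hb
      have h3 : (0 : ℚ) < a + b := add_pos h1 h2
      exact h3
    have hD : ESeq (Set.Ioi 0) fun j =>
        vol P.rat xq (dbl f g (Qadd (Set.univ : Set (Empty → ℂ)) 0) j j) := by
      have h1 : (fun j => vol P.rat xq (dbl f g (Qadd (Set.univ : Set (Empty → ℂ)) 0) j j)) =
          fun j => ((haar α :: ts).map fun t : Fam => ((haar α' :: ts').map fun t' : Fam =>
            t.κ j * t'.κ j * t.val2 t' P (Qadd (Set.univ : Set (Empty → ℂ)) 0)).sum).sum := by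
        funext j
        exact hVF P ι κ f g _ _ hF hG Empty _ (con_Qadd Constructible.univ 0)
          (fun z hz => ⟨hz.2.1, hz.2.2.1⟩) j j
      rw [h1]
      refine eseq_list hQ _ (fun (t : Fam) (j : ℕ) => ((haar α' :: ts').map fun t' : Fam =>
            t.κ j * t'.κ j * t.val2 t' P (Qadd (Set.univ : Set (Empty → ℂ)) 0)).sum) _ fun t ht => ?_
      refine eseq_list hQ _ (fun (t' : Fam) (j : ℕ) =>
            t.κ j * t'.κ j * t.val2 t' P (Qadd (Set.univ : Set (Empty → ℂ)) 0)) _ fun t' ht' => ?_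
      have h2 := q3 _ _ (t.val2 t' P (Qadd (Set.univ : Set (Empty → ℂ)) 0))
        (q1 _ _ _ hss (hQ2 _ _ _ _ (hE t ht) (hE' t' ht')))
      refine cast ?_ h2
      congr 1
      funext m
      ring
    have h2 : bb P (oplus f g) = fun m => bb P f m * bb P g m +
        ∑ j ∈ Finset.range (m + 1),
          vol P.rat xq (dbl f g (Qadd (Set.univ : Set (Empty → ℂ)) 0) j j) * (haar 1).κ (m - j) := by
      funext m
      rw [vs2 m]
      congr 1
      refine Finset.sum_congr rfl fun j _ => ?_
      change xq ^ (m - j) * _ = _ * (1 * xq ^ (m - j))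
      ring
    unfold Mass
    rw [h2]
    refine q2 _ _ _ (q1 _ _ _ hss (hQ2 _ _ _ _ hMf hMg)) ?_
    have h3 := q6 _ _ _ _ hD (eseq_haar hQ (Set.Ioi 0) (zero_lt_one : (0 : ℚ) < 1) 1)
    rwa [Set.union_self] at h3

end Pool.Agent.Mono.TS
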