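import Pool.Agent.Work.Monodromy4.VP

/-!
# Block VF: pairs of arcs, by families of both polynomials
-/

set_option autoImplicit false
set_option linter.unusedSectionVars false

namespace Pool.Agent.Mono.TS

open MvPolynomial VAAux VPAux

namespace VFAux

/-- the measure of a graph -/
theorem val_graph {R : Type} [CommRing R] (μ : MotivicMeasure R) {ι κ : Type} [Finite ι] [Finite κ]
    {s : Set (ι → ℂ)} {t : Set (κ → ℂ)} (hs : Constructible s) (ht : Constructible t)
    (φ : κ → MvPolynomial ι ℂ) (ψ : ι → κ) (h0 : ∀ i, φ (ψ i) = X i)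
    (h1 : ∀ x ∈ s, (fun j => eval x (φ j)) ∈ t) (h2 : ∀ y ∈ t, (fun i => y (ψ i)) ∈ s)
    (h3 : ∀ y ∈ t, ∀ j, eval (fun i => y (ψ i)) (φ j) = y j) : μ.val s = μ.val t := by
  refine μ.val_of_inv hs ht φ (fun y i => y (ψ i)) h1 h2 ?_ ?_
  · intro x _
    funext i
    change eval x (φ (ψ i)) = x i
    rw [h0, eval_X]
  · intro y hy
    funext j
    exact h3 y hy j

section

variable {E ι κ : Type} [Fintype ι] [Fintype κ]

/-- the `y`-jets and both leading coefficients as parameters -/
def B1 (g : MvPolynomial κ ℂ) (Q : Set (E ⊕ Bool → ℂ)) (j : ℕ) :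
    Set ((E ⊕ Bool) ⊕ (Σ _ : κ, Fin (j + 1)) → ℂ) :=
  {b | (fun s => b (Sum.inl s)) ∈ Q ∧
    (∀ l < j, PowerSeries.coeff l (aeval (toArc (fun _ : κ => j + 1) fun s => b (Sum.inr s)) g) =
      0) ∧
    PowerSeries.coeff j (aeval (toArc (fun _ : κ => j + 1) fun s => b (Sum.inr s)) g) =
      b (Sum.inl (Sum.inr false))}

theorem con_B1 (g : MvPolynomial κ ℂ) {Q : Set (E ⊕ Bool → ℂ)} (hQ : Constructible Q) (j : ℕ) :
    Constructible (B1 g Q j) := by
  classical
  have h : B1 g Q j = {b : (E ⊕ Bool) ⊕ (Σ _ : κ, Fin (j + 1)) → ℂ |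
      (fun s => b (Sum.inl s)) ∈ Q ∧
      (∀ l < j, eval b (GJetAux.cA (E ⊕ Bool) (fun _ : κ => j + 1) g l) = 0) ∧
      eval b (GJetAux.cA (E ⊕ Bool) (fun _ : κ => j + 1) g j) =
        eval b (X (Sum.inl (Sum.inr false)))} := by
    ext b
    simp only [B1, Set.mem_ofPred_eq, GJetAux.eval_cA, eval_X]
  rw [h]
  exact Constructible.and (Constructible.comap _ hQ) (Constructible.and
    (Constructible.all_lt j fun l _ => Constructible.zero _) (Constructible.eq _ _))

/-- the level -/
def lev (ι κ : Type) (i j : ℕ) : ι ⊕ κ → ℕ := Sum.elim (fun _ => i + 1) fun _ => j + 1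

/-- the coefficient `l` of `f(x)` as a polynomial of the jets of `(x, y)` -/
noncomputable def cX (E : Type) (f : MvPolynomial ι ℂ) (i j l : ℕ) :
    MvPolynomial (E ⊕ (Σ a : ι ⊕ κ, Fin (lev ι κ i j a))) ℂ :=
  haveI := Classical.decEq (ι ⊕ κ)
  GJetAux.cA E (lev ι κ i j) (rename Sum.inl f) l

noncomputable def cY (E : Type) (g : MvPolynomial κ ℂ) (i j l : ℕ) :
    MvPolynomial (E ⊕ (Σ a : ι ⊕ κ, Fin (lev ι κ i j a))) ℂ :=
  haveI := Classical.decEq (ι ⊕ κ)
  GJetAux.cA E (lev ι κ i j) (rename Sum.inr g) l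

theorem eval_cX (f : MvPolynomial ι ℂ) (i j l : ℕ)
    (v : E ⊕ (Σ a : ι ⊕ κ, Fin (lev ι κ i j a)) → ℂ) :
    eval v (cX E f i j l) = PowerSeries.coeff l
      (aeval (fun a => toArc (lev ι κ i j) (fun s => v (Sum.inr s)) (Sum.inl a)) f) := by
  classical
  unfold cX
  rw [GJetAux.eval_cA, aeval_rename]
  rfl

theorem eval_cY (g : MvPolynomial κ ℂ) (i j l : ℕ)
    (v : E ⊕ (Σ a : ι ⊕ κ, Fin (lev ι κ i j a)) → ℂ) :
    eval v (cY E g i j l) = PowerSeries.coeff l
      (aeval (fun a => toArc (lev ι κ i j) (fun s => v (Sum.inr s)) (Sum.inr a)) g) := by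
  classical
  unfold cY
  rw [GJetAux.eval_cA, aeval_rename]
  rfl

theorem cyl_dbl' (f : MvPolynomial ι ℂ) (g : MvPolynomial κ ℂ)
    {Q : Set (E ⊕ Bool → ℂ)} (hQ : Constructible Q) (i j : ℕ) :
    IsCyl (lev ι κ i j) (dbl f g Q i j) := by
  classical
  constructor
  · intro p x y hxy
    have h1 := GJetAux.aeval_congr f (i + 1) (fun a => x (Sum.inl a)) (fun a => y (Sum.inl a))
      fun a l hl => hxy (Sum.inl a) l hl
    have h2 := GJetAux.aeval_congr g (j + 1) (fun a => x (Sum.inr a)) (fun a => y (Sum.inr a))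
      fun a l hl => hxy (Sum.inr a) l hl
    have h3 : ∀ l < i, PowerSeries.coeff l (aeval (fun a => x (Sum.inl a)) f) =
        PowerSeries.coeff l (aeval (fun a => y (Sum.inl a)) f) := fun l hl => h1 l (by omega)
    have h4 : ∀ l < j, PowerSeries.coeff l (aeval (fun a => x (Sum.inr a)) g) =
        PowerSeries.coeff l (aeval (fun a => y (Sum.inr a)) g) := fun l hl => h2 l (by omega)
    change (_ ∧ _ ∧ _) ↔ (_ ∧ _ ∧ _)
    simp only [h1 i (Nat.lt_succ_self i), h2 j (Nat.lt_succ_self j)]
    refine and_congr ?_ (and_congr ?_ Iff.rfl)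
    · exact forall_congr' fun l => forall_congr' fun hl => by rw [h3 l hl]
    · exact forall_congr' fun l => forall_congr' fun hl => by rw [h4 l hl]
  · have h0 : sec (lev ι κ i j) (dbl f g Q i j) =
        {v : E ⊕ (Σ a : ι ⊕ κ, Fin (lev ι κ i j a)) → ℂ |
          (∀ l < i, eval v (cX E f i j l) = 0) ∧ (∀ l < j, eval v (cY E g i j l) = 0) ∧
          (fun s => eval v (Sum.elim (fun p => X (Sum.inl p)) (fun b : Bool =>
            if b then cX E f i j i else cY E g i j j) s)) ∈ Q} := by
      ext v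
      have h1 : (fun s => eval v (Sum.elim (fun p => X (Sum.inl p)) (fun b : Bool =>
            if b then cX E f i j i else cY E g i j j) s)) =
          Sum.elim (fun p => v (Sum.inl p)) fun b => if b then PowerSeries.coeff i
            (aeval (fun a => toArc (lev ι κ i j) (fun s => v (Sum.inr s)) (Sum.inl a)) f)
            else PowerSeries.coeff j
            (aeval (fun a => toArc (lev ι κ i j) (fun s => v (Sum.inr s)) (Sum.inr a)) g) := by
        funext s
        rcases s with s | s
        · simp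
        · rcases s with _ | _
          · simp [eval_cY]
          · simp [eval_cX]
      simp only [Set.mem_ofPred_eq, h1, eval_cX, eval_cY]
      exact Iff.rfl
    rw [h0]
    refine Constructible.and ?_ (Constructible.and ?_ (Constructible.preimage _ hQ))
    · exact Constructible.all_lt i fun l _ => Constructible.zero _
    · exact Constructible.all_lt j fun l _ => Constructible.zero _

/-- first step: the `y`-jets as parameters -/
theorem step1 [Finite E] (P : HodgeMeasure) (f : MvPolynomial ι ℂ) (g : MvPolynomial κ ℂ)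
    {Q : Set (E ⊕ Bool → ℂ)} (hQ : Constructible Q) (i j : ℕ) :
    vol P.rat xq (dbl f g Q i j) =
      AA P f (B1 g Q j) (X (Sum.inl (Sum.inr true))) i * xq ^ (Fintype.card κ * (j + 1)) := by
  classical
  have hL := L_mul P
  have hc1 := cyl_dbl' f g hQ i j
  have hc2 := cyl_ctc f (con_B1 g hQ j) (X (Sum.inl (Sum.inr true))) i
  rw [AA, vol_eq P.rat hL hc1, vol_eq P.rat hL hc2]
  have hval : P.rat.val (sec (lev ι κ i j) (dbl f g Q i j)) =
      P.rat.val (sec (fun _ : ι => i + 1) (ctc f (B1 g Q j) (X (Sum.inl (Sum.inr true))) i)) := by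
    refine val_graph P.rat hc1.2 hc2.2
      (Sum.elim (Sum.elim (Sum.elim (fun p => X (Sum.inl p)) (fun b : Bool =>
        if b then cX E f i j i else cY E g i j j)) fun s => X (Sum.inr ⟨Sum.inr s.1, s.2⟩))
        fun s => X (Sum.inr ⟨Sum.inl s.1, s.2⟩))
      (Sum.elim (fun p => Sum.inl (Sum.inl (Sum.inl p))) fun s => match s with
        | ⟨Sum.inl a, l⟩ => Sum.inr ⟨a, l⟩
        | ⟨Sum.inr a, l⟩ => Sum.inl (Sum.inr ⟨a, l⟩)) ?_ ?_ ?_ ?_
    · rintro (p | ⟨a | a, l⟩) <;> rfl
    · intro v hv
      obtain ⟨h1, h2, h3⟩ := hv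
      refine ⟨⟨?_, ?_, ?_⟩, ?_, ?_⟩
      · refine cast ?_ h3
        congr 1
        funext s
        rcases s with s | s
        · simp
        · rcases s with _ | _
          · simp only [Bool.false_eq_true, if_false, Sum.elim_inl, Sum.elim_inr]
            exact (eval_cY g i j j v).symm
          · simp only [if_true, Sum.elim_inl, Sum.elim_inr]
            exact (eval_cX f i j i v).symm
      · intro l hl
        have := h2 l hl
        simp only [Sum.elim_inl, Sum.elim_inr, eval_X]
        exact this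
      · simp only [Sum.elim_inl, Sum.elim_inr, eval_X, Bool.false_eq_true, if_false]
        exact (eval_cY g i j j v).symm
      · intro l hl
        have := h1 l hl
        simp only [Sum.elim_inl, Sum.elim_inr, eval_X]
        exact this
      · simp only [Sum.elim_inl, Sum.elim_inr, eval_X, if_true]
        exact (eval_cX f i j i v).symm
    · intro y hy
      obtain ⟨⟨h1, h2, h3⟩, h4, h5⟩ := hy
      refine ⟨h4, h2, ?_⟩
      refine cast ?_ h1
      congr 1
      funext s
      rcases s with s | s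
      · rfl
      · rcases s with _ | _
        · simp only [Bool.false_eq_true, if_false, Sum.elim_inr]
          exact h3.symm
        · simp only [if_true, Sum.elim_inr]
          rw [eval_X] at h5
          exact h5.symm
    · intro y hy
      obtain ⟨⟨h1, h2, h3⟩, h4, h5⟩ := hy
      rintro (((p | b) | s) | s)
      · simp
      · rcases b with _ | _
        · simp only [Sum.elim_inl, Sum.elim_inr, Bool.false_eq_true, if_false]
          rw [eval_cY]
          exact h3
        · simp only [Sum.elim_inl, Sum.elim_inr, if_true]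
          rw [eval_cX]
          rw [eval_X] at h5
          exact h5
      · simp
      · simp
  rw [hval, Fintype.sum_sum_type]
  simp only [lev, Sum.elim_inl, Sum.elim_inr, Finset.sum_const, Finset.card_univ, smul_eq_mul]
  rw [pow_add, mul_assoc]

/-- the parameters of the second step -/
def B2 {σ : Type} (S : Set (σ → ℂ)) (u : MvPolynomial σ ℂ) (Q : Set (E ⊕ Bool → ℂ)) :
    Set ((E ⊕ σ) ⊕ Unit → ℂ) :=
  {b | (fun s => b (Sum.inl (Sum.inr s))) ∈ S ∧
    (Sum.elim (fun p => b (Sum.inl (Sum.inl p))) fun c =>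
      if c then eval (fun s => b (Sum.inl (Sum.inr s))) u else b (Sum.inr ())) ∈ Q}

theorem con_B2 {σ : Type} {S : Set (σ → ℂ)} (hS : Constructible S) (u : MvPolynomial σ ℂ)
    {Q : Set (E ⊕ Bool → ℂ)} (hQ : Constructible Q) : Constructible (B2 S u Q) := by
  have h : B2 S u Q = {b : (E ⊕ σ) ⊕ Unit → ℂ | (fun s => b (Sum.inl (Sum.inr s))) ∈ S ∧
      (fun s => eval b (Sum.elim (fun p => X (Sum.inl (Sum.inl p))) (fun c : Bool =>
        if c then rename (fun s => Sum.inl (Sum.inr s)) u else X (Sum.inr ())) s)) ∈ Q} := by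
    ext b
    have h1 : (fun s => eval b (Sum.elim (fun p => X (Sum.inl (Sum.inl p))) (fun c : Bool =>
        if c then rename (fun s => Sum.inl (Sum.inr s)) u else X (Sum.inr ())) s)) =
        Sum.elim (fun p => b (Sum.inl (Sum.inl p))) fun c =>
          if c then eval (fun s => b (Sum.inl (Sum.inr s))) u else b (Sum.inr ()) := by
      funext s
      rcases s with s | s
      · simp
      · rcases s with _ | _
        · simp
        · simp [eval_rename, Function.comp_def]
    simp only [Set.mem_ofPred_eq, h1]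
    exact Iff.rfl
  rw [h]
  exact Constructible.and (Constructible.comap _ hS) (Constructible.preimage _ hQ)

/-- second step: the leading coefficient of `f` is a value of the family -/
theorem step2 [Finite E] (P : HodgeMeasure) (g : MvPolynomial κ ℂ)
    {Q : Set (E ⊕ Bool → ℂ)} (hQ : Constructible Q) (j : ℕ) {σ : Type} [Finite σ]
    {S : Set (σ → ℂ)} (hS : Constructible S) (u : MvPolynomial σ ℂ) :
    P.rat.val {v : ((E ⊕ Bool) ⊕ (Σ _ : κ, Fin (j + 1))) ⊕ σ → ℂ |
      (fun p => v (Sum.inl p)) ∈ B1 g Q j ∧ (fun s => v (Sum.inr s)) ∈ S ∧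
        eval (fun p => v (Sum.inl p)) (X (Sum.inl (Sum.inr true))) =
          eval (fun s => v (Sum.inr s)) u} * xq ^ (Fintype.card κ * (j + 1)) =
      AA P g (B2 S u Q) (X (Sum.inr ())) j := by
  classical
  have hL := L_mul P
  have hc2 := cyl_ctc g (con_B2 hS u hQ) (X (Sum.inr ())) j
  rw [AA, vol_eq P.rat hL hc2]
  have hcon : Constructible {v : ((E ⊕ Bool) ⊕ (Σ _ : κ, Fin (j + 1))) ⊕ σ → ℂ |
      (fun p => v (Sum.inl p)) ∈ B1 g Q j ∧ (fun s => v (Sum.inr s)) ∈ S ∧
        eval (fun p => v (Sum.inl p)) (X (Sum.inl (Sum.inr true))) =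
          eval (fun s => v (Sum.inr s)) u} := by
    have h := Constructible.and (Constructible.comap (Sum.inl : _ → ((E ⊕ Bool) ⊕
      (Σ _ : κ, Fin (j + 1))) ⊕ σ) (con_B1 g hQ j)) (Constructible.and
        (Constructible.comap (Sum.inr : _ → ((E ⊕ Bool) ⊕ (Σ _ : κ, Fin (j + 1))) ⊕ σ) hS)
        (Constructible.eq (rename Sum.inl (X (Sum.inl (Sum.inr true)) :
          MvPolynomial ((E ⊕ Bool) ⊕ (Σ _ : κ, Fin (j + 1))) ℂ)) (rename Sum.inr u)))
    simp only [eval_rename, Function.comp_def] at h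
    exact h
  have hval := val_graph P.rat hc2.2 hcon
      (Sum.elim (Sum.elim (Sum.elim (fun p => X (Sum.inl (Sum.inl (Sum.inl p)))) (fun b : Bool =>
        if b then rename (fun s => Sum.inl (Sum.inl (Sum.inr s))) u
        else X (Sum.inl (Sum.inr ())))) fun s => X (Sum.inr s))
        fun s => X (Sum.inl (Sum.inl (Sum.inr s))))
      (Sum.elim (Sum.elim (Sum.elim (fun p => Sum.inl (Sum.inl (Sum.inl p))) fun s => Sum.inr s)
        fun _ => Sum.inl (Sum.inl (Sum.inr false))) fun s => Sum.inl (Sum.inr s)) ?_ ?_ ?_ ?_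
  · rw [← hval]
    simp only [Finset.sum_const, Finset.card_univ, smul_eq_mul]
  · rintro (((p | s) | _) | s) <;> rfl
  · intro v hv
    obtain ⟨⟨h1, h2⟩, h3, h4⟩ := hv
    rw [eval_X] at h4
    refine ⟨⟨?_, ?_, ?_⟩, ?_, ?_⟩
    · refine cast ?_ h2
      congr 1
      funext s
      rcases s with s | s
      · simp
      · rcases s with _ | _
        · simp
        · simp [eval_rename, Function.comp_def]
    · intro l hl
      have := h3 l hl
      simp only [Sum.elim_inl, Sum.elim_inr, eval_X]
      exact this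
    · simp only [Sum.elim_inl, Sum.elim_inr, eval_X, Bool.false_eq_true, if_false]
      exact h4
    · simp only [Sum.elim_inr, eval_X]
      exact h1
    · simp [eval_rename, Function.comp_def]
  · intro y hy
    obtain ⟨⟨h1, h2, h3⟩, h4, h5⟩ := hy
    rw [eval_X] at h5
    refine ⟨⟨h4, ?_⟩, h2, ?_⟩
    · refine cast ?_ h1
      congr 1
      funext s
      rcases s with s | s
      · rfl
      · rcases s with _ | _
        · rfl
        · simp only [if_true, Sum.elim_inr, Sum.elim_inl]
          exact h5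
    · rw [eval_X]
      exact h3
  · intro y hy
    obtain ⟨⟨h1, h2, h3⟩, h4, h5⟩ := hy
    rw [eval_X] at h5
    rintro (((p | b) | s) | s)
    · simp
    · rcases b with _ | _
      · simp
      · simp only [Sum.elim_inl, Sum.elim_inr, if_true, eval_rename, Function.comp_def]
        exact h5.symm
    · simp
    · simp

/-- third step: the leading coefficient of `g` is a value of the family -/
theorem step3 [Finite E] (P : HodgeMeasure) {Q : Set (E ⊕ Bool → ℂ)} (hQ : Constructible Q)
    (t t' : Fam) [Finite t.σ] (ht : t.Good) (ht' : t'.Good) (j : ℕ) :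
    t'.val P (B2 t.S t.u Q) (X (Sum.inr ())) j = t'.κ j * t.val2 t' P Q := by
  have := t'.fin
  unfold Fam.val Fam.val2
  congr 1
  have hcon1 : Constructible {v : E ⊕ (t.σ ⊕ t'.σ) → ℂ |
      (fun s => v (Sum.inr (Sum.inl s))) ∈ t.S ∧ (fun s => v (Sum.inr (Sum.inr s))) ∈ t'.S ∧
      (Sum.elim (fun p => v (Sum.inl p)) fun b => if b then
        eval (fun s => v (Sum.inr (Sum.inl s))) t.u else
        eval (fun s => v (Sum.inr (Sum.inr s))) t'.u) ∈ Q} := by
    refine Constructible.and (Constructible.comap _ ht.1)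
      (Constructible.and (Constructible.comap _ ht'.1) ?_)
    have h := Constructible.preimage (Sum.elim (fun p => X (Sum.inl p)) (fun c : Bool =>
        if c then rename (fun s => Sum.inr (Sum.inl s)) t.u else
          rename (fun s => Sum.inr (Sum.inr s)) t'.u) :
            E ⊕ Bool → MvPolynomial (E ⊕ (t.σ ⊕ t'.σ)) ℂ) hQ
    refine cast ?_ h
    congr 1
    ext v
    have h1 : (fun s => eval v ((Sum.elim (fun p => X (Sum.inl p)) (fun c : Bool =>
        if c then rename (fun s => Sum.inr (Sum.inl s)) t.u else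
          rename (fun s => Sum.inr (Sum.inr s)) t'.u) :
            E ⊕ Bool → MvPolynomial (E ⊕ (t.σ ⊕ t'.σ)) ℂ) s)) =
        (Sum.elim (fun p => v (Sum.inl p)) fun b => if b then
        eval (fun s => v (Sum.inr (Sum.inl s))) t.u else
        eval (fun s => v (Sum.inr (Sum.inr s))) t'.u) := by
      funext s
      rcases s with s | s
      · simp
      · rcases s with _ | _ <;> simp [eval_rename, Function.comp_def]
    simp only [Set.mem_ofPred_eq, h1]
  have hcon2 : Constructible {v : ((E ⊕ t.σ) ⊕ Unit) ⊕ t'.σ → ℂ |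
      (fun p => v (Sum.inl p)) ∈ B2 t.S t.u Q ∧ (fun s => v (Sum.inr s)) ∈ t'.S ∧
      eval (fun p => v (Sum.inl p)) (X (Sum.inr ())) = eval (fun s => v (Sum.inr s)) t'.u} := by
    have h := Constructible.and (Constructible.comap (Sum.inl : _ → ((E ⊕ t.σ) ⊕ Unit) ⊕ t'.σ)
      (con_B2 ht.1 t.u hQ)) (Constructible.and
        (Constructible.comap (Sum.inr : _ → ((E ⊕ t.σ) ⊕ Unit) ⊕ t'.σ) ht'.1)
        (Constructible.eq (rename Sum.inl (X (Sum.inr ()) : MvPolynomial ((E ⊕ t.σ) ⊕ Unit) ℂ))
          (rename Sum.inr t'.u)))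
    simp only [eval_rename, Function.comp_def] at h
    exact h
  symm
  refine val_graph P.rat hcon1 hcon2
    (Sum.elim (Sum.elim (Sum.elim (fun p => X (Sum.inl p)) fun s => X (Sum.inr (Sum.inl s)))
      fun _ => rename (fun s => Sum.inr (Sum.inr s)) t'.u) fun s => X (Sum.inr (Sum.inr s)))
    (Sum.elim (fun p => Sum.inl (Sum.inl (Sum.inl p))) (Sum.elim (fun s => Sum.inl (Sum.inl
      (Sum.inr s))) fun s => Sum.inr s)) ?_ ?_ ?_ ?_
  · rintro (p | s | s) <;> rfl
  · intro v hv
    obtain ⟨h1, h2, h3⟩ := hv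
    refine ⟨⟨?_, ?_⟩, ?_, ?_⟩
    · simp only [Sum.elim_inl, Sum.elim_inr, eval_X]
      exact h1
    · refine cast ?_ h3
      congr 1
      funext s
      rcases s with s | s
      · simp
      · rcases s with _ | _ <;> simp [eval_rename, Function.comp_def]
    · simp only [Sum.elim_inr, eval_X]
      exact h2
    · simp [eval_rename, Function.comp_def]
  · intro y hy
    obtain ⟨⟨h1, h2⟩, h3, h4⟩ := hy
    rw [eval_X] at h4
    refine ⟨h1, h3, ?_⟩
    refine cast ?_ h2
    congr 1
    funext s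
    rcases s with s | s
    · rfl
    · rcases s with _ | _
      · simp only [Bool.false_eq_true, if_false, Sum.elim_inr]
        exact h4
      · rfl
  · intro y hy
    obtain ⟨⟨h1, h2⟩, h3, h4⟩ := hy
    rw [eval_X] at h4
    rintro (((p | s) | _) | s)
    · simp
    · simp
    · simp only [Sum.elim_inl, Sum.elim_inr, eval_rename, Function.comp_def]
      exact h4.symm
    · simp

end

end VFAux

open VFAux

theorem stmt_VF : Stmt_VF := by
  intro P ι κ _ _ f g ts ts' hf hg E _ Q hQ hne i j
  obtain ⟨hf1, hf2⟩ := hf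
  obtain ⟨hg1, hg2⟩ := hg
  rw [step1 P f g hQ i j, hf2 _ _ _ (con_B1 g hQ j) (by
    intro b hb
    rw [eval_X]
    exact (hne _ hb.1).1), ← List.sum_map_mul_right]
  congr 1
  refine List.map_congr_left fun t ht => ?_
  have hfin := t.fin
  have h1 : t.val P (B1 g Q j) (X (Sum.inl (Sum.inr true))) i * xq ^ (Fintype.card κ * (j + 1)) =
      t.κ i * AA P g (B2 t.S t.u Q) (X (Sum.inr ())) j := by
    rw [← step2 P g hQ j (hf1 t ht).1 t.u, ← mul_assoc]
    rfl
  rw [h1, hg2 _ _ _ (con_B2 (hf1 t ht).1 t.u hQ) (by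
    intro b hb
    rw [eval_X]
    exact (hne _ hb.2).2), ← List.sum_map_mul_left]
  congr 1
  refine List.map_congr_left fun t' ht' => ?_
  rw [step3 P hQ t t' (hf1 t ht) (hg1 t' ht') j, mul_assoc]

end Pool.Agent.Mono.TS
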