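import Pool.Agent.Work.Monodromy4.VP
import Pool.Agent.Work.Monodromy4.T0

/-!
# Block VS: the volume sequences of `f(x) + g(y)`
-/

set_option autoImplicit false
set_option linter.unusedSectionVars false

namespace Pool.Agent.Mono.TS

open MvPolynomial VAAux VPAux

namespace VSAux

/-! ## Power series -/

theorem pow_unit (t : ℂ) (r : ℕ) (hr : 1 ≤ r) (d : ℕ) : ∃ W : PowerSeries ℂ,
    (1 + PowerSeries.C t * PowerSeries.X ^ r) ^ d =
      1 + PowerSeries.C ((d : ℂ) * t) * PowerSeries.X ^ r + PowerSeries.X ^ (r + 1) * W := by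
  induction d with
  | zero => exact ⟨0, by simp⟩
  | succ d ih =>
    obtain ⟨W, hW⟩ := ih
    obtain ⟨r', rfl⟩ : ∃ r', r = r' + 1 := ⟨r - 1, by omega⟩
    refine ⟨PowerSeries.C ((d : ℂ) * t * t) * PowerSeries.X ^ r' +
      W * (1 + PowerSeries.C t * PowerSeries.X ^ (r' + 1)), ?_⟩
    rw [pow_succ, hW]
    push_cast
    rw [add_mul (d : ℂ) 1 t, one_mul, map_add, map_mul PowerSeries.C ((d : ℂ) * t) t]
    ring

theorem coeff_unit_mul (t : ℂ) (j r : ℕ) (hr : 1 ≤ r) (d : ℕ) (F : PowerSeries ℂ)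
    (hF : ∀ l < j, PowerSeries.coeff l F = 0) :
    (∀ l < j + r, PowerSeries.coeff l ((1 + PowerSeries.C t * PowerSeries.X ^ r) ^ d * F) =
      PowerSeries.coeff l F) ∧
    PowerSeries.coeff (j + r) ((1 + PowerSeries.C t * PowerSeries.X ^ r) ^ d * F) =
      PowerSeries.coeff (j + r) F + d * t * PowerSeries.coeff j F := by
  obtain ⟨W, hW⟩ := pow_unit t r hr d
  obtain ⟨F', rfl⟩ := PowerSeries.X_pow_dvd_iff.2 hF
  have h1 : (1 + PowerSeries.C t * PowerSeries.X ^ r) ^ d * (PowerSeries.X ^ j * F') =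
      PowerSeries.X ^ j * F' + PowerSeries.X ^ (j + r) * (PowerSeries.C ((d : ℂ) * t) * F' +
        PowerSeries.X * (W * F')) := by
    rw [hW]
    ring
  rw [h1]
  constructor
  · intro l hl
    rw [map_add, PowerSeries.coeff_X_pow_mul' _ (j + r), if_neg (by omega), add_zero]
  · have h2 : PowerSeries.coeff j (PowerSeries.X ^ j * F') = PowerSeries.coeff 0 F' := by
      have := PowerSeries.coeff_X_pow_mul F' j 0
      rwa [zero_add] at this
    have h3 : PowerSeries.coeff (j + r) (PowerSeries.X ^ (j + r) *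
        (PowerSeries.C ((d : ℂ) * t) * F' + PowerSeries.X * (W * F'))) =
        d * t * PowerSeries.coeff 0 F' := by
      have := PowerSeries.coeff_X_pow_mul (PowerSeries.C ((d : ℂ) * t) * F' +
        PowerSeries.X * (W * F')) (j + r) 0
      rw [zero_add] at this
      rw [this, map_add, PowerSeries.coeff_zero_X_mul, add_zero, PowerSeries.coeff_C_mul]
    rw [map_add, h3, h2]

theorem coeff_mul_congr (n : ℕ) (U V V' : PowerSeries ℂ)
    (hV : ∀ l < n, PowerSeries.coeff l V = PowerSeries.coeff l V') :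
    ∀ l < n, PowerSeries.coeff l (U * V) = PowerSeries.coeff l (U * V') := by
  intro l hl
  rw [PowerSeries.coeff_mul, PowerSeries.coeff_mul]
  apply Finset.sum_congr rfl
  intro p hp
  have hp' := Finset.HasAntidiagonal.mem_antidiagonal.1 hp
  rw [hV _ (by omega)]

theorem whom {ι : Type} [Fintype ι] {w : ι → ℕ} {d : ℕ} {f : MvPolynomial ι ℂ}
    (h : IsWeightedHomogeneous w f d) (u : PowerSeries ℂ) (x : ι → PowerSeries ℂ) :
    (aeval (fun a => u ^ w a * x a) f : PowerSeries ℂ) = u ^ d * aeval x f := by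
  rw [aeval_def, aeval_def, eval₂_eq', eval₂_eq', Finset.mul_sum]
  refine Finset.sum_congr rfl fun s hs => ?_
  have h1 : Finsupp.weight w s = d := h (mem_support_iff.1 hs)
  have h2 : ∏ i, (u ^ w i * x i) ^ s i = u ^ d * ∏ i, x i ^ s i := by
    rw [← h1, Finsupp.weight_apply, Finsupp.sum_fintype _ _ (fun i => by simp),
      ← Finset.prod_pow_eq_pow_sum, ← Finset.prod_mul_distrib]
    refine Finset.prod_congr rfl fun i _ => ?_
    rw [mul_pow, ← pow_mul, smul_eq_mul, mul_comm (w i)]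
  rw [h2]
  ring

/-! ## The sets -/

section

variable {E ι κ : Type} [Fintype ι] [Fintype κ]

theorem aeval_oplus (f : MvPolynomial ι ℂ) (g : MvPolynomial κ ℂ) (z : ι ⊕ κ → PowerSeries ℂ) :
    aeval z (oplus f g) =
      aeval (fun a => z (Sum.inl a)) f + aeval (fun a => z (Sum.inr a)) g := by
  rw [oplus, map_add, aeval_rename, aeval_rename]
  rfl

/-- the condition `ord f = ord g = j` and the coefficients of `f + g` below `m` vanish -/
def PJ (f : MvPolynomial ι ℂ) (g : MvPolynomial κ ℂ) (j m : ℕ) (z : ι ⊕ κ → PowerSeries ℂ) :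
    Prop :=
  (∀ l < j, PowerSeries.coeff l (aeval (fun a => z (Sum.inl a)) f) = 0) ∧
  (∀ l < j, PowerSeries.coeff l (aeval (fun a => z (Sum.inr a)) g) = 0) ∧
  PowerSeries.coeff j (aeval (fun a => z (Sum.inl a)) f) ≠ 0 ∧
  PowerSeries.coeff j (aeval (fun a => z (Sum.inr a)) g) ≠ 0 ∧
  ∀ l < m, PowerSeries.coeff l (aeval z (oplus f g)) = 0

/-- with a parameter set -/
def CB (f : MvPolynomial ι ℂ) (g : MvPolynomial κ ℂ) (B : Set (E → ℂ)) (j m : ℕ) :
    Set ((E → ℂ) × (ι ⊕ κ → PowerSeries ℂ)) :=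
  {z | z.1 ∈ B ∧ PJ f g j m z.2}

/-- the coefficient `m` is `q` -/
def DD (f : MvPolynomial ι ℂ) (g : MvPolynomial κ ℂ) (B : Set (E → ℂ)) (q : MvPolynomial E ℂ)
    (j m : ℕ) : Set ((E → ℂ) × (ι ⊕ κ → PowerSeries ℂ)) :=
  {z | z.1 ∈ B ∧ PJ f g j m z.2 ∧ PowerSeries.coeff m (aeval z.2 (oplus f g)) = eval z.1 q}

/-- the three polynomials -/
noncomputable def three (f : MvPolynomial ι ℂ) (g : MvPolynomial κ ℂ) (a : Option Bool) :
    MvPolynomial (ι ⊕ κ) ℂ :=
  match a with
  | none => oplus f g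
  | some true => rename Sum.inl f
  | some false => rename Sum.inr g

theorem aeval_three (f : MvPolynomial ι ℂ) (g : MvPolynomial κ ℂ) (z : ι ⊕ κ → PowerSeries ℂ) :
    aeval z (three f g (some true)) = aeval (fun a => z (Sum.inl a)) f ∧
      aeval z (three f g (some false)) = aeval (fun a => z (Sum.inr a)) g := by
  constructor
  · rw [three, aeval_rename]
    rfl
  · rw [three, aeval_rename]
    rfl

theorem cyl_CB (f : MvPolynomial ι ℂ) (g : MvPolynomial κ ℂ) {B : Set (E → ℂ)}
    (hB : Constructible B) (j m n : ℕ) (hj : j < n) (hm : m ≤ n) :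
    IsCyl (fun _ => n) (CB f g B j m) := by
  have hQ : Constructible {v : E ⊕ (Option Bool × Fin n) → ℂ | (fun p => v (Sum.inl p)) ∈ B ∧
      (∀ l : Fin n, (l : ℕ) < j → eval v (X (Sum.inr (some true, l))) = 0) ∧
      (∀ l : Fin n, (l : ℕ) < j → eval v (X (Sum.inr (some false, l))) = 0) ∧
      eval v (X (Sum.inr (some true, (⟨j, hj⟩ : Fin n)))) ≠ 0 ∧
      eval v (X (Sum.inr (some false, (⟨j, hj⟩ : Fin n)))) ≠ 0 ∧
      ∀ l : Fin n, (l : ℕ) < m → eval v (X (Sum.inr (none, l))) = 0} := by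
    refine Constructible.and (Constructible.comap _ hB) (Constructible.and ?_
      (Constructible.and ?_ (Constructible.and (Constructible.ne _)
        (Constructible.and (Constructible.ne _) ?_))))
    · exact Constructible.all fun l => Constructible.imp (Constructible.const _)
        (Constructible.zero _)
    · exact Constructible.all fun l => Constructible.imp (Constructible.const _)
        (Constructible.zero _)
    · exact Constructible.all fun l => Constructible.imp (Constructible.const _)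
        (Constructible.zero _)
  have h := cyl_fam (E := E) (three f g) n hQ
  convert h using 1
  ext z
  simp only [CB, PJ, Set.mem_ofPred_eq, eval_X, Sum.elim_inl, Sum.elim_inr,
    (aeval_three f g z.2).1, (aeval_three f g z.2).2]
  refine and_congr Iff.rfl (and_congr ⟨fun h l hl => h l hl, fun h l hl => h ⟨l, by omega⟩ hl⟩
    (and_congr ⟨fun h l hl => h l hl, fun h l hl => h ⟨l, by omega⟩ hl⟩
      (and_congr Iff.rfl (and_congr Iff.rfl
        ⟨fun h l hl => h l hl, fun h l hl => h ⟨l, by omega⟩ hl⟩))))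

theorem cyl_DD (f : MvPolynomial ι ℂ) (g : MvPolynomial κ ℂ) {B : Set (E → ℂ)}
    (hB : Constructible B) (q : MvPolynomial E ℂ) (j m n : ℕ) (hj : j < n) (hm : m < n) :
    IsCyl (fun _ => n) (DD f g B q j m) := by
  have h1 := cyl_CB f g hB j m n hj hm.le
  have hQ : Constructible {v : E ⊕ Fin n → ℂ |
      eval v (X (Sum.inr (⟨m, hm⟩ : Fin n))) = eval v (rename Sum.inl q)} := Constructible.eq _ _
  have h2 := cyl_one (E := E) (oplus f g) n hQ
  have h3 : DD f g B q j m = CB f g B j m ∩ {z : (E → ℂ) × (ι ⊕ κ → PowerSeries ℂ) |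
      (Sum.elim z.1 fun s : Fin n => PowerSeries.coeff (s : ℕ) (aeval z.2 (oplus f g))) ∈
        {v : E ⊕ Fin n → ℂ |
      eval v (X (Sum.inr (⟨m, hm⟩ : Fin n))) = eval v (rename Sum.inl q)}} := by
    ext z
    simp only [DD, CB, Set.mem_inter_iff, Set.mem_ofPred_eq, eval_X, Sum.elim_inr, eval_rename,
      and_assoc]
    exact Iff.rfl
  rw [h3]
  exact h1.inter h2

/-! ## Parameters -/

theorem vol_par (P : HodgeMeasure) [Finite E] {B : Set (E → ℂ)} (hB : Constructible B)
    {K : ι → ℕ} (A : (ι → PowerSeries ℂ) → Prop)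
    (hA : IsCyl K {z : (Empty → ℂ) × (ι → PowerSeries ℂ) | A z.2})
    (hBA : IsCyl K {z : (E → ℂ) × (ι → PowerSeries ℂ) | z.1 ∈ B ∧ A z.2}) :
    vol P.rat xq {z : (E → ℂ) × (ι → PowerSeries ℂ) | z.1 ∈ B ∧ A z.2} =
      P.rat.val B * vol P.rat xq {z : (Empty → ℂ) × (ι → PowerSeries ℂ) | A z.2} := by
  have hL := L_mul P
  rw [vol_eq P.rat hL hA, vol_eq P.rat hL hBA, ← mul_assoc]
  congr 1
  set S : Set ((Σ i, Fin (K i)) → ℂ) := {w | A (toArc K w)} with hS
  have hcS : Constructible S := by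
    have := Constructible.comap (fun j : Empty ⊕ (Σ i, Fin (K i)) => Sum.elim Empty.elim id j) hA.2
    exact this
  have h1 : P.rat.val (sec K {z : (E → ℂ) × (ι → PowerSeries ℂ) | z.1 ∈ B ∧ A z.2}) =
      P.rat.val B * P.rat.val S := P.rat.prod B S hB hcS
  have h2 : P.rat.val (sec K {z : (Empty → ℂ) × (ι → PowerSeries ℂ) | A z.2}) =
      P.rat.val S := by
    have h3 := P.rat.prod (Set.univ : Set (Empty → ℂ)) S Constructible.univ hcS
    rw [P.rat.point, one_mul] at h3
    rw [← h3]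
    congr 1
    ext v
    simp only [Set.mem_univ, true_and, Set.mem_ofPred_eq]
    exact Iff.rfl
  rw [h1, h2]

/-- moving the new parameter -/
def ren1 (E S : Type) : (E ⊕ S) ⊕ Unit ≃ (E ⊕ Unit) ⊕ S where
  toFun := Sum.elim (Sum.elim (fun e => Sum.inl (Sum.inl e)) Sum.inr) fun u => Sum.inl (Sum.inr u)
  invFun := Sum.elim (Sum.elim (fun e => Sum.inl (Sum.inl e)) Sum.inr)
    fun s => Sum.inl (Sum.inr s)
  left_inv := by rintro ((e | s) | u) <;> rfl
  right_inv := by rintro ((e | u) | s) <;> rfl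

/-! ## The action -/

/-- `x ↦ (1 + t T^r)^w x` -/
noncomputable def act (w : ι → ℕ) (r : ℕ) (t : ℂ) (z : ι ⊕ κ → PowerSeries ℂ) :
    ι ⊕ κ → PowerSeries ℂ :=
  Sum.elim (fun a => (1 + PowerSeries.C t * PowerSeries.X ^ r) ^ w a * z (Sum.inl a))
    fun b => z (Sum.inr b)

/-- the inverse -/
noncomputable def actI (w : ι → ℕ) (r : ℕ) (t : ℂ) (z : ι ⊕ κ → PowerSeries ℂ) :
    ι ⊕ κ → PowerSeries ℂ :=
  Sum.elim (fun a => ((1 + PowerSeries.C t * PowerSeries.X ^ r) ^ w a)⁻¹ * z (Sum.inl a))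
    fun b => z (Sum.inr b)

theorem unit_ne (r : ℕ) (hr : 1 ≤ r) (t : ℂ) (n : ℕ) :
    PowerSeries.constantCoeff ((1 + PowerSeries.C t * PowerSeries.X ^ r) ^ n) ≠ 0 := by
  rw [map_pow, map_add, map_mul, map_pow, map_one, PowerSeries.constantCoeff_X,
    zero_pow (by omega), mul_zero, add_zero, one_pow]
  exact one_ne_zero

theorem act_actI (w : ι → ℕ) (r : ℕ) (hr : 1 ≤ r) (t : ℂ) (z : ι ⊕ κ → PowerSeries ℂ) :
    act w r t (actI w r t z) = z := by
  funext i
  rcases i with a | b
  · simp only [act, actI, Sum.elim_inl]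
    rw [← mul_assoc, PowerSeries.mul_inv_cancel _ (unit_ne r hr t _), one_mul]
  · rfl

theorem actI_act (w : ι → ℕ) (r : ℕ) (hr : 1 ≤ r) (t : ℂ) (z : ι ⊕ κ → PowerSeries ℂ) :
    actI w r t (act w r t z) = z := by
  funext i
  rcases i with a | b
  · simp only [act, actI, Sum.elim_inl]
    rw [← mul_assoc, PowerSeries.inv_mul_cancel _ (unit_ne r hr t _), one_mul]
  · rfl

theorem act_congr (w : ι → ℕ) (r : ℕ) (t : ℂ) (n : ℕ) (z z' : ι ⊕ κ → PowerSeries ℂ)
    (h : ∀ i, ∀ l < n, PowerSeries.coeff l (z i) = PowerSeries.coeff l (z' i)) :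
    ∀ i, ∀ l < n, PowerSeries.coeff l (act w r t z i) = PowerSeries.coeff l (act w r t z' i) := by
  rintro (a | b)
  · exact coeff_mul_congr n _ _ _ (h (Sum.inl a))
  · exact h (Sum.inr b)

theorem actI_congr (w : ι → ℕ) (r : ℕ) (t : ℂ) (n : ℕ) (z z' : ι ⊕ κ → PowerSeries ℂ)
    (h : ∀ i, ∀ l < n, PowerSeries.coeff l (z i) = PowerSeries.coeff l (z' i)) :
    ∀ i, ∀ l < n, PowerSeries.coeff l (actI w r t z i) =
      PowerSeries.coeff l (actI w r t z' i) := by
  rintro (a | b)
  · exact coeff_mul_congr n _ _ _ (h (Sum.inl a))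
  · exact h (Sum.inr b)

theorem f_act {w : ι → ℕ} {d : ℕ} {f : MvPolynomial ι ℂ} (hf : IsWeightedHomogeneous w f d)
    (r : ℕ) (t : ℂ) (z : ι ⊕ κ → PowerSeries ℂ) :
    aeval (fun a => act w r t z (Sum.inl a)) f =
      (1 + PowerSeries.C t * PowerSeries.X ^ r) ^ d * aeval (fun a => z (Sum.inl a)) f :=
  whom hf _ _

variable {w : ι → ℕ} {d : ℕ} {f : MvPolynomial ι ℂ} (g : MvPolynomial κ ℂ)

/-- the effect of the action -/
theorem act_coeff (hf : IsWeightedHomogeneous w f d) {j m : ℕ} (hj : j < m) (t : ℂ)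
    (z : ι ⊕ κ → PowerSeries ℂ)
    (hz : ∀ l < j, PowerSeries.coeff l (aeval (fun a => z (Sum.inl a)) f) = 0) :
    (∀ l < m, PowerSeries.coeff l (aeval (fun a => act w (m - j) t z (Sum.inl a)) f) =
      PowerSeries.coeff l (aeval (fun a => z (Sum.inl a)) f)) ∧
    (∀ l < m, PowerSeries.coeff l (aeval (act w (m - j) t z) (oplus f g)) =
      PowerSeries.coeff l (aeval z (oplus f g))) ∧
    PowerSeries.coeff m (aeval (act w (m - j) t z) (oplus f g)) =
      PowerSeries.coeff m (aeval z (oplus f g)) +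
        d * t * PowerSeries.coeff j (aeval (fun a => z (Sum.inl a)) f) := by
  obtain ⟨h1, h2⟩ := coeff_unit_mul t j (m - j) (by omega) d _ hz
  rw [← f_act hf] at h1 h2
  have e : j + (m - j) = m := by omega
  rw [e] at h1 h2
  refine ⟨h1, ?_, ?_⟩
  · intro l hl
    rw [aeval_oplus, aeval_oplus, map_add, map_add, h1 l hl]
    rfl
  · rw [aeval_oplus, aeval_oplus, map_add, map_add, h2]
    change _ + PowerSeries.coeff m (aeval (fun a => z (Sum.inr a)) g) = _
    ring

theorem PJ_act (hf : IsWeightedHomogeneous w f d) {j m : ℕ} (hj : j < m) (t : ℂ)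
    (z : ι ⊕ κ → PowerSeries ℂ) (hz : PJ f g j m z) : PJ f g j m (act w (m - j) t z) := by
  obtain ⟨h1, h2, h3, h4, h5⟩ := hz
  obtain ⟨a1, a2, -⟩ := act_coeff g hf hj t z h1
  refine ⟨?_, h2, ?_, h4, ?_⟩
  · intro l hl
    rw [a1 l (by omega)]
    exact h1 l hl
  · rw [a1 j hj]
    exact h3
  · intro l hl
    rw [a2 l hl]
    exact h5 l hl

theorem vanish_actI (hf : IsWeightedHomogeneous w f d) {j m : ℕ} (hj : j < m) (t : ℂ)
    (z : ι ⊕ κ → PowerSeries ℂ)
    (hz : ∀ l < j, PowerSeries.coeff l (aeval (fun a => z (Sum.inl a)) f) = 0) :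
    ∀ l < j, PowerSeries.coeff l
      (aeval (fun a => actI w (m - j) t z (Sum.inl a)) f) = 0 := by
  set U := (1 + PowerSeries.C t * PowerSeries.X ^ (m - j)) ^ d with hU
  have h1 : aeval (fun a => z (Sum.inl a)) f =
      U * aeval (fun a => actI w (m - j) t z (Sum.inl a)) f := by
    rw [hU, ← f_act hf, act_actI w (m - j) (by omega) t z]
  have h2 : aeval (fun a => actI w (m - j) t z (Sum.inl a)) f =
      U⁻¹ * aeval (fun a => z (Sum.inl a)) f := by
    rw [h1, ← mul_assoc, PowerSeries.inv_mul_cancel _ (unit_ne (m - j) (by omega) t d), one_mul]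
  rw [h2]
  exact PowerSeries.X_pow_dvd_iff.1 ((PowerSeries.X_pow_dvd_iff.2 hz).mul_left _)

theorem PJ_actI (hf : IsWeightedHomogeneous w f d) {j m : ℕ} (hj : j < m) (t : ℂ)
    (z : ι ⊕ κ → PowerSeries ℂ) (hz : PJ f g j m z) :
    PJ f g j m (actI w (m - j) t z) ∧
      PowerSeries.coeff m (aeval (actI w (m - j) t z) (oplus f g)) =
        PowerSeries.coeff m (aeval z (oplus f g)) -
          d * t * PowerSeries.coeff j (aeval (fun a => z (Sum.inl a)) f) := by
  obtain ⟨h1, h2, h3, h4, h5⟩ := hz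
  have h0 := vanish_actI hf hj t z h1
  obtain ⟨a1, a2, a3⟩ := act_coeff g hf hj t (actI w (m - j) t z) h0
  rw [act_actI w (m - j) (by omega) t z] at a1 a2 a3
  refine ⟨⟨h0, h2, ?_, h4, ?_⟩, ?_⟩
  · rw [← a1 j hj]
    exact h3
  · intro l hl
    rw [← a2 l hl]
    exact h5 l hl
  · rw [a3, a1 j hj]
    ring

/-! ## The main identity -/

/-- the polynomial map -/
noncomputable def φA (E : Type) (w : ι → ℕ) (r : ℕ) (K : ι ⊕ κ → ℕ) :
    E ⊕ (Σ i, Fin (K i)) → MvPolynomial ((E ⊕ Unit) ⊕ (Σ i, Fin (K i))) ℂ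
  | Sum.inl p => X (Sum.inl (Sum.inl p))
  | Sum.inr ⟨Sum.inl a, l⟩ => PowerSeries.coeff (l : ℕ)
      ((1 + PowerSeries.C (X (Sum.inl (Sum.inr ()))) * PowerSeries.X ^ r) ^ w a *
        garc (E ⊕ Unit) K (Sum.inl a))
  | Sum.inr ⟨Sum.inr b, l⟩ => X (Sum.inr ⟨Sum.inr b, l⟩)

theorem φA_inr (w : ι → ℕ) (r : ℕ) (K : ι ⊕ κ → ℕ) (v : (E ⊕ Unit) ⊕ (Σ i, Fin (K i)) → ℂ)
    (s : Σ i, Fin (K i)) : eval v (φA E w r K (Sum.inr s)) =
      PowerSeries.coeff (s.2 : ℕ) (act w r (v (Sum.inl (Sum.inr ())))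
        (toArc K fun s => v (Sum.inr s)) s.1) := by
  rcases s with ⟨a | b, l⟩
  · have h1 : PowerSeries.map (eval v)
        ((1 + PowerSeries.C (X (Sum.inl (Sum.inr ()))) * PowerSeries.X ^ r) ^ w a *
          garc (E ⊕ Unit) K (Sum.inl a)) =
        (1 + PowerSeries.C (v (Sum.inl (Sum.inr ()))) * PowerSeries.X ^ r) ^ w a *
          toArc K (fun s => v (Sum.inr s)) (Sum.inl a) := by
      simp only [map_mul, map_pow, map_add, map_one, PowerSeries.map_C, PowerSeries.map_X,
        map_garc, eval_X]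
    rw [φA, ← PowerSeries.coeff_map, h1]
    rfl
  · rw [φA, eval_X]
    simp only [act, Sum.elim_inr]
    rw [coeff_toArc_lt]

theorem main_eq (P : HodgeMeasure) [Finite E] (hd : 1 ≤ d)
    (hf : IsWeightedHomogeneous w f d) {B : Set (E → ℂ)} (hB : Constructible B)
    (q : MvPolynomial E ℂ) {j m : ℕ} (hj : j < m) :
    vol P.rat xq (DD f g B q j m) = xq * (P.rat.val B *
      vol P.rat xq (CB f g (Set.univ : Set (Empty → ℂ)) j m)) := by
  classical
  have hL := L_mul P
  have hcD := cyl_DD f g hB q j m (m + 1) (by omega) (by omega)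
  have hcB := cyl_CB f g hB j m (m + 1) (by omega) (by omega)
  have hcU := cyl_CB f g (Constructible.univ : Constructible (Set.univ : Set (Empty → ℂ))) j m
    (m + 1) (by omega) (by omega)
  have e0 : CB f g (Set.univ : Set (Empty → ℂ)) j m =
      {z : (Empty → ℂ) × (ι ⊕ κ → PowerSeries ℂ) | PJ f g j m z.2} := by
    ext z
    simp [CB]
  have e1 : vol P.rat xq (CB f g B j m) = P.rat.val B *
      vol P.rat xq (CB f g (Set.univ : Set (Empty → ℂ)) j m) := by
    rw [e0] at hcU ⊢
    exact vol_par P hB (PJ f g j m) hcU hcB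
  rw [← e1]
  suffices H : P.rat.L * vol P.rat xq (DD f g B q j m) = vol P.rat xq (CB f g B j m) by
    rw [← H, ← mul_assoc, mul_comm xq, hL, one_mul]
  rw [vol_eq P.rat hL hcD, vol_eq P.rat hL hcB, ← mul_assoc]
  congr 1
  set K : ι ⊕ κ → ℕ := fun _ => m + 1 with hK
  set S' : Set ((E ⊕ Unit) ⊕ (Σ i, Fin (K i)) → ℂ) := {v | ((fun p => v (Sum.inl (Sum.inl p))),
    toArc K fun s => v (Sum.inr s)) ∈ DD f g B q j m} with hS'
  have hcS' : Constructible S' := by
    have h1 := Constructible.comap (fun a : E ⊕ (Σ i, Fin (K i)) =>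
      ren1 E (Σ i, Fin (K i)) (Sum.inl a)) hcD.2
    exact h1
  have e2 : P.rat.val S' = P.rat.L * P.rat.val (sec K (DD f g B q j m)) := by
    have h1 := P.rat.val_prod_univ hcD.2 Unit
    rw [Fintype.card_unit, pow_one] at h1
    rw [mul_comm, ← h1]
    have h2 : Constructible {x : (E ⊕ (Σ i, Fin (K i))) ⊕ Unit → ℂ |
        (fun i => x (Sum.inl i)) ∈ sec K (DD f g B q j m)} := Constructible.comap Sum.inl hcD.2
    rw [← P.rat.reindex (ren1 E (Σ i, Fin (K i))) h2]
    rfl
  rw [← e2]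
  have hdc : (d : ℂ) ≠ 0 := by
    have : d ≠ 0 := by omega
    exact_mod_cast this
  -- arcs of the image
  have harc : ∀ v : (E ⊕ Unit) ⊕ (Σ i, Fin (K i)) → ℂ, ∀ i, ∀ l < K i,
      PowerSeries.coeff l (toArc K (fun s => eval v (φA E w (m - j) K (Sum.inr s))) i) =
        PowerSeries.coeff l (act w (m - j) (v (Sum.inl (Sum.inr ())))
          (toArc K fun s => v (Sum.inr s)) i) := by
    intro v i l hl
    rw [coeff_toArc, dif_pos hl, φA_inr]
  have hmem : ∀ v : (E ⊕ Unit) ⊕ (Σ i, Fin (K i)) → ℂ,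
      (fun a => eval v (φA E w (m - j) K a)) ∈ sec K (CB f g B j m) ↔
        (fun p => v (Sum.inl (Sum.inl p))) ∈ B ∧ PJ f g j m (act w (m - j)
          (v (Sum.inl (Sum.inr ()))) (toArc K fun s => v (Sum.inr s))) := by
    intro v
    have h1 := hcB.1 (fun p => eval v (φA E w (m - j) K (Sum.inl p))) _ _ (harc v)
    have h2 : (fun p => eval v (φA E w (m - j) K (Sum.inl p))) =
        fun p => v (Sum.inl (Sum.inl p)) := by
      funext p
      rw [φA, eval_X]
    change (((fun p => eval v (φA E w (m - j) K (Sum.inl p))),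
      toArc K (fun s => eval v (φA E w (m - j) K (Sum.inr s)))) ∈ CB f g B j m) ↔ _
    rw [h1, h2]
    exact Iff.rfl
  refine P.rat.map S' _ (φA E w (m - j) K) hcS' hcB.2 ?_
  refine ⟨?_, ?_, ?_⟩
  · rintro v ⟨h1, h2, h3⟩
    rw [hmem]
    exact ⟨h1, PJ_act g hf hj _ _ h2⟩
  · rintro v ⟨h1, h2, h3⟩ v' ⟨h1', h2', h3'⟩ hvv
    have hp : ∀ p, v (Sum.inl (Sum.inl p)) = v' (Sum.inl (Sum.inl p)) := by
      intro p
      have := congrFun hvv (Sum.inl p)
      simpa only [φA, eval_X] using this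
    set z := toArc K fun s => v (Sum.inr s) with hz
    set z' := toArc K fun s => v' (Sum.inr s) with hz'
    set t := v (Sum.inl (Sum.inr ())) with ht
    set t' := v' (Sum.inl (Sum.inr ())) with ht'
    have hact : ∀ i, ∀ l < m + 1, PowerSeries.coeff l (act w (m - j) t z i) =
        PowerSeries.coeff l (act w (m - j) t' z' i) := by
      intro i l hl
      have h4 := congrFun hvv (Sum.inr ⟨i, (⟨l, hl⟩ : Fin (K i))⟩)
      simp only [φA_inr] at h4
      exact h4
    have hH : ∀ l < m + 1, PowerSeries.coeff l (aeval (act w (m - j) t z) (oplus f g)) =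
        PowerSeries.coeff l (aeval (act w (m - j) t' z') (oplus f g)) :=
      GJetAux.aeval_congr _ (m + 1) _ _ hact
    have hF : ∀ l < m + 1, PowerSeries.coeff l
        (aeval (fun a => act w (m - j) t z (Sum.inl a)) f) =
        PowerSeries.coeff l (aeval (fun a => act w (m - j) t' z' (Sum.inl a)) f) :=
      GJetAux.aeval_congr _ (m + 1) _ _ fun a => hact (Sum.inl a)
    obtain ⟨a1, a2, a3⟩ := act_coeff g hf hj t z h2.1
    obtain ⟨a1', a2', a3'⟩ := act_coeff g hf hj t' z' h2'.1
    have hq0 : eval (fun p => v (Sum.inl (Sum.inl p))) q =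
        eval (fun p => v' (Sum.inl (Sum.inl p))) q := by
      have : (fun p => v (Sum.inl (Sum.inl p))) = fun p => v' (Sum.inl (Sum.inl p)) := funext hp
      rw [this]
    have h5 : PowerSeries.coeff m (aeval z (oplus f g)) =
        eval (fun p => v (Sum.inl (Sum.inl p))) q := h3
    have h5' : PowerSeries.coeff m (aeval z' (oplus f g)) =
        eval (fun p => v' (Sum.inl (Sum.inl p))) q := h3'
    have h6 : PowerSeries.coeff j (aeval (fun a => z (Sum.inl a)) f) =
        PowerSeries.coeff j (aeval (fun a => z' (Sum.inl a)) f) := by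
      rw [← a1 j hj, ← a1' j hj]
      exact hF j (by omega)
    have h7 : PowerSeries.coeff j (aeval (fun a => z' (Sum.inl a)) f) ≠ 0 := h2'.2.2.1
    have htt : t = t' := by
      have h8 := hH m (by omega)
      rw [a3, a3', h5, h5', hq0, h6] at h8
      have h9 := add_left_cancel h8
      exact mul_left_cancel₀ hdc (mul_right_cancel₀ h7 h9)
    rw [htt] at hact
    have hzz := actI_congr w (m - j) t' (m + 1) _ _ hact
    rw [actI_act w (m - j) (by omega), actI_act w (m - j) (by omega)] at hzz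
    funext i
    rcases i with (p | ⟨⟩) | s
    · exact hp p
    · exact htt
    · have h8 := hzz s.1 s.2 s.2.2
      rw [hz, hz', coeff_toArc_lt, coeff_toArc_lt] at h8
      exact h8
  · intro y hy
    obtain ⟨h1, h2⟩ : (fun p => y (Sum.inl p)) ∈ B ∧
      PJ f g j m (toArc K fun s => y (Sum.inr s)) := hy
    set z := toArc K fun s => y (Sum.inr s) with hz
    have h3 : PowerSeries.coeff j (aeval (fun a => z (Sum.inl a)) f) ≠ 0 := h2.2.2.1
    set t : ℂ := (PowerSeries.coeff m (aeval z (oplus f g)) - eval (fun p => y (Sum.inl p)) q) /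
      (d * PowerSeries.coeff j (aeval (fun a => z (Sum.inl a)) f)) with ht
    obtain ⟨h4, h5⟩ := PJ_actI g hf hj t z h2
    have h6 : d * t * PowerSeries.coeff j (aeval (fun a => z (Sum.inl a)) f) =
        PowerSeries.coeff m (aeval z (oplus f g)) - eval (fun p => y (Sum.inl p)) q := by
      rw [ht]
      field_simp
    rw [h6, sub_sub_cancel] at h5
    set v : (E ⊕ Unit) ⊕ (Σ i, Fin (K i)) → ℂ := Sum.elim (Sum.elim (fun p => y (Sum.inl p))
      fun _ => t) fun s => PowerSeries.coeff (s.2 : ℕ) (actI w (m - j) t z s.1) with hv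
    have hva : ∀ i, ∀ l < K i, PowerSeries.coeff l (toArc K (fun s => v (Sum.inr s)) i) =
        PowerSeries.coeff l (actI w (m - j) t z i) := by
      intro i l hl
      rw [coeff_toArc, dif_pos hl]
      rfl
    refine ⟨v, ?_, ?_⟩
    · have h7 := hcD.1 (fun p => y (Sum.inl p)) _ _ hva
      change ((fun p => y (Sum.inl p)), toArc K fun s => v (Sum.inr s)) ∈ DD f g B q j m
      rw [h7]
      exact ⟨h1, h4, h5⟩
    · funext i
      rcases i with p | s
      · simp only [φA, eval_X]
        rfl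
      · simp only [φA_inr]
        have h8 := act_congr w (m - j) t (m + 1) _ _ hva s.1 s.2 s.2.2
        rw [act_actI w (m - j) (by omega)] at h8
        exact h8.trans (coeff_toArc_lt K (fun s => y (Sum.inr s)) s.1 s.2)

/-- iteration -/
theorem vol_CB (P : HodgeMeasure) (hd : 1 ≤ d) (hf : IsWeightedHomogeneous w f d) (j i : ℕ) :
    vol P.rat xq (CB f g (Set.univ : Set (Empty → ℂ)) j (j + 1 + i)) =
      xq ^ i * vol P.rat xq (dbl f g (Qadd (Set.univ : Set (Empty → ℂ)) 0) j j) := by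
  induction i with
  | zero =>
    rw [pow_zero, one_mul]
    congr 1
    ext z
    simp only [CB, PJ, dbl, Qadd, Set.mem_ofPred_eq, Set.mem_univ, true_and, Sum.elim_inr,
      if_true, Bool.false_eq_true, if_false, map_zero, add_zero]
    constructor
    · rintro ⟨h1, h2, h3, h4, h5⟩
      refine ⟨h1, h2, h3, h4, ?_⟩
      have h6 := h5 j (by omega)
      rwa [aeval_oplus, map_add] at h6
    · rintro ⟨h1, h2, h3, h4, h5⟩
      refine ⟨h1, h2, h3, h4, ?_⟩
      intro l hl
      rw [aeval_oplus, map_add]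
      rcases Nat.lt_succ_iff_lt_or_eq.1 hl with h6 | h6
      · rw [h1 l h6, h2 l h6, add_zero]
      · rw [h6]
        exact h5
  | succ i ih =>
    have h1 := main_eq g P hd hf (E := Empty) (B := Set.univ) Constructible.univ 0
      (j := j) (m := j + 1 + i) (by omega)
    rw [P.rat.point, one_mul, ih] at h1
    rw [pow_succ', mul_assoc, ← h1]
    congr 1
    ext z
    simp only [CB, DD, PJ, Set.mem_ofPred_eq, Set.mem_univ, true_and, map_zero]
    constructor
    · rintro ⟨h1, h2, h3, h4, h5⟩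
      exact ⟨⟨h1, h2, h3, h4, fun l hl => h5 l (by omega)⟩, h5 _ (by omega)⟩
    · rintro ⟨⟨h1, h2, h3, h4, h5⟩, h6⟩
      refine ⟨h1, h2, h3, h4, fun l hl => ?_⟩
      rcases Nat.lt_succ_iff_lt_or_eq.1 (show l < (j + 1 + i) + 1 by omega) with h7 | h7
      · exact h5 l h7
      · rw [h7]
        exact h6

/-- swapped product -/
theorem vol_swap (P : HodgeMeasure) [Finite E] {K : κ → ℕ} {K' : ι → ℕ}
    {C : Set ((E → ℂ) × (κ → PowerSeries ℂ))} {D : Set ((Empty → ℂ) × (ι → PowerSeries ℂ))}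
    (hC : IsCyl K C) (hD : IsCyl K' D) :
    vol P.rat xq {z : (E → ℂ) × (ι ⊕ κ → PowerSeries ℂ) | (z.1, fun a => z.2 (Sum.inr a)) ∈ C ∧
      (Empty.elim, fun a => z.2 (Sum.inl a)) ∈ D} = vol P.rat xq D * vol P.rat xq C := by
  have h1 := T0Aux.vol_comp P (φ := (Sum.swap : κ ⊕ ι → ι ⊕ κ)) Sum.swap_leftInverse.injective
    (cyl_cprod hC hD)
  rw [vol_cprod P.rat (L_mul P) hC hD, mul_comm] at h1
  exact h1

theorem cyl_swap [Finite E] {K : κ → ℕ} {K' : ι → ℕ}
    {C : Set ((E → ℂ) × (κ → PowerSeries ℂ))} {D : Set ((Empty → ℂ) × (ι → PowerSeries ℂ))}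
    (hC : IsCyl K C) (hD : IsCyl K' D) :
    IsCyl (Sum.elim K' K) {z : (E → ℂ) × (ι ⊕ κ → PowerSeries ℂ) |
      (z.1, fun a => z.2 (Sum.inr a)) ∈ C ∧ (Empty.elim, fun a => z.2 (Sum.inl a)) ∈ D} := by
  have h1 := cyl_cprod hC hD
  constructor
  · intro p x y hxy
    exact and_congr (hC.1 _ _ _ fun i l hl => hxy (Sum.inr i) l hl)
      (hD.1 _ _ _ fun i l hl => hxy (Sum.inl i) l hl)
  · have h2 := Constructible.comap (fun j : E ⊕ (Σ i : κ ⊕ ι, Fin (Sum.elim K K' i)) =>
      (match j with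
        | Sum.inl e => Sum.inl e
        | Sum.inr ⟨Sum.inl i, l⟩ => Sum.inr ⟨Sum.inr i, l⟩
        | Sum.inr ⟨Sum.inr i, l⟩ => Sum.inr ⟨Sum.inl i, l⟩ :
          E ⊕ (Σ i : ι ⊕ κ, Fin (Sum.elim K' K i)))) h1.2
    exact h2

end

end VSAux

open VSAux

theorem constructible_Qadd {E : Type} {B : Set (E → ℂ)} (hB : Constructible B)
    (q : MvPolynomial E ℂ) : Constructible (Qadd B q) := by
  have := Constructible.and (Constructible.comap (Sum.inl : E → E ⊕ Bool) hB)
    (Constructible.and (Constructible.ne (X (Sum.inr true) : MvPolynomial (E ⊕ Bool) ℂ))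
      (Constructible.and (Constructible.ne (X (Sum.inr false) : MvPolynomial (E ⊕ Bool) ℂ))
        (Constructible.eq (X (Sum.inr true) + X (Sum.inr false) : MvPolynomial (E ⊕ Bool) ℂ)
          (rename Sum.inl q))))
  simp only [eval_X, map_add, eval_rename, Function.comp_def] at this
  exact this

theorem stmt_VS : Stmt_VS := by
  classical
  intro P ι κ _ _ f g hWH
  obtain ⟨w, d, -, hd, hf⟩ := hWH
  have hL := L_mul P
  constructor
  · intro E _ B q hB hq m
    -- the pieces
    set A1 : Set ((E → ℂ) × (ι ⊕ κ → PowerSeries ℂ)) := cprod (ctc f B q m)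
      {z : (Empty → ℂ) × (κ → PowerSeries ℂ) | ∀ l ≤ m, PowerSeries.coeff l (aeval z.2 g) = 0}
      with hA1
    set A2 : Set ((E → ℂ) × (ι ⊕ κ → PowerSeries ℂ)) := {z |
      (z.1, fun a => z.2 (Sum.inr a)) ∈ ctc g B q m ∧ (Empty.elim, fun a => z.2 (Sum.inl a)) ∈
        {z : (Empty → ℂ) × (ι → PowerSeries ℂ) | ∀ l ≤ m, PowerSeries.coeff l (aeval z.2 f) = 0}}
      with hA2
    set A3 : Set ((E → ℂ) × (ι ⊕ κ → PowerSeries ℂ)) := dbl f g (Qadd B q) m m with hA3
    set A4 : Set ((E → ℂ) × (ι ⊕ κ → PowerSeries ℂ)) :=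
      ⋃ j ∈ Finset.range m, DD f g B q j m with hA4
    have c1 : IsCyl (fun _ => m + 1) A1 := by
      have := cyl_cprod (cyl_ctc f hB q m) (cyl_gt' (E := Empty) g m)
      exact this.mono fun i => by rcases i with i | i <;> simp
    have c2 : IsCyl (fun _ => m + 1) A2 := by
      have := cyl_swap (cyl_ctc g hB q m) (cyl_gt' (E := Empty) f m)
      exact this.mono fun i => by rcases i with i | i <;> simp
    have c3 : IsCyl (fun _ => m + 1) A3 :=
      cyl_dbl f g (constructible_Qadd hB q) m m (m + 1) (by omega) (by omega)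
    have c4' : ∀ j ∈ Finset.range m, IsCyl (fun _ => m + 1) (DD f g B q j m) := by
      intro j hj
      have := Finset.mem_range.1 hj
      exact cyl_DD f g hB q j m (m + 1) (by omega) (by omega)
    have c4 : IsCyl (fun _ => m + 1) A4 := IsCyl.biUnion _ c4'
    -- membership
    have m1 : ∀ z, z ∈ A1 ↔ (z.1 ∈ B ∧
        (∀ l < m, PowerSeries.coeff l (aeval (fun a => z.2 (Sum.inl a)) f) = 0) ∧
        PowerSeries.coeff m (aeval (fun a => z.2 (Sum.inl a)) f) = eval z.1 q) ∧
        ∀ l ≤ m, PowerSeries.coeff l (aeval (fun a => z.2 (Sum.inr a)) g) = 0 :=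
      fun z => Iff.rfl
    have m2 : ∀ z, z ∈ A2 ↔ (z.1 ∈ B ∧
        (∀ l < m, PowerSeries.coeff l (aeval (fun a => z.2 (Sum.inr a)) g) = 0) ∧
        PowerSeries.coeff m (aeval (fun a => z.2 (Sum.inr a)) g) = eval z.1 q) ∧
        ∀ l ≤ m, PowerSeries.coeff l (aeval (fun a => z.2 (Sum.inl a)) f) = 0 :=
      fun z => Iff.rfl
    have m3 : ∀ z, z ∈ A3 ↔
        (∀ l < m, PowerSeries.coeff l (aeval (fun a => z.2 (Sum.inl a)) f) = 0) ∧
        (∀ l < m, PowerSeries.coeff l (aeval (fun a => z.2 (Sum.inr a)) g) = 0) ∧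
        z.1 ∈ B ∧ PowerSeries.coeff m (aeval (fun a => z.2 (Sum.inl a)) f) ≠ 0 ∧
        PowerSeries.coeff m (aeval (fun a => z.2 (Sum.inr a)) g) ≠ 0 ∧
        PowerSeries.coeff m (aeval (fun a => z.2 (Sum.inl a)) f) +
          PowerSeries.coeff m (aeval (fun a => z.2 (Sum.inr a)) g) = eval z.1 q :=
      fun z => Iff.rfl
    have m4 : ∀ z, z ∈ A4 ↔ ∃ j < m, z ∈ DD f g B q j m := by
      intro z
      simp only [hA4, Set.mem_iUnion, Finset.mem_range, exists_prop]
    have hset : ctc (oplus f g) B q m = (A1 ∪ A2) ∪ (A3 ∪ A4) := by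
      ext z
      simp only [Set.mem_union, m1, m2, m3, m4]
      constructor
      · rintro ⟨h1, h2, h3⟩
        have hq0 := hq z.1 h1
        by_cases hF : ∀ l < m, PowerSeries.coeff l (aeval (fun a => z.2 (Sum.inl a)) f) = 0
        · -- then also `g`
          have hG : ∀ l < m, PowerSeries.coeff l (aeval (fun a => z.2 (Sum.inr a)) g) = 0 := by
            intro l hl
            have h4 := h2 l hl
            rw [aeval_oplus, map_add, hF l hl, zero_add] at h4
            exact h4
          rw [aeval_oplus, map_add] at h3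
          by_cases hF0 : PowerSeries.coeff m (aeval (fun a => z.2 (Sum.inl a)) f) = 0
          · left; right
            rw [hF0, zero_add] at h3
            refine ⟨⟨h1, hG, h3⟩, ?_⟩
            intro l hl
            rcases Nat.lt_or_eq_of_le hl with h5 | h5
            · exact hF l h5
            · rw [h5]
              exact hF0
          · by_cases hG0 : PowerSeries.coeff m (aeval (fun a => z.2 (Sum.inr a)) g) = 0
            · left; left
              rw [hG0, add_zero] at h3
              refine ⟨⟨h1, hF, h3⟩, ?_⟩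
              intro l hl
              rcases Nat.lt_or_eq_of_le hl with h5 | h5
              · exact hG l h5
              · rw [h5]
                exact hG0
            · right; left
              exact ⟨hF, hG, h1, hF0, hG0, h3⟩
        · right; right
          have hex : ∃ l, l < m ∧
              PowerSeries.coeff l (aeval (fun a => z.2 (Sum.inl a)) f) ≠ 0 := by
            push Not at hF
            exact hF
          refine ⟨Nat.find hex, (Nat.find_spec hex).1, h1, ?_, h3⟩
          have h4 : ∀ l < Nat.find hex,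
              PowerSeries.coeff l (aeval (fun a => z.2 (Sum.inl a)) f) = 0 := by
            intro l hl
            by_contra h5
            exact Nat.find_min hex hl ⟨by have := (Nat.find_spec hex).1; omega, h5⟩
          have h5 : ∀ l < Nat.find hex,
              PowerSeries.coeff l (aeval (fun a => z.2 (Sum.inr a)) g) = 0 := by
            intro l hl
            have h6 := h2 l (by have := (Nat.find_spec hex).1; omega)
            rw [aeval_oplus, map_add, h4 l hl, zero_add] at h6
            exact h6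
          refine ⟨h4, h5, (Nat.find_spec hex).2, ?_, h2⟩
          intro h6
          have h7 := h2 _ (Nat.find_spec hex).1
          rw [aeval_oplus, map_add, h6, add_zero] at h7
          exact (Nat.find_spec hex).2 h7
      · rintro ((⟨⟨h1, h2, h3⟩, h4⟩ | ⟨⟨h1, h2, h3⟩, h4⟩) | (⟨h1, h2, h3, h4, h5, h6⟩ |
          ⟨j, hj, h1, h2, h3⟩))
        · refine ⟨h1, fun l hl => ?_, ?_⟩
          · rw [aeval_oplus, map_add, h2 l hl, h4 l hl.le, add_zero]
          · rw [aeval_oplus, map_add, h3, h4 m le_rfl, add_zero]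
        · refine ⟨h1, fun l hl => ?_, ?_⟩
          · rw [aeval_oplus, map_add, h2 l hl, h4 l hl.le, add_zero]
          · rw [aeval_oplus, map_add, h3, h4 m le_rfl, zero_add]
        · refine ⟨h3, fun l hl => ?_, ?_⟩
          · rw [aeval_oplus, map_add, h1 l hl, h2 l hl, add_zero]
          · rw [aeval_oplus, map_add, h6]
        · exact ⟨h1, h2.2.2.2.2, h3⟩
    have v1 : vol P.rat xq A1 = AA P f B q m * bb P g m :=
      vol_cprod P.rat hL (cyl_ctc f hB q m) (cyl_gt' (E := Empty) g m)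
    have v2 : vol P.rat xq A2 = bb P f m * AA P g B q m :=
      vol_swap P (cyl_ctc g hB q m) (cyl_gt' (E := Empty) f m)
    have v4 : vol P.rat xq A4 = P.rat.val B * ∑ j ∈ Finset.range m, xq ^ (m - j) *
        vol P.rat xq (dbl f g (Qadd (Set.univ : Set (Empty → ℂ)) 0) j j) := by
      rw [hA4, vol_biUnion P.rat hL _ c4', Finset.mul_sum]
      · refine Finset.sum_congr rfl fun j hj => ?_
        have hj' := Finset.mem_range.1 hj
        have h1 := vol_CB g P hd hf j (m - 1 - j)
        have h2 : j + 1 + (m - 1 - j) = m := by omega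
        rw [h2] at h1
        rw [main_eq g P hd hf hB q hj', h1]
        have h3 : m - j = (m - 1 - j) + 1 := by omega
        rw [h3, pow_succ]
        ring
      · intro i _ j _ hij
        rw [Set.disjoint_left]
        rintro z ⟨-, h2, -⟩ ⟨-, h2', -⟩
        exact hij (order_unique h2.1 h2.2.2.1 h2'.1 h2'.2.2.1)
    rw [AA, hset, vol_union P.rat hL (c1.union c2) (c3.union c4), vol_union P.rat hL c1 c2,
      vol_union P.rat hL c3 c4, v1, v2, v4]
    · ring
    · rw [Set.disjoint_left]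
      intro z h1 h2
      obtain ⟨j, hj, -, h3, -⟩ := (m4 z).1 h2
      exact h3.2.2.1 (((m3 z).1 h1).1 j hj)
    · rw [Set.disjoint_left]
      intro z h1 h2
      obtain ⟨⟨h3, -, h4⟩, -⟩ := (m1 z).1 h1
      obtain ⟨-, h5⟩ := (m2 z).1 h2
      rw [h5 m le_rfl] at h4
      exact hq z.1 h3 h4.symm
    · rw [Set.disjoint_left]
      rintro z (h1 | h1) (h2 | h2)
      · exact ((m3 z).1 h2).2.2.2.2.1 (((m1 z).1 h1).2 m le_rfl)
      · obtain ⟨j, hj, -, h3, -⟩ := (m4 z).1 h2
        exact h3.2.2.1 (((m1 z).1 h1).1.2.1 j hj)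
      · exact ((m3 z).1 h2).2.2.2.1 (((m2 z).1 h1).2 m le_rfl)
      · obtain ⟨j, hj, -, h3, -⟩ := (m4 z).1 h2
        exact h3.2.2.1 (((m2 z).1 h1).2 j hj.le)
  · intro m
    set A1 : Set ((Empty → ℂ) × (ι ⊕ κ → PowerSeries ℂ)) := cprod
      {z : (Empty → ℂ) × (ι → PowerSeries ℂ) | ∀ l ≤ m, PowerSeries.coeff l (aeval z.2 f) = 0}
      {z : (Empty → ℂ) × (κ → PowerSeries ℂ) | ∀ l ≤ m, PowerSeries.coeff l (aeval z.2 g) = 0}
      with hA1
    have c1 : IsCyl (fun _ => m + 1) A1 := by
      have := cyl_cprod (cyl_gt' (E := Empty) f m) (cyl_gt' (E := Empty) g m)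
      exact this.mono fun i => by rcases i with i | i <;> simp
    have c2 : ∀ j ∈ Finset.range (m + 1), IsCyl (fun _ => m + 1)
        (CB f g (Set.univ : Set (Empty → ℂ)) j (m + 1)) := by
      intro j hj
      have := Finset.mem_range.1 hj
      exact cyl_CB f g Constructible.univ j (m + 1) (m + 1) (by omega) le_rfl
    have m1 : ∀ z, z ∈ A1 ↔
        (∀ l ≤ m, PowerSeries.coeff l (aeval (fun a => z.2 (Sum.inl a)) f) = 0) ∧
        ∀ l ≤ m, PowerSeries.coeff l (aeval (fun a => z.2 (Sum.inr a)) g) = 0 :=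
      fun z => Iff.rfl
    have hset : {z : (Empty → ℂ) × (ι ⊕ κ → PowerSeries ℂ) |
        ∀ l ≤ m, PowerSeries.coeff l (aeval z.2 (oplus f g)) = 0} =
        A1 ∪ ⋃ j ∈ Finset.range (m + 1), CB f g (Set.univ : Set (Empty → ℂ)) j (m + 1) := by
      ext z
      simp only [Set.mem_union, Set.mem_iUnion, Finset.mem_range, exists_prop, m1,
        Set.mem_ofPred_eq]
      constructor
      · intro h2
        by_cases hF : ∀ l ≤ m, PowerSeries.coeff l (aeval (fun a => z.2 (Sum.inl a)) f) = 0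
        · left
          refine ⟨hF, fun l hl => ?_⟩
          have h4 := h2 l hl
          rw [aeval_oplus, map_add, hF l hl, zero_add] at h4
          exact h4
        · right
          have hex : ∃ l, l ≤ m ∧
              PowerSeries.coeff l (aeval (fun a => z.2 (Sum.inl a)) f) ≠ 0 := by
            push Not at hF
            exact hF
          refine ⟨Nat.find hex, by have := (Nat.find_spec hex).1; omega, Set.mem_univ _, ?_⟩
          have h4 : ∀ l < Nat.find hex,
              PowerSeries.coeff l (aeval (fun a => z.2 (Sum.inl a)) f) = 0 := by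
            intro l hl
            by_contra h5
            exact Nat.find_min hex hl ⟨by have := (Nat.find_spec hex).1; omega, h5⟩
          have h5 : ∀ l < Nat.find hex,
              PowerSeries.coeff l (aeval (fun a => z.2 (Sum.inr a)) g) = 0 := by
            intro l hl
            have h6 := h2 l (by have := (Nat.find_spec hex).1; omega)
            rw [aeval_oplus, map_add, h4 l hl, zero_add] at h6
            exact h6
          refine ⟨h4, h5, (Nat.find_spec hex).2, ?_, fun l hl => h2 l (by omega)⟩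
          intro h6
          have h7 := h2 _ (Nat.find_spec hex).1
          rw [aeval_oplus, map_add, h6, add_zero] at h7
          exact (Nat.find_spec hex).2 h7
      · rintro (⟨h1, h2⟩ | ⟨j, hj, -, h2⟩)
        · intro l hl
          rw [aeval_oplus, map_add, h1 l hl, h2 l hl, add_zero]
        · exact fun l hl => h2.2.2.2.2 l (by omega)
    rw [bb, hset, vol_union P.rat hL c1 (IsCyl.biUnion _ c2), vol_biUnion P.rat hL _ c2]
    · have v1 : vol P.rat xq A1 = bb P f m * bb P g m :=
        vol_cprod P.rat hL (cyl_gt' (E := Empty) f m) (cyl_gt' (E := Empty) g m)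
      rw [v1]
      congr 1
      refine Finset.sum_congr rfl fun j hj => ?_
      have hj' := Finset.mem_range.1 hj
      have h1 := vol_CB g P hd hf j (m - j)
      have h2 : j + 1 + (m - j) = m + 1 := by omega
      rw [h2] at h1
      exact h1
    · intro i _ j _ hij
      rw [Set.disjoint_left]
      rintro z ⟨-, h2⟩ ⟨-, h2'⟩
      exact hij (order_unique h2.1 h2.2.2.1 h2'.1 h2'.2.2.1)
    · rw [Set.disjoint_left]
      intro z h1 h2
      simp only [Set.mem_iUnion, Finset.mem_range, exists_prop] at h2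
      obtain ⟨j, hj, -, h3⟩ := h2
      exact h3.2.2.1 (((m1 z).1 h1).1 j (by omega))

end Pool.Agent.Mono.TS
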