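import Pool.Agent.Work.Monodromy4.WPF
import Pool.Agent.Work.Monodromy_helper48.BP4

/-!
# Block W2: non-integral roots of the Bernstein polynomial give witnesses
-/

namespace Pool.Agent.Mono.TS

open MvPolynomial Filter

namespace W2Aux

open EBDAux WPF

variable {ι : Type}

theorem wact_mul (P Q : Polynomial (Weyl ι)) (k : ℕ) : wact (P * Q) k = wact P k * wact Q k := by
  unfold wact
  rw [← evk_apply, ← evk_apply, ← evk_apply, map_mul]
  rfl

theorem wact_scal (P : Polynomial (Weyl ι)) (k : ℕ) (c : ℂ) (x : MvPolynomial ι ℂ) :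
    wact P k (C c * x) = C c * wact P k x := by
  rw [← MvPolynomial.smul_eq_C_mul, map_smul, MvPolynomial.smul_eq_C_mul]

/-- multiplication by a polynomial family -/
theorem exists_mul {h : ℂ → MvPolynomial ι ℂ} (H : PF h) :
    ∃ P : Polynomial (Weyl ι), ∀ (k : ℕ) (x : MvPolynomial ι ℂ), wact P k x = h k * x := by
  obtain ⟨q, hq⟩ := H
  obtain ⟨P, hP⟩ := exists_wact (ι := ι) (q.natDegree + 1)
    (fun i => LinearMap.mulLeft ℂ (q.coeff i)) (fun i => mulLeft_mem_Weyl _)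
  refine ⟨P, fun k x => ?_⟩
  rw [hP, hq, Polynomial.eval_eq_sum_range, Finset.sum_mul]
  refine Finset.sum_congr rfl fun i _ => ?_
  rw [LinearMap.mulLeft_apply, C_pow]
  ring

theorem exists_der (i : ι) : ∃ P : Polynomial (Weyl ι), ∀ (k : ℕ) (x : MvPolynomial ι ℂ),
    wact P k x = pderiv i x := by
  obtain ⟨P, hP⟩ := exists_wact (ι := ι) 1
    (fun _ => ((pderiv i : Derivation ℂ (MvPolynomial ι ℂ) (MvPolynomial ι ℂ)) :
      MvPolynomial ι ℂ →ₗ[ℂ] MvPolynomial ι ℂ))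
    (fun _ => Algebra.subset_adjoin (Or.inr ⟨i, rfl⟩))
  refine ⟨P, fun k x => ?_⟩
  rw [hP]
  simp

/-- the shift `s ↦ s - n` -/
theorem exists_shift (P : Polynomial (Weyl ι)) (n : ℕ) : ∃ P' : Polynomial (Weyl ι),
    ∀ (k : ℕ) (x : MvPolynomial ι ℂ), n ≤ k → wact P' k x = wact P (k - n) x := by
  induction P using Polynomial.induction_on' with
  | add p q hp hq =>
    obtain ⟨p', hp'⟩ := hp
    obtain ⟨q', hq'⟩ := hq
    refine ⟨p' + q', fun k x hk => ?_⟩
    rw [wact_add, wact_add, LinearMap.add_apply, LinearMap.add_apply, hp' k x hk, hq' k x hk]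
  | monomial i a =>
    refine ⟨((Polynomial.X - Polynomial.C (n : ℂ)) ^ i).map (algebraMap ℂ (Weyl ι)) *
      Polynomial.C a, fun k x hk => ?_⟩
    have h1 : (Polynomial.monomial i a : Polynomial (Weyl ι)) =
        ((Polynomial.X : Polynomial ℂ) ^ i).map (algebraMap ℂ (Weyl ι)) * Polynomial.C a := by
      rw [Polynomial.map_pow, Polynomial.map_X, Polynomial.X_pow_mul,
        Polynomial.C_mul_X_pow_eq_monomial]
    have h2 : ∀ l : ℕ, wact (Polynomial.C a : Polynomial (Weyl ι)) l = (a : Module.End ℂ _) := by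
      intro l
      simp [wact]
    rw [h1, wact_cmul, wact_cmul, h2, h2]
    congr 2
    simp [Nat.cast_sub hk]

/-- sequences generated by `G` -/
inductive Gen (G : Set (ℕ → MvPolynomial ι ℂ)) : (ℕ → MvPolynomial ι ℂ) → Prop
  | gen (F) : F ∈ G → Gen G F
  | add (F F') : Gen G F → Gen G F' → Gen G (fun k => F k + F' k)
  | act (P : Polynomial (Weyl ι)) (F) : Gen G F → Gen G (fun k => wact P k (F k))
  | congr (F F' : ℕ → MvPolynomial ι ℂ) : Gen G F → (∀ᶠ k in atTop, F' k = F k) → Gen G F'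

theorem Gen.mul {G : Set (ℕ → MvPolynomial ι ℂ)} {F : ℕ → MvPolynomial ι ℂ} (H : Gen G F)
    {h : ℂ → MvPolynomial ι ℂ} (hh : PF h) : Gen G fun k => h k * F k := by
  obtain ⟨P, hP⟩ := exists_mul hh
  exact Gen.congr _ _ (Gen.act P F H) (by filter_upwards with k; rw [hP])

theorem Gen.sub {G : Set (ℕ → MvPolynomial ι ℂ)} {F F' : ℕ → MvPolynomial ι ℂ} (H : Gen G F)
    (H' : Gen G F') : Gen G fun k => F k - F' k := by
  refine Gen.congr _ _ (Gen.add _ _ H (H'.mul (PF.const (-1)))) ?_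
  filter_upwards with k
  ring

theorem Gen.trans {G G' : Set (ℕ → MvPolynomial ι ℂ)} {F : ℕ → MvPolynomial ι ℂ} (H : Gen G F)
    (h : ∀ g ∈ G, Gen G' g) : Gen G' F := by
  induction H with
  | gen F hF => exact h F hF
  | add F F' _ _ h1 h2 => exact Gen.add _ _ h1 h2
  | act P F _ h1 => exact Gen.act _ _ h1
  | congr F F' _ h1 h2 => exact Gen.congr _ _ h2 h1

/-- one generator -/
theorem Gen.single {g F : ℕ → MvPolynomial ι ℂ} (H : Gen {g} F) :
    ∃ P : Polynomial (Weyl ι), ∀ᶠ k in atTop, F k = wact P k (g k) := by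
  induction H with
  | gen F hF =>
    obtain ⟨P, hP⟩ := exists_mul (PF.const (ι := ι) 1)
    refine ⟨P, ?_⟩
    filter_upwards with k
    rw [hP, one_mul, Set.mem_singleton_iff.1 hF]
  | add F F' _ _ h1 h2 =>
    obtain ⟨P, hP⟩ := h1
    obtain ⟨P', hP'⟩ := h2
    refine ⟨P + P', ?_⟩
    filter_upwards [hP, hP'] with k a b
    rw [wact_add, LinearMap.add_apply, a, b]
  | act P F _ h1 =>
    obtain ⟨P', hP'⟩ := h1
    refine ⟨P * P', ?_⟩
    filter_upwards [hP'] with k a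
    rw [wact_mul, Module.End.mul_apply, a]
  | congr F F' _ h1 h2 =>
    obtain ⟨P, hP⟩ := h2
    refine ⟨P, ?_⟩
    filter_upwards [hP, h1] with k a b
    rw [b, a]

/-- `∂_a f · f^s` and `f^{s+1}` -/
def GJ (f : MvPolynomial ι ℂ) : Set (ℕ → MvPolynomial ι ℂ) :=
  {F | (∃ a, F = fun k => pderiv a f * f ^ k) ∨ F = fun k => f ^ (k + 1)}

/-- `(s+1) J ⊆ A_n[s] f^{s+1}` -/
theorem GJ_succ {f : MvPolynomial ι ℂ} {F : ℕ → MvPolynomial ι ℂ} (H : Gen (GJ f) F) :
    Gen {fun k => f ^ (k + 1)} fun k => C ((k : ℂ) + 1) * F k := by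
  induction H with
  | gen F hF =>
    rcases hF with ⟨a, rfl⟩ | rfl
    · obtain ⟨P, hP⟩ := exists_der a
      refine Gen.congr _ _ (Gen.act P _ (Gen.gen _ rfl)) ?_
      filter_upwards with k
      rw [hP, Derivation.leibniz_pow, Nat.add_sub_cancel]
      simp only [smul_eq_mul, nsmul_eq_mul]
      rw [show ((k : ℂ) + 1) = ((k + 1 : ℕ) : ℂ) by push_cast; rfl, map_natCast]
      ring
    · refine (Gen.gen _ (Set.mem_singleton _)).mul (h := fun c => C (c + 1)) ?_
      exact (PF.poly (Polynomial.X + 1)).congr fun c => by simp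
  | add F F' _ _ h1 h2 =>
    refine Gen.congr _ _ (Gen.add _ _ h1 h2) ?_
    filter_upwards with k
    ring
  | act P F _ h1 =>
    refine Gen.congr _ _ (Gen.act P _ h1) ?_
    filter_upwards with k
    rw [wact_scal]
  | congr F F' _ h1 h2 =>
    refine Gen.congr _ _ h2 ?_
    filter_upwards [h1] with k a
    rw [a]

theorem GJ_zero {f : MvPolynomial ι ℂ} {F : ℕ → MvPolynomial ι ℂ} (H : Gen (GJ f) F) :
    Gen {fun k => f ^ k} F := by
  have h0 : Gen {fun k => f ^ k} (fun k => f ^ k) := Gen.gen _ (Set.mem_singleton _)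
  refine H.trans ?_
  intro g hg
  rcases hg with ⟨a, ha⟩ | ha
  · rw [ha]
    exact h0.mul (h := fun _ => pderiv a f) (PF.const _)
  · rw [ha]
    refine Gen.congr (fun k => f * f ^ k) _ (h0.mul (h := fun _ => f) (PF.const f)) ?_
    filter_upwards with k
    rw [pow_succ']

/-- `∏_{i ≤ m} b(s-i)` -/
noncomputable def BB (b : Polynomial ℂ) (m : ℕ) : Polynomial ℂ :=
  ∏ i ∈ Finset.range m, b.comp (Polynomial.X - Polynomial.C ((i : ℂ) + 1))

theorem BB_mem {f : MvPolynomial ι ℂ} {b : Polynomial ℂ} (hb : IsEvBernstein f b) (m : ℕ) :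
    Gen {fun k => f ^ k} fun k => C ((BB b m).eval (k : ℂ)) * f ^ (k - m) := by
  obtain ⟨P, hP⟩ := hb
  obtain ⟨K, hK⟩ := eventually_atTop.1 hP
  induction m with
  | zero =>
    refine Gen.congr _ _ (Gen.gen _ (Set.mem_singleton _)) ?_
    filter_upwards with k
    simp [BB]
  | succ m ih =>
    obtain ⟨P', hP'⟩ := exists_shift P (m + 1)
    refine Gen.congr _ _ (Gen.act P' _ ih) ?_
    filter_upwards [eventually_ge_atTop (m + 1 + K)] with k hk
    have h1 := hK (k - (m + 1)) (by omega)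
    rw [show k - (m + 1) + 1 = k - m by omega] at h1
    rw [hP' k _ (by omega), wact_scal, h1, ← mul_assoc, ← C_mul]
    congr 2
    rw [BB, Finset.prod_range_succ, Polynomial.eval_mul, Polynomial.eval_comp]
    congr 2
    simp [Nat.cast_sub (show m + 1 ≤ k by omega)]

variable [DecidableEq ι]

/-- the values at `s = β` of the elements of `J` -/
noncomputable def NN (f : MvPolynomial ι ℂ) (β : ℂ) : Submodule ℂ (FF ℂ ι) where
  carrier := {x | ∃ (h : ℂ → MvPolynomial ι ℂ) (m : ℕ), PF h ∧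
    x * toF ℂ f ^ m = toF ℂ (h β) ∧ Gen (GJ f) fun k => h k * f ^ (k - m)}
  zero_mem' := by
    refine ⟨fun _ => 0, 0, PF.const 0, by rw [zero_mul, WBAux.toF_zero], ?_⟩
    refine Gen.congr _ _ ((Gen.gen (fun k => f ^ (k + 1)) (Or.inr rfl)).mul (PF.const 0)) ?_
    filter_upwards with k
    ring
  add_mem' := by
    rintro x y ⟨h, m, hh, e, g⟩ ⟨h', m', hh', e', g'⟩
    refine ⟨fun c => h c * f ^ m' + h' c * f ^ m, m + m',
      (hh.mul (PF.const _)).add (hh'.mul (PF.const _)), ?_, ?_⟩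
    · rw [WBAux.toF_add, WBAux.toF_mul, WBAux.toF_mul, WBAux.toF_pow, WBAux.toF_pow, ← e, ← e']
      ring
    · refine Gen.congr _ _ (Gen.add _ _ g g') ?_
      filter_upwards [eventually_ge_atTop (m + m')] with k hk
      obtain ⟨r, rfl⟩ := Nat.exists_eq_add_of_le hk
      rw [show m + m' + r - m = m' + r by omega, show m + m' + r - m' = m + r by omega,
        show m + m' + r - (m + m') = r by omega]
      ring
  smul_mem' := by
    rintro c x ⟨h, m, hh, e, g⟩
    refine ⟨fun s => C c * h s, m, (PF.const _).mul hh, ?_, ?_⟩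
    · rw [WBAux.toF_mul, WBAux.toF_C_mul, ← e, smul_mul_assoc]
    · refine Gen.congr _ _ (g.mul (PF.const (C c))) ?_
      filter_upwards with k
      ring

theorem NN_X (f : MvPolynomial ι ℂ) (hf : f ≠ 0) (β : ℂ) (i : ι) {x : FF ℂ ι}
    (hx : x ∈ NN f β) : (WBAux.fw f hf β).X' i x ∈ NN f β := by
  obtain ⟨h, m, hh, e, g⟩ := hx
  refine ⟨fun s => X i * h s, m, (PF.const _).mul hh, ?_, ?_⟩
  · rw [WBAux.toF_mul, ← e]
    show toF ℂ (X i) * x * toF ℂ f ^ m = _
    ring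
  · refine Gen.congr _ _ (g.mul (PF.const (X i))) ?_
    filter_upwards with k
    ring

theorem NN_D (f : MvPolynomial ι ℂ) (hf : f ≠ 0) (β : ℂ) (i : ι) {x : FF ℂ ι}
    (hx : x ∈ NN f β) : (WBAux.fw f hf β).D' i x ∈ NN f β := by
  obtain ⟨h, m, hh, e, g⟩ := hx
  refine ⟨fun s => f * pderiv i (h s) + C (s - m) * h s * pderiv i f, m + 1, ?_, ?_, ?_⟩
  · refine ((PF.const _).mul (hh.pderiv i)).add (((?_ : PF _).mul hh).mul (PF.const _))
    exact (PF.id.sub (PF.const (C (m : ℂ)))).congr fun c => by rw [C_sub]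
  · have h0 := WBAux.toF_ne hf
    have hx : x = toF ℂ (h β) * ((toF ℂ f)⁻¹) ^ m := by
      rw [← e, mul_assoc, ← mul_pow, mul_inv_cancel₀ h0, one_pow, mul_one]
    rw [WBAux.fw_D, hx, WBAux.dF_mul, dF_toF, WBAux.dF_invpow i hf, WBAux.toF_add,
      WBAux.toF_mul, WBAux.toF_mul, WBAux.toF_mul, WBAux.toF_C_mul]
    have h1 : ∀ n : ℕ, ((toF ℂ f)⁻¹) ^ n * toF ℂ f ^ n = 1 := fun n => by
      rw [← mul_pow, inv_mul_cancel₀ h0, one_pow]
    have h2 : ((toF ℂ f)⁻¹) ^ m * toF ℂ f ^ (m + 1) = toF ℂ f := by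
      rw [pow_succ, ← mul_assoc, h1, one_mul]
    have h3 : (toF ℂ f)⁻¹ * ((toF ℂ f)⁻¹) ^ m * toF ℂ f ^ (m + 1) = 1 := by
      rw [← pow_succ', h1]
    simp only [Algebra.smul_def, map_sub]
    linear_combination (toF ℂ (pderiv i (h β))) * h2 +
      (algebraMap ℂ (FF ℂ ι) β - algebraMap ℂ (FF ℂ ι) m) * toF ℂ (h β) *
        toF ℂ (pderiv i f) * h3
  · obtain ⟨P, hP⟩ := exists_der i
    refine Gen.congr _ _ (Gen.act P _ g) ?_
    filter_upwards [eventually_ge_atTop (m + 1)] with k hk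
    rw [hP, pderiv_fam f h i m k hk]

omit [DecidableEq ι] in
theorem NN_gen (f : MvPolynomial ι ℂ) (β : ℂ) : toF ℂ f ∈ NN f β ∧
    ∀ a, toF ℂ (pderiv a f) ∈ NN f β := by
  refine ⟨⟨fun _ => f, 0, PF.const f, by rw [pow_zero, mul_one], ?_⟩,
    fun a => ⟨fun _ => pderiv a f, 0, PF.const _, by rw [pow_zero, mul_one], ?_⟩⟩
  · refine Gen.congr _ _ (Gen.gen _ (Or.inr rfl)) ?_
    filter_upwards with k
    rw [Nat.sub_zero, pow_succ']
  · refine Gen.congr _ _ (Gen.gen _ (Or.inl ⟨a, rfl⟩)) ?_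
    filter_upwards with k
    rw [Nat.sub_zero]

omit [DecidableEq ι] in
/-- the main point -/
theorem one_notMem (f : MvPolynomial ι ℂ) {β : ℂ} (hβ : β ≠ -1) {b₀ : Polynomial ℂ}
    (hb0 : b₀ ≠ 0) (hb : IsEvBernstein f b₀) (hgen : ∀ b, IsEvBernstein f b → b₀ ∣ b)
    (hroot : b₀.eval β = 0) (hne : ∀ i : ℕ, b₀.eval (β - (i + 1)) ≠ 0) :
    (1 : FF ℂ ι) ∉ NN f β := by
  rintro ⟨h, m, hh, e, g⟩
  rw [one_mul, ← WBAux.toF_pow] at e
  have e := WBAux.toF_inj e
  obtain ⟨g', hg', eg⟩ := (hh.sub (PF.const (f ^ m))).root (β := β) (by rw [← e, sub_self])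
  -- `g' f^{s-m}` is in `A_n[s] f^s`
  have h1 : Gen {fun k => f ^ k} fun k => C ((k : ℂ) - β) * (g' k * f ^ (k - m)) := by
    refine Gen.congr _ _ ((GJ_zero g).sub (Gen.gen _ (Set.mem_singleton _))) ?_
    filter_upwards [eventually_ge_atTop m] with k hk
    rw [← mul_assoc, ← eg, sub_mul, ← pow_add, Nat.add_sub_cancel' hk]
  have h2 := BB_mem hb m
  have hcop : IsCoprime (Polynomial.X - Polynomial.C β) (BB b₀ m) := by
    rw [Irreducible.coprime_iff_not_dvd (Polynomial.irreducible_X_sub_C β),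
      Polynomial.dvd_iff_isRoot, Polynomial.IsRoot.def, BB, Polynomial.eval_prod,
      Finset.prod_eq_zero_iff]
    rintro ⟨i, -, hi⟩
    apply hne i
    rw [Polynomial.eval_comp] at hi
    simpa using hi
  obtain ⟨p, q, hpq⟩ := hcop
  have h3 : Gen {fun k => f ^ k} fun k => g' k * f ^ (k - m) := by
    refine Gen.congr _ _ (Gen.add _ _ (h1.mul (PF.poly p)) (h2.mul ((PF.poly q).mul hg'))) ?_
    filter_upwards with k
    have h4 := congrArg (fun r : Polynomial ℂ => (C (r.eval (k : ℂ)) : MvPolynomial ι ℂ)) hpq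
    simp only [Polynomial.eval_add, Polynomial.eval_mul, Polynomial.eval_sub, Polynomial.eval_X,
      Polynomial.eval_C, Polynomial.eval_one, map_add, map_mul, map_sub, map_one] at h4
    simp only [map_sub]
    linear_combination (-(g' k * f ^ (k - m))) * h4
  obtain ⟨G, hG⟩ := h3.single
  obtain ⟨P, hP⟩ := hb
  -- `b'(s) f^s` is in `J`
  obtain ⟨b', hb'⟩ := Polynomial.dvd_iff_isRoot.2 hroot
  have hb'0 : b' ≠ 0 := by
    rintro rfl
    exact hb0 (by rw [hb', mul_zero])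
  have h5 : Gen (GJ f) fun k => C (b'.eval (k : ℂ)) * f ^ k := by
    refine Gen.congr _ _ ((g.mul (PF.poly b')).sub
      (Gen.act G _ (Gen.act P _ (Gen.gen (fun k => f ^ (k + 1)) (Or.inr rfl))))) ?_
    filter_upwards [hG, hP, eventually_ge_atTop m] with k a1 a2 hk
    rw [a2, wact_scal, ← a1, hb', Polynomial.eval_mul, Polynomial.eval_sub, Polynomial.eval_X,
      Polynomial.eval_C, C_mul]
    have h6 := eg k
    have h7 : f ^ k = f ^ m * f ^ (k - m) := by rw [← pow_add, Nat.add_sub_cancel' hk]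
    rw [h7]
    linear_combination (-(C (b'.eval (k : ℂ)) * f ^ (k - m))) * h6
  obtain ⟨P1, hP1⟩ := (GJ_succ h5).single
  have h8 : IsEvBernstein f ((Polynomial.X + 1) * b') := by
    refine ⟨P1, ?_⟩
    filter_upwards [hP1] with k a
    rw [← a, Polynomial.eval_mul]
    simp [mul_assoc]
  have h9 := hgen _ h8
  rw [hb'] at h9
  have h10 := (mul_dvd_mul_iff_right hb'0).1 h9
  rw [Polynomial.dvd_iff_isRoot, Polynomial.IsRoot.def] at h10
  simp only [Polynomial.eval_add, Polynomial.eval_X, Polynomial.eval_one] at h10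
  exact hβ (eq_neg_of_add_eq_zero_left h10)

theorem wit (f : MvPolynomial ι ℂ) (hf : f ≠ 0) {β : ℂ} (h1 : (1 : FF ℂ ι) ∉ NN f β) :
    Wit f β := by
  obtain ⟨c, hc⟩ : ∃ c : ℕ → ℂ, ∀ i, c i = ∏ l ∈ Finset.range i, (β - l) := ⟨_, fun _ => rfl⟩
  have hcs : ∀ i, c (i + 1) = c i * (β - i) := by
    intro i
    rw [hc, hc, Finset.prod_range_succ]
  have h0 := WBAux.toF_ne hf
  refine WBAux.wit_quot (WBAux.fw f hf β) (NN f β) (fun i x hx => NN_X f hf β i hx)
    (fun i x hx => NN_D f hf β i hx) f β (fun i => c i • ((toF ℂ f)⁻¹) ^ i) ?_ ?_ ?_ ?_ ?_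
  · simpa [hc] using h1
  · rw [WBAux.fw_pX]
    simpa [hc] using (NN_gen f β).1
  · intro a
    rw [WBAux.fw_pX]
    simpa [hc] using (NN_gen f β).2 a
  · intro i a
    rw [WBAux.fw_pX, WBAux.fw_D, Derivation.map_smul, WBAux.dF_invpow a hf, hcs]
    simp only [Algebra.smul_def, map_mul, map_sub]
    ring
  · intro i
    rw [WBAux.fw_pX, hcs]
    have h2 : toF ℂ f * ((toF ℂ f)⁻¹) ^ (i + 1) = ((toF ℂ f)⁻¹) ^ i := by
      rw [pow_succ', ← mul_assoc, mul_inv_cancel₀ h0, one_mul]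
    simp only [Algebra.smul_def, map_mul, map_sub]
    linear_combination (algebraMap ℂ (FF ℂ ι) (c i) * (algebraMap ℂ (FF ℂ ι) β -
      algebraMap ℂ (FF ℂ ι) i)) * h2

end W2Aux

open W2Aux EBDAux in
theorem stmt_W2 : Stmt_W2 := by
  intro ι _ _ f r j hf hr hint hroot
  obtain ⟨b₀, hb₀⟩ := (IsPrincipalIdealRing.principal (bIdeal f)).principal
  have hb : IsEvBernstein f b₀ := by
    have : b₀ ∈ bIdeal f := by rw [hb₀]; exact Submodule.mem_span_singleton_self b₀
    exact this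
  have hgen : ∀ b, IsEvBernstein f b → b₀ ∣ b := by
    intro b hb
    have hb' : b ∈ bIdeal f := hb
    rw [hb₀] at hb'
    exact Ideal.mem_span_singleton.1 hb'
  obtain ⟨b₁, hb₁, hb₁'⟩ := exists_evBernstein f
  have h0 : b₀ ≠ 0 := by
    rintro rfl
    exact hb₁ (zero_dvd_iff.1 (hgen _ hb₁'))
  have hfin : Set.Finite {l : ℕ | b₀.eval (-(r : ℂ) - l) = 0} := by
    refine Set.Finite.of_finite_image (f := fun l : ℕ => (-(r : ℂ) - l)) ?_ ?_
    · refine (b₀.roots.toFinset.finite_toSet).subset ?_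
      rintro _ ⟨l, hl, rfl⟩
      simpa [h0] using hl
    · intro a _ b _ hab
      simpa using hab
  have hne : {l : ℕ | b₀.eval (-(r : ℂ) - l) = 0}.Nonempty := ⟨j, hroot b₀ hb⟩
  obtain ⟨J, hJ, hmax⟩ := Set.exists_max_image _ id hfin hne
  have hcast : (((-r - J : ℚ)) : ℂ) = -(r : ℂ) - J := by push_cast; ring
  refine ⟨-r - J, -(J : ℤ), ?_, ?_, ?_⟩
  · have : (0 : ℚ) ≤ J := Nat.cast_nonneg J
    linarith
  · push_cast
    ring
  · rw [hcast]
    apply wit f hf
    apply one_notMem f ?_ h0 hb hgen hJ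
    · intro i hi
      have h2 := hmax (J + i + 1) (by
        show b₀.eval _ = 0
        rw [← hi]
        congr 1
        push_cast
        ring)
      simp only [id] at h2
      omega
    · intro h2
      have h3 : (r : ℂ) = ((1 - J : ℤ) : ℂ) := by
        push_cast
        linear_combination -h2
      exact hint (1 - J) (by exact_mod_cast h3)

end Pool.Agent.Mono.TS
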