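import Pool.Agent.Work.Monodromy4.WB

/-!
# Witness for two coprime factors with a common zero
-/

namespace Pool.Agent.Mono.TS

open MvPolynomial

namespace W3Aux

open WBAux

variable {ι : Type}

theorem not_mem (g h : MvPolynomial ι ℂ) (p : ι → ℂ) (hg : g ≠ 0) (hh : h ≠ 0)
    (hr : IsRelPrime g h) (hpg : eval p g = 0) (hph : eval p h = 0) :
    (toF ℂ g)⁻¹ * (toF ℂ h)⁻¹ ∉ SS g ⊔ SS h := by
  intro hmem
  obtain ⟨x, ⟨j, a, hx⟩, y, ⟨k, b, hy⟩, hxy⟩ := Submodule.mem_sup.1 hmem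
  have hG := toF_ne hg
  have hH := toF_ne hh
  -- raise the exponents by one
  have hx' : x * toF ℂ g ^ (j + 1) = toF ℂ (a * g) := by
    rw [pow_succ, ← mul_assoc, hx, toF_mul]
  have hy' : y * toF ℂ h ^ (k + 1) = toF ℂ (b * h) := by
    rw [pow_succ, ← mul_assoc, hy, toF_mul]
  generalize a * g = a' at hx'
  generalize b * h = b' at hy'
  have key : g ^ j * h ^ k = a' * h ^ (k + 1) + b' * g ^ (j + 1) := by
    apply toF_inj
    have e1 : (toF ℂ g)⁻¹ * (toF ℂ h)⁻¹ * (toF ℂ g ^ (j + 1) * toF ℂ h ^ (k + 1)) =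
        toF ℂ g ^ j * toF ℂ h ^ k := by
      rw [pow_succ, pow_succ]
      field_simp
    rw [← hxy] at e1
    rw [toF_mul, toF_pow, toF_pow, ← e1, toF_add, toF_mul, toF_mul, toF_pow, toF_pow, ← hx',
      ← hy']
    ring
  have hgk : IsRelPrime (g ^ j) (h ^ (k + 1)) := hr.pow
  have hhk : IsRelPrime (h ^ k) (g ^ (j + 1)) := hr.symm.pow
  have d1 : g ^ j ∣ a' := by
    apply hgk.dvd_of_dvd_mul_right
    have : a' * h ^ (k + 1) = g ^ j * (h ^ k - b' * g) := by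
      linear_combination -key
    exact ⟨_, this⟩
  have d2 : h ^ k ∣ b' := by
    apply hhk.dvd_of_dvd_mul_right
    have : b' * g ^ (j + 1) = h ^ k * (g ^ j - a' * h) := by
      linear_combination -key
    exact ⟨_, this⟩
  obtain ⟨c, rfl⟩ := d1
  obtain ⟨d, rfl⟩ := d2
  have h1 : g ^ j * h ^ k * 1 = g ^ j * h ^ k * (c * h + d * g) := by
    linear_combination key
  have h2 := mul_left_cancel₀ (mul_ne_zero (pow_ne_zero j hg) (pow_ne_zero k hh)) h1
  have h3 := congrArg (eval p) h2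
  rw [map_one, map_add, map_mul, map_mul, hpg, hph] at h3
  simp at h3

theorem vD {F : MvPolynomial ι ℂ} (hF : F ≠ 0) (i : ℕ) (a : ι) :
    dF ℂ a (((-1) ^ i * (i.factorial : ℂ)) • ((toF ℂ F)⁻¹ ^ (i + 1))) =
      toF ℂ (pderiv a F) * (((-1) ^ (i + 1) * ((i + 1).factorial : ℂ)) •
        ((toF ℂ F)⁻¹ ^ (i + 1 + 1))) := by
  rw [Derivation.map_smul, dF_invpow a hF, Nat.factorial_succ]
  rw [Algebra.smul_def, Algebra.smul_def, Algebra.smul_def]
  push_cast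
  ring

theorem vX {F : MvPolynomial ι ℂ} (hF : F ≠ 0) (i : ℕ) :
    toF ℂ F * (((-1) ^ (i + 1) * ((i + 1).factorial : ℂ)) • ((toF ℂ F)⁻¹ ^ (i + 1 + 1))) =
      (-1 - (i : ℂ)) • (((-1) ^ i * (i.factorial : ℂ)) • ((toF ℂ F)⁻¹ ^ (i + 1))) := by
  rw [Nat.factorial_succ, pow_succ ((toF ℂ F)⁻¹) (i + 1)]
  have h0 := mul_inv_cancel₀ (toF_ne hF)
  rw [Algebra.smul_def, Algebra.smul_def, Algebra.smul_def]
  push_cast
  linear_combination ((-1) ^ (i + 1) * (((i : FF ℂ ι) + 1) * (i.factorial : FF ℂ ι)) *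
      (toF ℂ F)⁻¹ ^ (i + 1)) * h0

end W3Aux

open WBAux in
theorem stmt_W3 : Stmt_W3 := by
  intro ι _ _ g h p hg hh hr hpg hph
  have hgh : g * h ≠ 0 := mul_ne_zero hg hh
  have h1 : (1 : MvPolynomial ι ℂ) ≠ 0 := one_ne_zero
  have hG := toF_ne hg
  have hH := toF_ne hh
  let w := fw (1 : MvPolynomial ι ℂ) h1 0
  have hwX : ∀ q x, w.pX q x = toF ℂ q * x := fun q x => fw_pX _ h1 0 q x
  have hwD : ∀ i x, w.D' i x = dF ℂ i x := by
    intro i x
    show (fw (1 : MvPolynomial ι ℂ) h1 0).D' i x = _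
    rw [fw_D, zero_smul, zero_mul, add_zero]
  have hXN : ∀ q, ∀ x ∈ SS g ⊔ SS h, toF ℂ q * x ∈ SS g ⊔ SS h := by
    intro q x hx
    obtain ⟨y, hy, z, hz, rfl⟩ := Submodule.mem_sup.1 hx
    rw [mul_add]
    exact Submodule.add_mem_sup (SS_mul g q hy) (SS_mul h q hz)
  refine wit_quot w (SS g ⊔ SS h) ?_ ?_ (g * h) (-1)
    (fun i => ((-1) ^ i * (i.factorial : ℂ)) • ((toF ℂ (g * h))⁻¹ ^ (i + 1))) ?_ ?_ ?_ ?_ ?_
  · intro i x hx
    rw [← BP.WMod.pX_X, hwX]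
    exact hXN _ x hx
  · intro i x hx
    rw [hwD]
    obtain ⟨y, hy, z, hz, rfl⟩ := Submodule.mem_sup.1 hx
    rw [map_add]
    exact Submodule.add_mem_sup (SS_dF g i hy) (SS_dF h i hz)
  · simp only [pow_zero, Nat.factorial_zero, Nat.cast_one, mul_one, one_smul, zero_add, pow_one]
    rw [toF_mul, mul_inv]
    exact W3Aux.not_mem g h p hg hh hr hpg hph
  · rw [hwX]
    simp only [pow_zero, Nat.factorial_zero, Nat.cast_one, mul_one, one_smul, zero_add, pow_one]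
    rw [mul_inv_cancel₀ (toF_ne hgh), ← toF_one]
    exact Submodule.mem_sup_left (SS_toF g 1)
  · intro a
    rw [hwX]
    simp only [pow_zero, Nat.factorial_zero, Nat.cast_one, mul_one, one_smul, zero_add, pow_one]
    have e : toF ℂ (pderiv a (g * h)) * (toF ℂ (g * h))⁻¹ =
        toF ℂ (pderiv a g) * (toF ℂ g)⁻¹ + toF ℂ (pderiv a h) * (toF ℂ h)⁻¹ := by
      rw [pderiv_mul, toF_add, toF_mul, toF_mul, toF_mul]
      field_simp
    rw [e]
    exact Submodule.add_mem_sup (SS_inv hg _) (SS_inv hh _)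
  · intro i a
    rw [hwD, hwX]
    exact W3Aux.vD hgh i a
  · intro i
    rw [hwX]
    exact W3Aux.vX hgh i

end Pool.Agent.Mono.TS
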