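import Pool.Agent.Work.Monodromy4.WB

/-!
# Tensor products of modules over Weyl algebras; witnesses for sums in separate variables
-/

namespace Pool.Agent.Mono.TS

open MvPolynomial
open scoped TensorProduct

namespace W4Aux

open WBAux

variable {V V' ι κ : Type} [AddCommGroup V] [Module ℂ V] [AddCommGroup V'] [Module ℂ V']
  [DecidableEq ι] [DecidableEq κ]

/-- the exterior tensor product -/
noncomputable def tens (w : BP.WMod ℂ V ι) (w' : BP.WMod ℂ V' κ) :
    BP.WMod ℂ (V ⊗[ℂ] V') (ι ⊕ κ) where
  X' := Sum.elim (fun i => (w.X' i).rTensor V') fun j => (w'.X' j).lTensor V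
  D' := Sum.elim (fun i => (w.D' i).rTensor V') fun j => (w'.D' j).lTensor V
  XX i j := by
    apply TensorProduct.ext'
    intro x y
    have h1 := fun i j => congrArg (fun T : Module.End ℂ V => T x) (w.XX i j)
    have h2 := fun i j => congrArg (fun T : Module.End ℂ V' => T y) (w'.XX i j)
    simp only [Module.End.mul_apply] at h1 h2
    rcases i with i | i <;> rcases j with j | j
    · simp [h1 i j]
    · simp
    · simp
    · simp [h2 i j]
  DD i j := by
    apply TensorProduct.ext'
    intro x y
    have h1 := fun i j => congrArg (fun T : Module.End ℂ V => T x) (w.DD i j)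
    have h2 := fun i j => congrArg (fun T : Module.End ℂ V' => T y) (w'.DD i j)
    simp only [Module.End.mul_apply] at h1 h2
    rcases i with i | i <;> rcases j with j | j
    · simp [h1 i j]
    · simp
    · simp
    · simp [h2 i j]
  DX i j := by
    apply TensorProduct.ext'
    intro x y
    have h1 := fun i j => congrArg (fun T : Module.End ℂ V => T x) (w.DX i j)
    have h2 := fun i j => congrArg (fun T : Module.End ℂ V' => T y) (w'.DX i j)
    rcases i with i | i <;> rcases j with j | j
    · by_cases hij : i = j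
      · subst hij
        have h := h1 i i
        simp only [if_true, Module.End.mul_apply, LinearMap.add_apply,
          Module.End.one_apply] at h
        simp [h, TensorProduct.add_tmul]
      · have h := h1 i j
        simp only [hij, if_false, Module.End.mul_apply, add_zero] at h
        simp [h, hij]
    · simp
    · simp
    · by_cases hij : i = j
      · subst hij
        have h := h2 i i
        simp only [if_true, Module.End.mul_apply, LinearMap.add_apply,
          Module.End.one_apply] at h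
        simp [h, TensorProduct.tmul_add]
      · have h := h2 i j
        simp only [hij, if_false, Module.End.mul_apply, add_zero] at h
        simp [h, hij]

theorem pX_inl (w : BP.WMod ℂ V ι) (w' : BP.WMod ℂ V' κ) (p : MvPolynomial ι ℂ) (x : V) (y : V') :
    (tens w w').pX (rename Sum.inl p) (x ⊗ₜ y) = (w.pX p x) ⊗ₜ y := by
  have h := pX_map w (tens w w') ((TensorProduct.mk ℂ V V').flip y) Sum.inl
    (fun i x => by simp [tens]) p x
  simpa using h.symm

theorem pX_inr (w : BP.WMod ℂ V ι) (w' : BP.WMod ℂ V' κ) (p : MvPolynomial κ ℂ) (x : V) (y : V') :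
    (tens w w').pX (rename Sum.inr p) (x ⊗ₜ y) = x ⊗ₜ (w'.pX p y) := by
  have h := pX_map w' (tens w w') (TensorProduct.mk ℂ V V' x) Sum.inr
    (fun i x => by simp [tens]) p y
  simpa using h.symm

theorem D_inl (w : BP.WMod ℂ V ι) (w' : BP.WMod ℂ V' κ) (i : ι) (x : V) (y : V') :
    (tens w w').D' (Sum.inl i) (x ⊗ₜ y) = (w.D' i x) ⊗ₜ y := by
  simp [tens]

theorem D_inr (w : BP.WMod ℂ V ι) (w' : BP.WMod ℂ V' κ) (i : κ) (x : V) (y : V') :
    (tens w w').D' (Sum.inr i) (x ⊗ₜ y) = x ⊗ₜ (w'.D' i y) := by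
  simp [tens]

theorem tmul_ne {x : V} {y : V'} (hx : x ≠ 0) (hy : y ≠ 0) : x ⊗ₜ[ℂ] y ≠ 0 := by
  intro h
  have h1 : ¬ ∀ φ : Module.Dual ℂ V, φ x = 0 := fun h' =>
    hx ((Module.forall_dual_apply_eq_zero_iff ℂ x).mp h')
  have h2 : ¬ ∀ φ : Module.Dual ℂ V', φ y = 0 := fun h' =>
    hy ((Module.forall_dual_apply_eq_zero_iff ℂ y).mp h')
  push Not at h1 h2
  obtain ⟨φ, hφ⟩ := h1
  obtain ⟨ψ, hψ⟩ := h2
  have h3 := congrArg (fun z => TensorProduct.lid ℂ ℂ (TensorProduct.map φ ψ z)) h
  simp [hφ, hψ] at h3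

omit [DecidableEq ι] [DecidableEq κ] in
theorem pd_inl_inl (i : ι) (p : MvPolynomial ι ℂ) :
    pderiv (Sum.inl i) (rename Sum.inl p : MvPolynomial (ι ⊕ κ) ℂ) =
      rename Sum.inl (pderiv i p) := pderiv_rename Sum.inl_injective _ _

omit [DecidableEq ι] [DecidableEq κ] in
theorem pd_inr_inr (i : κ) (p : MvPolynomial κ ℂ) :
    pderiv (Sum.inr i) (rename Sum.inr p : MvPolynomial (ι ⊕ κ) ℂ) =
      rename Sum.inr (pderiv i p) := pderiv_rename Sum.inr_injective _ _

theorem pd_inl_inr (i : ι) (p : MvPolynomial κ ℂ) :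
    pderiv (Sum.inl i) (rename Sum.inr p : MvPolynomial (ι ⊕ κ) ℂ) = 0 := by
  induction p using MvPolynomial.induction_on with
  | C a => rw [rename_C, pderiv_C]
  | add p q hp hq => rw [map_add, map_add, hp, hq, add_zero]
  | mul_X p j hp =>
    rw [map_mul, pderiv_mul, hp, rename_X, pderiv_X, Pi.single_eq_of_ne (by simp)]
    simp

theorem pd_inr_inl (i : κ) (p : MvPolynomial ι ℂ) :
    pderiv (Sum.inr i) (rename Sum.inl p : MvPolynomial (ι ⊕ κ) ℂ) = 0 := by
  induction p using MvPolynomial.induction_on with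
  | C a => rw [rename_C, pderiv_C]
  | add p q hp hq => rw [map_add, map_add, hp, hq, add_zero]
  | mul_X p j hp =>
    rw [map_mul, pderiv_mul, hp, rename_X, pderiv_X, Pi.single_eq_of_ne (by simp)]
    simp

end W4Aux

open WBAux W4Aux in
theorem stmt_W4 : Stmt_W4 := by
  rintro ι κ _ _ _ _ f g β β' ⟨V, i1, i2, w, v, hv0, hf0, hdf, hD, hf⟩
    ⟨V', i1', i2', w', v', hv0', hf0', hdf', hD', hf'⟩
  refine ⟨V ⊗[ℂ] V', inferInstance, inferInstance, tens w w',
    fun i => ∑ a ∈ Finset.range (i + 1), v a ⊗ₜ[ℂ] v' (i - a), ?_, ?_, ?_, ?_, ?_⟩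
  · simpa using tmul_ne hv0 hv0'
  · simp only [zero_add, Finset.range_one, Finset.sum_singleton, Nat.sub_zero]
    unfold oplus
    rw [pX_add, pX_inl, pX_inr, hf0, hf0', TensorProduct.zero_tmul, TensorProduct.tmul_zero,
      add_zero]
  · intro a
    simp only [zero_add, Finset.range_one, Finset.sum_singleton, Nat.sub_zero]
    unfold oplus
    rcases a with a | a
    · rw [map_add, pd_inl_inl, pd_inl_inr, add_zero, pX_inl, hdf, TensorProduct.zero_tmul]
    · rw [map_add, pd_inr_inl, pd_inr_inr, zero_add, pX_inr, hdf', TensorProduct.tmul_zero]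
  · intro i a
    simp only []
    unfold oplus
    rcases a with a | a
    · rw [map_add, pd_inl_inl, pd_inl_inr, add_zero, map_sum, map_sum,
        Finset.sum_range_succ' _ (i + 1)]
      simp only [D_inl, pX_inl, hdf, TensorProduct.zero_tmul, add_zero, hD]
      refine Finset.sum_congr rfl fun b hb => ?_
      rw [Nat.add_sub_add_right]
    · rw [map_add, pd_inr_inl, pd_inr_inr, zero_add, map_sum, map_sum,
        Finset.sum_range_succ _ (i + 1)]
      simp only [D_inr, pX_inr, hdf', TensorProduct.tmul_zero, hD', Nat.sub_self, add_zero]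
      refine Finset.sum_congr rfl fun b hb => ?_
      have hb' : b ≤ i := Nat.lt_succ_iff.1 (Finset.mem_range.1 hb)
      rw [Nat.succ_sub hb']
  · intro i
    simp only []
    unfold oplus
    rw [pX_add, map_sum, map_sum, Finset.smul_sum]
    rw [Finset.sum_range_succ' _ (i + 1), Finset.sum_range_succ _ (i + 1)]
    simp only [pX_inl, pX_inr, hf0, hf0', hf, TensorProduct.zero_tmul, TensorProduct.tmul_zero,
      Nat.sub_self, add_zero]
    rw [← Finset.sum_add_distrib]
    refine Finset.sum_congr rfl fun b hb => ?_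
    have hb' : b ≤ i := Nat.lt_succ_iff.1 (Finset.mem_range.1 hb)
    rw [Nat.add_sub_add_right, Nat.succ_sub hb', hf', ← TensorProduct.smul_tmul',
      TensorProduct.tmul_smul, ← add_smul]
    congr 1
    rw [Nat.cast_sub hb']
    ring

end Pool.Agent.Mono.TS
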