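import Pool.Agent.Work.Monodromy4.W4

/-!
# Witnesses for products in separate variables
-/

namespace Pool.Agent.Mono.TS

open MvPolynomial
open scoped TensorProduct

namespace W6Aux

open WBAux W4Aux

theorem fD {κ : Type} [DecidableEq κ] {g : MvPolynomial κ ℂ} (hg : g ≠ 0) (β : ℂ) (a : κ) (i : ℕ) :
    (fw g hg β).D' a ((toF ℂ g)⁻¹ ^ i) =
      (β - i) • (toF ℂ (pderiv a g) * (toF ℂ g)⁻¹ ^ (i + 1)) := by
  rw [fw_D, dF_invpow a hg i, sub_smul]
  simp only [Algebra.smul_def]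
  ring

theorem fX {κ : Type} {g : MvPolynomial κ ℂ} (hg : g ≠ 0) (i : ℕ) :
    toF ℂ g * (toF ℂ g)⁻¹ ^ (i + 1) = (toF ℂ g)⁻¹ ^ i := by
  rw [pow_succ', ← mul_assoc, mul_inv_cancel₀ (toF_ne hg), one_mul]

theorem wit_otimes (ι κ : Type) [DecidableEq ι] [DecidableEq κ]
    (f : MvPolynomial ι ℂ) (g : MvPolynomial κ ℂ) (β : ℂ) (hg : g ≠ 0) (hw : Wit f β) :
    Wit (otimes f g) β := by
  obtain ⟨V, i1, i2, w, v, hv0, hf0, hdf, hD, hf⟩ := hw
  refine ⟨V ⊗[ℂ] FF ℂ κ, inferInstance, inferInstance, tens w (fw g hg β),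
    fun i => v i ⊗ₜ[ℂ] ((toF ℂ g)⁻¹ ^ i), ?_, ?_, ?_, ?_, ?_⟩
  · refine tmul_ne hv0 ?_
    rw [pow_zero]
    exact one_ne_zero
  · unfold otimes
    rw [pX_mul, pX_inr, pX_inl, hf0, TensorProduct.zero_tmul]
  · intro a
    unfold otimes
    rcases a with a | a
    · rw [pderiv_mul, pd_inl_inl, pd_inl_inr, mul_zero, add_zero, pX_mul, pX_inr, pX_inl, hdf,
        TensorProduct.zero_tmul]
    · rw [pderiv_mul, pd_inr_inl, pd_inr_inr, zero_mul, zero_add, pX_mul, pX_inr, pX_inl, hf0,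
        TensorProduct.zero_tmul]
  · intro i a
    unfold otimes
    rcases a with a | a
    · rw [pderiv_mul, pd_inl_inl, pd_inl_inr, mul_zero, add_zero, pX_mul, pX_inr, pX_inl, D_inl,
        hD, fw_pX, fX hg]
    · rw [pderiv_mul, pd_inr_inl, pd_inr_inr, zero_mul, zero_add, pX_mul, pX_inr, pX_inl, D_inr,
        fD hg, hf, fw_pX, TensorProduct.tmul_smul, TensorProduct.smul_tmul']
  · intro i
    unfold otimes
    rw [pX_mul, pX_inr, pX_inl, hf, fw_pX, fX hg, TensorProduct.smul_tmul']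

end W6Aux

theorem stmt_W6 : Stmt_W6 := by
  intro ι κ _ _ _ _ f g β hg hw
  have h1 := W6Aux.wit_otimes ι κ f g β hg hw
  refine ⟨h1, ?_⟩
  have h2 := WBAux.wit_rename (Equiv.sumComm ι κ) _ β h1
  have h3 : rename (Equiv.sumComm ι κ) (otimes f g) = otimes g f := by
    unfold otimes
    rw [map_mul, rename_rename, rename_rename, mul_comm]
    rfl
  rwa [h3] at h2

end Pool.Agent.Mono.TS
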