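import Pool.Agent.Work.Monodromy.Interface4
import Pool.Agent.Work.Monodromy.Frac

/-!
# Block W7 (helper89): witnesses for powers, constant factors, change of the index type
-/

set_option autoImplicit false

namespace Pool.Agent.Mono.TS

open MvPolynomial

namespace W7Aux

section gen

variable {ι : Type}

theorem pd_comm (i j : ι) (p : MvPolynomial ι ℂ) : pderiv i (pderiv j p) = pderiv j (pderiv i p) := by
  classical
  have key : ∀ D1 D2 : Derivation ℂ (MvPolynomial ι ℂ) (MvPolynomial ι ℂ), D1 = pderiv i →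
      D2 = pderiv j → ⁅D1, D2⁆ = 0 := by
    rintro _ _ rfl rfl
    refine MvPolynomial.derivation_ext fun k => ?_
    rw [Derivation.commutator_apply]
    simp [pderiv_X, Pi.single_apply, apply_ite]
  have h2 := congrArg (fun D : Derivation ℂ (MvPolynomial ι ℂ) (MvPolynomial ι ℂ) => D p)
    (key _ _ rfl rfl)
  simp only [Derivation.commutator_apply, Derivation.coe_zero, Pi.zero_apply] at h2
  exact sub_eq_zero.1 h2

theorem dF_comm (i j : ι) (x : FF ℂ ι) : dF ℂ i (dF ℂ j x) = dF ℂ j (dF ℂ i x) := by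
  have h0 : ∀ p : MvPolynomial ι ℂ,
      (⁅dF ℂ i, dF ℂ j⁆ : Derivation ℂ (FF ℂ ι) (FF ℂ ι)) (toF ℂ p) = 0 := by
    intro p
    rw [Derivation.commutator_apply, dF_toF, dF_toF, dF_toF, dF_toF, pd_comm, sub_self]
  obtain ⟨p, q, hq, rfl⟩ := IsFractionRing.div_surjective (A := MvPolynomial ι ℂ) x
  set D : Derivation ℂ (FF ℂ ι) (FF ℂ ι) := ⁅dF ℂ i, dF ℂ j⁆ with hD
  have hq0 : (algebraMap (MvPolynomial ι ℂ) (FF ℂ ι) q) ≠ 0 := by
    intro h
    exact nonZeroDivisors.ne_zero hq ((IsFractionRing.injective (MvPolynomial ι ℂ) (FF ℂ ι))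
      (by rw [h, map_zero]))
  have h1 : D (algebraMap (MvPolynomial ι ℂ) (FF ℂ ι) p / algebraMap (MvPolynomial ι ℂ) (FF ℂ ι) q *
      algebraMap (MvPolynomial ι ℂ) (FF ℂ ι) q) = 0 := by
    rw [div_mul_cancel₀ _ hq0]
    exact h0 p
  rw [Derivation.leibniz, show D (algebraMap (MvPolynomial ι ℂ) (FF ℂ ι) q) = 0 from h0 q, smul_zero,
    zero_add, smul_eq_mul] at h1
  have h2 := (mul_eq_zero.1 h1).resolve_left hq0
  rw [hD, Derivation.commutator_apply] at h2
  exact sub_eq_zero.1 h2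

variable [DecidableEq ι]

/-- the fraction field as a module over the Weyl algebra -/
noncomputable def wF : BP.WMod ℂ (FF ℂ ι) ι where
  X' i := LinearMap.mulLeft ℂ (toF ℂ (X i))
  D' i := (dF ℂ i : FF ℂ ι →ₗ[ℂ] FF ℂ ι)
  XX i j := LinearMap.ext fun x => by
    simp only [Module.End.mul_apply, LinearMap.mulLeft_apply]
    ring
  DD i j := LinearMap.ext fun x => dF_comm i j x
  DX i j := LinearMap.ext fun x => by
    simp only [Module.End.mul_apply, LinearMap.mulLeft_apply, LinearMap.add_apply,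
      Derivation.coeFn_coe, Derivation.leibniz, dF_toF, smul_eq_mul, pderiv_X]
    by_cases h : i = j
    · subst h
      simp [toF]
    · rw [if_neg h, Pi.single_eq_of_ne (Ne.symm h)]
      simp [toF]

omit [DecidableEq ι] in
theorem toF_mul (p q : MvPolynomial ι ℂ) : toF ℂ (p * q) = toF ℂ p * toF ℂ q := map_mul _ _ _

theorem pX_wF (p : MvPolynomial ι ℂ) (x : FF ℂ ι) : (wF (ι := ι)).pX p x = toF ℂ p * x := by
  have h : (wF (ι := ι)).pX = (Algebra.lmul ℂ (FF ℂ ι)).comp
      (Algebra.algHom ℂ (MvPolynomial ι ℂ) (FF ℂ ι)) := by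
    refine MvPolynomial.algHom_ext fun i => ?_
    rw [BP.WMod.pX_X]
    rfl
  rw [h]
  rfl

end gen

section quot

variable {ι V : Type} [DecidableEq ι] [AddCommGroup V] [Module ℂ V]

/-- quotient modules -/
noncomputable def quot (w : BP.WMod ℂ V ι) (N : Submodule ℂ V) (hX : ∀ i, N ≤ N.comap (w.X' i))
    (hD : ∀ i, N ≤ N.comap (w.D' i)) : BP.WMod ℂ (V ⧸ N) ι where
  X' i := N.mapQ N (w.X' i) (hX i)
  D' i := N.mapQ N (w.D' i) (hD i)
  XX i j := by
    refine Submodule.linearMap_qext _ (LinearMap.ext fun x => ?_)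
    have h := congrArg (fun T : Module.End ℂ V => N.mkQ (T x)) (w.XX i j)
    simpa using h
  DD i j := by
    refine Submodule.linearMap_qext _ (LinearMap.ext fun x => ?_)
    have h := congrArg (fun T : Module.End ℂ V => N.mkQ (T x)) (w.DD i j)
    simpa using h
  DX i j := by
    refine Submodule.linearMap_qext _ (LinearMap.ext fun x => ?_)
    have h := congrArg (fun T : Module.End ℂ V => N.mkQ (T x)) (w.DX i j)
    by_cases hij : i = j
    · simpa [hij] using h
    · simpa [hij] using h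

theorem quot_D (w : BP.WMod ℂ V ι) (N : Submodule ℂ V) (hX : ∀ i, N ≤ N.comap (w.X' i))
    (hD : ∀ i, N ≤ N.comap (w.D' i)) (i : ι) (x : V) :
    (quot w N hX hD).D' i (N.mkQ x) = N.mkQ (w.D' i x) := rfl

theorem quot_pX (w : BP.WMod ℂ V ι) (N : Submodule ℂ V) (hX : ∀ i, N ≤ N.comap (w.X' i))
    (hD : ∀ i, N ≤ N.comap (w.D' i)) (p : MvPolynomial ι ℂ) (x : V) :
    (quot w N hX hD).pX p (N.mkQ x) = N.mkQ (w.pX p x) := by
  induction p using MvPolynomial.induction_on generalizing x with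
  | C a =>
    rw [BP.WMod.pX, BP.WMod.pX, BP.liftC_C, BP.liftC_C]
    simp
  | add p q hp hq => rw [map_add, map_add, LinearMap.add_apply, LinearMap.add_apply, hp, hq, map_add]
  | mul_X p i hp =>
    rw [map_mul, map_mul, Module.End.mul_apply, Module.End.mul_apply, BP.WMod.pX_X, BP.WMod.pX_X,
      show (quot w N hX hD).X' i (N.mkQ x) = N.mkQ (w.X' i x) from rfl, hp]

end quot

section pow

variable {ι V : Type} [DecidableEq ι] [AddCommGroup V] [Module ℂ V]

theorem pow_v (w : BP.WMod ℂ V ι) (f : MvPolynomial ι ℂ) (β : ℂ) (v : ℕ → V)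
    (h : ∀ i : ℕ, w.pX f (v (i + 1)) = (β - i) • v i) (n j : ℕ) :
    w.pX (f ^ n) (v (j + n)) = (∏ l ∈ Finset.range n, (β - ((j + l : ℕ) : ℂ))) • v j := by
  induction n with
  | zero => simp
  | succ n ih =>
    rw [pow_succ, map_mul, Module.End.mul_apply, ← add_assoc, h, map_smul, ih, smul_smul,
      Finset.prod_range_succ, mul_comm]

end pow

end W7Aux

open W7Aux

theorem stmt_W7_1 (ι : Type) [Fintype ι] [DecidableEq ι] (f : MvPolynomial ι ℂ) (k : ℕ)
    (hk : 2 ≤ k) (hf : f.totalDegree ≠ 0) : Wit (f ^ k) (-1 / (k : ℂ)) := by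
  have hk0 : (k : ℂ) ≠ 0 := by
    have : k ≠ 0 := by omega
    exact_mod_cast this
  have hf0 : f ≠ 0 := by
    rintro rfl
    simp at hf
  let A : MvPolynomial ι ℂ →ₗ[ℂ] FF ℂ ι := (Algebra.algHom ℂ (MvPolynomial ι ℂ) (FF ℂ ι)).toLinearMap
  have hA : ∀ p, A p = toF ℂ p := fun p => rfl
  set N : Submodule ℂ (FF ℂ ι) := LinearMap.range A with hN
  have hmem : ∀ p, toF ℂ p ∈ N := fun p => ⟨p, rfl⟩
  have hX : ∀ i, N ≤ N.comap ((wF (ι := ι)).X' i) := by
    rintro i _ ⟨p, rfl⟩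
    refine ⟨X i * p, ?_⟩
    rw [hA, toF_mul]
    rfl
  have hD : ∀ i, N ≤ N.comap ((wF (ι := ι)).D' i) := by
    rintro i _ ⟨p, rfl⟩
    exact ⟨pderiv i p, (dF_toF ℂ i p).symm⟩
  have hF0 : toF ℂ f ≠ 0 := by
    intro h
    exact hf0 ((IsFractionRing.injective (MvPolynomial ι ℂ) (FF ℂ ι)) (h.trans (map_zero _).symm))
  let c : ℕ → ℂ := fun i => ∏ l ∈ Finset.range i, (-1 / (k : ℂ) - l)
  have hc : ∀ i, c (i + 1) = c i * (-1 / (k : ℂ) - i) := fun i => Finset.prod_range_succ _ _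
  set F : FF ℂ ι := toF ℂ f with hFdef
  have hpow : ∀ n, toF ℂ (f ^ n) = F ^ n := fun n => map_pow _ _ _
  have hinv : ∀ n m : ℕ, F ^ n * F⁻¹ ^ (n + m) = F⁻¹ ^ m := by
    intro n m
    rw [pow_add, ← mul_assoc, ← mul_pow, mul_inv_cancel₀ hF0, one_pow, one_mul]
  have hpd : ∀ a, pderiv a (f ^ k) = C (k : ℂ) * (f ^ (k - 1) * pderiv a f) := by
    intro a
    rw [Derivation.leibniz_pow]
    simp only [smul_eq_mul, nsmul_eq_mul]
    rw [← map_natCast (C : ℂ →+* MvPolynomial ι ℂ)]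
  have hCk : toF ℂ (C (k : ℂ)) = (k : FF ℂ ι) := by
    rw [map_natCast (C : ℂ →+* MvPolynomial ι ℂ)]
    exact map_natCast _ _
  refine ⟨FF ℂ ι ⧸ N, inferInstance, inferInstance, quot wF N hX hD,
    fun i => N.mkQ (c i • F⁻¹ ^ (1 + k * i)), ?_, ?_, ?_, ?_, ?_⟩
  · intro h
    have h1 : c 0 • F⁻¹ ^ (1 + k * 0) = F⁻¹ := by simp [c]
    simp only [h1] at h
    rw [Submodule.mkQ_apply, Submodule.Quotient.mk_eq_zero] at h
    obtain ⟨p, hp⟩ := h
    have h2 : toF ℂ (p * f) = toF ℂ 1 := by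
      rw [toF_mul, ← hA, hp, inv_mul_cancel₀ hF0]
      exact (map_one _).symm
    have h3 : p * f = 1 := IsFractionRing.injective (MvPolynomial ι ℂ) (FF ℂ ι) h2
    have hp0 : p ≠ 0 := by
      rintro rfl
      simp at h3
    have h4 := totalDegree_mul_of_isDomain hp0 hf0
    rw [h3, totalDegree_one] at h4
    omega
  · simp only
    rw [quot_pX, pX_wF, Submodule.mkQ_apply, Submodule.Quotient.mk_eq_zero]
    have h1 : toF ℂ (f ^ k) * c 0 • F⁻¹ ^ (1 + k * 0) = toF ℂ (f ^ (k - 1)) := by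
      obtain ⟨n, rfl⟩ : ∃ n, k = n + 1 := ⟨k - 1, by omega⟩
      simp only [c, Finset.range_zero, Finset.prod_empty, one_smul, mul_zero, add_zero, pow_one,
        Nat.add_sub_cancel, hpow]
      rw [pow_succ, mul_assoc, mul_inv_cancel₀ hF0, mul_one]
    rw [h1]
    exact hmem _
  · intro a
    simp only
    rw [quot_pX, pX_wF, Submodule.mkQ_apply, Submodule.Quotient.mk_eq_zero]
    have h1 : toF ℂ (pderiv a (f ^ k)) * c 0 • F⁻¹ ^ (1 + k * 0) =
        toF ℂ (C (k : ℂ) * (f ^ (k - 2) * pderiv a f)) := by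
      obtain ⟨n, rfl⟩ : ∃ n, k = n + 2 := ⟨k - 2, by omega⟩
      rw [hpd]
      simp only [c, Finset.range_zero, Finset.prod_empty, one_smul, mul_zero, add_zero, pow_one,
        Nat.add_sub_cancel, toF_mul, show n + 2 - 1 = n + 1 from rfl]
      rw [hpow, hpow, pow_succ]
      field_simp
    rw [h1]
    exact hmem _
  · intro i a
    simp only
    rw [quot_pX, quot_D, pX_wF]
    congr 1
    have h1 : (wF (ι := ι)).D' a (c i • F⁻¹ ^ (1 + k * i)) =
        c i • (-(1 + (k : FF ℂ ι) * i) * F⁻¹ ^ (2 + k * i) * toF ℂ (pderiv a f)) := by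
      change dF ℂ a (c i • F⁻¹ ^ (1 + k * i)) = _
      rw [Derivation.map_smul, Derivation.leibniz_pow, Derivation.leibniz_inv, dF_toF]
      congr 1
      simp only [smul_eq_mul, nsmul_eq_mul, Nat.add_sub_cancel_left]
      push_cast
      rw [pow_add]
      ring
    rw [h1, hpd, toF_mul, toF_mul, hCk, hpow, hc]
    have h2 : F ^ (k - 1) * F⁻¹ ^ (1 + k * (i + 1)) = F⁻¹ ^ (2 + k * i) := by
      have : 1 + k * (i + 1) = (k - 1) + (2 + k * i) := by
        obtain ⟨n, rfl⟩ : ∃ n, k = n + 2 := ⟨k - 2, by omega⟩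
        simp only [show n + 2 - 1 = n + 1 from rfl]
        ring
      rw [this, hinv]
    have h3 : (c i * (-1 / (k : ℂ) - i)) • F⁻¹ ^ (1 + k * (i + 1)) =
        c i • (algebraMap ℂ (FF ℂ ι) (-1 / (k : ℂ) - i) * F⁻¹ ^ (1 + k * (i + 1))) := by
      rw [mul_smul, Algebra.smul_def (-1 / (k : ℂ) - i)]
    rw [h3, mul_smul_comm]
    congr 1
    have h4 : (k : FF ℂ ι) * algebraMap ℂ (FF ℂ ι) (-1 / (k : ℂ) - i) = -(1 + (k : FF ℂ ι) * i) := by
      rw [← map_natCast (algebraMap ℂ (FF ℂ ι)) k, ← map_natCast (algebraMap ℂ (FF ℂ ι)) i,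
        ← map_one (algebraMap ℂ (FF ℂ ι)), ← map_mul, ← map_mul, ← map_add, ← map_neg]
      congr 1
      field_simp
      ring
    calc -(1 + (k : FF ℂ ι) * i) * F⁻¹ ^ (2 + k * i) * toF ℂ (pderiv a f)
        = ((k : FF ℂ ι) * algebraMap ℂ (FF ℂ ι) (-1 / (k : ℂ) - i)) *
            (F ^ (k - 1) * F⁻¹ ^ (1 + k * (i + 1))) * toF ℂ (pderiv a f) := by rw [h4, h2]
      _ = _ := by ring
  · intro i
    simp only
    rw [quot_pX, pX_wF, ← map_smul, hc, hpow]
    congr 1
    have h2 : F ^ k * F⁻¹ ^ (1 + k * (i + 1)) = F⁻¹ ^ (1 + k * i) := by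
      rw [show 1 + k * (i + 1) = k + (1 + k * i) by ring, hinv]
    rw [mul_smul_comm, h2, smul_smul, mul_comm]

theorem stmt_W7_2 (ι : Type) [Fintype ι] [DecidableEq ι] (f : MvPolynomial ι ℂ) (k m : ℕ) (β : ℂ)
    (hm : m < k) (hβ : ∀ n : ℕ, β ≠ n) (hw : Wit f β) : Wit (f ^ k) ((β - m) / (k : ℂ)) := by
  obtain ⟨V, _, _, w, v, h0, h1, h2, h3, h4⟩ := hw
  have hk0 : (k : ℂ) ≠ 0 := by
    have : k ≠ 0 := by omega
    exact_mod_cast this
  have hP : ∀ j n : ℕ, (∏ l ∈ Finset.range n, (β - ((j + l : ℕ) : ℂ))) ≠ 0 := by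
    intro j n
    refine Finset.prod_ne_zero_iff.2 fun l _ => ?_
    exact sub_ne_zero.2 (hβ _)
  let Pr : ℕ → ℂ := fun i => ∏ l ∈ Finset.range (k - 1), (β - ((m + k * i + 1 + l : ℕ) : ℂ))
  let c : ℕ → ℂ := fun i => ∏ l ∈ Finset.range i, ((k : ℂ) * Pr l)⁻¹
  have hPr : ∀ i, Pr i ≠ 0 := fun i => hP _ _
  have hc : ∀ i, c i = (k : ℂ) * Pr i * c (i + 1) := by
    intro i
    have : c (i + 1) = c i * ((k : ℂ) * Pr i)⁻¹ := Finset.prod_range_succ _ _
    rw [this]
    have := hPr i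
    field_simp
  have hpd : ∀ a, pderiv a (f ^ k) = C (k : ℂ) * (pderiv a f * f ^ (k - 1)) := by
    intro a
    rw [Derivation.leibniz_pow]
    simp only [smul_eq_mul, nsmul_eq_mul]
    rw [← map_natCast (C : ℂ →+* MvPolynomial ι ℂ), mul_comm (f ^ (k - 1))]
  have hC : ∀ (p : MvPolynomial ι ℂ) (x : V), w.pX (C (k : ℂ) * p) x = (k : ℂ) • w.pX p x := by
    intro p x
    rw [← smul_eq_C_mul, map_smul]
    rfl
  -- `f^m v_m`
  have hvm : w.pX (f ^ m) (v m) = (∏ l ∈ Finset.range m, (β - ((0 + l : ℕ) : ℂ))) • v 0 := by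
    have := pow_v w f β v h4 m 0
    rwa [zero_add] at this
  refine ⟨V, _, _, w, fun i => c i • v (m + k * i), ?_, ?_, ?_, ?_, ?_⟩
  · simp only [c, Finset.range_zero, Finset.prod_empty, one_smul, mul_zero, add_zero]
    intro h
    rw [h, map_zero] at hvm
    exact (smul_ne_zero (hP 0 m) h0) hvm.symm
  · simp only [c, Finset.range_zero, Finset.prod_empty, one_smul, mul_zero, add_zero]
    obtain ⟨n, rfl⟩ : ∃ n, k = n + 1 + m := ⟨k - m - 1, by omega⟩
    rw [pow_add, map_mul, Module.End.mul_apply, hvm, map_smul, pow_succ, map_mul,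
      Module.End.mul_apply, h1, map_zero, smul_zero]
  · intro a
    simp only [c, Finset.range_zero, Finset.prod_empty, one_smul, mul_zero, add_zero]
    rw [hpd, hC]
    obtain ⟨n, rfl⟩ : ∃ n, k = n + 1 + m := ⟨k - m - 1, by omega⟩
    have h5 : pderiv a f * f ^ (n + 1 + m - 1) = f ^ n * (pderiv a f * f ^ m) := by
      rw [show n + 1 + m - 1 = n + m by omega, pow_add]
      ring
    rw [h5, map_mul, Module.End.mul_apply, map_mul, Module.End.mul_apply, hvm, map_smul, h2,
      smul_zero, map_zero, smul_zero]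
  · intro i a
    simp only
    have h5 := pow_v w f β v h4 (k - 1) (m + k * i + 1)
    have h6 : m + k * i + 1 + (k - 1) = m + k * (i + 1) := by
      obtain ⟨n, rfl⟩ : ∃ n, k = n + 1 := ⟨k - 1, by omega⟩
      simp only [Nat.add_sub_cancel]
      ring
    rw [h6] at h5
    rw [map_smul, h3, hpd, hC, map_mul, Module.End.mul_apply, map_smul, map_smul, h5, map_smul,
      smul_smul, smul_smul, hc i]
    congr 1
    change (k : ℂ) * Pr i * c (i + 1) = (k : ℂ) * c (i + 1) * Pr i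
    ring
  · intro i
    simp only
    have h5 := pow_v w f β v h4 k (m + k * i)
    have h6 : m + k * i + k = m + k * (i + 1) := by ring
    rw [h6] at h5
    rw [map_smul, h5, smul_smul, smul_smul, hc i]
    congr 1
    have h7 : ∏ l ∈ Finset.range k, (β - ((m + k * i + l : ℕ) : ℂ)) =
        (β - ((m + k * i : ℕ) : ℂ)) * Pr i := by
      obtain ⟨n, rfl⟩ : ∃ n, k = n + 1 := ⟨k - 1, by omega⟩
      rw [Finset.prod_range_succ', add_zero, mul_comm]
      congr 1
      simp only [Pr, Nat.add_sub_cancel]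
      refine Finset.prod_congr rfl fun l _ => ?_
      congr 2
      ring
    rw [h7]
    push_cast
    field_simp
    ring

theorem stmt_W7 : Stmt_W7 := by
  refine ⟨stmt_W7_1, stmt_W7_2, ?_, ?_⟩
  · intro ι _ _ f c β hc hw
    obtain ⟨V, _, _, w, v, h0, h1, h2, h3, h4⟩ := hw
    have hC : ∀ (p : MvPolynomial ι ℂ) (x : V), w.pX (C c * p) x = c • w.pX p x := by
      intro p x
      rw [← smul_eq_C_mul, map_smul]
      rfl
    have hpd : ∀ a, pderiv a (C c * f) = C c * pderiv a f := fun a => pderiv_C_mul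
    refine ⟨V, _, _, w, fun i => (c⁻¹) ^ i • v i, ?_, ?_, ?_, ?_, ?_⟩
    · simpa using h0
    · simp only [pow_zero, one_smul]
      rw [hC, h1, smul_zero]
    · intro a
      simp only [pow_zero, one_smul]
      rw [hpd, hC, h2, smul_zero]
    · intro i a
      simp only
      rw [map_smul, h3, hpd, hC, map_smul, smul_smul, pow_succ]
      congr 1
      field_simp
    · intro i
      simp only
      rw [hC, map_smul, h4, smul_smul, smul_smul, smul_smul, pow_succ]
      congr 1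
      field_simp
  · intro ι κ _ _ _ _ f φ β hw
    obtain ⟨V, _, _, w, v, h0, h1, h2, h3, h4⟩ := hw
    let w' : BP.WMod ℂ V κ :=
      { X' := fun k => w.X' (φ.symm k)
        D' := fun k => w.D' (φ.symm k)
        XX := fun i j => w.XX _ _
        DD := fun i j => w.DD _ _
        DX := fun i j => by
          rw [w.DX]
          congr 1
          by_cases h : i = j
          · subst h
            simp
          · have : φ.symm i ≠ φ.symm j := fun h' => h (φ.symm.injective h')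
            rw [if_neg h, if_neg this] }
    have hp : ∀ p : MvPolynomial ι ℂ, w'.pX (rename φ p) = w.pX p := by
      intro p
      have h : (w'.pX.comp (rename φ)) = w.pX := by
        refine MvPolynomial.algHom_ext fun i => ?_
        rw [AlgHom.comp_apply, rename_X, BP.WMod.pX_X, BP.WMod.pX_X]
        change w.X' (φ.symm (φ i)) = w.X' i
        rw [φ.symm_apply_apply]
      rw [← h]
      rfl
    have hpd : ∀ k, pderiv k (rename φ f) = rename φ (pderiv (φ.symm k) f) := by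
      intro k
      have := pderiv_rename φ.injective (φ.symm k) f
      rwa [φ.apply_symm_apply] at this
    refine ⟨V, _, _, w', v, h0, ?_, ?_, ?_, ?_⟩
    · rw [hp, h1]
    · intro a
      rw [hpd, hp, h2]
    · intro i a
      rw [hpd, hp]
      exact h3 i _
    · intro i
      rw [hp, h4]

end Pool.Agent.Mono.TS
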