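import Pool.Agent.Work.Monodromy4.Adm
import Pool.Agent.Work.Monodromy4.DataAdm
import Pool.Agent.Work.Monodromy4.TMain
import Pool.Agent.Work.Monodromy4.Final4
import Pool.Agent.Work.Monodromy4.Q1
import Pool.Agent.Work.Monodromy4.Q2
import Pool.Agent.Work.Monodromy4.Q3
import Pool.Agent.Work.Monodromy4.Q4
import Pool.Agent.Work.Monodromy4.Q5
import Pool.Agent.Work.Monodromy4.VA
import Pool.Agent.Work.Monodromy4.VF
import Pool.Agent.Work.Monodromy4.VS
import Pool.Agent.Work.Monodromy4.VP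
import Pool.Agent.Work.Monodromy4.VK
import Pool.Agent.Work.Monodromy4.TS
import Pool.Agent.Work.Monodromy4.TP
import Pool.Agent.Work.Monodromy4.TK
import Pool.Agent.Work.Monodromy4.T0
import Pool.Agent.Work.Monodromy4.TD
import Pool.Agent.Work.Monodromy4.TM
import Pool.Agent.Work.Monodromy4.W2
import Pool.Agent.Work.Monodromy4.W3
import Pool.Agent.Work.Monodromy4.W4
import Pool.Agent.Work.Monodromy4.W5
import Pool.Agent.Work.Monodromy4.W6
import Pool.Agent.Work.Monodromy4.W7

/-!
# Phase 4: the monodromy conjecture for composite polynomials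
-/

namespace Pool.Agent.Mono.TS

theorem all_TS : Stmt_TS := stmt_TS stmt_Q1 stmt_Q2 stmt_Q3 stmt_Q4 stmt_VF stmt_VS stmt_VA

theorem all_TP : Stmt_TP := stmt_TP stmt_Q1 stmt_VP stmt_VF stmt_VA

theorem all_TK : Stmt_TK := stmt_TK stmt_Q1 stmt_VK

theorem all_T0 : Stmt_T0 := stmt_T0 stmt_Q1

theorem all_TM : Stmt_TM := stmt_TM stmt_VA

theorem all_Adm : Stmt_Adm :=
  stmt_Adm all_T0 all_TK all_TS all_TP stmt_TD all_TM stmt_W2 stmt_W3 stmt_W4 stmt_W6 stmt_W7

theorem all_TMain : Stmt_TMain := stmt_TMain stmt_VA stmt_Q1 stmt_Q5 stmt_W5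

/-- the monodromy conjecture for composite polynomials -/
theorem mc_composite {ι : Type} [Fintype ι] {f : MvPolynomial ι ℂ} (h : Composite ι f)
    (P : HodgeMeasure) (R : RatFunc ℚ) (hR : IsTopologicalZeta P f R) : GoodPoles f R :=
  composite_top all_Adm all_TMain h P R hR

/-- the monodromy conjecture for composite polynomials, twisted -/
theorem mc_composite_tw {ι : Type} [Fintype ι] {f : MvPolynomial ι ℂ} (h : Composite ι f)
    (P : HodgeMeasure) (e : ℕ) (he : 1 ≤ e) (R : RatFunc ℚ) (hR : IsTwTopZeta P f e R) :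
    GoodPoles f R :=
  composite_tw all_Adm all_TMain h P e he R hR

end Pool.Agent.Mono.TS
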