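import Pool.Agent.Work.Monodromy.Interface4
import Pool.Agent.Work.Monodromy.All

/-!
# Block TM, part 1: rational series with a given value at `T = 1`
-/

set_option linter.unusedSectionVars false

namespace Pool.Agent.Mono.TS.TMAux

open MvPolynomial

theorem denP_nil : denP [] = 1 := rfl

theorem denP_cons (q : ℕ × ℕ) (l : List (ℕ × ℕ)) :
    denP (q :: l) = (1 - Polynomial.C (xq ^ q.2) * Polynomial.X ^ q.1) * denP l := by
  simp [denP]

theorem denP_append (l l' : List (ℕ × ℕ)) : denP (l ++ l') = denP l * denP l' := by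
  simp [denP]

theorem xq_pow_ne_one {m : ℕ} (hm : 1 ≤ m) : xq ^ m ≠ 1 := Xinv_pow_ne_one m hm

theorem denP_eval_ne (l : List (ℕ × ℕ)) (h : ∀ q ∈ l, 1 ≤ q.2) : (denP l).eval 1 ≠ 0 := by
  induction l with
  | nil => simp [denP_nil]
  | cons q l ih =>
    rw [denP_cons, Polynomial.eval_mul]
    refine mul_ne_zero ?_ (ih fun q' hq' => h q' (List.mem_cons_of_mem _ hq'))
    have h1 := xq_pow_ne_one (h q List.mem_cons_self)
    simp only [Polynomial.eval_sub, Polynomial.eval_one, Polynomial.eval_mul, Polynomial.eval_C,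
      Polynomial.eval_pow, Polynomial.eval_X, one_pow, mul_one]
    intro h2
    exact h1 (sub_eq_zero.1 h2).symm

/-- `Z` is rational and has the value `v` at `T = 1` -/
def Val1 (Z : PowerSeries K) (v : K) : Prop :=
  ∃ (l : List (ℕ × ℕ)) (num : Polynomial K), (∀ q ∈ l, 1 ≤ q.1 ∧ 1 ≤ q.2) ∧
    (denP l : PowerSeries K) * Z = (num : PowerSeries K) ∧
      num.eval 1 = (denP l).eval 1 * v

theorem Val1.zero : Val1 0 0 := ⟨[], 0, by simp, by simp, by simp⟩

theorem Val1.add {Z Z' : PowerSeries K} {v v' : K} (h : Val1 Z v) (h' : Val1 Z' v') :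
    Val1 (Z + Z') (v + v') := by
  obtain ⟨l, n, hl, h1, h2⟩ := h
  obtain ⟨l', n', hl', h1', h2'⟩ := h'
  refine ⟨l ++ l', denP l' * n + denP l * n', ?_, ?_, ?_⟩
  · intro q hq
    rcases List.mem_append.1 hq with hq | hq
    · exact hl q hq
    · exact hl' q hq
  · rw [denP_append]
    push_cast
    rw [← h1, ← h1']
    ring
  · rw [denP_append]
    simp only [Polynomial.eval_add, Polynomial.eval_mul, h2, h2']
    ring

theorem Val1.mulCX {Z : PowerSeries K} {v : K} (h : Val1 Z v) (a : K) (c : ℕ) :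
    Val1 (PowerSeries.C a * PowerSeries.X ^ c * Z) (a * v) := by
  obtain ⟨l, n, hl, h1, h2⟩ := h
  refine ⟨l, Polynomial.C a * Polynomial.X ^ c * n, hl, ?_, ?_⟩
  · push_cast
    rw [← h1]
    ring
  · simp only [Polynomial.eval_mul, Polynomial.eval_C, Polynomial.eval_pow, Polynomial.eval_X,
      one_pow, mul_one, h2]
    ring

theorem Val1.sum {α : Type*} (qs : List α) (f : α → PowerSeries K) (v : α → K)
    (h : ∀ q ∈ qs, Val1 (f q) (v q)) : Val1 (qs.map f).sum (qs.map v).sum := by
  induction qs with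
  | nil => simpa using Val1.zero
  | cons q qs ih =>
    rw [List.map_cons, List.sum_cons, List.map_cons, List.sum_cons]
    exact (h q List.mem_cons_self).add (ih fun q' hq' => h q' (List.mem_cons_of_mem _ hq'))

theorem Val1.geo {Z A : PowerSeries K} {v w : K} {N ν : ℕ} (hN : 1 ≤ N) (hν : 1 ≤ ν)
    (h : Val1 A v) (hZ : Z = A + PowerSeries.C (xq ^ ν) * PowerSeries.X ^ N * Z)
    (hw : w = v + xq ^ ν * w) : Val1 Z w := by
  obtain ⟨l, n, hl, h1, h2⟩ := h
  refine ⟨(N, ν) :: l, n, ?_, ?_, ?_⟩
  · intro q hq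
    rcases List.mem_cons.1 hq with rfl | hq
    · exact ⟨hN, hν⟩
    · exact hl q hq
  · rw [denP_cons, ← h1]
    push_cast
    have : (1 - PowerSeries.C (xq ^ ν) * PowerSeries.X ^ N) * Z = A := by
      rw [sub_mul, one_mul]
      exact sub_eq_of_eq_add hZ
    rw [← this]
    ring
  · rw [h2, denP_cons]
    simp only [Polynomial.eval_mul, Polynomial.eval_sub, Polynomial.eval_one, Polynomial.eval_C,
      Polynomial.eval_pow, Polynomial.eval_X, one_pow, mul_one]
    have : v = (1 - xq ^ ν) * w := by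
      rw [sub_mul, one_mul]
      exact eq_sub_of_add_eq hw.symm
    rw [this]
    ring

theorem Val1.C (a : K) : Val1 (PowerSeries.C a) a :=
  ⟨[], Polynomial.C a, by simp, by simp [denP_nil], by simp [denP_nil]⟩

/-- from the value `1` to the remainder -/
theorem Val1.tail {κ κ' : ℕ → K} {v : K} (h : Val1 (PowerSeries.mk κ) v)
    (hκ : ∀ m, κ' m = v - ∑ j ∈ Finset.range (m + 1), κ j) :
    ESeq (Set.Ioi 0) κ' := by
  obtain ⟨l, n, hl, h1, h2⟩ := h
  have hroot : (denP l * Polynomial.C v - n).IsRoot 1 := by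
    rw [Polynomial.IsRoot, Polynomial.eval_sub, Polynomial.eval_mul, Polynomial.eval_C, h2,
      sub_self]
  obtain ⟨m', hm'⟩ := Polynomial.dvd_iff_isRoot.2 hroot
  refine ⟨l, -m', ?_, ?_⟩
  · intro q hq
    refine ⟨(hl q hq).1, ?_⟩
    rw [Set.mem_Ioi]
    have e1 : (0 : ℚ) < q.2 := by exact_mod_cast (hl q hq).2
    have e2 : (0 : ℚ) < q.1 := by exact_mod_cast (hl q hq).1
    positivity
  · have hser : (1 - PowerSeries.X) * PowerSeries.mk κ' =
        PowerSeries.C v - PowerSeries.mk κ := by
      ext m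
      rw [sub_mul, one_mul, map_sub, map_sub, PowerSeries.coeff_mk, PowerSeries.coeff_mk,
        PowerSeries.coeff_C]
      rcases m with _ | m
      · rw [PowerSeries.coeff_zero_X_mul, hκ, if_pos rfl]
        simp
      · rw [PowerSeries.coeff_succ_X_mul, PowerSeries.coeff_mk, hκ, hκ, if_neg (by omega),
          Finset.sum_range_succ _ (m + 1)]
        ring
    have hne : (1 - PowerSeries.X : PowerSeries K) ≠ 0 := by
      intro h0
      have := congrArg (PowerSeries.coeff 0) h0
      simp at this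
    apply mul_left_cancel₀ hne
    have h3 : (1 - PowerSeries.X : PowerSeries K) * ((denP l : PowerSeries K) *
        PowerSeries.mk κ') = (denP l : PowerSeries K) * PowerSeries.C v - (n : PowerSeries K) := by
      rw [← h1, mul_left_comm, hser, mul_sub]
    rw [h3]
    have h4 : ((denP l * Polynomial.C v - n : Polynomial K) : PowerSeries K) =
        (((Polynomial.X - Polynomial.C 1) * m' : Polynomial K) : PowerSeries K) := by rw [hm']
    push_cast at h4
    rw [h4]
    push_cast
    simp
    ring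

end Pool.Agent.Mono.TS.TMAux
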