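import Pool.Agent.Work.Monodromy4.TMa

/-!
# Block TM, part 2: the masses of the pieces
-/

set_option linter.unusedSectionVars false

namespace Pool.Agent.Mono.TS.TMAux

open MvPolynomial

variable (P : HodgeMeasure) {ι κ : Type} [Fintype ι] [Fintype κ] [DecidableEq ι] [DecidableEq κ]

theorem L_mul : P.rat.L * xq = 1 := by
  rw [P.rat_L, xq]
  exact mul_inv_cancel₀ RatFunc.X_ne_zero

/-- total mass one -/
def MassZ (D : Data ι κ) (δ : ι → ℕ) : Prop :=
  ∀ (E : Type) [Finite E] (B : Set (E → ℂ)) (h : MvPolynomial E ℂ), Constructible B →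
    (∀ p ∈ B, eval p h ≠ 0) → Val1 (Zs P.rat xq 1 B h D δ) (P.rat.val B)

/-- no relevant variable -/
theorem mass_triv (D : Data ι κ) (δ : ι → ℕ) (hb : ∀ i, D.b i = 0) (hm : ∀ j, D.m j = 0) :
    MassZ P D δ := by
  intro E _ B h hB hh
  have hF : ∀ x : ι → PowerSeries ℂ, D.F δ x = 1 := by
    intro x
    unfold Data.F
    simp [hb, hm]
  have key : Zs P.rat xq 1 B h D δ = PowerSeries.C (P.rat.val B) := by
    unfold Zs
    ext k
    rw [PowerSeries.coeff_mk, PowerSeries.coeff_C]
    rcases Nat.eq_zero_or_pos k with hk | hk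
    · subst hk
      rw [if_pos rfl]
      have hmem : ∀ z : (E ⊕ Unit → ℂ) × (ι → PowerSeries ℂ),
          z ∈ contact 1 B h D δ 0 ↔ z.1 ∈ cover 1 B h := by
        intro z
        simp only [contact, cover, Set.mem_ofPred_eq, hF]
        simp
      have hcyl : IsCyl (fun _ => 0) (contact 1 B h D δ 0) := by
        refine ⟨fun p x y _ => by rw [hmem, hmem], ?_⟩
        have h1 : sec (fun _ => 0) (contact 1 B h D δ 0) =
            {v : (E ⊕ Unit) ⊕ (Σ _ : ι, Fin 0) → ℂ | (fun p => v (Sum.inl p)) ∈ cover 1 B h} := by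
          ext v
          exact hmem _
        rw [h1]
        exact X0.preX Sum.inl (X0.coverC 1 h hB)
      rw [stmt_YV _ P.rat xq (L_mul P) (E ⊕ Unit) ι _ _ hcyl]
      simp only [Finset.sum_const_zero, pow_zero, mul_one]
      symm
      apply P.rat.map B _ (Sum.elim (Sum.elim (fun p => X p) fun _ => h)
        (fun s => Fin.elim0 s.2)) hB hcyl.2
      refine ⟨?_, ?_, ?_⟩
      · intro x hx
        have h1 : (fun j => eval x ((Sum.elim (Sum.elim (fun p => X p) fun _ => h)
            (fun s => Fin.elim0 s.2) : (E ⊕ Unit) ⊕ (Σ _ : ι, Fin 0) → MvPolynomial E ℂ) j)) ∈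
            sec (fun _ => 0) (contact 1 B h D δ 0) ↔ _ := hmem _
        rw [h1]
        simp only [cover, Set.mem_ofPred_eq, Sum.elim_inl, Sum.elim_inr, eval_X, pow_one]
        exact ⟨hx, trivial⟩
      · intro x _ y _ hxy
        funext p
        have := congrFun hxy (Sum.inl (Sum.inl p))
        simpa using this
      · intro v hv
        have h1 : v ∈ sec (fun _ => 0) (contact 1 B h D δ 0) ↔
            (fun p => v (Sum.inl p)) ∈ cover 1 B h := hmem _
        rw [h1] at hv
        simp only [cover, Set.mem_ofPred_eq, pow_one] at hv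
        refine ⟨fun p => v (Sum.inl (Sum.inl p)), hv.1, ?_⟩
        funext j
        rcases j with (p | u) | s
        · simp
        · simp only [Sum.elim_inl, Sum.elim_inr]
          exact hv.2.symm
        · exact Fin.elim0 s.2
    · rw [if_neg (by omega)]
      have hempty : contact 1 B h D δ k = ∅ := by
        ext z
        simp only [contact, Set.mem_ofPred_eq, hF, Set.mem_empty_iff_false, iff_false]
        rintro ⟨_, h2, _, _⟩
        have := h2 0 hk
        simp at this
      rw [hempty, vol_empty P.rat (L_mul P)]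
  rw [key]
  exact Val1.C _

open Classical in
/-- the strata fill the coordinate space of `M0` -/
theorem sum_strata (D : Data ι κ) (hc : D.Central) (hv : D.Valid) (δ : ι → ℕ) :
    ∑ p ∈ strata D δ, P.rat.val (D.str p.1 p.2) + 1 = P.rat.L ^ (D.M0 δ).card := by
  set W : Set (ι → ℂ) := {ξ | ∀ i, i ∉ D.M0 δ → ξ i = 0} with hW
  have hWc : Constructible W := by
    rw [hW]
    exact Constructible.all fun i => (Constructible.const _).imp
      (by simpa using Constructible.zero (X i : MvPolynomial ι ℂ))
  -- class of W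
  have hWval : P.rat.val W = P.rat.L ^ (D.M0 δ).card := by
    have h1 := P.rat.val_univ {i // i ∈ D.M0 δ}
    rw [Fintype.card_coe] at h1
    rw [← h1]
    symm
    apply P.rat.map _ W (fun i => if h : i ∈ D.M0 δ then X ⟨i, h⟩ else 0) Constructible.univ hWc
    refine ⟨?_, ?_, ?_⟩
    · intro x _ i hi
      simp [hi]
    · intro x _ y _ hxy
      funext i
      have := congrFun hxy i.1
      simpa [i.2] using this
    · intro ξ hξ
      refine ⟨fun i => ξ i.1, Set.mem_univ _, ?_⟩
      funext i
      by_cases hi : i ∈ D.M0 δ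
      · simp [hi]
      · simp [hi, hξ i hi]
  set f : (ι → ℂ) → Finset ι × Finset κ := fun ξ =>
    (Finset.univ.filter fun i => ξ i ≠ 0, Finset.univ.filter fun j => eval ξ (D.form j) = 0)
    with hf
  have hfib : ∀ p : Finset ι × Finset κ, {ξ | ξ ∈ W ∧ f ξ = p} =
      if p.1 ⊆ D.M0 δ then D.str p.1 p.2 else ∅ := by
    intro p
    split_ifs with h
    · ext ξ
      simp only [hW, hf, Set.mem_ofPred_eq, Data.str, Prod.ext_iff, Finset.ext_iff,
        Finset.mem_filter, Finset.mem_univ, true_and]
      constructor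
      · rintro ⟨_, h2, h3⟩
        exact ⟨h2, h3⟩
      · rintro ⟨h2, h3⟩
        refine ⟨fun i hi => ?_, h2, h3⟩
        by_contra h4
        exact hi (h ((h2 i).1 h4))
    · ext ξ
      simp only [hW, hf, Set.mem_ofPred_eq, Set.mem_empty_iff_false, iff_false, not_and]
      intro h1 h2
      apply h
      intro i hi
      by_contra h3
      rw [← h2] at hi
      exact (Finset.mem_filter.1 hi).2 (h1 i h3)
  have hsum := P.rat.val_fibers (s := W) f (fun p => by
    rw [hfib p]
    split_ifs
    · exact cst_str D _ _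
    · exact Constructible.empty)
  rw [← hWval, hsum]
  have hmem : ((∅ : Finset ι), (Finset.univ : Finset κ)) ∈
      (Finset.univ : Finset (Finset ι × Finset κ)) := Finset.mem_univ _
  rw [← Finset.sum_erase_add _ _ hmem]
  congr 1
  · apply Finset.sum_subset_zero_on_sdiff
    · intro p hp
      rw [strata, Finset.mem_filter] at hp
      rw [Finset.mem_erase]
      refine ⟨?_, Finset.mem_univ _⟩
      rintro rfl
      exact Finset.not_nonempty_empty hp.2.1
    · intro p hp
      rw [hfib p]
      split_ifs with h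
      · rw [Finset.mem_sdiff, Finset.mem_erase, strata, Finset.mem_filter, Finset.mem_product,
          Finset.mem_powerset, not_and, not_and] at hp
        have h2 := hp.2 ⟨h, Finset.mem_univ _⟩
        have h3 : D.str p.1 p.2 = ∅ := by
          by_cases hJ : p.1.Nonempty
          · exact Set.not_nonempty_iff_eq_empty.1 (h2 hJ)
          · rw [Finset.not_nonempty_iff_eq_empty] at hJ
            rw [hJ]
            apply D.str_empty_ne hc hv
            intro hA
            apply hp.1.1
            exact Prod.ext hJ hA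
        rw [h3]
        exact P.rat.val_empty
      · exact P.rat.val_empty
    · intro p hp
      rw [hfib p, if_pos]
      rw [strata, Finset.mem_filter, Finset.mem_product, Finset.mem_powerset] at hp
      exact hp.1.1
  · rw [hfib, if_pos (Finset.empty_subset _)]
    rw [D.str_empty_univ hc hv]
    exact (P.rat.val_point _).symm

/-- the mass of a piece -/
noncomputable def pm {E : Type} [Finite E] (B : Set (E → ℂ)) (q : Piece ι κ) : K :=
  haveI := q.fin
  xq ^ q.l * P.rat.val (pset B q.S)

theorem pm_shift {E : Type} [Finite E] (B : Set (E → ℂ)) (q : Piece ι κ) (l c : ℕ) :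
    pm P B (q.shift l c) = xq ^ l * pm P B q := by
  unfold pm Piece.shift
  simp only [pow_add]
  ring

theorem xL : xq * P.rat.L = 1 := by rw [mul_comm]; exact L_mul P

theorem pm_pcs (D : Data ι κ) (hc : D.Central) (hv : D.Valid) (δ : ι → ℕ) {E : Type} [Finite E]
    (B : Set (E → ℂ)) (hB : Constructible B) :
    ((pcs D δ).map (pm P B)).sum = P.rat.val B - xq ^ lexp D δ * P.rat.val B := by
  classical
  have h1 : ((pcs D δ).map (pm P B)).sum =
      xq ^ lexp D δ * (P.rat.val B * ∑ p ∈ strata D δ, P.rat.val (D.str p.1 p.2)) := by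
    rw [pcs, List.map_map, Finset.sum_map_toList, Finset.mul_sum, Finset.mul_sum]
    refine Finset.sum_congr rfl fun p _ => ?_
    show xq ^ _ * P.rat.val (pset B (D.str p.1 p.2)) = _
    rw [P.rat.val_pset hB (cst_str D _ _)]
    rfl
  have h2 := sum_strata P D hc hv δ
  have h3 : ∑ p ∈ strata D δ, P.rat.val (D.str p.1 p.2) = P.rat.L ^ (D.M0 δ).card - 1 :=
    eq_sub_of_add_eq h2
  rw [h1, h3, lexp]
  have h4 : xq ^ (D.M0 δ).card * P.rat.L ^ (D.M0 δ).card = 1 := by
    rw [← mul_pow, xL, one_pow]
  calc xq ^ (D.M0 δ).card * (P.rat.val B * (P.rat.L ^ (D.M0 δ).card - 1)) =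
      P.rat.val B * (xq ^ (D.M0 δ).card * P.rat.L ^ (D.M0 δ).card) -
        xq ^ (D.M0 δ).card * P.rat.val B := by ring
    _ = _ := by rw [h4, mul_one]

theorem pm_pcsN (D : Data ι κ) (hc : D.Central) (hv : D.Valid) (δ : ι → ℕ) (n : ℕ) {E : Type}
    [Finite E] (B : Set (E → ℂ)) (hB : Constructible B) :
    ((pcsN D δ n).map (pm P B)).sum =
      P.rat.val B - xq ^ (∑ m ∈ Finset.range n, lexp D (D.step^[m] δ)) * P.rat.val B := by
  induction n with
  | zero => simp [pcsN]
  | succ n ih =>
    rw [pcsN, List.map_append, List.sum_append, ih, List.map_map]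
    have h1 : List.map (pm P B ∘ fun q : Piece ι κ =>
        q.shift (∑ m ∈ Finset.range n, lexp D (D.step^[m] δ))
          (∑ m ∈ Finset.range n, cexp D (D.step^[m] δ))) (pcs D (D.step^[n] δ)) =
        List.map (fun q => xq ^ (∑ m ∈ Finset.range n, lexp D (D.step^[m] δ)) * pm P B q)
          (pcs D (D.step^[n] δ)) := by
      apply List.map_congr_left
      intro q _
      exact pm_shift P B q _ _
    rw [h1, List.sum_map_mul_left, pm_pcs P D hc hv _ B hB, Finset.sum_range_succ, pow_add]
    ring

end Pool.Agent.Mono.TS.TMAux
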