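import Pool.Agent.Work.Monodromy4.VA

/-!
# Block VP: the volume sequences of `f(x) g(y)`
-/

set_option autoImplicit false
set_option linter.unusedSectionVars false

namespace Pool.Agent.Mono.TS

open MvPolynomial VAAux

namespace VPAux

/-! ## Power series -/

theorem coeff_mul_of_vanish {u v : PowerSeries ℂ} {i j : ℕ}
    (hu : ∀ l < i, PowerSeries.coeff l u = 0) (hv : ∀ l < j, PowerSeries.coeff l v = 0) :
    (∀ l < i + j, PowerSeries.coeff l (u * v) = 0) ∧
      PowerSeries.coeff (i + j) (u * v) = PowerSeries.coeff i u * PowerSeries.coeff j v := by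
  obtain ⟨u', rfl⟩ := PowerSeries.X_pow_dvd_iff.2 hu
  obtain ⟨v', rfl⟩ := PowerSeries.X_pow_dvd_iff.2 hv
  have h1 : PowerSeries.X ^ i * u' * (PowerSeries.X ^ j * v') =
      PowerSeries.X ^ (i + j) * (u' * v') := by ring
  rw [h1]
  constructor
  · exact PowerSeries.X_pow_dvd_iff.1 (Dvd.intro _ rfl)
  · rw [PowerSeries.coeff_X_pow_mul', PowerSeries.coeff_X_pow_mul', PowerSeries.coeff_X_pow_mul',
      if_pos le_rfl, if_pos le_rfl, if_pos le_rfl, Nat.sub_self, Nat.sub_self, Nat.sub_self]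
    simp

theorem exists_order {u : PowerSeries ℂ} (hu : u ≠ 0) :
    ∃ i : ℕ, (∀ l < i, PowerSeries.coeff l u = 0) ∧ PowerSeries.coeff i u ≠ 0 := by
  classical
  have h : ∃ i : ℕ, PowerSeries.coeff i u ≠ 0 := by
    by_contra h
    push Not at h
    exact hu (PowerSeries.ext fun n => by rw [h n, map_zero])
  exact ⟨Nat.find h, fun l hl => not_not.1 (Nat.find_min h hl), Nat.find_spec h⟩

theorem order_unique {w : PowerSeries ℂ} {n m : ℕ} (h1 : ∀ l < n, PowerSeries.coeff l w = 0)
    (h2 : PowerSeries.coeff n w ≠ 0) (h3 : ∀ l < m, PowerSeries.coeff l w = 0)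
    (h4 : PowerSeries.coeff m w ≠ 0) : n = m := by
  rcases Nat.lt_trichotomy n m with h | h | h
  · exact absurd (h3 n h) h2
  · exact h
  · exact absurd (h1 m h) h4

theorem mul_eq_iff (u v : PowerSeries ℂ) (m : ℕ) {c : ℂ} (hc : c ≠ 0) :
    ((∀ l < m, PowerSeries.coeff l (u * v) = 0) ∧ PowerSeries.coeff m (u * v) = c) ↔
      ∃ i < m + 1, (∀ l < i, PowerSeries.coeff l u = 0) ∧
        (∀ l < m - i, PowerSeries.coeff l v = 0) ∧ PowerSeries.coeff i u ≠ 0 ∧
        PowerSeries.coeff (m - i) v ≠ 0 ∧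
        PowerSeries.coeff i u * PowerSeries.coeff (m - i) v = c := by
  constructor
  · rintro ⟨h1, h2⟩
    have hw : u * v ≠ 0 := by
      intro h
      rw [h, map_zero] at h2
      exact hc h2.symm
    obtain ⟨i, hi, hi'⟩ := exists_order (left_ne_zero_of_mul hw)
    obtain ⟨j, hj, hj'⟩ := exists_order (right_ne_zero_of_mul hw)
    obtain ⟨h3, h4⟩ := coeff_mul_of_vanish hi hj
    have h5 : i + j = m := order_unique h3 (by rw [h4]; exact mul_ne_zero hi' hj') h1
      (by rw [h2]; exact hc)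
    have h6 : m - i = j := by omega
    refine ⟨i, by omega, hi, ?_, hi', ?_, ?_⟩
    · rw [h6]; exact hj
    · rw [h6]; exact hj'
    · rw [h6, ← h4, h5, h2]
  · rintro ⟨i, hi, h1, h2, _, _, h5⟩
    obtain ⟨h3, h4⟩ := coeff_mul_of_vanish h1 h2
    have h6 : i + (m - i) = m := by omega
    rw [h6] at h3 h4
    exact ⟨h3, h4.trans h5⟩

theorem mul_gt_iff (u v : PowerSeries ℂ) (m : ℕ) :
    (∀ l ≤ m, PowerSeries.coeff l (u * v) = 0) ↔
      (∀ l ≤ m, PowerSeries.coeff l u = 0) ∨ ∃ i < m + 1,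
        ((∀ l < i, PowerSeries.coeff l u = 0) ∧ PowerSeries.coeff i u ≠ 0) ∧
          ∀ l ≤ m - i, PowerSeries.coeff l v = 0 := by
  constructor
  · intro h
    by_cases hu : ∀ l ≤ m, PowerSeries.coeff l u = 0
    · exact Or.inl hu
    · right
      have hu0 : u ≠ 0 := by
        rintro rfl
        exact hu fun l _ => map_zero _
      obtain ⟨i, hi, hi'⟩ := exists_order hu0
      have him : i < m + 1 := by
        by_contra hlt
        exact hu fun l hl => hi l (by omega)
      refine ⟨i, him, ⟨hi, hi'⟩, ?_⟩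
      by_contra hv
      have hv0 : v ≠ 0 := by
        rintro rfl
        exact hv fun l _ => map_zero _
      obtain ⟨j, hj, hj'⟩ := exists_order hv0
      have hjm : j ≤ m - i := by
        by_contra hlt
        exact hv fun l hl => hj l (by omega)
      obtain ⟨_, h4⟩ := coeff_mul_of_vanish hi hj
      exact mul_ne_zero hi' hj' (h4.symm.trans (h (i + j) (by omega)))
  · rintro (h | ⟨i, hi, ⟨h1, _⟩, h3⟩)
    · have h1 : ∀ l < m + 1, PowerSeries.coeff l u = 0 := fun l hl => h l (by omega)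
      have h2 := (coeff_mul_of_vanish (i := m + 1) (j := 0) (v := v) h1
        fun l hl => absurd hl (Nat.not_lt_zero l)).1
      exact fun l hl => h2 l (by omega)
    · have h2 := (coeff_mul_of_vanish (i := i) (j := m - i + 1) h1
        fun l hl => h3 l (by omega)).1
      exact fun l hl => h2 l (by omega)

/-! ## Products of cylinders -/

section

variable {E ι κ : Type}

/-- product of a family of arcs and a set of arcs in separate variables -/
def cprod (C : Set ((E → ℂ) × (ι → PowerSeries ℂ)))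
    (D : Set ((Empty → ℂ) × (κ → PowerSeries ℂ))) : Set ((E → ℂ) × (ι ⊕ κ → PowerSeries ℂ)) :=
  {z | (z.1, fun a => z.2 (Sum.inl a)) ∈ C ∧ (Empty.elim, fun a => z.2 (Sum.inr a)) ∈ D}

/-- the reindexing -/
def ren (E : Type) (K : ι → ℕ) (K' : κ → ℕ) :
    (E ⊕ (Σ i, Fin (K i))) ⊕ (Empty ⊕ (Σ i, Fin (K' i))) ≃
      E ⊕ (Σ i : ι ⊕ κ, Fin (Sum.elim K K' i)) where
  toFun := Sum.elim (Sum.elim Sum.inl fun s => Sum.inr ⟨Sum.inl s.1, s.2⟩)
    (Sum.elim Empty.elim fun s => Sum.inr ⟨Sum.inr s.1, s.2⟩)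
  invFun := Sum.elim (fun p => Sum.inl (Sum.inl p)) fun s => match s with
    | ⟨Sum.inl i, l⟩ => Sum.inl (Sum.inr ⟨i, l⟩)
    | ⟨Sum.inr i, l⟩ => Sum.inr (Sum.inr ⟨i, l⟩)
  left_inv := by rintro ((s | s) | (s | s)) <;> first | rfl | exact s.elim
  right_inv := by rintro (s | ⟨s | s, l⟩) <;> rfl

theorem sec_cprod (K : ι → ℕ) (K' : κ → ℕ) (C : Set ((E → ℂ) × (ι → PowerSeries ℂ)))
    (D : Set ((Empty → ℂ) × (κ → PowerSeries ℂ))) :
    sec (Sum.elim K K') (cprod C D) = {x | (fun j => x (ren E K K' j)) ∈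
      {x : (E ⊕ (Σ i, Fin (K i))) ⊕ (Empty ⊕ (Σ i, Fin (K' i))) → ℂ |
        (fun i => x (Sum.inl i)) ∈ sec K C ∧ (fun j => x (Sum.inr j)) ∈ sec K' D}} := by
  ext x
  have h : (Empty.elim : Empty → ℂ) = fun p => x (ren E K K' (Sum.inr (Sum.inl p))) :=
    funext fun p => p.elim
  change (_ ∧ (Empty.elim, _) ∈ D) ↔ _
  rw [h]
  exact Iff.rfl

theorem cyl_cprod [Fintype ι] [Fintype κ] {K : ι → ℕ} {K' : κ → ℕ}
    {C : Set ((E → ℂ) × (ι → PowerSeries ℂ))} {D : Set ((Empty → ℂ) × (κ → PowerSeries ℂ))}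
    (hC : IsCyl K C) (hD : IsCyl K' D) : IsCyl (Sum.elim K K') (cprod C D) := by
  constructor
  · intro p x y hxy
    exact and_congr (hC.1 _ _ _ fun i l hl => hxy (Sum.inl i) l hl)
      (hD.1 _ _ _ fun i l hl => hxy (Sum.inr i) l hl)
  · rw [sec_cprod]
    exact Constructible.comap _ (Constructible.prodSet hC.2 hD.2)

theorem vol_cprod [Finite E] [Fintype ι] [Fintype κ] {R : Type} [CommRing R]
    (μ : MotivicMeasure R) {Li : R} (hL : μ.L * Li = 1) {K : ι → ℕ} {K' : κ → ℕ}
    {C : Set ((E → ℂ) × (ι → PowerSeries ℂ))} {D : Set ((Empty → ℂ) × (κ → PowerSeries ℂ))}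
    (hC : IsCyl K C) (hD : IsCyl K' D) :
    vol μ Li (cprod C D) = vol μ Li C * vol μ Li D := by
  rw [vol_eq μ hL hC, vol_eq μ hL hD, vol_eq μ hL (cyl_cprod hC hD), sec_cprod,
    μ.reindex (ren E K K') (Constructible.prodSet hC.2 hD.2), μ.prod _ _ hC.2 hD.2,
    Fintype.sum_sum_type]
  simp only [Sum.elim_inl, Sum.elim_inr, pow_add]
  ring

theorem aeval_otimes (f : MvPolynomial ι ℂ) (g : MvPolynomial κ ℂ) (z : ι ⊕ κ → PowerSeries ℂ) :
    aeval z (otimes f g) =
      aeval (fun a => z (Sum.inl a)) f * aeval (fun a => z (Sum.inr a)) g := by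
  rw [otimes, map_mul, aeval_rename, aeval_rename]
  rfl

/-- pairs of arcs -/
theorem cyl_dbl [Fintype ι] [Fintype κ] (f : MvPolynomial ι ℂ) (g : MvPolynomial κ ℂ)
    {Q : Set (E ⊕ Bool → ℂ)} (hQ : Constructible Q) (i j n : ℕ) (hi : i < n) (hj : j < n) :
    IsCyl (fun _ => n) (dbl f g Q i j) := by
  have hQ' : Constructible {v : E ⊕ (Bool × Fin n) → ℂ |
      (∀ l : Fin n, (l : ℕ) < i → eval v (X (Sum.inr (true, l))) = 0) ∧
      (∀ l : Fin n, (l : ℕ) < j → eval v (X (Sum.inr (false, l))) = 0) ∧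
      (fun s => v (Sum.elim Sum.inl (fun b : Bool => if b then Sum.inr (true, (⟨i, hi⟩ : Fin n))
        else Sum.inr (false, (⟨j, hj⟩ : Fin n))) s)) ∈ Q} := by
    refine Constructible.and ?_ (Constructible.and ?_ (Constructible.comap _ hQ))
    · exact Constructible.all fun l => Constructible.imp (Constructible.const _)
        (Constructible.zero _)
    · exact Constructible.all fun l => Constructible.imp (Constructible.const _)
        (Constructible.zero _)
  have h := cyl_fam (E := E) (fun b : Bool => if b then (rename Sum.inl f : MvPolynomial (ι ⊕ κ) ℂ)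
    else rename Sum.inr g) n hQ'
  convert h using 1
  ext z
  have h1 : aeval z.2 (rename Sum.inl f : MvPolynomial (ι ⊕ κ) ℂ) =
      aeval (fun a => z.2 (Sum.inl a)) f := by
    rw [aeval_rename]
    rfl
  have h2 : aeval z.2 (rename Sum.inr g : MvPolynomial (ι ⊕ κ) ℂ) =
      aeval (fun a => z.2 (Sum.inr a)) g := by
    rw [aeval_rename]
    rfl
  simp only [dbl, Set.mem_ofPred_eq, eval_X, Sum.elim_inr, if_true, Bool.false_eq_true, if_false,
    h1, h2]
  refine and_congr ⟨fun h l hl => h l hl, fun h l hl => h ⟨l, by omega⟩ hl⟩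
    (and_congr ⟨fun h l hl => h l hl, fun h l hl => h ⟨l, by omega⟩ hl⟩ ?_)
  apply Eq.to_iff
  congr 1
  funext s
  rcases s with s | s
  · rfl
  · rcases s with _ | _
    · simp [h2]
    · simp [h1]

end

theorem constructible_Qmul {E : Type} {B : Set (E → ℂ)} (hB : Constructible B)
    (q : MvPolynomial E ℂ) : Constructible (Qmul B q) := by
  have := Constructible.and (Constructible.comap (Sum.inl : E → E ⊕ Bool) hB)
    (Constructible.and (Constructible.ne (X (Sum.inr true) : MvPolynomial (E ⊕ Bool) ℂ))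
      (Constructible.and (Constructible.ne (X (Sum.inr false) : MvPolynomial (E ⊕ Bool) ℂ))
        (Constructible.eq (X (Sum.inr true) * X (Sum.inr false) : MvPolynomial (E ⊕ Bool) ℂ)
          (rename Sum.inl q))))
  simp only [eval_X, map_mul, eval_rename, Function.comp_def] at this
  exact this

end VPAux

open VPAux

theorem stmt_VP : Stmt_VP := by
  classical
  intro P ι κ _ _ f g
  have hL := L_mul P
  constructor
  · intro E _ B q hB hq m
    have hset : ctc (otimes f g) B q m =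
        ⋃ i ∈ Finset.range (m + 1), dbl f g (Qmul B q) i (m - i) := by
      ext z
      simp only [Set.mem_iUnion, Finset.mem_range, exists_prop]
      constructor
      · rintro ⟨h1, h2, h3⟩
        rw [aeval_otimes] at h2 h3
        obtain ⟨i, hi, h4, h5, h6, h7, h8⟩ := (mul_eq_iff _ _ m (hq z.1 h1)).1 ⟨h2, h3⟩
        exact ⟨i, hi, h4, h5, h1, h6, h7, h8⟩
      · rintro ⟨i, hi, h4, h5, h1, h6, h7, h8⟩
        have := (mul_eq_iff _ _ m (hq z.1 h1)).2 ⟨i, hi, h4, h5, h6, h7, h8⟩
        rw [← aeval_otimes] at this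
        exact ⟨h1, this.1, this.2⟩
    rw [AA, hset]
    refine vol_biUnion P.rat hL (K := fun _ => m + 1) _ ?_ ?_
    · intro i hi
      rw [Finset.mem_range] at hi
      exact cyl_dbl f g (constructible_Qmul hB q) i (m - i) (m + 1) hi (by omega)
    · intro i _ j _ hij
      rw [Set.disjoint_left]
      rintro z ⟨h1, _, _, h3, _, _⟩ ⟨h1', _, _, h3', _, _⟩
      exact hij (order_unique h1 h3 h1' h3')
  · intro m
    have hset : {z : (Empty → ℂ) × (ι ⊕ κ → PowerSeries ℂ) |
        ∀ l ≤ m, PowerSeries.coeff l (aeval z.2 (otimes f g)) = 0} =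
        cprod {z | ∀ l ≤ m, PowerSeries.coeff l (aeval z.2 f) = 0} Set.univ ∪
        ⋃ i ∈ Finset.range (m + 1), cprod {z : (Empty → ℂ) × (ι → PowerSeries ℂ) |
          (∀ l < i, PowerSeries.coeff l (aeval z.2 f) = 0) ∧
            PowerSeries.coeff i (aeval z.2 f) ≠ 0}
          {z | ∀ l ≤ m - i, PowerSeries.coeff l (aeval z.2 g) = 0} := by
      ext z
      simp only [Set.mem_union, Set.mem_iUnion, Finset.mem_range, exists_prop, cprod,
        Set.mem_ofPred_eq, Set.mem_univ, and_true, aeval_otimes]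
      exact mul_gt_iff _ _ m
    have hc1 : IsCyl (fun _ => m + 1) (cprod {z : (Empty → ℂ) × (ι → PowerSeries ℂ) |
        ∀ l ≤ m, PowerSeries.coeff l (aeval z.2 f) = 0}
        (Set.univ : Set ((Empty → ℂ) × (κ → PowerSeries ℂ)))) := by
      have := cyl_cprod (cyl_gt' (E := Empty) f m) (IsCyl.univ (ι := κ) (K := fun _ => 0))
      exact this.mono fun i => by rcases i with i | i <;> simp
    have hc2 : ∀ i ∈ Finset.range (m + 1), IsCyl (fun _ => m + 1)
        (cprod {z : (Empty → ℂ) × (ι → PowerSeries ℂ) |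
          (∀ l < i, PowerSeries.coeff l (aeval z.2 f) = 0) ∧
            PowerSeries.coeff i (aeval z.2 f) ≠ 0}
          {z : (Empty → ℂ) × (κ → PowerSeries ℂ) |
            ∀ l ≤ m - i, PowerSeries.coeff l (aeval z.2 g) = 0}) := by
      intro i hi
      rw [Finset.mem_range] at hi
      have := cyl_cprod (cyl_eq' (E := Empty) f i) (cyl_gt' (E := Empty) g (m - i))
      exact this.mono fun j => by
        rcases j with j | j
        · change i + 1 ≤ m + 1
          omega
        · change m - i + 1 ≤ m + 1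
          omega
    rw [bb, hset, vol_union P.rat hL hc1 (IsCyl.biUnion _ hc2), vol_cprod P.rat hL
      (cyl_gt' (E := Empty) f m) (IsCyl.univ (ι := κ) (K := fun _ => 0)),
      VAAux.vol_univ P.rat hL, P.rat.point, mul_one, vol_biUnion P.rat hL _ hc2]
    · rw [← bb]
      congr 1
      refine Finset.sum_congr rfl fun i _ => ?_
      rw [vol_cprod P.rat hL (cyl_eq' (E := Empty) f i) (cyl_gt' (E := Empty) g (m - i))]
      rfl
    · intro i _ j _ hij
      rw [Set.disjoint_left]
      rintro z ⟨⟨h1, h3⟩, _⟩ ⟨⟨h1', h3'⟩, _⟩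
      exact hij (order_unique h1 h3 h1' h3')
    · rw [Set.disjoint_iUnion₂_right]
      intro i hi
      rw [Finset.mem_range] at hi
      rw [Set.disjoint_left]
      rintro z ⟨h1, _⟩ ⟨⟨_, h3⟩, _⟩
      exact h3 (h1 i (by omega))

end Pool.Agent.Mono.TS
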