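import Pool.Agent.Work.Monodromy4.WB
import Pool.Agent.Work.Monodromy.EBD
import Pool.Agent.Work.Monodromy.Push

/-!
# Polynomial families and the action of the Weyl algebra on `A[s] f^{s-m}`
-/

namespace Pool.Agent.Mono.TS
namespace WPF

open MvPolynomial Filter

variable {ι : Type}

/-- polynomial families of polynomials -/
def PF (h : ℂ → MvPolynomial ι ℂ) : Prop :=
  ∃ q : Polynomial (MvPolynomial ι ℂ), ∀ c, h c = q.eval (C c)

theorem PF.congr {h h' : ℂ → MvPolynomial ι ℂ} (H : PF h) (e : ∀ c, h' c = h c) : PF h' := by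
  obtain ⟨q, hq⟩ := H
  exact ⟨q, fun c => (e c).trans (hq c)⟩

theorem PF.const (a : MvPolynomial ι ℂ) : PF fun _ => a := ⟨Polynomial.C a, by simp⟩

theorem PF.id : PF (ι := ι) fun c => C c := ⟨Polynomial.X, by simp⟩

theorem PF.add {h h' : ℂ → MvPolynomial ι ℂ} (H : PF h) (H' : PF h') : PF fun c => h c + h' c := by
  obtain ⟨q, hq⟩ := H
  obtain ⟨q', hq'⟩ := H'
  exact ⟨q + q', fun c => by simp only [hq, hq', Polynomial.eval_add]⟩

theorem PF.mul {h h' : ℂ → MvPolynomial ι ℂ} (H : PF h) (H' : PF h') : PF fun c => h c * h' c := by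
  obtain ⟨q, hq⟩ := H
  obtain ⟨q', hq'⟩ := H'
  exact ⟨q * q', fun c => by simp only [hq, hq', Polynomial.eval_mul]⟩

theorem PF.sub {h h' : ℂ → MvPolynomial ι ℂ} (H : PF h) (H' : PF h') : PF fun c => h c - h' c := by
  obtain ⟨q, hq⟩ := H
  obtain ⟨q', hq'⟩ := H'
  exact ⟨q - q', fun c => by simp only [hq, hq', Polynomial.eval_sub]⟩

theorem PF.sum {α : Type} (s : Finset α) {h : α → ℂ → MvPolynomial ι ℂ}
    (H : ∀ i ∈ s, PF (h i)) : PF fun c => ∑ i ∈ s, h i c := by
  classical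
  induction s using Finset.induction_on with
  | empty => simpa using PF.const (ι := ι) 0
  | insert a s ha ih =>
    have h1 := (H a (Finset.mem_insert_self _ _)).add
      (ih fun i hi => H i (Finset.mem_insert_of_mem hi))
    exact h1.congr fun c => by rw [Finset.sum_insert ha]

theorem PF.poly (b : Polynomial ℂ) : PF (ι := ι) fun c => C (b.eval c) := by
  refine ⟨b.map C, fun c => ?_⟩
  rw [Polynomial.eval_map, Polynomial.eval₂_at_apply]

theorem PF.pderiv {h : ℂ → MvPolynomial ι ℂ} (H : PF h) (i : ι) :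
    PF fun c => MvPolynomial.pderiv i (h c) := by
  obtain ⟨q, hq⟩ := H
  have key : ∀ q : Polynomial (MvPolynomial ι ℂ),
      PF fun c => MvPolynomial.pderiv i (q.eval (C c)) := by
    intro q
    induction q using Polynomial.induction_on' with
    | add p q hp hq =>
      exact (hp.add hq).congr fun c => by rw [Polynomial.eval_add, map_add]
    | monomial n a =>
      refine ⟨Polynomial.monomial n (MvPolynomial.pderiv i a), fun c => ?_⟩
      show MvPolynomial.pderiv i (Polynomial.eval (C c) (Polynomial.monomial n a)) = _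
      rw [Polynomial.eval_monomial, Polynomial.eval_monomial, ← C_pow, Derivation.leibniz,
        pderiv_C, smul_zero, zero_add, smul_eq_mul, mul_comm]
  have h1 : h = fun c => q.eval (C c) := funext hq
  rw [h1]
  exact key q

theorem PF.eq_zero {h : ℂ → MvPolynomial ι ℂ} (H : PF h)
    (h0 : ∀ᶠ k : ℕ in atTop, h (k : ℂ) = 0) : ∀ c, h c = 0 := by
  obtain ⟨q, hq⟩ := H
  obtain ⟨K, hK⟩ := eventually_atTop.1 h0
  have h1 : q = 0 := by
    apply Polynomial.eq_zero_of_infinite_isRoot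
    have h2 : Set.Infinite ((fun k : ℕ => (C (k : ℂ) : MvPolynomial ι ℂ)) '' Set.Ici K) := by
      apply Set.Infinite.image
      · intro a _ b _ hab
        have := C_injective ι ℂ hab
        exact_mod_cast this
      · exact Set.Ici_infinite K
    refine h2.mono ?_
    rintro _ ⟨k, hk, rfl⟩
    show q.IsRoot _
    rw [Polynomial.IsRoot.def, ← hq]
    exact hK k hk
  intro c
  rw [hq, h1, Polynomial.eval_zero]

theorem PF.ext {h h' : ℂ → MvPolynomial ι ℂ} (H : PF h) (H' : PF h')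
    (h0 : ∀ᶠ k : ℕ in atTop, h (k : ℂ) = h' (k : ℂ)) (c : ℂ) : h c = h' c := by
  have := (H.sub H').eq_zero (by filter_upwards [h0] with k hk; rw [hk, sub_self]) c
  exact sub_eq_zero.1 this

/-- factor theorem -/
theorem PF.root {h : ℂ → MvPolynomial ι ℂ} (H : PF h) {β : ℂ} (h0 : h β = 0) :
    ∃ g : ℂ → MvPolynomial ι ℂ, PF g ∧ ∀ c, h c = C (c - β) * g c := by
  obtain ⟨q, hq⟩ := H
  have h1 : q.IsRoot (C β) := by rw [Polynomial.IsRoot.def, ← hq, h0]
  obtain ⟨g, hg⟩ := Polynomial.dvd_iff_isRoot.2 h1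
  refine ⟨fun c => g.eval (C c), ⟨g, fun c => rfl⟩, fun c => ?_⟩
  rw [hq, hg, Polynomial.eval_mul]
  simp

section model

variable {V : Type} [AddCommGroup V] [Module ℂ V] [DecidableEq ι]

/-- vectors which behave like `f^{β-i}` -/
structure Model (w : BP.WMod ℂ V ι) (f : MvPolynomial ι ℂ) (β : ℂ) (u : ℕ → V) : Prop where
  der : ∀ i a, w.D' a (u i) = (β - i) • w.pX (pderiv a f) (u (i + 1))
  mul : ∀ i : ℕ, w.pX f (u (i + 1)) = u i

theorem Model.pow {w : BP.WMod ℂ V ι} {f : MvPolynomial ι ℂ} {β : ℂ} {u : ℕ → V}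
    (M : Model w f β u) (i n : ℕ) : w.pX (f ^ n) (u (i + n)) = u i := by
  induction n with
  | zero => simp
  | succ n ih => rw [pow_succ, WBAux.pX_mul, ← add_assoc, M.mul, ih]

/-- `Q` acts on families as `T` acts on the model -/
def Acts (w : BP.WMod ℂ V ι) (f : MvPolynomial ι ℂ) (β : ℂ) (u : ℕ → V)
    (Q : Module.End ℂ (MvPolynomial ι ℂ)) (T : Module.End ℂ V) : Prop :=
  ∀ (h : ℂ → MvPolynomial ι ℂ) (m : ℕ), PF h → ∃ (h' : ℂ → MvPolynomial ι ℂ) (m' : ℕ), PF h' ∧
    (∀ᶠ k : ℕ in atTop, Q (h k * f ^ (k - m)) = h' k * f ^ (k - m')) ∧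
      T (w.pX (h β) (u m)) = w.pX (h' β) (u m')

variable {w : BP.WMod ℂ V ι} {f : MvPolynomial ι ℂ} {β : ℂ} {u : ℕ → V}

theorem acts_add (M : Model w f β u) {Q Q' : Module.End ℂ (MvPolynomial ι ℂ)}
    {T T' : Module.End ℂ V} (H : Acts w f β u Q T) (H' : Acts w f β u Q' T') :
    Acts w f β u (Q + Q') (T + T') := by
  intro h m hh
  obtain ⟨h1, m1, hh1, e1, t1⟩ := H h m hh
  obtain ⟨h2, m2, hh2, e2, t2⟩ := H' h m hh
  refine ⟨fun c => h1 c * f ^ m2 + h2 c * f ^ m1, m1 + m2,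
    (hh1.mul (PF.const _)).add (hh2.mul (PF.const _)), ?_, ?_⟩
  · filter_upwards [e1, e2, eventually_ge_atTop (m1 + m2)] with k a1 a2 hk
    obtain ⟨r, rfl⟩ := Nat.exists_eq_add_of_le hk
    rw [LinearMap.add_apply, a1, a2, show m1 + m2 + r - m1 = m2 + r by omega,
      show m1 + m2 + r - m2 = m1 + r by omega, show m1 + m2 + r - (m1 + m2) = r by omega]
    ring
  · rw [LinearMap.add_apply, t1, t2, WBAux.pX_add, WBAux.pX_mul, WBAux.pX_mul, M.pow,
      add_comm m1 m2, M.pow]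

theorem acts_mul {Q Q' : Module.End ℂ (MvPolynomial ι ℂ)}
    {T T' : Module.End ℂ V} (H : Acts w f β u Q T) (H' : Acts w f β u Q' T') :
    Acts w f β u (Q * Q') (T * T') := by
  intro h m hh
  obtain ⟨h1, m1, hh1, e1, t1⟩ := H' h m hh
  obtain ⟨h2, m2, hh2, e2, t2⟩ := H h1 m1 hh1
  refine ⟨h2, m2, hh2, ?_, ?_⟩
  · filter_upwards [e1, e2] with k a1 a2
    rw [Module.End.mul_apply, a1, a2]
  · rw [Module.End.mul_apply, t1, t2]

theorem acts_smul (c : ℂ) : Acts w f β u (algebraMap ℂ _ c) (algebraMap ℂ _ c) := by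
  intro h m hh
  refine ⟨fun x => C c * h x, m, (PF.const _).mul hh, ?_, ?_⟩
  · filter_upwards with k
    rw [Module.algebraMap_end_apply, MvPolynomial.smul_eq_C_mul, mul_assoc]
  · rw [Module.algebraMap_end_apply, WBAux.pX_mul, WBAux.pX_C]

theorem acts_X (i : ι) : Acts w f β u (LinearMap.mulLeft ℂ (X i)) (w.X' i) := by
  intro h m hh
  refine ⟨fun x => X i * h x, m, (PF.const _).mul hh, ?_, ?_⟩
  · filter_upwards with k
    rw [LinearMap.mulLeft_apply, mul_assoc]
  · rw [WBAux.pX_mul, BP.WMod.pX_X]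

omit [DecidableEq ι] in
/-- the derivative of `h(s) f^{s-m}` -/
theorem pderiv_fam (f : MvPolynomial ι ℂ) (h : ℂ → MvPolynomial ι ℂ) (i : ι) (m k : ℕ)
    (hk : m + 1 ≤ k) : pderiv i (h k * f ^ (k - m)) =
      (f * pderiv i (h k) + C ((k : ℂ) - m) * h k * pderiv i f) * f ^ (k - (m + 1)) := by
  obtain ⟨r, rfl⟩ := Nat.exists_eq_add_of_le hk
  have h1 : m + 1 + r - m = r + 1 := by omega
  have h2 : m + 1 + r - (m + 1) = r := by omega
  have h3 : (((m + 1 + r : ℕ) : ℂ) - m) = ((r + 1 : ℕ) : ℂ) := by push_cast; ring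
  rw [h1, h2, h3, Derivation.leibniz, Derivation.leibniz_pow, Nat.add_sub_cancel]
  simp only [smul_eq_mul, nsmul_eq_mul, map_natCast]
  ring

theorem acts_D (M : Model w f β u) (i : ι) : Acts w f β u
    ((pderiv i : Derivation ℂ (MvPolynomial ι ℂ) (MvPolynomial ι ℂ)) :
      MvPolynomial ι ℂ →ₗ[ℂ] MvPolynomial ι ℂ) (w.D' i) := by
  intro h m hh
  refine ⟨fun x => f * pderiv i (h x) + C (x - m) * h x * pderiv i f, m + 1, ?_, ?_, ?_⟩
  · refine ((PF.const _).mul (hh.pderiv i)).add (((?_ : PF _).mul hh).mul (PF.const _))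
    exact (PF.id.sub (PF.const (C (m : ℂ)))).congr fun c => by rw [C_sub]
  · filter_upwards [eventually_ge_atTop (m + 1)] with k hk
    exact pderiv_fam f h i m k hk
  · have h1 := LinearMap.congr_fun (w.D_pX i (h β)) (u m)
    rw [Module.End.mul_apply, LinearMap.add_apply, Module.End.mul_apply, M.der] at h1
    rw [h1, WBAux.pX_add, mul_assoc (C _), WBAux.pX_mul w (C _), WBAux.pX_C,
      WBAux.pX_mul w f, WBAux.pX_comm w f, M.mul, WBAux.pX_mul w (h β), map_smul, add_comm]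

/-- every differential operator acts on the model -/
theorem exists_acts (M : Model w f β u) (Q : Module.End ℂ (MvPolynomial ι ℂ)) (hQ : Q ∈ Weyl ι) :
    ∃ T : Module.End ℂ V, Acts w f β u Q T := by
  unfold Weyl at hQ
  induction hQ using Algebra.adjoin_induction with
  | mem x hx =>
    rcases hx with ⟨i, rfl⟩ | ⟨i, rfl⟩
    · exact ⟨_, acts_X i⟩
    · exact ⟨_, acts_D M i⟩
  | algebraMap c => exact ⟨_, acts_smul c⟩
  | add x y _ _ hx hy =>
    obtain ⟨T, hT⟩ := hx
    obtain ⟨T', hT'⟩ := hy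
    exact ⟨_, acts_add M hT hT'⟩
  | mul x y _ _ hx hy =>
    obtain ⟨T, hT⟩ := hx
    obtain ⟨T', hT'⟩ := hy
    exact ⟨_, acts_mul hT hT'⟩

end model

end WPF
end Pool.Agent.Mono.TS
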